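import Mathlib

set_option autoImplicit false

/-!
# Definitions and target statements for MP_06aaae_nt

All the intermediate statements of the blueprint are recorded here as propositions.
-/

namespace Pool.Agent.PnMn

open Finset

open scoped Classical

/-- The dyadic block `[2^j, 2^(j+1))`. -/
def blk (j : ℕ) : Finset ℕ := Finset.Ico (2 ^ j) (2 ^ (j + 1))

/-- The number of prime factors `≤ A` of `n`, counted with multiplicity. -/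
def omA (A n : ℕ) : ℕ := (n.primeFactorsList.filter (fun p => p ≤ A)).length

/-- The weight `2^(-Ω_{≤ 2^g}(n))`. -/
noncomputable def wt (g n : ℕ) : ℝ := (1 / 2 : ℝ) ^ (omA (2 ^ g) n)

/-- `⌈j^(19/20)⌉`. -/
noncomputable def hh (j : ℕ) : ℕ := ⌈(j : ℝ) ^ (19 / 20 : ℝ)⌉₊

/-- `n / φ(n)`. -/
noncomputable def tq (n : ℕ) : ℝ := (n : ℝ) / (Nat.totient n : ℝ)

/-- The least prime `≡ 1 mod n`. -/
noncomputable def pn (n : ℕ) : ℕ := sInf {p : ℕ | p.Prime ∧ p ≡ 1 [MOD n]}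

/-- The least positive `m` with `n ∣ φ(m)`. -/
noncomputable def mn (n : ℕ) : ℕ := sInf {m : ℕ | 0 < m ∧ n ∣ Nat.totient m}

/-- The weighted block sum of `1 / m_a`. -/
noncomputable def W (g j : ℕ) : ℝ := ∑ a ∈ blk j, wt g a / (mn a : ℝ)

/-- (T1) General Selberg upper bound sieve. -/
def GeneralSieve : Prop :=
  ∃ s : ℕ, 0 < s ∧ ∀ (z : ℕ) (P : Finset ℕ) (B : (p : ℕ) → Finset (ZMod p)) (M Y : ℕ),
    (∀ p ∈ P, p.Prime ∧ 3 ≤ p ∧ p ≤ z) → (∀ p ∈ P, 1 ≤ (B p).card ∧ (B p).card ≤ 2) →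
    1 ≤ Y → z ^ s ≤ Y →
    (((Finset.Ioc M (M + Y)).filter (fun b : ℕ => ∀ p ∈ P, ((b : ℕ) : ZMod p) ∉ B p)).card : ℝ)
      ≤ 3 * Y * ∏ p ∈ P, (1 - ((B p).card : ℝ) / p)

/-- (M1) Mertens type upper bound. -/
def SumInvPrimes : Prop :=
  ∃ C : ℝ, ∀ x : ℕ, 2 ≤ x →
    ∑ p ∈ (Finset.Icc 1 x).filter Nat.Prime, (1 : ℝ) / p ≤ Real.log (Real.log x) + C

/-- (M2) Average of powers of `n / φ(n)`. -/
def AvgTotient : Prop :=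
  ∀ e : ℕ, ∃ C : ℝ, 0 < C ∧ ∀ N : ℕ, ∑ j ∈ Finset.Icc 1 N, (tq j) ^ e ≤ C * N

/-- (L1) Weighted sieve for one prime condition. -/
def SieveOne : Prop :=
  ∃ C : ℝ, 0 < C ∧ ∀ g l H : ℕ, 1 ≤ l → 1 ≤ H →
    ∑ b ∈ (blk H).filter (fun b => (l * b + 1).Prime), wt g b
      ≤ C * tq l * 2 ^ H / (H * Real.sqrt (1 + (min H g : ℕ)))

/-- (L2) Sieve for two prime conditions. -/
def SieveTwo : Prop :=
  ∃ C : ℝ, 0 < C ∧ ∀ l k H : ℕ, 1 ≤ l → l < k → 1 ≤ H →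
    (((blk H).filter (fun b => (l * b + 1).Prime ∧ (k * b + 1).Prime)).card : ℝ)
      ≤ C * (tq l * tq k * tq (k - l)) ^ 2 * 2 ^ H / (H : ℝ) ^ 2

/-- (L4) Smooth numbers. -/
def SmoothLe : Prop :=
  ∃ J₀ : ℕ, ∀ J ≥ J₀,
    (((blk J).filter (fun n => ∀ p : ℕ, p.Prime → p ∣ n → p < 2 ^ (hh J))).card : ℝ)
      ≤ 2 ^ J / (J : ℝ) ^ 3

/-- The constant `r = 2^(1/7) (7/8)^(4/5) < 1`. -/
noncomputable def rr : ℝ := (2 : ℝ) ^ (1 / 7 : ℝ) * (7 / 8 : ℝ) ^ (4 / 5 : ℝ)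

/-- (L3) Atypical integers among those with `k n + 1` prime. -/
def Atypical : Prop :=
  ∃ C : ℝ, 0 < C ∧ ∃ J₀ : ℕ, ∀ J ≥ J₀, ∀ K i : ℕ, 1 ≤ K →
    (2 : ℝ) ^ i ≤ 2 * (J : ℝ) ^ (19 / 20 : ℝ) →
    ∑ k ∈ Finset.Icc 1 K,
      (((blk J).filter (fun n => (k * n + 1).Prime ∧
        (4 / 5 : ℝ) * i < (omA (2 ^ (2 ^ i)) n : ℝ))).card : ℝ)
      ≤ C * rr ^ i * K * 2 ^ J / J

/-- (E) Bound for the block sums `W`. -/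
def WLe : Prop :=
  ∃ C : ℝ, 0 < C ∧ ∀ g j : ℕ, 1 ≤ j → hh j ≤ g →
    W g j ≤ C * (1 + Real.log j) / (j : ℝ) ^ (57 / 40 : ℝ)

/-- (F1) Bounds for `L(s,χ)` and `L'(s,χ)` for real `1 < s ≤ 2`, and truncations. -/
def CharBounds : Prop :=
  ∃ C : ℝ, 0 < C ∧ ∀ (k : ℕ) [NeZero k], 3 ≤ k → ∀ χ : DirichletCharacter ℂ k, χ ≠ 1 →
    ∀ s : ℝ, 1 < s → s ≤ 2 →
      ‖χ.LFunction (s : ℂ)‖ ≤ C * Real.log k ∧
      ‖deriv χ.LFunction (s : ℂ)‖ ≤ C * (Real.log k) ^ 2 ∧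
      ∀ N : ℕ, 3 ≤ N →
        ‖χ.LFunction (s : ℂ) - ∑ n ∈ Finset.Icc 1 N, χ n * (((n : ℝ) ^ (-s) : ℝ) : ℂ)‖
          ≤ C * k / N ∧
        ‖deriv χ.LFunction (s : ℂ)
            + ∑ n ∈ Finset.Icc 1 N, χ n * ((Real.log n * (n : ℝ) ^ (-s) : ℝ) : ℂ)‖
          ≤ C * k * Real.log N / N

/-- (F2) For most moduli all `L(1+δ,χ)`, `χ ≠ 1`, are not too small. -/
def GoodModuli : Prop :=
  ∃ K₀ : ℕ, ∀ K ≥ K₀, ∀ δ : ℝ, 0 < δ → δ ≤ 1 / K → ∃ S : Finset ℕ,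
    S ⊆ Finset.Ioc (K / 2) K ∧ (K : ℝ) / 4 ≤ S.card ∧
    ∀ k ∈ S, ∀ [NeZero k], ∀ χ : DirichletCharacter ℂ k, χ ≠ 1 →
      1 / (Real.log K) ^ 8 ≤ ‖χ.LFunction ((1 + δ : ℝ) : ℂ)‖

/-- (F4) Sum of the logarithmic derivatives of the nonprincipal `L`-functions. -/
def LogDerivSum : Prop :=
  ∃ k₀ : ℕ, ∀ (k : ℕ) [NeZero k], k₀ ≤ k → ∀ δ : ℝ, 0 < δ → δ ≤ 1 / k →
    (∀ χ : DirichletCharacter ℂ k, χ ≠ 1 →
      1 / (Real.log k) ^ 9 ≤ ‖χ.LFunction ((1 + δ : ℝ) : ℂ)‖) →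
    ‖∑ χ ∈ (Finset.univ : Finset (DirichletCharacter ℂ k)).erase 1,
        deriv χ.LFunction ((1 + δ : ℝ) : ℂ) / χ.LFunction ((1 + δ : ℝ) : ℂ)‖
      ≤ (Nat.totient k : ℝ) / 8

/-- (F0) Uniform Mertens theorem in the progressions `1 mod k`, for most `k` in `(K/2, K]`. -/
def UniformMertens : Prop :=
  ∃ K₀ : ℕ, ∀ K ≥ K₀, ∀ δ : ℝ, 0 < δ → δ ≤ 1 / K → ∃ S : Finset ℕ,
    S ⊆ Finset.Ioc (K / 2) K ∧ (K : ℝ) / 4 ≤ S.card ∧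
    ∀ k ∈ S, 1 / (2 * δ * k) ≤
      ∑' n : ℕ, ArithmeticFunction.vonMangoldt.residueClass (1 : ZMod k) n / (n : ℝ) ^ (1 + δ)

/-- (F) Many pairs `(k, n)` with `k n + 1` prime. -/
def ManyPrimes : Prop :=
  ∃ c θ Θ : ℝ, 0 < c ∧ 0 < θ ∧ 0 < Θ ∧ ∀ κ : ℝ, 0 < κ → κ ≤ 1 → ∃ K₀ : ℕ, ∀ K ≥ K₀,
    ∃ J : ℕ, θ * K / κ ≤ J ∧ (J : ℝ) ≤ Θ * K / κ ∧
      c * K * 2 ^ J / J ≤
        ((((Finset.Ioc (K / 2) K) ×ˢ (blk J)).filter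
          (fun kn : ℕ × ℕ => (kn.1 * kn.2 + 1).Prime)).card : ℝ)

/-- The final density statement: a positive proportion of `n` in infinitely many dyadic
blocks satisfy `p_n = m_n`. -/
def FinalDensity : Prop :=
  ∃ c : ℝ, 0 < c ∧ ∀ J₀ : ℕ, ∃ J ≥ J₀,
    c * 2 ^ J ≤ (((blk J).filter (fun n => pn n = mn n)).card : ℝ)

end Pool.Agent.PnMn
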