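import Mathlib
import Pool.Agent.PnMn.Defs

set_option autoImplicit false

/-!
# Upper bound in the second theorem of Mertens (task T-B of MP_06aaae_nt)
-/

namespace Pool.Agent.PnMn

open Finset

/-- Upper bound in the first theorem of Mertens. -/
lemma sum_log_div_le (n : ℕ) (hn : 1 ≤ n) :
    ∑ p ∈ (Finset.Icc 1 n).filter Nat.Prime, Real.log p / p ≤ Real.log n + Real.log 4 := by
  have h1 : ∑ m ∈ Finset.Ioc 0 n, Real.log m
      = ∑ d ∈ Finset.Ioc 0 n, ArithmeticFunction.vonMangoldt d * ((n / d : ℕ) : ℝ) := by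
    have := ArithmeticFunction.sum_Ioc_mul_zeta_eq_sum (ArithmeticFunction.vonMangoldt) n
    rw [← this]
    apply Finset.sum_congr rfl
    intro m _
    rw [ArithmeticFunction.vonMangoldt_mul_zeta, ArithmeticFunction.log_apply]
  have h2 : ∑ m ∈ Finset.Ioc 0 n, Real.log m ≤ n * Real.log n := by
    calc ∑ m ∈ Finset.Ioc 0 n, Real.log m ≤ ∑ m ∈ Finset.Ioc 0 n, Real.log n := by
          apply Finset.sum_le_sum
          intro m hm
          rw [Finset.mem_Ioc] at hm
          apply Real.log_le_log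
          · exact_mod_cast hm.1
          · exact_mod_cast hm.2
      _ = n * Real.log n := by simp
  have hsub : (Finset.Icc 1 n).filter Nat.Prime ⊆ Finset.Ioc 0 n := by
    intro p hp
    rw [Finset.mem_filter, Finset.mem_Icc] at hp
    rw [Finset.mem_Ioc]
    exact ⟨hp.1.1, hp.1.2⟩
  have h3 : ∑ p ∈ (Finset.Icc 1 n).filter Nat.Prime, Real.log p * ((n : ℝ) / p - 1)
      ≤ ∑ d ∈ Finset.Ioc 0 n, ArithmeticFunction.vonMangoldt d * ((n / d : ℕ) : ℝ) := by
    calc ∑ p ∈ (Finset.Icc 1 n).filter Nat.Prime, Real.log p * ((n : ℝ) / p - 1)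
        ≤ ∑ p ∈ (Finset.Icc 1 n).filter Nat.Prime,
            ArithmeticFunction.vonMangoldt p * ((n / p : ℕ) : ℝ) := by
          apply Finset.sum_le_sum
          intro p hp
          have hpp := (Finset.mem_filter.mp hp).2
          rw [ArithmeticFunction.vonMangoldt_apply_prime hpp]
          apply mul_le_mul_of_nonneg_left
          · have := Nat.lt_floor_add_one ((n : ℝ) / p)
            rw [Nat.floor_div_eq_div] at this
            linarith
          · exact Real.log_nonneg (by exact_mod_cast hpp.one_le)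
      _ ≤ _ := by
          apply Finset.sum_le_sum_of_subset_of_nonneg hsub
          intro d _ _
          exact mul_nonneg ArithmeticFunction.vonMangoldt_nonneg (Nat.cast_nonneg _)
  have h4 : ∑ p ∈ (Finset.Icc 1 n).filter Nat.Prime, Real.log p ≤ Real.log 4 * n := by
    have := Chebyshev.theta_le_log4_mul_x (x := (n : ℝ)) (Nat.cast_nonneg n)
    rw [Chebyshev.theta_eq_sum_Icc, Nat.floor_natCast] at this
    refine le_trans (le_of_eq ?_) this
    apply Finset.sum_congr _ (fun _ _ => rfl)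
    ext p
    simp only [Finset.mem_filter, Finset.mem_Icc]
    constructor
    · rintro ⟨⟨_, h⟩, hp⟩; exact ⟨⟨by omega, h⟩, hp⟩
    · rintro ⟨⟨_, h⟩, hp⟩; exact ⟨⟨hp.one_le, h⟩, hp⟩
  have h5 : (n : ℝ) * ∑ p ∈ (Finset.Icc 1 n).filter Nat.Prime, Real.log p / p
      = ∑ p ∈ (Finset.Icc 1 n).filter Nat.Prime, Real.log p * ((n : ℝ) / p - 1)
        + ∑ p ∈ (Finset.Icc 1 n).filter Nat.Prime, Real.log p := by
    rw [Finset.mul_sum, ← Finset.sum_add_distrib]
    apply Finset.sum_congr rfl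
    intro p _
    ring
  have hn' : (0 : ℝ) < n := by exact_mod_cast hn
  have h6 : (n : ℝ) * ∑ p ∈ (Finset.Icc 1 n).filter Nat.Prime, Real.log p / p
      ≤ n * (Real.log n + Real.log 4) := by
    rw [h5]
    linarith [h1, h2, h3, h4]
  exact le_of_mul_le_mul_left h6 hn'

/-- `∑ n^(-s) ≤ 1 + 1/(s-1)`, for finite sums. -/
lemma sum_rpow_le {s : ℝ} (hs : 1 < s) (N : ℕ) :
    ∑ n ∈ Finset.range N, ((n : ℝ) + 1) ^ (-s) ≤ s / (s - 1) := by
  have hs1 : 0 < s - 1 := by linarith
  rcases Nat.eq_zero_or_pos N with h | h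
  · subst h; simp; positivity
  obtain ⟨M, rfl⟩ : ∃ M, N = M + 1 := ⟨N - 1, by omega⟩
  rw [Finset.sum_range_succ']
  have hanti : AntitoneOn (fun x : ℝ => x ^ (-s)) (Set.Icc (1 : ℝ) ((1 : ℝ) + (M : ℕ))) := by
    intro a ha b hb hab
    have ha0 : (0 : ℝ) < a := by have := ha.1; linarith
    exact Real.rpow_le_rpow_of_nonpos ha0 hab (by linarith)
  have h1 := AntitoneOn.sum_le_integral (f := fun x : ℝ => x ^ (-s)) (x₀ := 1) (a := M) hanti
  have h2 : ∫ x in (1 : ℝ)..(1 + (M : ℕ) : ℝ), x ^ (-s) ≤ 1 / (s - 1) := by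
    rw [integral_rpow]
    · have : (-s + 1) = -(s - 1) := by ring
      rw [this, Real.one_rpow]
      have h0 : (0 : ℝ) ≤ (1 + (M : ℕ) : ℝ) ^ (-(s - 1)) := by positivity
      rw [div_neg, ← neg_div, neg_sub]
      apply div_le_div_of_nonneg_right _ hs1.le
      linarith
    · right
      refine ⟨by linarith, ?_⟩
      rw [Set.uIcc_of_le (by linarith [Nat.cast_nonneg (α := ℝ) M])]
      intro h
      have := h.1
      linarith
  have h3 : ∑ k ∈ Finset.range M, (((k + 1 : ℕ) : ℝ) + 1) ^ (-s) ≤ 1 / (s - 1) := by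
    refine le_trans (le_of_eq ?_) (h1.trans h2)
    apply Finset.sum_congr rfl
    intro i _
    congr 1
    push_cast
    ring
  have h4 : s / (s - 1) = 1 / (s - 1) + 1 := by field_simp; ring
  rw [h4]
  simp only [Nat.cast_zero, zero_add, Real.one_rpow]
  linarith

/-- The multiplicative function `n ↦ n^(-s)`. -/
noncomputable def rpowHom (s : ℝ) : ℕ →* ℝ where
  toFun n := (n : ℝ) ^ (-s)
  map_one' := by simp
  map_mul' a b := by
    push_cast
    exact Real.mul_rpow (Nat.cast_nonneg a) (Nat.cast_nonneg b)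

lemma sum_prime_rpow_le {s : ℝ} (hs : 1 < s) (x : ℕ) :
    ∑ p ∈ (Finset.Icc 1 x).filter Nat.Prime, (p : ℝ) ^ (-s) ≤ Real.log (s / (s - 1)) := by
  have hs1 : 0 < s - 1 := by linarith
  have hsum : Summable (fun n : ℕ => (n : ℝ) ^ (-s)) :=
    Real.summable_nat_rpow.mpr (by linarith)
  have hsum' : Summable (rpowHom s) := hsum
  have hE := EulerProduct.prod_primesBelow_geometric_eq_tsum_smoothNumbers hsum' (x + 1)
  have hle : ∑' m : (x + 1).smoothNumbers, (rpowHom s) m ≤ s / (s - 1) := by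
    have h1 : ∑' m : (x + 1).smoothNumbers, (rpowHom s) m ≤ ∑' n : ℕ, (n : ℝ) ^ (-s) := by
      exact Summable.tsum_subtype_le (fun n : ℕ => (n : ℝ) ^ (-s)) _
        (fun n => by positivity) hsum
    refine h1.trans ?_
    have h0 : (((0 : ℕ) : ℝ)) ^ (-s) = 0 := by
      rw [Nat.cast_zero, Real.zero_rpow (by linarith)]
    rw [hsum.tsum_eq_zero_add, h0, zero_add]
    apply Real.tsum_le_of_sum_range_le
    · intro n; positivity
    · intro n
      refine le_trans (le_of_eq ?_) (sum_rpow_le hs n)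
      apply Finset.sum_congr rfl
      intro i _
      push_cast
      rfl
  have hset : (x + 1).primesBelow = (Finset.Icc 1 x).filter Nat.Prime := by
    ext p
    simp only [Nat.mem_primesBelow, Finset.mem_filter, Finset.mem_Icc]
    constructor
    · rintro ⟨h1, h2⟩; exact ⟨⟨h2.one_le, by omega⟩, h2⟩
    · rintro ⟨⟨_, h1⟩, h2⟩; exact ⟨by omega, h2⟩
  have hlt : ∀ p ∈ (x + 1).primesBelow, (p : ℝ) ^ (-s) < 1 := by
    intro p hp
    have hp2 := (Nat.mem_primesBelow.mp hp).2.two_le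
    apply Real.rpow_lt_one_of_one_lt_of_neg
    · exact_mod_cast hp2
    · linarith
  calc ∑ p ∈ (Finset.Icc 1 x).filter Nat.Prime, (p : ℝ) ^ (-s)
      = ∑ p ∈ (x + 1).primesBelow, (p : ℝ) ^ (-s) := by rw [hset]
    _ ≤ ∑ p ∈ (x + 1).primesBelow, Real.log ((1 - (p : ℝ) ^ (-s))⁻¹) := by
        apply Finset.sum_le_sum
        intro p hp
        have h1 := hlt p hp
        rw [Real.log_inv]
        have h2 := Real.log_le_sub_one_of_pos (x := 1 - (p : ℝ) ^ (-s)) (by linarith)
        linarith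
    _ = Real.log (∏ p ∈ (x + 1).primesBelow, (1 - (p : ℝ) ^ (-s))⁻¹) := by
        rw [Real.log_prod]
        intro p hp
        have h1 := hlt p hp
        have : 0 < 1 - (p : ℝ) ^ (-s) := by linarith
        positivity
    _ ≤ Real.log (s / (s - 1)) := by
        apply Real.log_le_log
        · apply Finset.prod_pos
          intro p hp
          have h1 := hlt p hp
          have : 0 < 1 - (p : ℝ) ^ (-s) := by linarith
          positivity
        · rw [← hE] at hle
          exact hle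

/-- `∏_{p ≤ x} (1 - 1/p) ≤ 1/log(x+1)`. -/
lemma prod_one_sub_inv_le (x : ℕ) (hx : 1 ≤ x) :
    ∏ p ∈ (Finset.Icc 1 x).filter Nat.Prime, (1 - (1 : ℝ) / p) ≤ 1 / Real.log ((x : ℝ) + 1) := by
  have hset : (x + 1).primesBelow = (Finset.Icc 1 x).filter Nat.Prime := by
    ext p
    simp only [Nat.mem_primesBelow, Finset.mem_filter, Finset.mem_Icc]
    constructor
    · rintro ⟨h1, h2⟩; exact ⟨⟨h2.one_le, by omega⟩, h2⟩
    · rintro ⟨⟨_, h1⟩, h2⟩; exact ⟨by omega, h2⟩
  have hval : ∀ n : ℕ, (rpowHom 1) n = 1 / (n : ℝ) := by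
    intro n
    change (n : ℝ) ^ (-1 : ℝ) = _
    rw [Real.rpow_neg_one, one_div]
  have hlt : ∀ {p : ℕ}, p.Prime → ‖(rpowHom 1) p‖ < 1 := by
    intro p hp
    rw [hval, Real.norm_of_nonneg (by positivity)]
    rw [div_lt_one (by exact_mod_cast hp.pos)]
    exact_mod_cast hp.one_lt
  obtain ⟨hs, hS⟩ :=
    EulerProduct.summable_and_hasSum_smoothNumbers_prod_primesBelow_geometric hlt (x + 1)
  have h1 : Real.log ((x : ℝ) + 1) ≤ ∏ p ∈ (x + 1).primesBelow, (1 - (rpowHom 1) p)⁻¹ := by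
    have hh : Real.log ((x : ℝ) + 1) ≤ ∑ n ∈ Finset.Icc 1 x, 1 / (n : ℝ) := by
      have := log_add_one_le_harmonic x
      rw [harmonic_eq_sum_Icc] at this
      push_cast at this
      simpa [one_div] using this
    refine hh.trans ?_
    have hmem : ∀ n ∈ Finset.Icc 1 x, n ∈ (x + 1).smoothNumbers := by
      intro n hn
      rw [Finset.mem_Icc] at hn
      exact Nat.mem_smoothNumbers_of_lt (by omega) (by omega)
    have h2 : ∑ m ∈ (Finset.Icc 1 x).subtype (fun n => n ∈ (x + 1).smoothNumbers),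
        (rpowHom 1) (m : ℕ) ≤ ∏ p ∈ (x + 1).primesBelow, (1 - (rpowHom 1) p)⁻¹ := by
      apply sum_le_hasSum _ _ hS
      intro m _
      rw [hval]
      positivity
    refine le_trans (le_of_eq ?_) h2
    rw [Finset.sum_subtype_of_mem (fun n : ℕ => (rpowHom 1) n) hmem]
    exact Finset.sum_congr rfl fun n _ => (hval n).symm
  rw [hset] at h1
  have h3 : ∏ p ∈ (Finset.Icc 1 x).filter Nat.Prime, (1 - (rpowHom 1) p)⁻¹
      = (∏ p ∈ (Finset.Icc 1 x).filter Nat.Prime, (1 - (1 : ℝ) / p))⁻¹ := by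
    rw [← Finset.prod_inv_distrib]
    exact Finset.prod_congr rfl fun p _ => by rw [hval]
  rw [h3] at h1
  have hxr : (1 : ℝ) ≤ x := by exact_mod_cast hx
  have hlog : 0 < Real.log ((x : ℝ) + 1) := Real.log_pos (by linarith)
  have hP : 0 < ∏ p ∈ (Finset.Icc 1 x).filter Nat.Prime, (1 - (1 : ℝ) / p) := by
    apply Finset.prod_pos
    intro p hp
    have hp2 : (2 : ℝ) ≤ p := by exact_mod_cast (Finset.mem_filter.mp hp).2.two_le
    have : (1 : ℝ) / p ≤ 1 / 2 := one_div_le_one_div_of_le (by norm_num) hp2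
    linarith
  rw [le_div_iff₀ hlog]
  calc (∏ p ∈ (Finset.Icc 1 x).filter Nat.Prime, (1 - (1 : ℝ) / p)) * Real.log ((x : ℝ) + 1)
      ≤ (∏ p ∈ (Finset.Icc 1 x).filter Nat.Prime, (1 - (1 : ℝ) / p)) *
        (∏ p ∈ (Finset.Icc 1 x).filter Nat.Prime, (1 - (1 : ℝ) / p))⁻¹ := by
        gcongr
    _ = 1 := mul_inv_cancel₀ hP.ne'

/-- Upper bound in the second theorem of Mertens. -/
theorem sumInvPrimes : SumInvPrimes := by
  refine ⟨Real.log 3 + 3, fun x hx => ?_⟩
  have hx' : (2 : ℝ) ≤ x := by exact_mod_cast hx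
  have hlog2 : (0 : ℝ) < Real.log 2 := Real.log_pos (by norm_num)
  have hlogx : Real.log 2 ≤ Real.log x := Real.log_le_log (by norm_num) hx'
  have hL : 0 < Real.log x := by linarith
  set ε : ℝ := 1 / Real.log x with hε
  have hεpos : 0 < ε := by positivity
  have hs : 1 < 1 + ε := by linarith
  have h1 := sum_prime_rpow_le hs x
  have h2 := sum_log_div_le x (by omega)
  have hterm : ∀ p ∈ (Finset.Icc 1 x).filter Nat.Prime,
      (1 : ℝ) / p ≤ (p : ℝ) ^ (-(1 + ε)) + ε * (Real.log p / p) := by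
    intro p hp
    have hpp := (Finset.mem_filter.mp hp).2
    have hp0 : (0 : ℝ) < p := by exact_mod_cast hpp.pos
    have h3 : (p : ℝ) ^ (-(1 + ε)) = (1 / p) * Real.exp (-(ε * Real.log p)) := by
      rw [neg_add, Real.rpow_add hp0, Real.rpow_neg_one, one_div, Real.rpow_def_of_pos hp0]
      congr 2
      ring
    have h4 := Real.add_one_le_exp (-(ε * Real.log p))
    rw [h3]
    calc (1 : ℝ) / p = (1 / p) * (-(ε * Real.log p) + 1) + ε * (Real.log p / p) := by
          field_simp; ring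
      _ ≤ (1 / p) * Real.exp (-(ε * Real.log p)) + ε * (Real.log p / p) := by
          gcongr
  have h5 : ∑ p ∈ (Finset.Icc 1 x).filter Nat.Prime, (1 : ℝ) / p
      ≤ Real.log ((1 + ε) / ((1 + ε) - 1)) + ε * (Real.log x + Real.log 4) := by
    calc ∑ p ∈ (Finset.Icc 1 x).filter Nat.Prime, (1 : ℝ) / p
        ≤ ∑ p ∈ (Finset.Icc 1 x).filter Nat.Prime,
            ((p : ℝ) ^ (-(1 + ε)) + ε * (Real.log p / p)) := Finset.sum_le_sum hterm
      _ = ∑ p ∈ (Finset.Icc 1 x).filter Nat.Prime, (p : ℝ) ^ (-(1 + ε))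
          + ε * ∑ p ∈ (Finset.Icc 1 x).filter Nat.Prime, Real.log p / p := by
          rw [Finset.sum_add_distrib, Finset.mul_sum]
      _ ≤ _ := by
          gcongr
  have h6 : (1 + ε) / ((1 + ε) - 1) ≤ 3 * Real.log x := by
    have : (1 + ε) / ((1 + ε) - 1) = Real.log x + 1 := by
      rw [hε]; field_simp; ring
    rw [this]
    have : (0.6931471803 : ℝ) < Real.log 2 := Real.log_two_gt_d9
    linarith
  have h7 : Real.log ((1 + ε) / ((1 + ε) - 1)) ≤ Real.log 3 + Real.log (Real.log x) := by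
    rw [← Real.log_mul (by norm_num) hL.ne']
    apply Real.log_le_log _ h6
    rw [add_sub_cancel_left]
    positivity
  have h8 : ε * (Real.log x + Real.log 4) ≤ 3 := by
    have h4 : Real.log 4 = 2 * Real.log 2 := by
      rw [show (4 : ℝ) = 2 ^ 2 by norm_num, Real.log_pow]; norm_num
    rw [hε, h4, one_div_mul_eq_div, div_le_iff₀ hL]
    linarith
  linarith

end Pool.Agent.PnMn
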