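import Mathlib
import Pool.Agent.PnMn.Defs

set_option autoImplicit false

/-!
# The Selberg upper bound sieve with general residue classes

Main result: `Pool.Agent.PnMn.generalSieve : GeneralSieve`.
-/

namespace Pool.Agent.PnMn.Sieve

open Finset

open scoped ArithmeticFunction.Moebius

open scoped ArithmeticFunction

/-- The truncated Selberg function `F l = μ(l) g(l) / G` for `l ≤ Q`. -/
noncomputable def Ff (s : BoundingSieve) (Q : ℕ) (G : ℝ) (l : ℕ) : ℝ :=
  if l ≤ Q then (μ l : ℝ) * s.selbergTerms l / G else 0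

/-- The sum `G`. -/
noncomputable def GG (s : BoundingSieve) (Q : ℕ) : ℝ :=
  ∑ l ∈ s.prodPrimes.divisors, if l ≤ Q then s.selbergTerms l else 0

/-- The Selberg weights. -/
noncomputable def ww (s : BoundingSieve) (Q : ℕ) (d : ℕ) : ℝ :=
  (s.nu d)⁻¹ * ∑ l ∈ s.prodPrimes.divisors, if d ∣ l then (μ (l / d) : ℝ) * Ff s Q (GG s Q) l else 0

section general

variable (s : BoundingSieve)

lemma GG_pos {Q : ℕ} (hQ : 1 ≤ Q) : 0 < GG s Q := by
  unfold GG
  have h1 : (1 : ℕ) ∈ s.prodPrimes.divisors := by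
    simp [Nat.mem_divisors, BoundingSieve.prodPrimes_ne_zero]
  refine Finset.sum_pos' ?_ ⟨1, h1, ?_⟩
  · intro l hl
    split_ifs
    · exact (BoundingSieve.selbergTerms_pos (Nat.dvd_of_mem_divisors hl)).le
    · exact le_rfl
  · rw [if_pos hQ]
    exact BoundingSieve.selbergTerms_pos (one_dvd _)

lemma inner_moebius {l m : ℕ} (hm : m ∣ s.prodPrimes) (hlm : l ∣ m) :
    ∑ d ∈ s.prodPrimes.divisors, (if l ∣ d ∧ d ∣ m then (μ (m / d) : ℝ) else 0)
      = if m = l then 1 else 0 := by
  have hP0 : s.prodPrimes ≠ 0 := BoundingSieve.prodPrimes_ne_zero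
  have hm0 : m ≠ 0 := ne_zero_of_dvd_ne_zero hP0 hm
  have hl0 : l ≠ 0 := ne_zero_of_dvd_ne_zero hm0 hlm
  obtain ⟨k, rfl⟩ := hlm
  have hk0 : k ≠ 0 := right_ne_zero_of_mul hm0
  rw [← Finset.sum_filter]
  have hset : s.prodPrimes.divisors.filter (fun d => l ∣ d ∧ d ∣ l * k)
      = (k.divisors).image (fun e => l * e) := by
    ext d
    simp only [mem_filter, Nat.mem_divisors, mem_image]
    constructor
    · rintro ⟨-, ⟨e, rfl⟩, h2⟩
      exact ⟨e, ⟨Nat.dvd_of_mul_dvd_mul_left (Nat.pos_of_ne_zero hl0) h2, hk0⟩, rfl⟩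
    · rintro ⟨e, ⟨he, -⟩, rfl⟩
      exact ⟨⟨(mul_dvd_mul_left l he).trans hm, hP0⟩, dvd_mul_right _ _, mul_dvd_mul_left l he⟩
  rw [hset, Finset.sum_image]
  · have : ∀ e ∈ k.divisors, ((μ (l * k / (l * e)) : ℤ) : ℝ) = ((μ (k / e) : ℤ) : ℝ) := by
      intro e he
      rw [Nat.mul_div_mul_left _ _ (Nat.pos_of_ne_zero hl0)]
    rw [Finset.sum_congr rfl this, Nat.sum_div_divisors k (fun x => ((μ x : ℤ) : ℝ))]
    have h2 : ∑ x ∈ k.divisors, ((μ x : ℤ) : ℝ) = (((∑ x ∈ k.divisors, μ x : ℤ)) : ℝ) := by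
      push_cast; rfl
    rw [h2]
    have h3 : (∑ x ∈ k.divisors, μ x : ℤ) = if k = 1 then 1 else 0 := by
      rw [← ArithmeticFunction.coe_mul_zeta_apply, ArithmeticFunction.moebius_mul_coe_zeta,
        ArithmeticFunction.one_apply]
    rw [h3]
    by_cases hk1 : k = 1
    · simp [hk1]
    · have : l * k ≠ l := by
        intro h
        apply hk1
        exact Nat.eq_of_mul_eq_mul_left (Nat.pos_of_ne_zero hl0) (by simpa using h)
      simp [hk1, this]
  · intro a _ b _ hab
    exact Nat.eq_of_mul_eq_mul_left (Nat.pos_of_ne_zero hl0) hab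

lemma sum_nu_ww {Q l : ℕ} (hl : l ∣ s.prodPrimes) :
    (∑ d ∈ s.prodPrimes.divisors, if l ∣ d then s.nu d * ww s Q d else 0) = Ff s Q (GG s Q) l := by
  have hP0 : s.prodPrimes ≠ 0 := BoundingSieve.prodPrimes_ne_zero
  set F := Ff s Q (GG s Q) with hF
  have h1 : ∀ d ∈ s.prodPrimes.divisors, (if l ∣ d then s.nu d * ww s Q d else 0)
      = ∑ m ∈ s.prodPrimes.divisors, (if l ∣ d ∧ d ∣ m then (μ (m / d) : ℝ) * F m else 0) := by
    intro d hd
    have hnu : s.nu d ≠ 0 := BoundingSieve.nu_ne_zero (Nat.dvd_of_mem_divisors hd)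
    by_cases hld : l ∣ d
    · rw [if_pos hld, ww, mul_inv_cancel_left₀ hnu]
      simp only [hld, true_and]
      rfl
    · simp [hld]
  rw [Finset.sum_congr rfl h1, Finset.sum_comm]
  have h2 : ∀ m ∈ s.prodPrimes.divisors,
      ∑ d ∈ s.prodPrimes.divisors, (if l ∣ d ∧ d ∣ m then (μ (m / d) : ℝ) * F m else 0)
       = if m = l then F m else 0 := by
    intro m hm
    have hm' := Nat.dvd_of_mem_divisors hm
    by_cases hlm : l ∣ m
    · have := inner_moebius s hm' hlm
      calc _ = (∑ d ∈ s.prodPrimes.divisors, (if l ∣ d ∧ d ∣ m then (μ (m / d) : ℝ) else 0)) * F m := by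
            rw [Finset.sum_mul]
            refine Finset.sum_congr rfl fun d _ => ?_
            split_ifs <;> simp
        _ = _ := by
            rw [this]; split_ifs <;> simp
    · have hne : m ≠ l := by rintro rfl; exact hlm dvd_rfl
      rw [if_neg hne]
      refine Finset.sum_eq_zero fun d _ => ?_
      rw [if_neg]
      rintro ⟨h3, h4⟩
      exact hlm (h3.trans h4)
  rw [Finset.sum_congr rfl h2, Finset.sum_ite_eq' s.prodPrimes.divisors l, if_pos]
  exact Nat.mem_divisors.mpr ⟨hl, hP0⟩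

lemma ww_one {Q : ℕ} (hQ : 1 ≤ Q) : ww s Q 1 = 1 := by
  have hG := GG_pos s hQ
  unfold ww
  rw [s.nu_mult.map_one, inv_one, one_mul]
  have : ∀ l ∈ s.prodPrimes.divisors, (if 1 ∣ l then (μ (l / 1) : ℝ) * Ff s Q (GG s Q) l else 0)
      = (if l ≤ Q then s.selbergTerms l else 0) / GG s Q := by
    intro l hl
    rw [if_pos (one_dvd _), Nat.div_one, Ff]
    split_ifs with h
    · have hsq : Squarefree l := BoundingSieve.squarefree_of_mem_divisors_prodPrimes hl
      have h1 : ((μ l : ℤ) : ℝ) ^ 2 = 1 := by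
        exact_mod_cast ArithmeticFunction.moebius_sq_eq_one_of_squarefree hsq
      rw [mul_div_assoc', ← mul_assoc, ← sq, h1, one_mul]
    · simp
  rw [Finset.sum_congr rfl this, ← Finset.sum_div]
  exact div_self hG.ne'

lemma abs_ww_le {Q d : ℕ} (hQ : 1 ≤ Q) (hd : d ∣ s.prodPrimes) :
    |ww s Q d| ≤ if d ≤ Q then s.selbergTerms d * (s.nu d)⁻¹ else 0 := by
  have hP0 : s.prodPrimes ≠ 0 := BoundingSieve.prodPrimes_ne_zero
  have hG := GG_pos s hQ
  have hnu : 0 < s.nu d := BoundingSieve.nu_pos_of_dvd_prodPrimes hd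
  have hd0 : d ≠ 0 := ne_zero_of_dvd_ne_zero hP0 hd
  have hgd : 0 < s.selbergTerms d := BoundingSieve.selbergTerms_pos hd
  have key : |∑ l ∈ s.prodPrimes.divisors, if d ∣ l then (μ (l / d) : ℝ) * Ff s Q (GG s Q) l else 0|
      ≤ if d ≤ Q then s.selbergTerms d else 0 := by
    refine (Finset.abs_sum_le_sum_abs _ _).trans ?_
    have h1 : ∀ l ∈ s.prodPrimes.divisors,
        |if d ∣ l then (μ (l / d) : ℝ) * Ff s Q (GG s Q) l else 0|
          ≤ if d ∣ l ∧ l ≤ Q then s.selbergTerms l / GG s Q else 0 := by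
      intro l hl
      have hgl : 0 < s.selbergTerms l := BoundingSieve.selbergTerms_pos (Nat.dvd_of_mem_divisors hl)
      by_cases h1 : d ∣ l
      · rw [if_pos h1, Ff]
        by_cases h2 : l ≤ Q
        · rw [if_pos h2, if_pos ⟨h1, h2⟩, abs_mul, abs_div, abs_mul, abs_of_pos hgl, abs_of_pos hG]
          have h3 : |((μ (l / d) : ℤ) : ℝ)| ≤ 1 := by
            exact_mod_cast ArithmeticFunction.abs_moebius_le_one
          have h4 : |((μ l : ℤ) : ℝ)| ≤ 1 := by
            exact_mod_cast ArithmeticFunction.abs_moebius_le_one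
          have h5 : 0 ≤ s.selbergTerms l / GG s Q := by positivity
          calc |((μ (l / d) : ℤ) : ℝ)| * (|((μ l : ℤ) : ℝ)| * s.selbergTerms l / GG s Q)
              = |((μ (l / d) : ℤ) : ℝ)| * |((μ l : ℤ) : ℝ)| * (s.selbergTerms l / GG s Q) := by ring
            _ ≤ 1 * 1 * (s.selbergTerms l / GG s Q) := by gcongr
            _ = _ := by ring
        · rw [if_neg h2, if_neg (fun h => h2 h.2)]; simp
      · rw [if_neg h1, if_neg (fun h => h1 h.1)]; simp
    refine (Finset.sum_le_sum h1).trans ?_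
    rw [← Finset.sum_filter]
    by_cases hdQ : d ≤ Q
    · rw [if_pos hdQ]
      set B' := s.prodPrimes.divisors.filter (fun e => e ≤ Q ∧ Nat.Coprime d e) with hB'
      have hsub : s.prodPrimes.divisors.filter (fun l => d ∣ l ∧ l ≤ Q)
          ⊆ B'.image (fun e => d * e) := by
        intro l hl
        simp only [mem_filter, Nat.mem_divisors] at hl
        obtain ⟨⟨hlP, -⟩, ⟨e, rfl⟩, hlQ⟩ := hl
        have hsq : Squarefree (d * e) := BoundingSieve.squarefree_of_dvd_prodPrimes hlP
        simp only [hB', mem_image, mem_filter, Nat.mem_divisors]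
        exact ⟨e, ⟨⟨(dvd_mul_left e d).trans hlP, hP0⟩,
          (Nat.le_mul_of_pos_left e (Nat.pos_of_ne_zero hd0)).trans hlQ,
          Nat.coprime_of_squarefree_mul hsq⟩, rfl⟩
      have hpos : ∀ e ∈ B', 0 < s.selbergTerms e := by
        intro e he
        simp only [hB', mem_filter, Nat.mem_divisors] at he
        exact BoundingSieve.selbergTerms_pos he.1.1
      calc ∑ l ∈ s.prodPrimes.divisors.filter (fun l => d ∣ l ∧ l ≤ Q),
            s.selbergTerms l / GG s Q
          ≤ ∑ l ∈ B'.image (fun e => d * e), s.selbergTerms l / GG s Q := by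
            refine Finset.sum_le_sum_of_subset_of_nonneg hsub ?_
            intro l hl _
            simp only [mem_image] at hl
            obtain ⟨e, he, rfl⟩ := hl
            have hcop : Nat.Coprime d e := by
              simp only [hB', mem_filter, Nat.mem_divisors] at he
              exact he.2.2
            rw [BoundingSieve.selbergTerms_isMultiplicative.map_mul_of_coprime hcop]
            have := hpos e he
            positivity
        _ = ∑ e ∈ B', s.selbergTerms d * s.selbergTerms e / GG s Q := by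
            rw [Finset.sum_image]
            · refine Finset.sum_congr rfl fun e he => ?_
              have hcop : Nat.Coprime d e := by
                simp only [hB', mem_filter, Nat.mem_divisors] at he
                exact he.2.2
              rw [BoundingSieve.selbergTerms_isMultiplicative.map_mul_of_coprime hcop]
            · intro a _ b _ hab
              exact Nat.eq_of_mul_eq_mul_left (Nat.pos_of_ne_zero hd0) hab
        _ = s.selbergTerms d / GG s Q * ∑ e ∈ B', s.selbergTerms e := by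
            rw [Finset.mul_sum]
            refine Finset.sum_congr rfl fun e _ => ?_
            ring
        _ ≤ s.selbergTerms d / GG s Q * GG s Q := by
            gcongr
            rw [GG, ← Finset.sum_filter]
            refine Finset.sum_le_sum_of_subset_of_nonneg ?_ ?_
            · intro e he
              simp only [hB', mem_filter] at he ⊢
              exact ⟨he.1, he.2.1⟩
            · intro e he _
              simp only [mem_filter, Nat.mem_divisors] at he
              exact (BoundingSieve.selbergTerms_pos he.1.1).le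
        _ = s.selbergTerms d := by field_simp
    · rw [if_neg hdQ]
      apply le_of_eq
      refine Finset.sum_eq_zero fun l hl => ?_
      exfalso
      simp only [mem_filter, Nat.mem_divisors] at hl
      exact hdQ ((Nat.le_of_dvd (Nat.pos_of_ne_zero (ne_zero_of_dvd_ne_zero hP0 hl.1.1)) hl.2.1).trans hl.2.2)
  unfold ww
  rw [abs_mul, abs_inv, abs_of_pos hnu]
  calc _ ≤ (s.nu d)⁻¹ * (if d ≤ Q then s.selbergTerms d else 0) := by gcongr
    _ = _ := by split_ifs <;> ring

/-- The Selberg upper bound. -/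
theorem selberg_bound {Q : ℕ} (hQ : 1 ≤ Q) (r : ℕ → ℝ)
    (hr0 : ∀ d : ℕ, d ∣ s.prodPrimes → 0 ≤ r d)
    (hrem : ∀ d : ℕ, d ∣ s.prodPrimes → |s.rem d| ≤ r d)
    (hlcm : ∀ d₁ d₂, d₁ ∣ s.prodPrimes → d₂ ∣ s.prodPrimes → r (Nat.lcm d₁ d₂) ≤ r d₁ * r d₂) :
    s.siftedSum ≤ s.totalMass / GG s Q +
      (∑ d ∈ s.prodPrimes.divisors, if d ≤ Q then s.selbergTerms d * (s.nu d)⁻¹ * r d else 0) ^ 2 := by
  have hP0 : s.prodPrimes ≠ 0 := BoundingSieve.prodPrimes_ne_zero
  have hG := GG_pos s hQ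
  refine (BoundingSieve.siftedSum_le_mainSum_errSum_of_upperMoebius
    (BoundingSieve.lambdaSquared (ww s Q))
    (BoundingSieve.upperMoebius_lambdaSquared _ (ww_one s hQ))).trans ?_
  have hmain : s.mainSum (BoundingSieve.lambdaSquared (ww s Q)) = (GG s Q)⁻¹ := by
    rw [BoundingSieve.mainSum_lambdaSquared_eq_sum_mul_sum_sq]
    have h1 : ∀ l ∈ s.prodPrimes.divisors, (s.selbergTerms l)⁻¹ *
        (∑ d ∈ s.prodPrimes.divisors, if l ∣ d then s.nu d * ww s Q d else 0) ^ 2
        = (if l ≤ Q then s.selbergTerms l else 0) / (GG s Q) ^ 2 := by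
      intro l hl
      have hgl : 0 < s.selbergTerms l := BoundingSieve.selbergTerms_pos (Nat.dvd_of_mem_divisors hl)
      rw [sum_nu_ww s (Nat.dvd_of_mem_divisors hl), Ff]
      split_ifs with h
      · have hsq : Squarefree l := BoundingSieve.squarefree_of_mem_divisors_prodPrimes hl
        have h1 : ((μ l : ℤ) : ℝ) ^ 2 = 1 := by
          exact_mod_cast ArithmeticFunction.moebius_sq_eq_one_of_squarefree hsq
        rw [div_pow, mul_pow, h1, one_mul]
        field_simp
      · simp
    rw [Finset.sum_congr rfl h1, ← Finset.sum_div]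
    change GG s Q / (GG s Q) ^ 2 = _
    field_simp
  have herr : s.errSum (BoundingSieve.lambdaSquared (ww s Q)) ≤
      (∑ d ∈ s.prodPrimes.divisors, |ww s Q d| * r d) ^ 2 := by
    unfold BoundingSieve.errSum BoundingSieve.lambdaSquared
    have h1 : ∀ d ∈ s.prodPrimes.divisors,
        |∑ d1 ∈ d.divisors, ∑ d2 ∈ d.divisors, if d = Nat.lcm d1 d2 then ww s Q d1 * ww s Q d2 else 0|
          * |s.rem d| ≤ ∑ d1 ∈ s.prodPrimes.divisors, ∑ d2 ∈ s.prodPrimes.divisors,
            if d = Nat.lcm d1 d2 then (|ww s Q d1| * r d1) * (|ww s Q d2| * r d2) else 0 := by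
      intro d hd
      have hd' := Nat.dvd_of_mem_divisors hd
      have hsub : d.divisors ⊆ s.prodPrimes.divisors := Nat.divisors_subset_of_dvd hP0 hd'
      calc _ ≤ (∑ d1 ∈ d.divisors, ∑ d2 ∈ d.divisors,
              if d = Nat.lcm d1 d2 then |ww s Q d1| * |ww s Q d2| else 0) * r d := by
            gcongr
            · refine (Finset.abs_sum_le_sum_abs _ _).trans (Finset.sum_le_sum fun d1 _ => ?_)
              refine (Finset.abs_sum_le_sum_abs _ _).trans (Finset.sum_le_sum fun d2 _ => ?_)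
              split_ifs
              · rw [abs_mul]
              · simp
            · exact hrem d hd'
        _ = ∑ d1 ∈ d.divisors, ∑ d2 ∈ d.divisors,
              (if d = Nat.lcm d1 d2 then |ww s Q d1| * |ww s Q d2| * r d else 0) := by
            rw [Finset.sum_mul]
            refine Finset.sum_congr rfl fun d1 _ => ?_
            rw [Finset.sum_mul]
            refine Finset.sum_congr rfl fun d2 _ => ?_
            split_ifs <;> simp
        _ ≤ ∑ d1 ∈ d.divisors, ∑ d2 ∈ d.divisors,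
              (if d = Nat.lcm d1 d2 then (|ww s Q d1| * r d1) * (|ww s Q d2| * r d2) else 0) := by
            refine Finset.sum_le_sum fun d1 hd1 => Finset.sum_le_sum fun d2 hd2 => ?_
            split_ifs with h
            · have := hlcm d1 d2 ((Nat.dvd_of_mem_divisors hd1).trans hd')
                ((Nat.dvd_of_mem_divisors hd2).trans hd')
              rw [← h] at this
              calc |ww s Q d1| * |ww s Q d2| * r d ≤ |ww s Q d1| * |ww s Q d2| * (r d1 * r d2) := by
                    gcongr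
                _ = _ := by ring
            · exact le_rfl
        _ ≤ ∑ d1 ∈ s.prodPrimes.divisors, ∑ d2 ∈ d.divisors,
              (if d = Nat.lcm d1 d2 then (|ww s Q d1| * r d1) * (|ww s Q d2| * r d2) else 0) := by
            refine Finset.sum_le_sum_of_subset_of_nonneg hsub fun d1 hd1 _ =>
              Finset.sum_nonneg fun d2 hd2 => ?_
            have h3 := hr0 d1 (Nat.dvd_of_mem_divisors hd1)
            have h4 := hr0 d2 ((Nat.dvd_of_mem_divisors hd2).trans hd')
            split_ifs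
            · positivity
            · exact le_rfl
        _ ≤ _ := by
            refine Finset.sum_le_sum fun d1 hd1 => ?_
            refine Finset.sum_le_sum_of_subset_of_nonneg hsub fun d2 hd2 _ => ?_
            have h3 := hr0 d1 (Nat.dvd_of_mem_divisors hd1)
            have h4 := hr0 d2 (Nat.dvd_of_mem_divisors hd2)
            split_ifs
            · positivity
            · exact le_rfl
    refine (Finset.sum_le_sum h1).trans ?_
    rw [Finset.sum_comm]
    rw [sq, Finset.sum_mul_sum]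
    refine Finset.sum_le_sum fun d1 hd1 => ?_
    rw [Finset.sum_comm]
    refine Finset.sum_le_sum fun d2 hd2 => ?_
    have h5 : Nat.lcm d1 d2 ∈ s.prodPrimes.divisors := by
      rw [Nat.mem_divisors]
      exact ⟨Nat.lcm_dvd (Nat.dvd_of_mem_divisors hd1) (Nat.dvd_of_mem_divisors hd2), hP0⟩
    rw [Finset.sum_ite_eq' s.prodPrimes.divisors (Nat.lcm d1 d2), if_pos h5]
  have herr2 : ∑ d ∈ s.prodPrimes.divisors, |ww s Q d| * r d ≤
      ∑ d ∈ s.prodPrimes.divisors, if d ≤ Q then s.selbergTerms d * (s.nu d)⁻¹ * r d else 0 := by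
    refine Finset.sum_le_sum fun d hd => ?_
    have hd' := Nat.dvd_of_mem_divisors hd
    have h1 := abs_ww_le s hQ hd'
    have h2 := hr0 d hd'
    calc |ww s Q d| * r d ≤ (if d ≤ Q then s.selbergTerms d * (s.nu d)⁻¹ else 0) * r d := by gcongr
      _ = _ := by split_ifs <;> simp
  rw [hmain, ← div_eq_mul_inv]
  have h0 : 0 ≤ ∑ d ∈ s.prodPrimes.divisors, |ww s Q d| * r d :=
    Finset.sum_nonneg fun d hd => mul_nonneg (abs_nonneg _) (hr0 d (Nat.dvd_of_mem_divisors hd))
  gcongr
  exact herr.trans (by gcongr)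

end general

lemma count_class (m : ℕ) (hm : 0 < m) (x : ZMod m) (M Y : ℕ) :
    |(((Ioc M (M + Y)).filter (fun b : ℕ => (b : ZMod m) = x)).card : ℝ) - (Y : ℝ) / m| ≤ 1 := by
  have : NeZero m := ⟨hm.ne'⟩
  have hx : x = ((x.val : ℕ) : ZMod m) := by simp
  have h1 : (Ioc M (M + Y)).filter (fun b : ℕ => (b : ZMod m) = x)
      = (Ioc M (M + Y)).filter (fun b : ℕ => b ≡ x.val [MOD m]) := by
    refine Finset.filter_congr fun b _ => ?_
    rw [← ZMod.natCast_eq_natCast_iff, ← hx]
  rw [h1]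
  have h2 := Nat.Ioc_filter_modEq_card M (M + Y) hm x.val
  set c := ((Ioc M (M + Y)).filter (fun b : ℕ => b ≡ x.val [MOD m])).card with hc
  set u : ℚ := (((M + Y : ℕ) : ℚ) - x.val) / m with hu
  set v : ℚ := ((M : ℚ) - x.val) / m with hv
  have huv : u - v = (Y : ℚ) / m := by
    rw [hu, hv]; push_cast; ring
  have hY : (0 : ℚ) ≤ (Y : ℚ) / m := by positivity
  have hfl : ⌊v⌋ ≤ ⌊u⌋ := Int.floor_le_floor (by linarith)
  have h3 : (c : ℤ) = ⌊u⌋ - ⌊v⌋ := by
    rw [h2, max_eq_left (by linarith)]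
  have h4 : |(c : ℚ) - (Y : ℚ) / m| ≤ 1 := by
    have h5 : (c : ℚ) = (⌊u⌋ : ℚ) - ⌊v⌋ := by exact_mod_cast h3
    rw [h5, ← huv, abs_le]
    have a1 := Int.floor_le u
    have a2 := Int.lt_floor_add_one u
    have a3 := Int.floor_le v
    have a4 := Int.lt_floor_add_one v
    constructor <;> linarith
  have h6 : ((|(c : ℚ) - (Y : ℚ) / m| : ℚ) : ℝ) ≤ ((1 : ℚ) : ℝ) := by exact_mod_cast h4
  push_cast at h6
  exact h6

lemma count_crt (T : Finset ℕ) (hT : ∀ p ∈ T, p.Prime) (B : (p : ℕ) → Finset (ZMod p)) (M Y : ℕ) :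
    |(((Ioc M (M + Y)).filter (fun b : ℕ => ∀ p ∈ T, (b : ZMod p) ∈ B p)).card : ℝ)
      - Y * ∏ p ∈ T, ((B p).card : ℝ) / p| ≤ ∏ p ∈ T, ((B p).card : ℝ) := by
  classical
  let a : T → ℕ := fun p => (p : ℕ)
  have hcop : Pairwise (Function.onFun Nat.Coprime a) := by
    intro p q hpq
    exact (Nat.coprime_primes (hT p p.2) (hT q q.2)).mpr (fun h => hpq (Subtype.ext h))
  set m : ℕ := ∏ i, a i with hm
  have hmpos : 0 < m := Finset.prod_pos fun i _ => (hT i i.2).pos
  have : NeZero m := ⟨hmpos.ne'⟩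
  have : ∀ i : T, NeZero (a i) := fun i => ⟨(hT i i.2).ne_zero⟩
  let e := ZMod.prodEquivPi a hcop
  let S : Finset (ZMod m) := (Fintype.piFinset (fun i : T => B (a i))).map e.symm.toEquiv.toEmbedding
  have hScard : S.card = ∏ p ∈ T, (B p).card := by
    rw [Finset.card_map, Fintype.card_piFinset]
    exact Finset.prod_coe_sort T (fun p => (B p).card)
  have hmem : ∀ b : ℕ, (∀ p ∈ T, (b : ZMod p) ∈ B p) ↔ (b : ZMod m) ∈ S := by
    intro b
    have h1 : (b : ZMod m) ∈ S ↔ e (b : ZMod m) ∈ Fintype.piFinset (fun i : T => B (a i)) := by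
      simp only [S, Finset.mem_map]
      constructor
      · rintro ⟨y, hy, hyb⟩
        have : e (b : ZMod m) = y := by
          rw [← hyb]
          exact e.apply_symm_apply y
        rwa [this]
      · intro h
        exact ⟨e (b : ZMod m), h, e.symm_apply_apply _⟩
    rw [h1, Fintype.mem_piFinset, map_natCast]
    constructor
    · intro h i
      exact h i i.2
    · intro h p hp
      exact h ⟨p, hp⟩
  have hfil : (Ioc M (M + Y)).filter (fun b : ℕ => ∀ p ∈ T, (b : ZMod p) ∈ B p)
      = (Ioc M (M + Y)).filter (fun b : ℕ => (b : ZMod m) ∈ S) :=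
    Finset.filter_congr fun b _ => hmem b
  have hcount : (((Ioc M (M + Y)).filter (fun b : ℕ => (b : ZMod m) ∈ S)).card : ℝ)
      = ∑ x ∈ S, (((Ioc M (M + Y)).filter (fun b : ℕ => (b : ZMod m) = x)).card : ℝ) := by
    rw [Finset.card_eq_sum_card_fiberwise (f := fun b : ℕ => (b : ZMod m)) (t := S)]
    · push_cast
      refine Finset.sum_congr rfl fun x hx => ?_
      rw [Finset.filter_filter]
      congr 2
      refine Finset.filter_congr fun b _ => ?_
      constructor
      · exact fun h => h.2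
      · intro h; exact ⟨h ▸ hx, h⟩
    · intro b hb
      simpa using (Finset.mem_filter.mp hb).2
  have hprod : (∏ p ∈ T, ((B p).card : ℝ) / p) = (S.card : ℝ) / m := by
    rw [Finset.prod_div_distrib, hScard]
    push_cast
    congr 1
    rw [hm]
    push_cast
    exact (Finset.prod_coe_sort T (fun p => (p : ℝ))).symm
  rw [hfil, hcount, hprod]
  have h7 : (Y : ℝ) * ((S.card : ℝ) / m) = ∑ x ∈ S, (Y : ℝ) / m := by
    rw [Finset.sum_const, nsmul_eq_mul]; ring
  rw [h7, ← Finset.sum_sub_distrib]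
  refine (Finset.abs_sum_le_sum_abs _ _).trans ?_
  refine (Finset.sum_le_sum fun x _ => count_class m hmpos x M Y).trans ?_
  rw [Finset.sum_const, nsmul_eq_mul, mul_one, hScard]
  push_cast
  exact le_rfl

section setup

variable (P : Finset ℕ) (B : (p : ℕ) → Finset (ZMod p)) (M Y : ℕ)

/-- The product of the primes `p ∈ P` such that `b mod p` lies in `B p`. -/
noncomputable def Pb (b : ℕ) : ℕ := by
  classical exact ∏ p ∈ P.filter (fun p => (b : ZMod p) ∈ B p), p

lemma sqf (hP : ∀ p ∈ P, p.Prime) : Squarefree (∏ p ∈ P, p) := by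
  refine Finset.squarefree_prod_of_pairwise_isCoprime (fun p hp q hq hpq ↦ ?_) ?_
  · exact (Nat.coprime_iff_isRelPrime.mp ((Nat.coprime_primes (hP p hp) (hP q hq)).mpr hpq))
  · intro p hp
    exact (hP p hp).squarefree

/-- The sieve data attached to the residue classes `B p`, `p ∈ P`, on `(M, M + Y]`. -/
noncomputable def sv (hP : ∀ p ∈ P, p.Prime ∧ 3 ≤ p)
    (hB : ∀ p ∈ P, 1 ≤ (B p).card ∧ (B p).card ≤ 2) : BoundingSieve where
  support := (∏ p ∈ P, p).divisors
  prodPrimes := ∏ p ∈ P, p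
  prodPrimes_squarefree := sqf P (fun p hp => (hP p hp).1)
  weights := fun m => (((Ioc M (M + Y)).filter (fun b => Pb P B b = m)).card : ℝ)
  weights_nonneg := fun m => by positivity
  totalMass := Y
  nu := ArithmeticFunction.prodPrimeFactors (fun p => ((B p).card : ℝ) / p)
  nu_mult := ArithmeticFunction.IsMultiplicative.prodPrimeFactors _
  nu_pos_of_prime := by
    intro p hp hpP
    have hmem : p ∈ P := by
      have : p ∈ (∏ p ∈ P, p).primeFactors := by
        rw [Nat.mem_primeFactors]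
        exact ⟨hp, hpP, Finset.prod_ne_zero_iff.mpr fun q hq => (hP q hq).1.ne_zero⟩
      rwa [Nat.primeFactors_prod (fun p hp => (hP p hp).1)] at this
    rw [ArithmeticFunction.prodPrimeFactors_apply hp.ne_zero, hp.primeFactors, Finset.prod_singleton]
    have := (hB p hmem).1
    have := hp.pos
    positivity
  nu_lt_one_of_prime := by
    intro p hp hpP
    have hmem : p ∈ P := by
      have : p ∈ (∏ p ∈ P, p).primeFactors := by
        rw [Nat.mem_primeFactors]
        exact ⟨hp, hpP, Finset.prod_ne_zero_iff.mpr fun q hq => (hP q hq).1.ne_zero⟩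
      rwa [Nat.primeFactors_prod (fun p hp => (hP p hp).1)] at this
    rw [ArithmeticFunction.prodPrimeFactors_apply hp.ne_zero, hp.primeFactors, Finset.prod_singleton]
    have h1 := (hB p hmem).2
    have h2 := (hP p hmem).2
    have h3 : (0 : ℝ) < p := by exact_mod_cast hp.pos
    rw [div_lt_one h3]
    exact_mod_cast (by omega : (B p).card < p)

variable (hP : ∀ p ∈ P, p.Prime ∧ 3 ≤ p) (hB : ∀ p ∈ P, 1 ≤ (B p).card ∧ (B p).card ≤ 2)

lemma pf_sub {d : ℕ} (hP : ∀ p ∈ P, p.Prime ∧ 3 ≤ p) (hd : d ∣ ∏ p ∈ P, p) :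
    d.primeFactors ⊆ P := by
  have h0 : (∏ p ∈ P, p) ≠ 0 := Finset.prod_ne_zero_iff.mpr fun q hq => (hP q hq).1.ne_zero
  have := Nat.primeFactors_mono hd h0
  rwa [Nat.primeFactors_prod (fun p hp => (hP p hp).1)] at this

lemma dvd_Pb (hP : ∀ p ∈ P, p.Prime ∧ 3 ≤ p) {d : ℕ} (hd : d ∣ ∏ p ∈ P, p) (b : ℕ) :
    d ∣ Pb P B b ↔ ∀ p ∈ d.primeFactors, (b : ZMod p) ∈ B p := by
  classical
  have h0 : (∏ p ∈ P, p) ≠ 0 := Finset.prod_ne_zero_iff.mpr fun q hq => (hP q hq).1.ne_zero
  have hd0 : d ≠ 0 := ne_zero_of_dvd_ne_zero h0 hd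
  have hsqP : Squarefree (∏ p ∈ P, p) := sqf P (fun p hp => (hP p hp).1)
  have hsq : Squarefree d := hsqP.squarefree_of_dvd hd
  have hPf : ∀ p ∈ P.filter (fun p => (b : ZMod p) ∈ B p), p.Prime := fun p hp =>
    (hP p (Finset.mem_filter.mp hp).1).1
  have hPb : Pb P B b = ∏ p ∈ P.filter (fun p => (b : ZMod p) ∈ B p), p := by
    unfold Pb
    congr!
  have hPb0 : Pb P B b ≠ 0 := by
    rw [hPb]
    exact Finset.prod_ne_zero_iff.mpr fun q hq => (hPf q hq).ne_zero
  constructor
  · intro h p hp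
    have h1 := Nat.primeFactors_mono h hPb0 hp
    rw [hPb, Nat.primeFactors_prod hPf] at h1
    exact (Finset.mem_filter.mp h1).2
  · intro h
    rw [← Nat.prod_primeFactors_of_squarefree hsq, hPb]
    refine Finset.prod_dvd_prod_of_subset _ _ _ ?_
    intro p hp
    rw [Finset.mem_filter]
    exact ⟨pf_sub P hP hd hp, h p hp⟩

lemma Pb_dvd (b : ℕ) : Pb P B b ∣ ∏ p ∈ P, p := by
  classical
  unfold Pb
  exact Finset.prod_dvd_prod_of_subset _ _ _ (Finset.filter_subset _ _)

lemma nu_sv {d : ℕ} (hd : d ≠ 0) :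
    (sv P B M Y hP hB).nu d = ∏ p ∈ d.primeFactors, ((B p).card : ℝ) / p := by
  change (ArithmeticFunction.prodPrimeFactors (fun p => ((B p).card : ℝ) / p)) d = _
  rw [ArithmeticFunction.prodPrimeFactors_apply hd]

lemma rem_sv {d : ℕ} (hd : d ∣ ∏ p ∈ P, p) :
    |(sv P B M Y hP hB).rem d| ≤ ∏ p ∈ d.primeFactors, ((B p).card : ℝ) := by
  classical
  have h0 : (∏ p ∈ P, p) ≠ 0 := Finset.prod_ne_zero_iff.mpr fun q hq => (hP q hq).1.ne_zero
  have hd0 : d ≠ 0 := ne_zero_of_dvd_ne_zero h0 hd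
  have key := count_crt d.primeFactors (fun p hp => Nat.prime_of_mem_primeFactors hp) B M Y
  have hmult : (sv P B M Y hP hB).multSum d
      = (((Ioc M (M + Y)).filter (fun b : ℕ => ∀ p ∈ d.primeFactors, (b : ZMod p) ∈ B p)).card : ℝ) := by
    change (∑ m ∈ (∏ p ∈ P, p).divisors, if d ∣ m then
      (((Ioc M (M + Y)).filter (fun b => Pb P B b = m)).card : ℝ) else 0) = _
    rw [← Finset.sum_filter]
    rw [Finset.card_eq_sum_card_fiberwise (f := fun b : ℕ => Pb P B b)
      (t := (∏ p ∈ P, p).divisors.filter (fun m => d ∣ m))]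
    · push_cast
      refine Finset.sum_congr rfl fun m hm => ?_
      rw [Finset.filter_filter]
      congr 2
      refine Finset.filter_congr fun b _ => ?_
      constructor
      · intro h
        refine ⟨?_, h⟩
        rw [← dvd_Pb P B hP hd, h]
        exact (Finset.mem_filter.mp hm).2
      · exact fun h => h.2
    · intro b hb
      have hb2 := (Finset.mem_filter.mp hb).2
      rw [← dvd_Pb P B hP hd] at hb2
      exact Finset.mem_coe.mpr (Finset.mem_filter.mpr
        ⟨Nat.mem_divisors.mpr ⟨Pb_dvd P B b, h0⟩, hb2⟩)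
  rw [BoundingSieve.rem, hmult, nu_sv P B M Y hP hB hd0]
  change |_ - (∏ p ∈ d.primeFactors, ((B p).card : ℝ) / p) * (Y : ℝ)| ≤ _
  rw [mul_comm]
  exact key

lemma sifted_sv :
    (((Finset.Ioc M (M + Y)).filter (fun b : ℕ => ∀ p ∈ P, ((b : ℕ) : ZMod p) ∉ B p)).card : ℝ)
      ≤ (sv P B M Y hP hB).siftedSum := by
  classical
  have h0 : (∏ p ∈ P, p) ≠ 0 := Finset.prod_ne_zero_iff.mpr fun q hq => (hP q hq).1.ne_zero
  change _ ≤ ∑ d ∈ (∏ p ∈ P, p).divisors, if Nat.Coprime (∏ p ∈ P, p) d then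
    (((Ioc M (M + Y)).filter (fun b => Pb P B b = d)).card : ℝ) else 0
  have h1 : (1 : ℕ) ∈ (∏ p ∈ P, p).divisors := Nat.mem_divisors.mpr ⟨one_dvd _, h0⟩
  refine le_trans ?_ (Finset.single_le_sum (f := fun d => if Nat.Coprime (∏ p ∈ P, p) d then
    (((Ioc M (M + Y)).filter (fun b => Pb P B b = d)).card : ℝ) else 0) (fun i _ => ?_) h1)
  · rw [if_pos (Nat.coprime_one_right _)]
    exact_mod_cast Finset.card_le_card (fun b hb => by
      rw [Finset.mem_filter] at hb ⊢
      refine ⟨hb.1, ?_⟩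
      unfold Pb
      rw [Finset.filter_false_of_mem, Finset.prod_empty]
      exact hb.2)
  · split_ifs
    · positivity
    · exact le_rfl

end setup

/-- `∑_{p ≤ z} log p / p ≤ 2 log z`. -/
lemma sum_log_div (z : ℕ) (hz : 1 ≤ z) :
    ∑ p ∈ (Icc 1 z).filter Nat.Prime, Real.log p / p ≤ 2 * Real.log z := by
  have hz0 : (0 : ℝ) < z := by exact_mod_cast hz
  have h1 : ∑ n ∈ Icc 1 z, ∑ p ∈ n.primeFactors, Real.log p ≤ z * Real.log z := by
    calc ∑ n ∈ Icc 1 z, ∑ p ∈ n.primeFactors, Real.log p ≤ ∑ n ∈ Icc 1 z, Real.log z := by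
          refine Finset.sum_le_sum fun n hn => ?_
          rw [Finset.mem_Icc] at hn
          rw [← Real.log_prod]
          · apply Real.log_le_log
            · exact Finset.prod_pos fun p hp => by
                exact_mod_cast (Nat.prime_of_mem_primeFactors hp).pos
            · have h0 := Nat.le_of_dvd (by omega) (Nat.prod_primeFactors_dvd n)
              rw [← Nat.cast_prod]
              exact Nat.cast_le.mpr (h0.trans hn.2)
          · intro p hp
            exact_mod_cast (Nat.prime_of_mem_primeFactors hp).ne_zero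
      _ = z * Real.log z := by
          rw [Finset.sum_const, nsmul_eq_mul, Nat.card_Icc]; simp
  have h2 : ∑ n ∈ Icc 1 z, ∑ p ∈ n.primeFactors, Real.log p
      = ∑ p ∈ (Icc 1 z).filter Nat.Prime, Real.log p * ((z / p : ℕ) : ℝ) := by
    have h3 : ∀ n ∈ Icc 1 z, ∑ p ∈ n.primeFactors, Real.log p
        = ∑ p ∈ (Icc 1 z).filter Nat.Prime, if p ∣ n then Real.log p else 0 := by
      intro n hn
      rw [Finset.mem_Icc] at hn
      rw [← Finset.sum_filter]
      refine Finset.sum_congr ?_ fun _ _ => rfl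
      ext p
      simp only [Nat.mem_primeFactors, mem_filter, mem_Icc]
      constructor
      · rintro ⟨hp, hd, h0⟩
        exact ⟨⟨⟨hp.one_le, (Nat.le_of_dvd (by omega) hd).trans hn.2⟩, hp⟩, hd⟩
      · rintro ⟨⟨-, hp⟩, hd⟩
        exact ⟨hp, hd, by omega⟩
    rw [Finset.sum_congr rfl h3, Finset.sum_comm]
    refine Finset.sum_congr rfl fun p hp => ?_
    rw [← Finset.sum_filter, Finset.sum_const, nsmul_eq_mul, mul_comm]
    congr 2
    have h4 := Nat.card_multiples z p
    have h5 : (Icc 1 z).filter (fun n => p ∣ n) = (Ioc 0 z).filter (fun n => p ∣ n) := by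
      ext n; simp only [mem_filter, mem_Icc, mem_Ioc]; constructor <;> (rintro ⟨⟨a, b⟩, c⟩; exact ⟨⟨by omega, b⟩, c⟩)
    rw [h5]
    exact Nat.Ioc_filter_dvd_card_eq_div z p
  have h3 : ∑ p ∈ (Icc 1 z).filter Nat.Prime, Real.log p * ((z : ℝ) / (2 * p))
      ≤ ∑ p ∈ (Icc 1 z).filter Nat.Prime, Real.log p * ((z / p : ℕ) : ℝ) := by
    refine Finset.sum_le_sum fun p hp => ?_
    simp only [mem_filter, mem_Icc] at hp
    have hp0 : (0 : ℝ) < p := by exact_mod_cast hp.2.pos
    have hlog : 0 ≤ Real.log p := Real.log_nonneg (by exact_mod_cast hp.2.one_le)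
    have h5 : 1 ≤ z / p := (Nat.one_le_div_iff hp.2.pos).mpr hp.1.2
    have h6 : z < p * (z / p + 1) := Nat.lt_mul_div_succ z hp.2.pos
    have h7 : (z : ℝ) < p * ((z / p : ℕ) + 1) := by exact_mod_cast h6
    have h8 : (1 : ℝ) ≤ ((z / p : ℕ) : ℝ) := by exact_mod_cast h5
    gcongr
    rw [div_le_iff₀ (by positivity)]
    nlinarith
  have h4 : (∑ p ∈ (Icc 1 z).filter Nat.Prime, Real.log p / p) * (z / 2)
      = ∑ p ∈ (Icc 1 z).filter Nat.Prime, Real.log p * ((z : ℝ) / (2 * p)) := by
    rw [Finset.sum_mul]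
    refine Finset.sum_congr rfl fun p _ => ?_
    rw [div_mul_div_comm, mul_comm (p : ℝ) 2, ← mul_div_assoc]
  have h5 : (∑ p ∈ (Icc 1 z).filter Nat.Prime, Real.log p / p) * (z / 2) ≤ z * Real.log z := by
    rw [h4]; exact h3.trans (h2 ▸ h1)
  have h6 : (∑ p ∈ (Icc 1 z).filter Nat.Prime, Real.log p / p) * (z / 2) ≤ (2 * Real.log z) * (z / 2) := by
    calc _ ≤ _ := h5
      _ = _ := by ring
  exact le_of_mul_le_mul_right h6 (by positivity)

lemma sum_selberg_eq (s : BoundingSieve) :
    ∑ l ∈ s.prodPrimes.divisors, s.selbergTerms l = ∏ p ∈ s.prodPrimes.primeFactors, (1 - s.nu p)⁻¹ := by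
  rw [← BoundingSieve.selbergTerms_isMultiplicative.prodPrimeFactors_one_add_of_squarefree
    s.prodPrimes_squarefree]
  refine Finset.prod_congr rfl fun p hp => ?_
  have hpp := Nat.prime_of_mem_primeFactors hp
  rw [BoundingSieve.selbergTerms_apply, hpp.primeFactors, Finset.prod_singleton]
  have h1 := s.nu_lt_one_of_prime p hpp (Nat.dvd_of_mem_primeFactors hp)
  have h2 : (1 - s.nu p) ≠ 0 := by linarith
  field_simp
  ring

/-- Lower bound for `G` by Rankin's trick. -/
lemma GG_lower (s : BoundingSieve) (z : ℕ) (hz : 2 ≤ z)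
    (hz2 : ∀ p ∈ s.prodPrimes.primeFactors, p ≤ z)
    (hnu : ∀ p ∈ s.prodPrimes.primeFactors, s.nu p ≤ 2 / p) :
    (1 / 2) * ∏ p ∈ s.prodPrimes.primeFactors, (1 - s.nu p)⁻¹ ≤ GG s (z ^ 9) := by
  have hP0 : s.prodPrimes ≠ 0 := BoundingSieve.prodPrimes_ne_zero
  have hlz : 0 < Real.log z := Real.log_pos (by exact_mod_cast hz)
  set σ : ℝ := 1 / Real.log z with hσ
  have hσ0 : 0 < σ := by positivity
  set V : ℝ := ∏ p ∈ s.prodPrimes.primeFactors, (1 - s.nu p)⁻¹ with hV
  have hnu01 : ∀ p ∈ s.prodPrimes.primeFactors, 0 < s.nu p ∧ s.nu p < 1 := fun p hp =>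
    ⟨s.nu_pos_of_prime p (Nat.prime_of_mem_primeFactors hp) (Nat.dvd_of_mem_primeFactors hp),
     s.nu_lt_one_of_prime p (Nat.prime_of_mem_primeFactors hp) (Nat.dvd_of_mem_primeFactors hp)⟩
  have hVpos : 0 < V := Finset.prod_pos fun p hp => inv_pos.mpr (by linarith [(hnu01 p hp).2])
  have hgp : ∀ p ∈ s.prodPrimes.primeFactors, s.selbergTerms p = s.nu p * (1 - s.nu p)⁻¹ := by
    intro p hp
    have hpp := Nat.prime_of_mem_primeFactors hp
    rw [BoundingSieve.selbergTerms_apply, hpp.primeFactors, Finset.prod_singleton]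
  let h : ArithmeticFunction ℝ :=
    ArithmeticFunction.prodPrimeFactors (fun p => s.selbergTerms p * (p : ℝ) ^ σ)
  have hmul : h.IsMultiplicative := ArithmeticFunction.IsMultiplicative.prodPrimeFactors _
  have hl : ∀ l ∈ s.prodPrimes.divisors, h l = s.selbergTerms l * (l : ℝ) ^ σ := by
    intro l hl
    have hl' := Nat.dvd_of_mem_divisors hl
    have hl0 : l ≠ 0 := ne_zero_of_dvd_ne_zero hP0 hl'
    have hsq : Squarefree l := BoundingSieve.squarefree_of_dvd_prodPrimes hl'
    change (ArithmeticFunction.prodPrimeFactors (fun p => s.selbergTerms p * (p : ℝ) ^ σ)) l = _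
    rw [ArithmeticFunction.prodPrimeFactors_apply hl0, Finset.prod_mul_distrib]
    congr 1
    · rw [← BoundingSieve.selbergTerms_isMultiplicative.map_prod_of_subset_primeFactors l _ subset_rfl,
        Nat.prod_primeFactors_of_squarefree hsq]
    · rw [Real.finsetProd_rpow]
      · rw [← Nat.cast_prod, Nat.prod_primeFactors_of_squarefree hsq]
      · intro i _; positivity
  have htot : ∑ l ∈ s.prodPrimes.divisors, h l
      = ∏ p ∈ s.prodPrimes.primeFactors, (1 + s.selbergTerms p * (p : ℝ) ^ σ) := by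
    rw [← hmul.prodPrimeFactors_one_add_of_squarefree s.prodPrimes_squarefree]
    refine Finset.prod_congr rfl fun p hp => ?_
    have hpp := Nat.prime_of_mem_primeFactors hp
    congr 1
    change (ArithmeticFunction.prodPrimeFactors (fun p => s.selbergTerms p * (p : ℝ) ^ σ)) p = _
    rw [ArithmeticFunction.prodPrimeFactors_apply hpp.ne_zero, hpp.primeFactors,
      Finset.prod_singleton]
  -- the bound for the product
  have hprod : ∏ p ∈ s.prodPrimes.primeFactors, (1 + s.selbergTerms p * (p : ℝ) ^ σ)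
      ≤ V * Real.exp 8 := by
    have h1 : ∀ p ∈ s.prodPrimes.primeFactors, (1 + s.selbergTerms p * (p : ℝ) ^ σ)
        ≤ (1 - s.nu p)⁻¹ * Real.exp (4 / Real.log z * (Real.log p / p)) := by
      intro p hp
      have hpp := Nat.prime_of_mem_primeFactors hp
      obtain ⟨hn0, hn1⟩ := hnu01 p hp
      have hp0 : (0 : ℝ) < p := by exact_mod_cast hpp.pos
      have hlp : 0 ≤ Real.log p := Real.log_nonneg (by exact_mod_cast hpp.one_le)
      have hlpz : Real.log p ≤ Real.log z := Real.log_le_log hp0 (by exact_mod_cast hz2 p hp)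
      set t : ℝ := Real.log p / Real.log z with ht
      have ht0 : 0 ≤ t := by positivity
      have ht1 : t ≤ 1 := by rw [ht, div_le_one hlz]; exact hlpz
      have hpσ : (p : ℝ) ^ σ = Real.exp t := by
        rw [Real.rpow_def_of_pos hp0]
        congr 1
        rw [hσ, ht]; ring
      have hexp : Real.exp t - 1 ≤ 2 * t := by
        have h3 := Real.abs_exp_sub_one_sub_id_le (x := t) (by rw [abs_of_nonneg ht0]; exact ht1)
        have h4 := (abs_le.mp h3).2
        nlinarith
      have hexp0 : 0 ≤ Real.exp t - 1 := by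
        have := Real.add_one_le_exp t
        linarith
      have h5 : 1 + s.selbergTerms p * (p : ℝ) ^ σ
          = (1 - s.nu p)⁻¹ * (1 + s.nu p * (Real.exp t - 1)) := by
        rw [hgp p hp, hpσ]
        have : 1 - s.nu p ≠ 0 := by linarith
        field_simp
        ring
      rw [h5]
      have h6 : 0 < (1 - s.nu p)⁻¹ := inv_pos.mpr (by linarith)
      gcongr
      calc 1 + s.nu p * (Real.exp t - 1) ≤ 1 + 2 / p * (2 * t) := by
            gcongr
            exact hnu p hp
        _ = 4 / Real.log z * (Real.log p / p) + 1 := by rw [ht]; ring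
        _ ≤ _ := Real.add_one_le_exp _
    calc _ ≤ ∏ p ∈ s.prodPrimes.primeFactors,
          ((1 - s.nu p)⁻¹ * Real.exp (4 / Real.log z * (Real.log p / p))) := by
          refine Finset.prod_le_prod (fun p hp => ?_) h1
          have h3 : 0 < s.selbergTerms p :=
            BoundingSieve.selbergTerms_pos (Nat.dvd_of_mem_primeFactors hp)
          positivity
      _ = V * Real.exp (∑ p ∈ s.prodPrimes.primeFactors, 4 / Real.log z * (Real.log p / p)) := by
          rw [Finset.prod_mul_distrib, Real.exp_sum]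
      _ ≤ V * Real.exp 8 := by
          gcongr
          rw [← Finset.mul_sum]
          have h3 : ∑ p ∈ s.prodPrimes.primeFactors, Real.log p / p ≤ 2 * Real.log z := by
            refine le_trans ?_ (sum_log_div z (by omega))
            refine Finset.sum_le_sum_of_subset_of_nonneg ?_ ?_
            · intro p hp
              have hpp := Nat.prime_of_mem_primeFactors hp
              simp only [mem_filter, mem_Icc]
              exact ⟨⟨hpp.one_le, hz2 p hp⟩, hpp⟩
            · intro p hp _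
              simp only [mem_filter, mem_Icc] at hp
              have : 0 ≤ Real.log p := Real.log_nonneg (by exact_mod_cast hp.1.1)
              positivity
          calc 4 / Real.log z * ∑ p ∈ s.prodPrimes.primeFactors, Real.log p / p
              ≤ 4 / Real.log z * (2 * Real.log z) := by gcongr
            _ = 8 := by field_simp; norm_num
  -- Rankin
  have hQ : (0 : ℝ) < ((z ^ 9 : ℕ) : ℝ) := by positivity
  have hQσ : ((z ^ 9 : ℕ) : ℝ) ^ σ = Real.exp 9 := by
    rw [Real.rpow_def_of_pos hQ]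
    congr 1
    push_cast
    rw [Real.log_pow, hσ]
    field_simp
    norm_num
  have hRankin : ∑ l ∈ s.prodPrimes.divisors, (if l ≤ z ^ 9 then 0 else s.selbergTerms l)
      ≤ Real.exp (-9) * ∑ l ∈ s.prodPrimes.divisors, h l := by
    rw [Finset.mul_sum]
    refine Finset.sum_le_sum fun l hl' => ?_
    rw [hl l hl']
    have hg : 0 < s.selbergTerms l := BoundingSieve.selbergTerms_pos (Nat.dvd_of_mem_divisors hl')
    split_ifs with hle
    · positivity
    · push Not at hle
      have h3 : ((z ^ 9 : ℕ) : ℝ) ^ σ ≤ (l : ℝ) ^ σ := by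
        apply Real.rpow_le_rpow hQ.le _ hσ0.le
        exact_mod_cast hle.le
      rw [hQσ] at h3
      calc s.selbergTerms l = Real.exp (-9) * (s.selbergTerms l * Real.exp 9) := by
            rw [mul_left_comm, ← Real.exp_add]; simp
        _ ≤ Real.exp (-9) * (s.selbergTerms l * (l : ℝ) ^ σ) := by gcongr
  have hsplit : GG s (z ^ 9) = V - ∑ l ∈ s.prodPrimes.divisors,
      (if l ≤ z ^ 9 then 0 else s.selbergTerms l) := by
    rw [GG, hV, ← sum_selberg_eq s, ← Finset.sum_sub_distrib]
    refine Finset.sum_congr rfl fun l _ => ?_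
    split_ifs <;> ring
  rw [hsplit]
  have hfin : Real.exp (-9) * ∑ l ∈ s.prodPrimes.divisors, h l ≤ V / 2 := by
    rw [htot]
    calc Real.exp (-9) * ∏ p ∈ s.prodPrimes.primeFactors, (1 + s.selbergTerms p * (p : ℝ) ^ σ)
        ≤ Real.exp (-9) * (V * Real.exp 8) := by gcongr
      _ = V * Real.exp (-1) := by
          rw [mul_left_comm, ← Real.exp_add]; norm_num
      _ ≤ V * (1 / 2) := by
          gcongr
          rw [Real.exp_neg, one_div]
          apply inv_anti₀ (by norm_num)
          have := Real.add_one_le_exp (1 : ℝ)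
          linarith
      _ = V / 2 := by ring
  linarith [hRankin, hfin]

/-- `∏_{3 ≤ j ≤ z} (1 - 2 / j) ≥ 1 / z ^ 2`. -/
lemma prod_Icc_lower (z : ℕ) (hz : 2 ≤ z) :
    ∏ j ∈ Icc 3 z, (1 - 2 / (j : ℝ)) = 2 / ((z : ℝ) * (z - 1)) := by
  induction z, hz using Nat.le_induction with
  | base => norm_num
  | succ n hn ih =>
    rw [← Finset.insert_Icc_right_eq_Icc_add_one (by omega : 3 ≤ n + 1), Finset.prod_insert (by simp), ih]
    have h1 : (2 : ℝ) ≤ n := by exact_mod_cast hn
    have h2 : (n : ℝ) - 1 ≠ 0 := by linarith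
    have h3 : (n : ℝ) ≠ 0 := by linarith
    have h4 : (n : ℝ) + 1 ≠ 0 := by linarith
    push_cast
    rw [add_sub_cancel_right]
    field_simp
    ring

lemma V_lower (z : ℕ) (hz : 2 ≤ z) (P : Finset ℕ) (c : ℕ → ℕ)
    (hP : ∀ p ∈ P, p.Prime ∧ 3 ≤ p ∧ p ≤ z) (hB : ∀ p ∈ P, 1 ≤ c p ∧ c p ≤ 2) :
    1 / (z : ℝ) ^ 2 ≤ ∏ p ∈ P, (1 - (c p : ℝ) / p) := by
  have hz0 : (2 : ℝ) ≤ z := by exact_mod_cast hz
  calc 1 / (z : ℝ) ^ 2 ≤ 2 / ((z : ℝ) * (z - 1)) := by
        rw [div_le_div_iff₀ (by positivity) (by nlinarith)]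
        nlinarith
    _ = ∏ j ∈ Icc 3 z, (1 - 2 / (j : ℝ)) := (prod_Icc_lower z hz).symm
    _ ≤ ∏ j ∈ P, (1 - 2 / (j : ℝ)) := by
        have hsub : P ⊆ Icc 3 z := fun p hp => Finset.mem_Icc.mpr ⟨(hP p hp).2.1, (hP p hp).2.2⟩
        rw [← Finset.prod_sdiff hsub]
        have h1 : ∏ j ∈ Icc 3 z \ P, (1 - 2 / (j : ℝ)) ≤ 1 := by
          refine Finset.prod_le_one (fun j hj => ?_) (fun j hj => ?_)
          · have : (3 : ℝ) ≤ j := by
              exact_mod_cast (Finset.mem_Icc.mp (Finset.mem_sdiff.mp hj).1).1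
            rw [sub_nonneg, div_le_one (by linarith)]
            linarith
          · have : (0 : ℝ) ≤ 2 / j := by positivity
            linarith
        have h2 : 0 ≤ ∏ j ∈ P, (1 - 2 / (j : ℝ)) := by
          refine Finset.prod_nonneg fun j hj => ?_
          have : (3 : ℝ) ≤ j := by exact_mod_cast (hP j hj).2.1
          rw [sub_nonneg, div_le_one (by linarith)]
          linarith
        exact mul_le_of_le_one_left h2 h1
    _ ≤ _ := by
        refine Finset.prod_le_prod (fun j hj => ?_) (fun j hj => ?_)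
        · have : (3 : ℝ) ≤ j := by exact_mod_cast (hP j hj).2.1
          rw [sub_nonneg, div_le_one (by linarith)]
          linarith
        · have h1 : (c j : ℝ) ≤ 2 := by exact_mod_cast (hB j hj).2
          have h2 : (0 : ℝ) < j := by
            have := (hP j hj).1.pos
            exact_mod_cast this
          gcongr

/-- The final bound for abstract sieve data. -/
lemma final_abstract (s : BoundingSieve) (z Y : ℕ) (P : Finset ℕ) (c : ℕ → ℕ)
    (hz : 2 ≤ z)
    (hPz : ∀ p ∈ P, p.Prime ∧ 3 ≤ p ∧ p ≤ z) (hB : ∀ p ∈ P, 1 ≤ c p ∧ c p ≤ 2)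
    (hYV : (z : ℝ) ^ 54 ≤ Y * ∏ p ∈ P, (1 - (c p : ℝ) / p))
    (hprod : s.prodPrimes = ∏ p ∈ P, p)
    (hnup : ∀ p ∈ P, s.nu p = (c p : ℝ) / p)
    (hX : s.totalMass = Y)
    (hrem : ∀ d : ℕ, d ∣ s.prodPrimes → |s.rem d| ≤ ∏ p ∈ d.primeFactors, (c p : ℝ)) :
    s.siftedSum ≤ 3 * Y * ∏ p ∈ P, (1 - (c p : ℝ) / p) := by
  have hP : ∀ p ∈ P, p.Prime ∧ 3 ≤ p := fun p hp => ⟨(hPz p hp).1, (hPz p hp).2.1⟩
  have hpf : s.prodPrimes.primeFactors = P := by
    rw [hprod, Nat.primeFactors_prod (fun p hp => (hP p hp).1)]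
  have hP0 : s.prodPrimes ≠ 0 := BoundingSieve.prodPrimes_ne_zero
  have hsub : ∀ d : ℕ, d ∣ s.prodPrimes → d.primeFactors ⊆ P := by
    intro d hd
    rw [hprod] at hd
    exact pf_sub P hP hd
  set V : ℝ := ∏ p ∈ P, (1 - (c p : ℝ) / p) with hV
  have hz0 : (2 : ℝ) ≤ z := by exact_mod_cast hz
  have hVlow : 1 / (z : ℝ) ^ 2 ≤ V := V_lower z hz P c hPz hB
  have hVpos : 0 < V := lt_of_lt_of_le (by positivity) hVlow
  have hG := GG_lower s z hz (by rw [hpf]; exact fun p hp => (hPz p hp).2.2) (by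
    rw [hpf]; intro p hp
    rw [hnup p hp]
    have h1 : (c p : ℝ) ≤ 2 := by exact_mod_cast (hB p hp).2
    gcongr)
  have hVinv : ∏ p ∈ s.prodPrimes.primeFactors, (1 - s.nu p)⁻¹ = V⁻¹ := by
    rw [hpf, hV, ← Finset.prod_inv_distrib]
    exact Finset.prod_congr rfl fun p hp => by rw [hnup p hp]
  rw [hVinv] at hG
  have hQ : 1 ≤ z ^ 9 := Nat.one_le_pow _ _ (by omega)
  have hlcm : ∀ d₁ d₂ : ℕ, d₁ ∣ s.prodPrimes → d₂ ∣ s.prodPrimes →
      (∏ p ∈ (Nat.lcm d₁ d₂).primeFactors, (c p : ℝ)) ≤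
      (∏ p ∈ d₁.primeFactors, (c p : ℝ)) * ∏ p ∈ d₂.primeFactors, (c p : ℝ) := by
    intro d₁ d₂ h₁ h₂
    have h10 : d₁ ≠ 0 := ne_zero_of_dvd_ne_zero hP0 h₁
    have h20 : d₂ ≠ 0 := ne_zero_of_dvd_ne_zero hP0 h₂
    have hB1 : ∀ p ∈ d₁.primeFactors, (1 : ℝ) ≤ (c p : ℝ) := fun p hp =>
      Nat.one_le_cast.mpr (hB p (hsub d₁ h₁ hp)).1
    have hlcm' : (Nat.lcm d₁ d₂).primeFactors = d₁.primeFactors ∪ d₂.primeFactors := by
      rw [← Nat.support_factorization, Nat.factorization_lcm h10 h20, Finsupp.support_sup,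
        Nat.support_factorization, Nat.support_factorization]
    rw [hlcm',
      ← Finset.prod_union_inter (s₁ := d₁.primeFactors) (s₂ := d₂.primeFactors)]
    have hone : (1 : ℝ) ≤ ∏ p ∈ d₁.primeFactors ∩ d₂.primeFactors, (c p : ℝ) := by
      refine Finset.one_le_prod ?_
      intro p hp
      exact hB1 p (Finset.mem_inter.mp hp).1
    exact le_mul_of_one_le_right (by positivity) hone
  have hsel := selberg_bound s hQ (fun d => ∏ p ∈ d.primeFactors, (c p : ℝ))
    (fun d _ => by positivity) hrem hlcm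
  -- the error term
  have herr : (∑ d ∈ s.prodPrimes.divisors, if d ≤ z ^ 9 then s.selbergTerms d * (s.nu d)⁻¹ *
      (∏ p ∈ d.primeFactors, (c p : ℝ)) else 0) ≤ (z : ℝ) ^ 27 := by
    rw [← Finset.sum_filter]
    calc _ ≤ ∑ d ∈ s.prodPrimes.divisors.filter (fun d => d ≤ z ^ 9), ((z : ℝ) ^ 9) ^ 2 := by
          refine Finset.sum_le_sum fun d hd => ?_
          rw [Finset.mem_filter] at hd
          have hd' := Nat.dvd_of_mem_divisors hd.1
          have hd0 : d ≠ 0 := ne_zero_of_dvd_ne_zero hP0 hd'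
          have hsq : Squarefree d := BoundingSieve.squarefree_of_dvd_prodPrimes hd'
          have hnu0 : s.nu d ≠ 0 := BoundingSieve.nu_ne_zero hd'
          rw [BoundingSieve.selbergTerms_apply, mul_right_comm (s.nu d), mul_inv_cancel₀ hnu0,
            one_mul, ← Finset.prod_mul_distrib]
          have h1 : ∀ p ∈ d.primeFactors, (1 - s.nu p)⁻¹ * (c p : ℝ) ≤ (p : ℝ) ^ 2 := by
            intro p hp
            have hpP := hsub d hd' hp
            rw [hnup p hpP]
            have h2 : (c p : ℝ) ≤ 2 := by exact_mod_cast (hB p hpP).2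
            have h3 : (3 : ℝ) ≤ p := by exact_mod_cast (hP p hpP).2
            have h4 : (c p : ℝ) / p ≤ 2 / 3 := by
              rw [div_le_div_iff₀ (by linarith) (by norm_num)]
              nlinarith
            have h5 : (1 - (c p : ℝ) / p)⁻¹ ≤ 3 := by
              rw [inv_le_comm₀ (by linarith) (by norm_num)]
              linarith
            calc (1 - (c p : ℝ) / p)⁻¹ * (c p : ℝ) ≤ 3 * 2 := by gcongr
              _ ≤ (p : ℝ) ^ 2 := by nlinarith
          have h2 : ∏ p ∈ d.primeFactors, ((1 - s.nu p)⁻¹ * (c p : ℝ))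
              ≤ ∏ p ∈ d.primeFactors, (p : ℝ) ^ 2 := by
            refine Finset.prod_le_prod (fun p hp => ?_) h1
            have h3 := s.nu_lt_one_of_prime p (Nat.prime_of_mem_primeFactors hp)
              ((Nat.dvd_of_mem_primeFactors hp).trans hd')
            have h4 : 0 < (1 - s.nu p)⁻¹ := inv_pos.mpr (by linarith)
            positivity
          refine h2.trans ?_
          rw [Finset.prod_pow, ← Nat.cast_prod, Nat.prod_primeFactors_of_squarefree hsq]
          have h3 : (d : ℝ) ≤ (z : ℝ) ^ 9 := by exact_mod_cast hd.2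
          gcongr
      _ ≤ (z : ℝ) ^ 9 * ((z : ℝ) ^ 9) ^ 2 := by
          rw [Finset.sum_const, nsmul_eq_mul]
          gcongr
          have h1 : s.prodPrimes.divisors.filter (fun d => d ≤ z ^ 9) ⊆ Icc 1 (z ^ 9) := by
            intro d hd
            rw [Finset.mem_filter] at hd
            rw [Finset.mem_Icc]
            exact ⟨Nat.pos_of_ne_zero (ne_zero_of_dvd_ne_zero hP0 (Nat.dvd_of_mem_divisors hd.1)),
              hd.2⟩
          have h2 := Finset.card_le_card h1
          rw [Nat.card_Icc, Nat.add_sub_cancel] at h2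
          exact_mod_cast h2
      _ = (z : ℝ) ^ 27 := by ring
  have herr0 : 0 ≤ (∑ d ∈ s.prodPrimes.divisors, if d ≤ z ^ 9 then s.selbergTerms d * (s.nu d)⁻¹ *
      (∏ p ∈ d.primeFactors, (c p : ℝ)) else 0) := by
    refine Finset.sum_nonneg fun d hd => ?_
    have hd' := Nat.dvd_of_mem_divisors hd
    have h1 : 0 < s.selbergTerms d := BoundingSieve.selbergTerms_pos hd'
    have h2 : 0 < s.nu d := BoundingSieve.nu_pos_of_dvd_prodPrimes hd'
    split_ifs
    · positivity
    · exact le_rfl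
  have hmain : s.totalMass / GG s (z ^ 9) ≤ 2 * (Y * V) := by
    have hGpos := GG_pos s hQ
    rw [hX, div_le_iff₀ hGpos]
    calc (Y : ℝ) = 2 * (Y * V) * (1 / 2 * V⁻¹) := by field_simp
      _ ≤ _ := by gcongr
  refine hsel.trans ?_
  calc _ ≤ 2 * (Y * V) + ((z : ℝ) ^ 27) ^ 2 := by gcongr
    _ = 2 * (Y * V) + (z : ℝ) ^ 54 := by ring
    _ ≤ 2 * (Y * V) + Y * V := by gcongr
    _ = 3 * Y * V := by ring

end Pool.Agent.PnMn.Sieve

namespace Pool.Agent.PnMn

open Finset Sieve

open scoped Classical in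
/-- The Selberg upper bound sieve (task T-A). -/
theorem generalSieve : GeneralSieve := by
  refine ⟨56, by norm_num, ?_⟩
  intro z P B M Y hPz hB hY hzY
  have hP : ∀ p ∈ P, p.Prime ∧ 3 ≤ p := fun p hp => ⟨(hPz p hp).1, (hPz p hp).2.1⟩
  rcases Nat.lt_or_ge z 2 with hz | hz
  · -- no primes at all
    have hPe : P = ∅ := by
      rw [Finset.eq_empty_iff_forall_notMem]
      intro p hp
      have := hPz p hp
      omega
    subst hPe
    simp
    have : (1 : ℝ) ≤ Y := by exact_mod_cast hY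
    linarith
  have hz0 : (2 : ℝ) ≤ z := by exact_mod_cast hz
  have hVlow := V_lower z hz P (fun p => (B p).card) hPz hB
  have hYV : (z : ℝ) ^ 54 ≤ Y * ∏ p ∈ P, (1 - ((B p).card : ℝ) / p) := by
    have h1 : (z : ℝ) ^ 56 ≤ Y := by exact_mod_cast hzY
    calc (z : ℝ) ^ 54 = (z : ℝ) ^ 56 * (1 / (z : ℝ) ^ 2) := by
          have : (z : ℝ) ≠ 0 := by linarith
          field_simp
      _ ≤ _ := mul_le_mul h1 hVlow (by positivity) (by positivity)
  have h1 := sifted_sv P B M Y hP hB
  have h2 := final_abstract (sv P B M Y hP hB) z Y P (fun p => (B p).card) hz hPz hB hYV rfl (fun p hp => by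
      have hpp := (hP p hp).1
      rw [nu_sv P B M Y hP hB hpp.ne_zero, hpp.primeFactors, Finset.prod_singleton]) rfl
      (fun d hd => rem_sv P B M Y hP hB hd)
  refine le_trans ?_ h2
  refine le_trans (le_of_eq ?_) h1
  congr!

end Pool.Agent.PnMn
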