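import Mathlib
import Pool.Agent.PnMn.Defs

set_option autoImplicit false

/-!
# Corollaries of the Selberg sieve: `SieveOne` and `SieveTwo`
-/

namespace Pool.Agent.PnMn.SieveCor

open Finset Pool.Agent.PnMn

open scoped Classical

/-- primes in `[3, x]` -/
noncomputable def pr (x : ℕ) : Finset ℕ := (Finset.Icc 3 x).filter Nat.Prime

lemma mem_pr {x p : ℕ} : p ∈ pr x ↔ (3 ≤ p ∧ p ≤ x) ∧ p.Prime := by
  simp [pr]

lemma log_le_prod (N : ℕ) (hN : 1 ≤ N) :
    Real.log N ≤ ∏ p ∈ N.primesBelow, (1 - (p : ℝ)⁻¹)⁻¹ := by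
  let f : ℕ →* ℝ := { toFun := fun n => (n : ℝ)⁻¹, map_one' := by simp, map_mul' := by intro a b; simp [mul_comm] }
  have h : ∀ {p : ℕ}, p.Prime → ‖f p‖ < 1 := by
    intro p hp
    have h2 : (2 : ℝ) ≤ p := by exact_mod_cast hp.two_le
    show ‖((p : ℝ))⁻¹‖ < 1
    rw [norm_inv, Real.norm_natCast]
    exact inv_lt_one_of_one_lt₀ (by linarith)
  obtain ⟨h1, h2⟩ := EulerProduct.summable_and_hasSum_smoothNumbers_prod_primesBelow_geometric h N
  have h3 : ∏ p ∈ N.primesBelow, (1 - (p : ℝ)⁻¹)⁻¹ = ∑' m : N.smoothNumbers, ((m : ℕ) : ℝ)⁻¹ := h2.tsum_eq.symm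
  rw [h3]
  obtain ⟨n, rfl⟩ : ∃ n, N = n + 1 := ⟨N - 1, by omega⟩
  have h4 : Real.log ((n + 1 : ℕ) : ℝ) ≤ ((harmonic n : ℚ) : ℝ) := log_add_one_le_harmonic n
  refine h4.trans ?_
  have hs : Summable (fun m : (n + 1).smoothNumbers => ((m : ℕ) : ℝ)⁻¹) := h2.summable
  let F : Finset (n + 1).smoothNumbers := (Finset.range n).attach.image
    (fun i => ⟨i.1 + 1, Nat.mem_smoothNumbers_of_lt (Nat.succ_pos _) (by
      have := Finset.mem_range.1 i.2
      omega)⟩)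
  have h5 : ∑ m ∈ F, ((m : ℕ) : ℝ)⁻¹ ≤ ∑' m : (n + 1).smoothNumbers, ((m : ℕ) : ℝ)⁻¹ :=
    hs.sum_le_tsum F (fun m _ => by positivity)
  refine le_trans (le_of_eq ?_) h5
  rw [Finset.sum_image]
  · rw [Finset.sum_attach (Finset.range n) (fun i => (((i + 1 : ℕ)) : ℝ)⁻¹)]
    rw [harmonic]
    push_cast
    rfl
  · intro i _ j _ hij
    apply Subtype.ext
    have := congrArg (fun x : (n + 1).smoothNumbers => (x : ℕ)) hij
    simpa using this

lemma one_sub_pos {p : ℕ} (hp : 2 ≤ p) : (0 : ℝ) < 1 - 1 / (p : ℝ) := by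
  have h2 : (2 : ℝ) ≤ p := by exact_mod_cast hp
  have : 1 / (p : ℝ) ≤ 1 / 2 := one_div_le_one_div_of_le (by norm_num) h2
  linarith

lemma one_sub_le_one (p : ℕ) : 1 - 1 / (p : ℝ) ≤ 1 := by
  have : (0 : ℝ) ≤ 1 / (p : ℝ) := by positivity
  linarith

lemma primesBelow_eq (x : ℕ) (hx : 2 ≤ x) : (x + 1).primesBelow = insert 2 (pr x) := by
  ext p
  rw [Nat.mem_primesBelow, Finset.mem_insert, mem_pr]
  constructor
  · rintro ⟨h1, h2⟩
    rcases h2.two_le.eq_or_lt with h | h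
    · left; exact h.symm
    · right; exact ⟨⟨h, by omega⟩, h2⟩
  · rintro (h | ⟨⟨h1, h2⟩, h3⟩)
    · subst h; exact ⟨by omega, Nat.prime_two⟩
    · exact ⟨by omega, h3⟩

lemma V_le (x : ℕ) (hx : 2 ≤ x) : ∏ p ∈ pr x, (1 - 1 / (p : ℝ)) ≤ 2 / Real.log x := by
  have h1 := log_le_prod (x + 1) (by omega)
  rw [primesBelow_eq x hx, Finset.prod_insert (by simp [mem_pr])] at h1
  have hpos : 0 < ∏ p ∈ pr x, (1 - 1 / (p : ℝ)) :=
    Finset.prod_pos (fun p hp => one_sub_pos (mem_pr.1 hp).2.two_le)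
  have h2 : ∏ p ∈ pr x, (1 - (p : ℝ)⁻¹)⁻¹ = (∏ p ∈ pr x, (1 - 1 / (p : ℝ)))⁻¹ := by
    rw [← Finset.prod_inv_distrib]
    apply Finset.prod_congr rfl
    intro p _
    rw [one_div]
  rw [h2] at h1
  have hlog : 0 < Real.log x := Real.log_pos (by exact_mod_cast hx)
  have h3 : Real.log x ≤ Real.log ((x + 1 : ℕ) : ℝ) :=
    Real.log_le_log (by positivity) (by push_cast; linarith)
  have h4 : (1 - ((2 : ℕ) : ℝ)⁻¹)⁻¹ = 2 := by norm_num
  rw [h4] at h1
  rw [le_div_iff₀ hlog]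
  have h5 : Real.log x ≤ 2 * (∏ p ∈ pr x, (1 - 1 / (p : ℝ)))⁻¹ := h3.trans h1
  calc (∏ p ∈ pr x, (1 - 1 / (p : ℝ))) * Real.log x
      ≤ (∏ p ∈ pr x, (1 - 1 / (p : ℝ))) * (2 * (∏ p ∈ pr x, (1 - 1 / (p : ℝ)))⁻¹) := by gcongr
    _ = 2 := by field_simp

lemma V_pow (m : ℕ) (hm : 1 ≤ m) : ∏ p ∈ pr (2 ^ m), (1 - 1 / (p : ℝ)) ≤ 3 / m := by
  have h1 : 2 ≤ 2 ^ m := by
    calc 2 = 2 ^ 1 := by norm_num
      _ ≤ 2 ^ m := Nat.pow_le_pow_right (by norm_num) hm
  refine (V_le _ h1).trans ?_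
  have hm' : (0 : ℝ) < m := by exact_mod_cast hm
  have h2 : Real.log ((2 ^ m : ℕ) : ℝ) = m * Real.log 2 := by
    push_cast; rw [Real.log_pow]
  rw [h2, div_le_div_iff₀ (by positivity) hm']
  have := Real.log_two_gt_d9
  nlinarith

lemma aux_prod (x : ℕ) (hx : 2 ≤ x) :
    ∏ n ∈ Finset.Icc 3 x, (1 + 1 / (4 * (n : ℝ) * (n - 1))) ≤ 2 - 1 / x := by
  induction x, hx using Nat.le_induction with
  | base => norm_num
  | succ x hx ih =>
    rw [Finset.prod_Icc_succ_top (by omega)]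
    have hx' : (2 : ℝ) ≤ x := by exact_mod_cast hx
    have hx0 : (0 : ℝ) < x := by linarith
    have e : (((x + 1 : ℕ) : ℝ) - 1) = x := by push_cast; ring
    have hnn : 0 ≤ 1 + 1 / (4 * ((x + 1 : ℕ) : ℝ) * (((x + 1 : ℕ) : ℝ) - 1)) := by
      rw [e]; positivity
    calc _ ≤ (2 - 1 / (x : ℝ)) * (1 + 1 / (4 * ((x + 1 : ℕ) : ℝ) * (((x + 1 : ℕ) : ℝ) - 1))) := by gcongr
      _ ≤ 2 - 1 / ((x + 1 : ℕ) : ℝ) := by
        rw [e]
        push_cast
        rw [← sub_nonneg]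
        have : 2 - 1 / ((x : ℝ) + 1) - (2 - 1 / (x : ℝ)) * (1 + 1 / (4 * ((x : ℝ) + 1) * x)) =
            (2 * x + 1) / (4 * x ^ 2 * (x + 1)) := by field_simp; ring
        rw [this]; positivity

lemma one_le_prod_real {ι : Type*} (s : Finset ι) (f : ι → ℝ) (h : ∀ i ∈ s, 1 ≤ f i) :
    1 ≤ ∏ i ∈ s, f i := by
  calc (1 : ℝ) = ∏ _i ∈ s, (1 : ℝ) := by simp
    _ ≤ ∏ i ∈ s, f i := Finset.prod_le_prod (fun _ _ => zero_le_one) h

lemma half_sq (m : ℕ) : (∏ p ∈ pr (2 ^ m), (1 - 1 / (2 * (p : ℝ)))) ^ 2 ≤ 12 / (1 + (m : ℝ)) := by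
  rcases Nat.eq_zero_or_pos m with hm | hm
  · subst hm
    have : pr (2 ^ 0) = ∅ := by
      ext p; simp [mem_pr]; omega
    rw [this]; norm_num
  · have h1 : 2 ≤ 2 ^ m := by
      calc 2 = 2 ^ 1 := by norm_num
        _ ≤ 2 ^ m := Nat.pow_le_pow_right (by norm_num) hm
    have e : (∏ p ∈ pr (2 ^ m), (1 - 1 / (2 * (p : ℝ)))) ^ 2 =
        (∏ p ∈ pr (2 ^ m), (1 - 1 / (p : ℝ))) * ∏ p ∈ pr (2 ^ m), (1 + 1 / (4 * (p : ℝ) * (p - 1))) := by
      rw [← Finset.prod_pow, ← Finset.prod_mul_distrib]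
      apply Finset.prod_congr rfl
      intro p hp
      have h3 : (3 : ℝ) ≤ p := by exact_mod_cast (mem_pr.1 hp).1.1
      have h4 : (p : ℝ) - 1 ≠ 0 := by linarith
      have h5 : (p : ℝ) ≠ 0 := by linarith
      field_simp
      ring
    have h2 : ∏ p ∈ pr (2 ^ m), (1 + 1 / (4 * (p : ℝ) * (p - 1))) ≤ 2 := by
      refine le_trans ?_ (le_trans (aux_prod (2 ^ m) h1) (by
        have : (0 : ℝ) ≤ 1 / ((2 ^ m : ℕ) : ℝ) := by positivity
        linarith))
      have hone : ∀ n : ℕ, n ∈ Finset.Icc 3 (2 ^ m) → (1 : ℝ) ≤ 1 + 1 / (4 * (n : ℝ) * (n - 1)) := by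
        intro n hn
        have h3 : (3 : ℝ) ≤ n := by exact_mod_cast (Finset.mem_Icc.1 hn).1
        have : 0 < (n : ℝ) - 1 := by linarith
        have : 0 ≤ 1 / (4 * (n : ℝ) * (n - 1)) := by positivity
        linarith
      rw [← Finset.prod_filter_mul_prod_filter_not (Finset.Icc 3 (2 ^ m) : Finset ℕ) Nat.Prime]
      have hA : (0 : ℝ) ≤ ∏ n ∈ (Finset.Icc 3 (2 ^ m) : Finset ℕ).filter Nat.Prime, (1 + 1 / (4 * (n : ℝ) * (n - 1))) :=
        Finset.prod_nonneg (fun n hn => le_trans zero_le_one (hone n (Finset.mem_filter.1 hn).1))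
      have hB : (1 : ℝ) ≤ ∏ n ∈ (Finset.Icc 3 (2 ^ m) : Finset ℕ).filter (fun n => ¬ n.Prime),
          (1 + 1 / (4 * (n : ℝ) * (n - 1))) :=
        one_le_prod_real _ _ (fun n hn => hone n (Finset.mem_filter.1 hn).1)
      exact le_mul_of_one_le_right hA hB
    have h3 := V_pow m hm
    have hm' : (1 : ℝ) ≤ m := by exact_mod_cast hm
    rw [e]
    have h6 : 0 ≤ ∏ p ∈ pr (2 ^ m), (1 - 1 / (p : ℝ)) :=
      Finset.prod_nonneg (fun p hp => (one_sub_pos (mem_pr.1 hp).2.two_le).le)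
    calc _ ≤ (3 / (m : ℝ)) * 2 := by
          apply mul_le_mul h3 h2 _ (by positivity)
          exact Finset.prod_nonneg (fun p hp => by
            have h3 : (3 : ℝ) ≤ p := by exact_mod_cast (mem_pr.1 hp).1.1
            have : 0 < (p : ℝ) - 1 := by linarith
            positivity)
      _ ≤ 12 / (1 + (m : ℝ)) := by
        rw [div_mul_eq_mul_div, div_le_div_iff₀ (by positivity) (by positivity)]
        nlinarith

lemma prod_anti {ι : Type*} (S T : Finset ι) (h : S ⊆ T) (f : ι → ℝ) (h0 : ∀ i ∈ T, 0 ≤ f i)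
    (h1 : ∀ i ∈ T, f i ≤ 1) : ∏ i ∈ T, f i ≤ ∏ i ∈ S, f i := by
  classical
  rw [← Finset.prod_sdiff h]
  apply mul_le_of_le_one_left (Finset.prod_nonneg (fun i hi => h0 i (h hi)))
  exact Finset.prod_le_one (fun i hi => h0 i (Finset.mem_sdiff.1 hi).1)
    (fun i hi => h1 i (Finset.mem_sdiff.1 hi).1)

lemma tq_mul (l : ℕ) (hl : 1 ≤ l) : tq l * ∏ p ∈ l.primeFactors, (1 - 1 / (p : ℝ)) = 1 := by
  have h := Nat.totient_eq_mul_prod_factors l
  have h' : ((Nat.totient l : ℕ) : ℝ) = l * ∏ p ∈ l.primeFactors, (1 - 1 / (p : ℝ)) := by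
    have := congrArg (fun q : ℚ => (q : ℝ)) h
    simp only [Rat.cast_natCast, Rat.cast_mul, Rat.cast_prod, Rat.cast_sub, Rat.cast_one,
      Rat.cast_inv] at this
    rw [this]
    simp [one_div]
  have hpos : (0 : ℝ) < Nat.totient l := by exact_mod_cast Nat.totient_pos.2 hl
  have hl0 : (0 : ℝ) < l := by exact_mod_cast hl
  have : ∏ p ∈ l.primeFactors, (1 - 1 / (p : ℝ)) = (Nat.totient l : ℝ) / l := by
    rw [h']; field_simp
  rw [tq, this]
  field_simp

lemma tq_one_le (l : ℕ) (hl : 1 ≤ l) : 1 ≤ tq l := by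
  rw [tq, one_le_div (by exact_mod_cast Nat.totient_pos.2 hl)]
  exact_mod_cast Nat.totient_le l

lemma filter_prod_le' (l : ℕ) (hl : 1 ≤ l) (S : Finset ℕ) (hS : ∀ p ∈ S, p.Prime) :
    ∏ p ∈ S.filter (fun p => ¬ p ∣ l), (1 - 1 / (p : ℝ)) ≤
      tq l * ∏ p ∈ S, (1 - 1 / (p : ℝ)) := by
  rw [← Finset.prod_filter_mul_prod_filter_not S (fun p => p ∣ l)]
  have h1 : ∏ p ∈ l.primeFactors, (1 - 1 / (p : ℝ)) ≤
      ∏ p ∈ S.filter (fun p => p ∣ l), (1 - 1 / (p : ℝ)) := by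
    apply prod_anti
    · intro p hp
      rw [Finset.mem_filter] at hp
      exact Nat.mem_primeFactors.2 ⟨hS p hp.1, hp.2, by omega⟩
    · intro p hp
      exact (one_sub_pos (Nat.prime_of_mem_primeFactors hp).two_le).le
    · intro p _
      exact one_sub_le_one p
  have h2 := tq_mul l hl
  have h3 := tq_one_le l hl
  have h4 : 0 ≤ ∏ p ∈ S.filter (fun p => ¬ p ∣ l), (1 - 1 / (p : ℝ)) :=
    Finset.prod_nonneg (fun p hp => (one_sub_pos (hS p (Finset.mem_filter.1 hp).1).two_le).le)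
  calc ∏ p ∈ S.filter (fun p => ¬ p ∣ l), (1 - 1 / (p : ℝ))
      = (tq l * ∏ p ∈ l.primeFactors, (1 - 1 / (p : ℝ))) *
        ∏ p ∈ S.filter (fun p => ¬ p ∣ l), (1 - 1 / (p : ℝ)) := by rw [h2, one_mul]
    _ ≤ (tq l * ∏ p ∈ S.filter (fun p => p ∣ l), (1 - 1 / (p : ℝ))) *
        ∏ p ∈ S.filter (fun p => ¬ p ∣ l), (1 - 1 / (p : ℝ)) := by gcongr
    _ = _ := by ring

lemma filter_prod_le (l x : ℕ) (hl : 1 ≤ l) :
    ∏ p ∈ (pr x).filter (fun p => ¬ p ∣ l), (1 - 1 / (p : ℝ)) ≤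
      tq l * ∏ p ∈ pr x, (1 - 1 / (p : ℝ)) :=
  filter_prod_le' l hl (pr x) (fun _ hp => (mem_pr.1 hp).2)

lemma blk_eq (H : ℕ) : blk H = Finset.Ioc (2 ^ H - 1) (2 ^ H - 1 + 2 ^ H) := by
  have h : 0 < 2 ^ H := by positivity
  ext b
  rw [blk, Finset.mem_Ico, Finset.mem_Ioc, pow_succ]
  omega

lemma blk_card (H : ℕ) : (blk H).card = 2 ^ H := by
  rw [blk, Nat.card_Ico, pow_succ]; omega

/-- The form of the sieve hypothesis for a fixed exponent. -/
def GS (s : ℕ) : Prop := ∀ (z : ℕ) (P : Finset ℕ) (B : (p : ℕ) → Finset (ZMod p)) (M Y : ℕ),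
    (∀ p ∈ P, p.Prime ∧ 3 ≤ p ∧ p ≤ z) → (∀ p ∈ P, 1 ≤ (B p).card ∧ (B p).card ≤ 2) →
    1 ≤ Y → z ^ s ≤ Y →
    (((Finset.Ioc M (M + Y)).filter (fun b : ℕ => ∀ p ∈ P, ((b : ℕ) : ZMod p) ∉ B p)).card : ℝ)
      ≤ 3 * Y * ∏ p ∈ P, (1 - ((B p).card : ℝ) / p)

lemma GS_use {s : ℕ} (hG : GS s) (z : ℕ) (P : Finset ℕ) (B : (p : ℕ) → Finset (ZMod p)) (M Y : ℕ)
    (h1 : ∀ p ∈ P, p.Prime ∧ 3 ≤ p ∧ p ≤ z) (h2 : ∀ p ∈ P, 1 ≤ (B p).card ∧ (B p).card ≤ 2)
    (h3 : 1 ≤ Y) (h4 : z ^ s ≤ Y) (S : Finset ℕ) (hS : S ⊆ Finset.Ioc M (M + Y))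
    (hS' : ∀ b ∈ S, ∀ p ∈ P, ((b : ℕ) : ZMod p) ∉ B p) :
    (S.card : ℝ) ≤ 3 * Y * ∏ p ∈ P, (1 - ((B p).card : ℝ) / p) := by
  refine le_trans ?_ (hG z P B M Y h1 h2 h3 h4)
  have : S ⊆ (Finset.Ioc M (M + Y)).filter (fun b : ℕ => ∀ p ∈ P, ((b : ℕ) : ZMod p) ∉ B p) := by
    intro b hb
    exact Finset.mem_filter.2 ⟨hS hb, hS' b hb⟩
  exact_mod_cast Finset.card_le_card this

lemma not_dvd_of_prime {l b p H m : ℕ} (hb : b ∈ blk H) (hp : p ∈ pr (2 ^ m)) (hm : m ≤ H)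
    (hl : 1 ≤ l) (hpr : (l * b + 1).Prime) : ¬ p ∣ l * b + 1 := by
  intro hd
  have h1 := (Nat.prime_dvd_prime_iff_eq (mem_pr.1 hp).2 hpr).1 hd
  have h2 : p ≤ 2 ^ H := (mem_pr.1 hp).1.2.trans (Nat.pow_le_pow_right (by norm_num) hm)
  have h3 : 2 ^ H ≤ b := (Finset.mem_Ico.1 hb).1
  have h4 : b ≤ l * b := Nat.le_mul_of_pos_left b hl
  omega

lemma dvd_of_eq_neg_inv {l b p : ℕ} (hp : p.Prime) (hpl : ¬ p ∣ l)
    (h : (b : ZMod p) = -((l : ZMod p))⁻¹) : p ∣ l * b + 1 := by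
  have := Fact.mk hp
  have hl : (l : ZMod p) ≠ 0 := by
    intro h0
    exact hpl ((ZMod.natCast_eq_zero_iff l p).1 h0)
  rw [← ZMod.natCast_eq_zero_iff]
  push_cast
  rw [h]
  field_simp
  ring

/-- residue classes for the first sieve -/
noncomputable def BT (l : ℕ) (T : Finset ℕ) (p : ℕ) : Finset (ZMod p) :=
  (if p ∈ T then {0} else ∅) ∪ (if ¬ p ∣ l then {-((l : ZMod p))⁻¹} else ∅)

lemma BT_card_le (l : ℕ) (T : Finset ℕ) (p : ℕ) : (BT l T p).card ≤ 2 := by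
  unfold BT
  refine (Finset.card_union_le _ _).trans ?_
  split_ifs <;> simp

lemma BT_card_eq (l : ℕ) (T : Finset ℕ) (p : ℕ) (hp : p.Prime) :
    (BT l T p).card = (if p ∈ T then 1 else 0) + (if ¬ p ∣ l then 1 else 0) := by
  unfold BT
  by_cases h1 : p ∈ T
  · by_cases h2 : p ∣ l
    · simp [h1, h2]
    · have := Fact.mk hp
      have hl : (l : ZMod p) ≠ 0 := by
        intro h0
        exact h2 ((ZMod.natCast_eq_zero_iff l p).1 h0)
      simp only [h1, h2, if_true, not_false_iff]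
      rw [Finset.card_union_of_disjoint]
      · simp
      · rw [Finset.disjoint_singleton]
        intro h
        exact hl (inv_eq_zero.1 (neg_eq_zero.1 h.symm))
  · by_cases h2 : p ∣ l
    · simp [h1, h2]
    · simp [h1, h2]

lemma sieve_T (s : ℕ) (hG : GS s) (l H m : ℕ) (hl : 1 ≤ l) (hs : 0 < s)
    (hms : m * s ≤ H) (T : Finset ℕ) (hT : T ⊆ pr (2 ^ m)) :
    (((blk H).filter (fun b => (l * b + 1).Prime ∧ ∀ p ∈ T, ¬ p ∣ b)).card : ℝ) ≤
      3 * 2 ^ H * (∏ p ∈ (pr (2 ^ m)).filter (fun p => ¬ p ∣ l), (1 - 1 / (p : ℝ))) *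
        ∏ p ∈ T, (1 - 1 / (p : ℝ)) := by
  have hmH : m ≤ H := (Nat.le_mul_of_pos_right m hs).trans hms
  refine (GS_use hG (2 ^ m) ((pr (2 ^ m)).filter (fun p => p ∈ T ∨ ¬ p ∣ l)) (BT l T)
    (2 ^ H - 1) (2 ^ H)
    (by
      intro p hp
      have := mem_pr.1 (Finset.mem_filter.1 hp).1
      exact ⟨this.2, this.1.1, this.1.2⟩)
    (by
      intro p hp
      refine ⟨?_, BT_card_le l T p⟩
      obtain ⟨h1, h2⟩ := Finset.mem_filter.1 hp
      rw [BT_card_eq l T p (mem_pr.1 h1).2]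
      rcases h2 with h2 | h2
      · simp [h2]
      · simp [h2])
    (Nat.one_le_two_pow)
    (by
      rw [← pow_mul]
      exact Nat.pow_le_pow_right (by norm_num) hms)
    ((blk H).filter (fun b => (l * b + 1).Prime ∧ ∀ p ∈ T, ¬ p ∣ b))
    (by rw [← blk_eq]; exact Finset.filter_subset _ _) (by
    intro b hb
    rw [Finset.mem_filter] at hb
    intro p hp hmem
    obtain ⟨h1, _⟩ := Finset.mem_filter.1 hp
    unfold BT at hmem
    rcases Finset.mem_union.1 hmem with h | h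
    · by_cases hpT : p ∈ T
      · rw [if_pos hpT, Finset.mem_singleton] at h
        exact hb.2.2 p hpT ((ZMod.natCast_eq_zero_iff b p).1 h)
      · rw [if_neg hpT] at h
        simp at h
    · by_cases hpl : p ∣ l
      · rw [if_neg (by simpa using hpl)] at h
        simp at h
      · rw [if_pos hpl, Finset.mem_singleton] at h
        exact not_dvd_of_prime hb.1 h1 hmH hl hb.2.1 (dvd_of_eq_neg_inv (mem_pr.1 h1).2 hpl h))).trans ?_
  push_cast
  rw [mul_assoc (3 * 2 ^ H)]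
  apply mul_le_mul_of_nonneg_left _ (by positivity)
  -- the product inequality
  have e1 : ∏ p ∈ (pr (2 ^ m)).filter (fun p => ¬ p ∣ l), (1 - 1 / (p : ℝ)) =
      ∏ p ∈ (pr (2 ^ m)).filter (fun p => p ∈ T ∨ ¬ p ∣ l),
        (if ¬ p ∣ l then (1 - 1 / (p : ℝ)) else 1) := by
    rw [← Finset.prod_filter, Finset.filter_filter]
    apply Finset.prod_congr _ (fun _ _ => rfl)
    ext p
    simp only [Finset.mem_filter]
    tauto
  have e2 : ∏ p ∈ T, (1 - 1 / (p : ℝ)) =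
      ∏ p ∈ (pr (2 ^ m)).filter (fun p => p ∈ T ∨ ¬ p ∣ l),
        (if p ∈ T then (1 - 1 / (p : ℝ)) else 1) := by
    rw [← Finset.prod_filter, Finset.filter_filter]
    apply Finset.prod_congr _ (fun _ _ => rfl)
    ext p
    simp only [Finset.mem_filter]
    constructor
    · intro h; exact ⟨hT h, Or.inl h, h⟩
    · intro h; exact h.2.2
  rw [e1, e2, ← Finset.prod_mul_distrib]
  apply Finset.prod_le_prod
  · intro p hp
    have h1 := mem_pr.1 (Finset.mem_filter.1 hp).1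
    have h3 : (3 : ℝ) ≤ p := by exact_mod_cast h1.1.1
    have h2 : ((BT l T p).card : ℝ) ≤ 2 := by exact_mod_cast BT_card_le l T p
    have : ((BT l T p).card : ℝ) / p ≤ 1 := by
      rw [div_le_one (by linarith)]; linarith
    linarith
  · intro p hp
    have h1 := mem_pr.1 (Finset.mem_filter.1 hp).1
    have h3 : (3 : ℝ) ≤ p := by exact_mod_cast h1.1.1
    rw [BT_card_eq l T p h1.2]
    by_cases h4 : p ∈ T
    · by_cases h5 : p ∣ l
      · simp [h4, h5]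
      · simp only [h4, h5, if_true, not_false_iff]
        have : (1 - 1 / (p : ℝ)) * (1 - 1 / (p : ℝ)) = 1 - 2 / p + (1 / p) ^ 2 := by ring
        rw [this]
        have : (0 : ℝ) ≤ (1 / (p : ℝ)) ^ 2 := by positivity
        push_cast
        linarith
    · by_cases h5 : p ∣ l
      · simp [h4, h5]
      · simp [h4, h5]

lemma wt_le_one (g n : ℕ) : wt g n ≤ 1 := by
  unfold wt
  exact pow_le_one₀ (by norm_num) (by norm_num)

lemma wt_nonneg (g n : ℕ) : 0 ≤ wt g n := by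
  unfold wt
  positivity

lemma pr_min_filter (m g : ℕ) : (pr (2 ^ m)).filter (fun p => p ≤ 2 ^ g) = pr (2 ^ (min m g)) := by
  ext p
  rw [Finset.mem_filter, mem_pr, mem_pr]
  rcases le_total m g with h | h
  · rw [min_eq_left h]
    have : 2 ^ m ≤ 2 ^ g := Nat.pow_le_pow_right (by norm_num) h
    constructor
    · intro h'; exact h'.1
    · intro h'; exact ⟨h', h'.1.2.trans this⟩
  · rw [min_eq_right h]
    have : 2 ^ g ≤ 2 ^ m := Nat.pow_le_pow_right (by norm_num) h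
    constructor
    · intro h'; exact ⟨⟨h'.1.1.1, h'.2⟩, h'.1.2⟩
    · intro h'; exact ⟨⟨⟨h'.1.1, h'.1.2.trans this⟩, h'.2⟩, h'.1.2⟩

lemma wt_le_prod (g m b : ℕ) (hb : 1 ≤ b) :
    wt g b ≤ ∏ p ∈ pr (2 ^ (min m g)), (if p ∣ b then (1 / 2 : ℝ) else 1) := by
  rw [← Finset.prod_filter, Finset.prod_const, wt]
  apply pow_le_pow_of_le_one (by norm_num) (by norm_num)
  unfold omA
  have hsub : (pr (2 ^ (min m g))).filter (fun p => p ∣ b) ⊆
      (b.primeFactorsList.filter (fun p => p ≤ 2 ^ g)).toFinset := by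
    intro p hp
    obtain ⟨h1, h2⟩ := Finset.mem_filter.1 hp
    rw [← pr_min_filter, Finset.mem_filter] at h1
    rw [List.mem_toFinset, List.mem_filter]
    refine ⟨(Nat.mem_primeFactorsList (by omega)).2 ⟨(mem_pr.1 h1.1).2, h2⟩, by simpa using h1.2⟩
  exact (Finset.card_le_card hsub).trans (List.toFinset_card_le _)

lemma prod_expand (Q : Finset ℕ) (b : ℕ) :
    ∏ p ∈ Q, (if p ∣ b then (1 / 2 : ℝ) else 1) =
      ∑ T ∈ Q.powerset, (1 / 2 : ℝ) ^ Q.card * (if ∀ p ∈ T, ¬ p ∣ b then 1 else 0) := by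
  have h1 : ∀ p ∈ Q, (if p ∣ b then (1 / 2 : ℝ) else 1) = (if p ∣ b then (0 : ℝ) else 1 / 2) + 1 / 2 := by
    intro p _
    split_ifs <;> norm_num
  rw [Finset.prod_congr rfl h1, Finset.prod_add]
  apply Finset.sum_congr rfl
  intro T hT
  rw [Finset.mem_powerset] at hT
  rw [Finset.prod_const]
  by_cases h : ∀ p ∈ T, ¬ p ∣ b
  · rw [if_pos h]
    have : ∏ p ∈ T, (if p ∣ b then (0 : ℝ) else 1 / 2) = (1 / 2) ^ T.card := by
      rw [← Finset.prod_const]
      apply Finset.prod_congr rfl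
      intro p hp
      rw [if_neg (h p hp)]
    rw [this, ← pow_add, Finset.card_sdiff_of_subset hT]
    have := Finset.card_le_card hT
    rw [mul_one]
    congr 1
    omega
  · rw [if_neg h, mul_zero]
    push Not at h
    obtain ⟨p, hp, hpb⟩ := h
    rw [Finset.prod_eq_zero (f := fun p => if p ∣ b then (0 : ℝ) else 1 / 2) hp (if_pos hpb),
      zero_mul]

lemma prod_expand' (Q : Finset ℕ) :
    ∏ p ∈ Q, (1 - 1 / (2 * (p : ℝ))) =
      ∑ T ∈ Q.powerset, (1 / 2 : ℝ) ^ Q.card * ∏ p ∈ T, (1 - 1 / (p : ℝ)) := by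
  have h1 : ∀ p ∈ Q, (1 - 1 / (2 * (p : ℝ))) = (1 / 2 * (1 - 1 / (p : ℝ))) + 1 / 2 := by
    intro p _
    ring
  rw [Finset.prod_congr rfl h1, Finset.prod_add]
  apply Finset.sum_congr rfl
  intro T hT
  rw [Finset.mem_powerset] at hT
  rw [Finset.prod_const, Finset.prod_mul_distrib, Finset.prod_const, Finset.card_sdiff_of_subset hT]
  have := Finset.card_le_card hT
  have e : (1 / 2 : ℝ) ^ Q.card = (1 / 2 : ℝ) ^ T.card * (1 / 2 : ℝ) ^ (Q.card - T.card) := by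
    rw [← pow_add]; congr 1; omega
  rw [e]
  ring

lemma sum_one_le (s : ℕ) (hG : GS s) (g l H m : ℕ) (hl : 1 ≤ l) (hs : 0 < s)
    (hms : m * s ≤ H) :
    ∑ b ∈ (blk H).filter (fun b => (l * b + 1).Prime), wt g b ≤
      3 * 2 ^ H * (∏ p ∈ (pr (2 ^ m)).filter (fun p => ¬ p ∣ l), (1 - 1 / (p : ℝ))) *
        ∏ p ∈ pr (2 ^ (min m g)), (1 - 1 / (2 * (p : ℝ))) := by
  set Q := pr (2 ^ (min m g)) with hQ
  have hQs : Q ⊆ pr (2 ^ m) := by
    rw [hQ, ← pr_min_filter]; exact Finset.filter_subset _ _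
  calc ∑ b ∈ (blk H).filter (fun b => (l * b + 1).Prime), wt g b
      ≤ ∑ b ∈ (blk H).filter (fun b => (l * b + 1).Prime),
          ∑ T ∈ Q.powerset, (1 / 2 : ℝ) ^ Q.card * (if ∀ p ∈ T, ¬ p ∣ b then 1 else 0) := by
        apply Finset.sum_le_sum
        intro b hb
        rw [← prod_expand]
        apply wt_le_prod
        have := (Finset.mem_Ico.1 (Finset.mem_filter.1 hb).1).1
        exact Nat.one_le_two_pow.trans this
    _ = ∑ T ∈ Q.powerset, (1 / 2 : ℝ) ^ Q.card *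
          (((blk H).filter (fun b => (l * b + 1).Prime ∧ ∀ p ∈ T, ¬ p ∣ b)).card : ℝ) := by
        rw [Finset.sum_comm]
        apply Finset.sum_congr rfl
        intro T _
        rw [← Finset.mul_sum]
        congr 1
        rw [← Finset.sum_filter, Finset.filter_filter]
        simp
    _ ≤ ∑ T ∈ Q.powerset, (1 / 2 : ℝ) ^ Q.card *
          (3 * 2 ^ H * (∏ p ∈ (pr (2 ^ m)).filter (fun p => ¬ p ∣ l), (1 - 1 / (p : ℝ))) *
        ∏ p ∈ T, (1 - 1 / (p : ℝ))) := by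
        apply Finset.sum_le_sum
        intro T hT
        apply mul_le_mul_of_nonneg_left _ (by positivity)
        exact sieve_T s hG l H m hl hs hms T ((Finset.mem_powerset.1 hT).trans hQs)
    _ = _ := by
        rw [prod_expand', Finset.mul_sum]
        apply Finset.sum_congr rfl
        intro T _
        ring

theorem sieveOne (h : GeneralSieve) : SieveOne := by
  obtain ⟨s, hs, hG⟩ := h
  have hs1 : (1 : ℝ) ≤ s := by exact_mod_cast hs
  refine ⟨200 * (s : ℝ) ^ 2, by positivity, ?_⟩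
  intro g l H hl hH
  have htq := tq_one_le l hl
  have hHr : (1 : ℝ) ≤ H := by exact_mod_cast hH
  have hmin : ((min H g : ℕ) : ℝ) ≤ H := by exact_mod_cast min_le_left _ _
  have hmin0 : (0 : ℝ) ≤ ((min H g : ℕ) : ℝ) := by positivity
  by_cases hm : H < s
  · have h1 : ∑ b ∈ (blk H).filter (fun b => (l * b + 1).Prime), wt g b ≤ 2 ^ H := by
      calc _ ≤ ∑ b ∈ (blk H).filter (fun b => (l * b + 1).Prime), (1 : ℝ) :=
            Finset.sum_le_sum (fun b _ => wt_le_one g b)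
        _ = (((blk H).filter (fun b => (l * b + 1).Prime)).card : ℝ) := by simp
        _ ≤ ((blk H).card : ℝ) := by exact_mod_cast Finset.card_le_card (Finset.filter_subset _ _)
        _ = 2 ^ H := by rw [blk_card]; push_cast; rfl
    refine h1.trans ?_
    have hsq : Real.sqrt (1 + (min H g : ℕ)) ≤ 1 + H := by
      rw [Real.sqrt_le_left (by linarith)]
      nlinarith
    have hsq0 : 0 < Real.sqrt (1 + (min H g : ℕ)) := Real.sqrt_pos.2 (by linarith)
    rw [le_div_iff₀ (by positivity)]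
    have hHs : (H : ℝ) + 1 ≤ s := by exact_mod_cast hm
    have h3 : (H : ℝ) * Real.sqrt (1 + (min H g : ℕ)) ≤ 200 * (s : ℝ) ^ 2 * tq l := by
      calc (H : ℝ) * Real.sqrt (1 + (min H g : ℕ)) ≤ s * s := by
            apply mul_le_mul (by linarith) (by linarith) hsq0.le (by linarith)
        _ ≤ 200 * (s : ℝ) ^ 2 * 1 := by nlinarith
        _ ≤ _ := by gcongr
    calc (2 : ℝ) ^ H * (H * Real.sqrt (1 + (min H g : ℕ)))
        ≤ 2 ^ H * (200 * (s : ℝ) ^ 2 * tq l) := by gcongr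
      _ = _ := by ring
  · push Not at hm
    set m := H / s with hmdef
    have hm1 : 1 ≤ m := (Nat.one_le_div_iff hs).2 hm
    have hms : m * s ≤ H := Nat.div_mul_le_self H s
    have hHm : H < s * (m + 1) := by
      have := Nat.lt_mul_div_succ H hs
      simpa [hmdef] using this
    have hHm' : (H : ℝ) ≤ 2 * s * m := by
      have h1 : (H : ℝ) < s * (m + 1) := by exact_mod_cast hHm
      have h2 : (1 : ℝ) ≤ m := by exact_mod_cast hm1
      nlinarith
    have hmr : (1 : ℝ) ≤ m := by exact_mod_cast hm1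
    have hsm : 1 + ((min H g : ℕ) : ℝ) ≤ 2 * s * (1 + ((min m g : ℕ) : ℝ)) := by
      rcases le_total m g with h | h
      · rw [min_eq_left h]; nlinarith
      · have h1 : ((min H g : ℕ) : ℝ) ≤ g := by exact_mod_cast min_le_right _ _
        rw [min_eq_right h]
        have : (0 : ℝ) ≤ g := by positivity
        nlinarith
    have hA := sum_one_le s hG g l H m hl hs hms
    have hB := filter_prod_le l (2 ^ m) hl
    have hV := V_pow m hm1
    have hD := half_sq (min m g)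
    set D := ∏ p ∈ pr (2 ^ (min m g)), (1 - 1 / (2 * (p : ℝ))) with hDdef
    have hD0 : 0 ≤ D := by
      apply Finset.prod_nonneg
      intro p hp
      have h3 : (3 : ℝ) ≤ p := by exact_mod_cast (mem_pr.1 hp).1.1
      have : 1 / (2 * (p : ℝ)) ≤ 1 := by
        rw [div_le_one (by linarith)]; linarith
      linarith
    set q := Real.sqrt (1 + (min H g : ℕ)) with hq
    have hq0 : 0 < q := Real.sqrt_pos.2 (by linarith)
    have hq2 : q ^ 2 = 1 + ((min H g : ℕ) : ℝ) := Real.sq_sqrt (by linarith)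
    have hDq : D * q ≤ 5 * s := by
      apply le_of_sq_le_sq _ (by positivity)
      rw [mul_pow, hq2]
      have hmm : 0 < 1 + ((min m g : ℕ) : ℝ) := by positivity
      calc D ^ 2 * (1 + ((min H g : ℕ) : ℝ)) ≤ (12 / (1 + ((min m g : ℕ) : ℝ))) *
            (2 * s * (1 + ((min m g : ℕ) : ℝ))) := by gcongr
        _ = 24 * s := by field_simp; ring
        _ ≤ (5 * s) ^ 2 := by nlinarith
    refine hA.trans ?_
    rw [le_div_iff₀ (by positivity)]
    have hF0 : 0 ≤ ∏ p ∈ (pr (2 ^ m)).filter (fun p => ¬ p ∣ l), (1 - 1 / (p : ℝ)) :=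
      Finset.prod_nonneg (fun p hp =>
        (one_sub_pos (mem_pr.1 (Finset.mem_filter.1 hp).1).2.two_le).le)
    have hE : (∏ p ∈ (pr (2 ^ m)).filter (fun p => ¬ p ∣ l), (1 - 1 / (p : ℝ))) * H ≤ 6 * s * tq l := by
      calc _ ≤ (tq l * (3 / m)) * (2 * s * m) := by
            apply mul_le_mul (hB.trans (by gcongr)) hHm' (by positivity) (by positivity)
        _ = _ := by field_simp; ring
    calc 3 * 2 ^ H * (∏ p ∈ (pr (2 ^ m)).filter (fun p => ¬ p ∣ l), (1 - 1 / (p : ℝ))) * D * (H * q)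
        = 3 * 2 ^ H * ((∏ p ∈ (pr (2 ^ m)).filter (fun p => ¬ p ∣ l), (1 - 1 / (p : ℝ))) * H) * (D * q) := by
          ring
      _ ≤ 3 * 2 ^ H * (6 * s * tq l) * (5 * s) := by gcongr
      _ = 90 * (s : ℝ) ^ 2 * tq l * 2 ^ H := by ring
      _ ≤ 200 * (s : ℝ) ^ 2 * tq l * 2 ^ H := by gcongr; norm_num

/-- residue classes for the second sieve -/
noncomputable def B2 (l k : ℕ) (p : ℕ) : Finset (ZMod p) := {-((l : ZMod p))⁻¹, -((k : ZMod p))⁻¹}

lemma B2_card (l k p : ℕ) (hp : p.Prime) (hlk : l < k)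
    (hd : ¬ p ∣ k - l) : (B2 l k p).card = 2 := by
  unfold B2
  apply Finset.card_pair
  intro h
  have := Fact.mk hp
  have h1 := inv_injective (neg_injective h)
  apply hd
  rw [← ZMod.natCast_eq_zero_iff, Nat.cast_sub hlk.le, h1, sub_self]

lemma count_two_le (s : ℕ) (hG : GS s) (l k H m : ℕ) (hl : 1 ≤ l) (hlk : l < k) (hs : 0 < s)
    (hms : m * s ≤ H) :
    (((blk H).filter (fun b => (l * b + 1).Prime ∧ (k * b + 1).Prime)).card : ℝ) ≤
      3 * 2 ^ H * (tq l * tq k * tq (k - l) * ∏ p ∈ pr (2 ^ m), (1 - 1 / (p : ℝ))) ^ 2 := by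
  have hmH : m ≤ H := (Nat.le_mul_of_pos_right m hs).trans hms
  set P := (((pr (2 ^ m)).filter (fun p => ¬ p ∣ l)).filter (fun p => ¬ p ∣ k)).filter
    (fun p => ¬ p ∣ k - l) with hP
  have hPmem : ∀ p ∈ P, p ∈ pr (2 ^ m) ∧ ¬ p ∣ l ∧ ¬ p ∣ k ∧ ¬ p ∣ k - l := by
    intro p hp
    rw [hP, Finset.mem_filter, Finset.mem_filter, Finset.mem_filter] at hp
    exact ⟨hp.1.1.1, hp.1.1.2, hp.1.2, hp.2⟩
  have hcard : ∀ p ∈ P, (B2 l k p).card = 2 := by
    intro p hp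
    obtain ⟨h1, _, _, h4⟩ := hPmem p hp
    exact B2_card l k p (mem_pr.1 h1).2 hlk h4
  refine (GS_use hG (2 ^ m) P (B2 l k) (2 ^ H - 1) (2 ^ H)
    (by
      intro p hp
      have := mem_pr.1 (hPmem p hp).1
      exact ⟨this.2, this.1.1, this.1.2⟩)
    (by
      intro p hp
      rw [hcard p hp]
      exact ⟨by norm_num, le_refl _⟩)
    (Nat.one_le_two_pow)
    (by
      rw [← pow_mul]
      exact Nat.pow_le_pow_right (by norm_num) hms)
    ((blk H).filter (fun b => (l * b + 1).Prime ∧ (k * b + 1).Prime))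
    (by rw [← blk_eq]; exact Finset.filter_subset _ _) (by
    intro b hb
    rw [Finset.mem_filter] at hb
    intro p hp hmem
    obtain ⟨h1, h2, h3, _⟩ := hPmem p hp
    unfold B2 at hmem
    rw [Finset.mem_insert, Finset.mem_singleton] at hmem
    rcases hmem with h | h
    · exact not_dvd_of_prime hb.1 h1 hmH hl hb.2.1 (dvd_of_eq_neg_inv (mem_pr.1 h1).2 h2 h)
    · exact not_dvd_of_prime hb.1 h1 hmH (by omega) hb.2.2
        (dvd_of_eq_neg_inv (mem_pr.1 h1).2 h3 h))).trans ?_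
  push_cast
  apply mul_le_mul_of_nonneg_left _ (by positivity)
  have hPpos : ∀ p ∈ P, 0 < 1 - 1 / (p : ℝ) := fun p hp =>
    one_sub_pos (mem_pr.1 (hPmem p hp).1).2.two_le
  calc ∏ p ∈ P, (1 - ((B2 l k p).card : ℝ) / p) ≤ ∏ p ∈ P, (1 - 1 / (p : ℝ)) ^ 2 := by
        apply Finset.prod_le_prod
        · intro p hp
          have h3 : (3 : ℝ) ≤ p := by exact_mod_cast (mem_pr.1 (hPmem p hp).1).1.1
          rw [hcard p hp]
          have : ((2 : ℕ) : ℝ) / p ≤ 1 := by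
            rw [div_le_one (by linarith)]; push_cast; linarith
          linarith
        · intro p hp
          rw [hcard p hp]
          have : (1 - 1 / (p : ℝ)) ^ 2 = 1 - 2 / p + (1 / p) ^ 2 := by ring
          rw [this]
          have : (0 : ℝ) ≤ (1 / (p : ℝ)) ^ 2 := by positivity
          push_cast
          linarith
    _ = (∏ p ∈ P, (1 - 1 / (p : ℝ))) ^ 2 := by rw [Finset.prod_pow]
    _ ≤ _ := by
        apply pow_le_pow_left₀ (Finset.prod_nonneg (fun p hp => (hPpos p hp).le))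
        have f1 := filter_prod_le l (2 ^ m) hl
        have f2 := filter_prod_le' k (by omega) ((pr (2 ^ m)).filter (fun p => ¬ p ∣ l))
          (fun p hp => (mem_pr.1 (Finset.mem_filter.1 hp).1).2)
        have f3 := filter_prod_le' (k - l) (by omega)
          (((pr (2 ^ m)).filter (fun p => ¬ p ∣ l)).filter (fun p => ¬ p ∣ k))
          (fun p hp => (mem_pr.1 (Finset.mem_filter.1 (Finset.mem_filter.1 hp).1).1).2)
        have t1 := tq_one_le l hl
        have t2 := tq_one_le k (by omega)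
        have t3 := tq_one_le (k - l) (by omega)
        refine f3.trans ?_
        calc tq (k - l) * _ ≤ tq (k - l) * (tq k * (tq l * ∏ p ∈ pr (2 ^ m), (1 - 1 / (p : ℝ)))) := by
              gcongr
              exact f2.trans (by gcongr)
          _ = _ := by ring

theorem sieveTwo (h : GeneralSieve) : SieveTwo := by
  obtain ⟨s, hs, hG⟩ := h
  have hs1 : (1 : ℝ) ≤ s := by exact_mod_cast hs
  refine ⟨200 * (s : ℝ) ^ 2, by positivity, ?_⟩
  intro l k H hl hlk hH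
  have t1 := tq_one_le l hl
  have t2 := tq_one_le k (by omega)
  have t3 := tq_one_le (k - l) (by omega)
  set t := tq l * tq k * tq (k - l) with ht
  have ht1 : 1 ≤ t := by
    rw [ht]
    exact one_le_mul_of_one_le_of_one_le (one_le_mul_of_one_le_of_one_le t1 t2) t3
  have hHr : (1 : ℝ) ≤ H := by exact_mod_cast hH
  rw [le_div_iff₀ (by positivity)]
  by_cases hm : H < s
  · have h1 : (((blk H).filter (fun b => (l * b + 1).Prime ∧ (k * b + 1).Prime)).card : ℝ) ≤ 2 ^ H := by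
      calc _ ≤ ((blk H).card : ℝ) := by exact_mod_cast Finset.card_le_card (Finset.filter_subset _ _)
        _ = 2 ^ H := by rw [blk_card]; push_cast; rfl
    have hHs : (H : ℝ) ≤ s := by exact_mod_cast hm.le
    calc _ ≤ (2 : ℝ) ^ H * (s : ℝ) ^ 2 := by gcongr
      _ = (1 * (s : ℝ) ^ 2) * 1 ^ 2 * 2 ^ H := by ring
      _ ≤ (200 * (s : ℝ) ^ 2) * t ^ 2 * 2 ^ H := by gcongr; norm_num
  · push Not at hm
    set m := H / s with hmdef
    have hm1 : 1 ≤ m := (Nat.one_le_div_iff hs).2 hm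
    have hms : m * s ≤ H := Nat.div_mul_le_self H s
    have hHm : H < s * (m + 1) := by
      have := Nat.lt_mul_div_succ H hs
      simpa [hmdef] using this
    have hmr : (1 : ℝ) ≤ m := by exact_mod_cast hm1
    have hHm' : (H : ℝ) ≤ 2 * s * m := by
      have h1 : (H : ℝ) < s * (m + 1) := by exact_mod_cast hHm
      nlinarith
    have hA := count_two_le s hG l k H m hl hlk hs hms
    have hV := V_pow m hm1
    have hV0 : 0 ≤ ∏ p ∈ pr (2 ^ m), (1 - 1 / (p : ℝ)) :=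
      Finset.prod_nonneg (fun p hp => (one_sub_pos (mem_pr.1 hp).2.two_le).le)
    calc _ ≤ (3 * 2 ^ H * (t * (3 / m)) ^ 2) * (2 * s * m) ^ 2 := by
          gcongr
          exact hA.trans (by gcongr)
      _ = 108 * (s : ℝ) ^ 2 * t ^ 2 * 2 ^ H := by field_simp; ring
      _ ≤ 200 * (s : ℝ) ^ 2 * t ^ 2 * 2 ^ H := by gcongr; norm_num

end Pool.Agent.PnMn.SieveCor
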