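import Mathlib
import Pool.Agent.PnMn.Defs

set_option autoImplicit false

/-!
# Averages of powers of `n / φ(n)` (task T-B of MP_06aaae_nt)
-/

namespace Pool.Agent.PnMn

open Finset

/-- `g_e(p) = (p/(p-1))^e - 1`. -/
noncomputable def gfun (e p : ℕ) : ℝ := ((p : ℝ) / ((p : ℝ) - 1)) ^ e - 1

lemma one_add_pow_le (e : ℕ) {t : ℝ} (h0 : 0 ≤ t) (h1 : t ≤ 1) :
    (1 + t) ^ e ≤ 1 + (2 ^ e - 1) * t := by
  induction e with
  | zero => simp
  | succ e ih =>
    have h2 : (1 : ℝ) ≤ 2 ^ e := one_le_pow₀ (by norm_num)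
    have h3 : 0 ≤ (2 : ℝ) ^ e - 1 := by linarith
    calc (1 + t) ^ (e + 1) = (1 + t) ^ e * (1 + t) := by ring
      _ ≤ (1 + (2 ^ e - 1) * t) * (1 + t) := by
          apply mul_le_mul_of_nonneg_right ih (by linarith)
      _ = 1 + t + (2 ^ e - 1) * t + (2 ^ e - 1) * (t * t) := by ring
      _ ≤ 1 + t + (2 ^ e - 1) * t + (2 ^ e - 1) * (t * 1) := by
          gcongr
      _ = 1 + (2 ^ (e + 1) - 1) * t := by ring

lemma gfun_nonneg (e : ℕ) {p : ℕ} (hp : 2 ≤ p) : 0 ≤ gfun e p := by
  unfold gfun
  have hp' : (2 : ℝ) ≤ p := by exact_mod_cast hp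
  have : (1 : ℝ) ≤ (p : ℝ) / ((p : ℝ) - 1) := by
    rw [le_div_iff₀ (by linarith)]; linarith
  have := one_le_pow₀ (n := e) this
  linarith

lemma gfun_le (e : ℕ) {p : ℕ} (hp : 2 ≤ p) : gfun e p ≤ 2 ^ e / ((p : ℝ) - 1) := by
  unfold gfun
  have hp' : (2 : ℝ) ≤ p := by exact_mod_cast hp
  have hp1 : 0 < (p : ℝ) - 1 := by linarith
  have h1 : (p : ℝ) / ((p : ℝ) - 1) = 1 + 1 / ((p : ℝ) - 1) := by
    field_simp
    ring
  rw [h1]
  have h2 := one_add_pow_le e (t := 1 / ((p : ℝ) - 1)) (by positivity)
    (by rw [div_le_iff₀ hp1]; linarith)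
  have h3 : (2 ^ e - 1) * (1 / ((p : ℝ) - 1)) ≤ 2 ^ e / ((p : ℝ) - 1) := by
    rw [mul_one_div]
    gcongr
    linarith
  linarith

lemma tq_eq_prod {j : ℕ} (hj : j ≠ 0) :
    tq j = ∏ p ∈ j.primeFactors, ((p : ℝ) / ((p : ℝ) - 1)) := by
  have h := Nat.totient_eq_mul_prod_factors j
  have h' : ((Nat.totient j : ℕ) : ℝ) = (j : ℝ) * ∏ p ∈ j.primeFactors, (1 - ((p : ℝ))⁻¹) := by
    have := congrArg (fun q : ℚ => (q : ℝ)) h
    push_cast at this
    exact this
  unfold tq
  rw [h']
  have hj' : (j : ℝ) ≠ 0 := by exact_mod_cast hj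
  rw [← div_div, div_self hj', one_div, ← Finset.prod_inv_distrib]
  apply Finset.prod_congr rfl
  intro p hp
  have hp2 : (2 : ℝ) ≤ p := by exact_mod_cast (Nat.prime_of_mem_primeFactors hp).two_le
  have : (p : ℝ) - 1 ≠ 0 := by linarith
  have : (p : ℝ) ≠ 0 := by linarith
  field_simp

lemma tq_pow_eq (e : ℕ) {j : ℕ} (hj : j ≠ 0) :
    (tq j) ^ e = ∑ s ∈ j.primeFactors.powerset, ∏ p ∈ s, gfun e p := by
  rw [tq_eq_prod hj, ← Finset.prod_pow, ← Finset.prod_one_add]
  apply Finset.prod_congr rfl
  intro p _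
  unfold gfun
  ring

lemma sum_inv_mul_le (N : ℕ) : ∑ n ∈ Finset.Icc 2 N, 1 / (((n : ℝ) - 1) * n) ≤ 1 := by
  rcases Nat.lt_or_ge N 1 with h | h
  · rw [Finset.Icc_eq_empty (by omega)]; simp
  have : ∑ n ∈ Finset.Icc 2 N, 1 / (((n : ℝ) - 1) * n) = 1 - 1 / N := by
    induction N, h using Nat.le_induction with
    | base => simp
    | succ n hn ih =>
      rw [Finset.sum_Icc_succ_top (by omega), ih]
      have : (n : ℝ) ≠ 0 := by positivity
      have h2 : (n : ℝ) + 1 ≠ 0 := by positivity
      push_cast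
      rw [add_sub_cancel_right]
      field_simp
      ring
  rw [this]
  have : (0 : ℝ) ≤ 1 / N := by positivity
  linarith

lemma card_multiples_le (N d : ℕ) :
    (((Finset.Icc 1 N).filter (fun j => d ∣ j)).card : ℝ) ≤ N / d := by
  have : ((Finset.Icc 1 N).filter (fun j => d ∣ j)) = (Finset.Ioc 0 N).filter (fun j => d ∣ j) := by
    ext j; simp only [mem_filter, mem_Icc, mem_Ioc]; constructor <;> rintro ⟨⟨h1, h2⟩, h3⟩ <;>
      exact ⟨⟨by omega, h2⟩, h3⟩
  rw [this, Nat.Ioc_filter_dvd_card_eq_div]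
  exact Nat.cast_div_le

theorem avgTotient : AvgTotient := by
  intro e
  refine ⟨Real.exp (2 ^ e), Real.exp_pos _, fun N => ?_⟩
  set PN := (Finset.Icc 1 N).filter Nat.Prime with hPN
  have hmem : ∀ {p}, p ∈ PN → p.Prime := fun {p} hp => (Finset.mem_filter.mp hp).2
  calc ∑ j ∈ Finset.Icc 1 N, (tq j) ^ e
      = ∑ j ∈ Finset.Icc 1 N, ∑ s ∈ PN.powerset,
          if s ⊆ j.primeFactors then ∏ p ∈ s, gfun e p else 0 := by
        apply Finset.sum_congr rfl
        intro j hj
        rw [Finset.mem_Icc] at hj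
        rw [tq_pow_eq e (by omega), ← Finset.sum_filter]
        apply Finset.sum_congr _ (fun _ _ => rfl)
        ext s
        simp only [Finset.mem_powerset, Finset.mem_filter]
        constructor
        · intro hs
          refine ⟨fun p hp => ?_, hs⟩
          have hp' := hs hp
          rw [hPN, Finset.mem_filter, Finset.mem_Icc]
          have hpp := Nat.prime_of_mem_primeFactors hp'
          exact ⟨⟨hpp.one_le, (Nat.le_of_mem_primeFactors hp').trans hj.2⟩, hpp⟩
        · exact fun h => h.2
    _ = ∑ s ∈ PN.powerset, ∑ j ∈ Finset.Icc 1 N,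
          if s ⊆ j.primeFactors then ∏ p ∈ s, gfun e p else 0 := Finset.sum_comm
    _ ≤ ∑ s ∈ PN.powerset, (N : ℝ) * ∏ p ∈ s, (gfun e p / p) := by
        apply Finset.sum_le_sum
        intro s hs
        rw [Finset.mem_powerset] at hs
        have hgn : 0 ≤ ∏ p ∈ s, gfun e p :=
          Finset.prod_nonneg fun p hp => gfun_nonneg e (hmem (hs hp)).two_le
        rw [← Finset.sum_filter, Finset.sum_const, nsmul_eq_mul]
        have hcard : (((Finset.Icc 1 N).filter (fun j => s ⊆ j.primeFactors)).card : ℝ)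
            ≤ N / ((∏ p ∈ s, p : ℕ) : ℝ) := by
          refine le_trans ?_ (card_multiples_le N (∏ p ∈ s, p))
          have : ((Finset.Icc 1 N).filter (fun j => s ⊆ j.primeFactors)) ⊆
              ((Finset.Icc 1 N).filter (fun j => (∏ p ∈ s, p) ∣ j)) := by
            intro j hj
            rw [Finset.mem_filter] at hj ⊢
            refine ⟨hj.1, ?_⟩
            exact (Finset.prod_dvd_prod_of_subset _ _ _ hj.2).trans (Nat.prod_primeFactors_dvd j)
          exact_mod_cast Finset.card_le_card this
        calc (((Finset.Icc 1 N).filter (fun j => s ⊆ j.primeFactors)).card : ℝ)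
              * ∏ p ∈ s, gfun e p
            ≤ (N / ((∏ p ∈ s, p : ℕ) : ℝ)) * ∏ p ∈ s, gfun e p :=
              mul_le_mul_of_nonneg_right hcard hgn
          _ = (N : ℝ) * ∏ p ∈ s, (gfun e p / p) := by
              rw [Finset.prod_div_distrib]
              push_cast
              ring
    _ = N * ∏ p ∈ PN, (1 + gfun e p / p) := by
        rw [← Finset.mul_sum, ← Finset.prod_one_add]
    _ ≤ N * Real.exp (2 ^ e) := by
        apply mul_le_mul_of_nonneg_left _ (Nat.cast_nonneg N)
        calc ∏ p ∈ PN, (1 + gfun e p / p) ≤ ∏ p ∈ PN, Real.exp (gfun e p / p) := by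
              apply Finset.prod_le_prod
              · intro p hp
                have := gfun_nonneg e (hmem hp).two_le
                positivity
              · intro p hp
                rw [add_comm]
                exact Real.add_one_le_exp _
          _ = Real.exp (∑ p ∈ PN, gfun e p / p) := (Real.exp_sum _ _).symm
          _ ≤ Real.exp (2 ^ e) := by
              apply Real.exp_le_exp.mpr
              calc ∑ p ∈ PN, gfun e p / p
                  ≤ ∑ p ∈ PN, 2 ^ e * (1 / (((p : ℝ) - 1) * p)) := by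
                    apply Finset.sum_le_sum
                    intro p hp
                    have h2 := (hmem hp).two_le
                    have hp' : (2 : ℝ) ≤ p := by exact_mod_cast h2
                    have := gfun_le e h2
                    calc gfun e p / p ≤ (2 ^ e / ((p : ℝ) - 1)) / p := by gcongr
                      _ = 2 ^ e * (1 / (((p : ℝ) - 1) * p)) := by
                        rw [div_div]; ring
                _ ≤ ∑ n ∈ Finset.Icc 2 N, 2 ^ e * (1 / (((n : ℝ) - 1) * n)) := by
                    apply Finset.sum_le_sum_of_subset_of_nonneg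
                    · intro p hp
                      have h1 := (Finset.mem_filter.mp hp).1
                      rw [Finset.mem_Icc] at h1 ⊢
                      exact ⟨(hmem hp).two_le, h1.2⟩
                    · intro n hn _
                      rw [Finset.mem_Icc] at hn
                      have : (2 : ℝ) ≤ n := by exact_mod_cast hn.1
                      have h3 : 0 ≤ (n : ℝ) - 1 := by linarith
                      positivity
                _ = 2 ^ e * ∑ n ∈ Finset.Icc 2 N, 1 / (((n : ℝ) - 1) * n) := by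
                    rw [Finset.mul_sum]
                _ ≤ 2 ^ e * 1 := by
                    apply mul_le_mul_of_nonneg_left (sum_inv_mul_le N) (by positivity)
                _ = 2 ^ e := mul_one _
    _ = Real.exp (2 ^ e) * N := mul_comm _ _

end Pool.Agent.PnMn
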