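import Mathlib
import Pool.Agent.PnMn.Defs

set_option autoImplicit false

/-!
# Rankin type estimates: smooth numbers and atypical integers (task T-D)
-/

namespace Pool.Agent.PnMn

open Finset

open scoped Classical

/-! ## Euler product upper bounds -/

lemma sum_le_euler (f : ℕ → ℝ) (hf0 : ∀ n, 0 ≤ f n) (hf1 : f 1 = 1)
    (hmul : ∀ m n, Nat.Coprime m n → f (m * n) = f m * f n)
    (b r : ℕ → ℝ) (hr : ∀ p, p.Prime → 0 ≤ r p ∧ r p < 1)
    (hpp : ∀ p, p.Prime → ∀ j, f (p ^ (j + 1)) ≤ b p * r p ^ j)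
    (N : ℕ) (D : Finset ℕ) (hD : ∀ d ∈ D, d ≠ 0 ∧ ∀ p, p.Prime → p ∣ d → p < N) :
    ∑ d ∈ D, f d ≤ ∏ p ∈ N.primesBelow, (1 + b p / (1 - r p)) := by
  have hgeo : ∀ p : ℕ, p.Prime → HasSum (fun j => b p * r p ^ j) (b p * (1 - r p)⁻¹) := fun p hp =>
    (hasSum_geometric_of_lt_one (hr p hp).1 (hr p hp).2).mul_left (b p)
  have hs1 : ∀ p : ℕ, p.Prime → Summable (fun j => f (p ^ (j + 1))) := fun p hp =>
    Summable.of_nonneg_of_le (fun j => hf0 _) (hpp p hp) (hgeo p hp).summable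
  have hs2 : ∀ {p : ℕ}, p.Prime → Summable (fun j => ‖f (p ^ j)‖) := by
    intro p hp
    have h1 : Summable (fun j => f (p ^ j)) := (summable_nat_add_iff 1).1 (hs1 p hp)
    refine h1.congr (fun j => ?_)
    rw [Real.norm_of_nonneg (hf0 _)]
  have hmul' : ∀ {m n}, Nat.Coprime m n → f (m * n) = f m * f n := fun {m n} h => hmul m n h
  obtain ⟨hE1, hE2⟩ := EulerProduct.summable_and_hasSum_smoothNumbers_prod_primesBelow_tsum
    hf1 hmul' hs2 N
  have hle : ∑ d ∈ D, f d ≤ ∏ p ∈ N.primesBelow, ∑' n : ℕ, f (p ^ n) := by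
    have hmem : ∀ d ∈ D, d ∈ N.smoothNumbers := by
      intro d hd
      rw [Nat.mem_smoothNumbers']
      exact (hD d hd).2
    have h1 : ∑ d ∈ D.subtype (fun x => x ∈ N.smoothNumbers), f d = ∑ d ∈ D, f d :=
      Finset.sum_subtype_of_mem f hmem
    rw [← h1]
    exact sum_le_hasSum _ (fun i _ => hf0 _) hE2
  refine hle.trans ?_
  refine Finset.prod_le_prod (fun p _ => tsum_nonneg (fun j => hf0 _)) (fun p hp => ?_)
  have hp' : p.Prime := Nat.prime_of_mem_primesBelow hp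
  have h1 : Summable (fun j => f (p ^ j)) := (summable_nat_add_iff 1).1 (hs1 p hp')
  rw [h1.tsum_eq_zero_add]
  have h2 : ∑' j, f (p ^ (j + 1)) ≤ b p * (1 - r p)⁻¹ := by
    rw [← (hgeo p hp').tsum_eq]
    exact (hs1 p hp').tsum_le_tsum (hpp p hp') (hgeo p hp').summable
  simp only [pow_zero, hf1]
  rw [div_eq_mul_inv]
  linarith

lemma sum_inv_sq_le (D : Finset ℕ) : ∑ d ∈ D, (1 : ℝ) / (d : ℝ) ^ 2 ≤ 2 := by
  have h1 : HasSum (fun n : ℕ => (1 : ℝ) / (n : ℝ) ^ 2) (Real.pi ^ 2 / 6) := hasSum_zeta_two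
  have h2 : ∑ d ∈ D, (1 : ℝ) / (d : ℝ) ^ 2 ≤ Real.pi ^ 2 / 6 :=
    sum_le_hasSum _ (fun i _ => by positivity) h1
  have h3 : Real.pi < 3.15 := Real.pi_lt_d2
  have h4 : 0 < Real.pi := Real.pi_pos
  nlinarith

lemma sum_le_log (C : ℝ) (hC : ∀ x : ℕ, 2 ≤ x →
      ∑ p ∈ (Finset.Icc 1 x).filter Nat.Prime, (1 : ℝ) / p ≤ Real.log (Real.log x) + C)
    (f : ℕ → ℝ) (hf0 : ∀ n, 0 ≤ f n) (hf1 : f 1 = 1)
    (hmul : ∀ m n, Nat.Coprime m n → f (m * n) = f m * f n)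
    (b r : ℕ → ℝ) (hr : ∀ p, p.Prime → 0 ≤ r p ∧ r p < 1)
    (hb : ∀ p, p.Prime → 0 ≤ b p)
    (hpp : ∀ p, p.Prime → ∀ j, f (p ^ (j + 1)) ≤ b p * r p ^ j)
    (A : ℕ) (hA : 2 ≤ A) (α β : ℝ) (hα : 0 ≤ α) (hβ : 0 ≤ β)
    (hbr : ∀ p : ℕ, p.Prime → p ≤ A → b p / (1 - r p) ≤ α / p + β / (p : ℝ) ^ 2)
    (D : Finset ℕ) (hD : ∀ d ∈ D, d ≠ 0 ∧ ∀ p, p.Prime → p ∣ d → p ≤ A) :
    ∑ d ∈ D, f d ≤ (Real.log A) ^ α * Real.exp (α * C + 2 * β) := by
  have h1 := sum_le_euler f hf0 hf1 hmul b r hr hpp (A + 1) D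
    (fun d hd => ⟨(hD d hd).1, fun p hp hpd => Nat.lt_succ_of_le ((hD d hd).2 p hp hpd)⟩)
  refine h1.trans ?_
  have hset : (A + 1).primesBelow = (Finset.Icc 1 A).filter Nat.Prime := by
    ext p
    simp only [Nat.mem_primesBelow, Finset.mem_filter, Finset.mem_Icc]
    constructor
    · rintro ⟨h, hp⟩
      exact ⟨⟨hp.one_le, by omega⟩, hp⟩
    · rintro ⟨⟨_, h⟩, hp⟩
      exact ⟨by omega, hp⟩
  have h2 : ∏ p ∈ (A + 1).primesBelow, (1 + b p / (1 - r p))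
      ≤ ∏ p ∈ (A + 1).primesBelow, Real.exp (α / p + β / (p : ℝ) ^ 2) := by
    refine Finset.prod_le_prod (fun p hp => ?_) (fun p hp => ?_)
    · have hp' : p.Prime := Nat.prime_of_mem_primesBelow hp
      have := (hr p hp').2
      have := hb p hp'
      have : 0 ≤ b p / (1 - r p) := div_nonneg (hb p hp') (by linarith)
      linarith
    · have hp' : p.Prime := Nat.prime_of_mem_primesBelow hp
      have h3 := hbr p hp' (by have := Nat.lt_of_mem_primesBelow hp; omega)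
      have h4 := Real.add_one_le_exp (α / p + β / (p : ℝ) ^ 2)
      linarith
  refine h2.trans ?_
  rw [← Real.exp_sum, Finset.sum_add_distrib]
  have hlog : 0 < Real.log A := Real.log_pos (by exact_mod_cast (by omega : 1 < A))
  have h5 : ∑ p ∈ (A + 1).primesBelow, α / (p : ℝ) ≤ α * (Real.log (Real.log A) + C) := by
    have : ∑ p ∈ (A + 1).primesBelow, α / (p : ℝ)
        = α * ∑ p ∈ (A + 1).primesBelow, (1 : ℝ) / p := by
      rw [Finset.mul_sum]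
      refine Finset.sum_congr rfl (fun p _ => by ring)
    rw [this, hset]
    exact mul_le_mul_of_nonneg_left (hC A hA) hα
  have h6 : ∑ p ∈ (A + 1).primesBelow, β / (p : ℝ) ^ 2 ≤ β * 2 := by
    have : ∑ p ∈ (A + 1).primesBelow, β / (p : ℝ) ^ 2
        = β * ∑ p ∈ (A + 1).primesBelow, (1 : ℝ) / (p : ℝ) ^ 2 := by
      rw [Finset.mul_sum]
      refine Finset.sum_congr rfl (fun p _ => by ring)
    rw [this]
    exact mul_le_mul_of_nonneg_left (sum_inv_sq_le _) hβ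
  calc Real.exp (∑ p ∈ (A + 1).primesBelow, α / (p : ℝ)
        + ∑ p ∈ (A + 1).primesBelow, β / (p : ℝ) ^ 2)
      ≤ Real.exp (Real.log (Real.log A) * α + (α * C + 2 * β)) := by
        apply Real.exp_le_exp.2
        linarith
    _ = (Real.log A) ^ α * Real.exp (α * C + 2 * β) := by
        rw [Real.exp_add, Real.rpow_def_of_pos hlog]

/-! ## An asymptotic lemma -/

lemma eventually_small (m : ℕ) (B c : ℝ) (hc : 0 < c) :
    ∃ J₀ : ℕ, ∀ J ≥ J₀, B * (J : ℝ) ^ m * Real.exp (-(c * (J : ℝ) ^ (1 / 20 : ℝ))) ≤ 1 := by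
  have h1 := Real.tendsto_pow_mul_exp_neg_atTop_nhds_zero (20 * m)
  have h2 : Filter.Tendsto (fun J : ℕ => c * (J : ℝ) ^ (1 / 20 : ℝ)) Filter.atTop Filter.atTop := by
    apply Filter.Tendsto.const_mul_atTop hc
    exact (tendsto_rpow_atTop (by norm_num)).comp tendsto_natCast_atTop_atTop
  have h3 := h1.comp h2
  have h4 : Filter.Tendsto (fun J : ℕ => (B / c ^ (20 * m)) *
      ((fun x => x ^ (20 * m) * Real.exp (-x)) ∘ (fun J : ℕ => c * (J : ℝ) ^ (1 / 20 : ℝ))) J)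
      Filter.atTop (nhds ((B / c ^ (20 * m)) * 0)) := h3.const_mul _
  rw [mul_zero] at h4
  have h5 := h4.eventually (ge_mem_nhds (zero_lt_one))
  obtain ⟨J₀, hJ₀⟩ := Filter.eventually_atTop.1 h5
  refine ⟨J₀, fun J hJ => ?_⟩
  have h6 := hJ₀ J hJ
  simp only [Function.comp_apply] at h6
  have h7 : ((J : ℝ) ^ (1 / 20 : ℝ)) ^ (20 * m) = (J : ℝ) ^ m := by
    rw [pow_mul, ← Real.rpow_natCast ((J : ℝ) ^ (1 / 20 : ℝ)) 20, ← Real.rpow_mul (by positivity)]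
    norm_num
  rw [mul_pow, h7] at h6
  have h8 : c ^ (20 * m) ≠ 0 := by positivity
  calc B * (J : ℝ) ^ m * Real.exp (-(c * (J : ℝ) ^ (1 / 20 : ℝ)))
      = B / c ^ (20 * m) * (c ^ (20 * m) * (J : ℝ) ^ m * Real.exp (-(c * (J : ℝ) ^ (1 / 20 : ℝ)))) := by
        field_simp
    _ ≤ 1 := h6

/-! ## Smooth numbers -/

lemma hh_le (J : ℕ) (hJ : 1 ≤ J) : (hh J : ℝ) ≤ 2 * (J : ℝ) ^ (19 / 20 : ℝ) := by
  unfold hh
  have h1 : (1 : ℝ) ≤ (J : ℝ) ^ (19 / 20 : ℝ) :=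
    Real.one_le_rpow (by exact_mod_cast hJ) (by norm_num)
  have h2 := Nat.ceil_lt_add_one (by positivity : (0 : ℝ) ≤ (J : ℝ) ^ (19 / 20 : ℝ))
  linarith

lemma three_le_hh (J : ℕ) (hJ : 9 ≤ J) : 3 ≤ hh J := by
  have h1 : (3 : ℝ) ≤ (J : ℝ) ^ (19 / 20 : ℝ) := by
    have h2 : (3 : ℝ) = (9 : ℝ) ^ (1 / 2 : ℝ) := by
      rw [← Real.sqrt_eq_rpow]
      rw [show (9 : ℝ) = 3 ^ 2 by norm_num, Real.sqrt_sq (by norm_num)]
    rw [h2]
    calc (9 : ℝ) ^ (1 / 2 : ℝ) ≤ (J : ℝ) ^ (1 / 2 : ℝ) :=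
          Real.rpow_le_rpow (by norm_num) (by exact_mod_cast hJ) (by norm_num)
      _ ≤ (J : ℝ) ^ (19 / 20 : ℝ) :=
          Real.rpow_le_rpow_of_exponent_le (by
            have : (9 : ℝ) ≤ J := by exact_mod_cast hJ
            linarith) (by norm_num)
  have h3 : (3 : ℝ) ≤ (hh J : ℝ) := h1.trans (Nat.le_ceil _)
  exact_mod_cast h3

lemma rpow_neg_lt_one (p : ℕ) (hp : p.Prime) (s : ℝ) (hs : 0 < s) : (p : ℝ) ^ (-s) < 1 :=
  Real.rpow_lt_one_of_one_lt_of_neg (by exact_mod_cast hp.one_lt) (by linarith)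

lemma rpow_pow_succ (p j : ℕ) (s : ℝ) :
    ((p ^ (j + 1) : ℕ) : ℝ) ^ (-s) = (p : ℝ) ^ (-s) * ((p : ℝ) ^ (-s)) ^ j := by
  rw [← pow_succ']
  push_cast
  rw [← Real.rpow_natCast, ← Real.rpow_natCast, ← Real.rpow_mul (by positivity),
    ← Real.rpow_mul (by positivity), mul_comm]

lemma J_div_rpow (J : ℕ) (hJ : 1 ≤ J) : (J : ℝ) / (J : ℝ) ^ (19 / 20 : ℝ) = (J : ℝ) ^ (1 / 20 : ℝ) := by
  have hJ' : (0 : ℝ) < J := by exact_mod_cast hJ
  rw [div_eq_iff (by positivity), ← Real.rpow_add hJ']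
  norm_num

theorem smoothLe (hM : SumInvPrimes) : SmoothLe := by
  obtain ⟨C, hC⟩ := hM
  obtain ⟨J₁, hJ₁⟩ := eventually_small 9 (128 * Real.exp (6 * C)) (Real.log 2 / 2)
    (by have := Real.log_pos one_lt_two; linarith)
  refine ⟨max J₁ 9, fun J hJ => ?_⟩
  have hJ1 : J₁ ≤ J := le_trans (le_max_left _ _) hJ
  have hJ9 : 9 ≤ J := le_trans (le_max_right _ _) hJ
  have hJ0 : (0 : ℝ) < J := by
    have : (9 : ℝ) ≤ J := by exact_mod_cast hJ9
    linarith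
  have hh3 : 3 ≤ hh J := three_le_hh J hJ9
  have hhle := hh_le J (by omega)
  set h := hh J with hh_def
  have hh3' : (3 : ℝ) ≤ h := by exact_mod_cast hh3
  have hhpos : (0 : ℝ) < h := by linarith
  set σ : ℝ := 1 / h with hσ
  have hσ0 : 0 < σ := by positivity
  have hσ3 : σ ≤ 1 / 3 := by
    rw [hσ]
    exact one_div_le_one_div_of_le (by norm_num) hh3'
  set s : ℝ := 1 - σ with hs
  have hs0 : 0 < s := by linarith
  set D := (blk J).filter (fun n => ∀ p : ℕ, p.Prime → p ∣ n → p < 2 ^ h) with hD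
  set f : ℕ → ℝ := fun n => (n : ℝ) ^ (-s) with hf
  have hlog2 : 0 < Real.log 2 := Real.log_pos one_lt_two
  have hr1 : ∀ p : ℕ, p.Prime → (p : ℝ) ^ (-s) ≤ 2 / 3 := by
    intro p hp
    have h1 : (p : ℝ) ^ (-s) ≤ (2 : ℝ) ^ (-s) := by
      apply Real.rpow_le_rpow_of_nonpos (by norm_num) (by exact_mod_cast hp.two_le) (by linarith)
    have h2 : (2 : ℝ) ^ (-s) ≤ (2 : ℝ) ^ (-(2 / 3) : ℝ) :=
      Real.rpow_le_rpow_of_exponent_le (by norm_num) (by linarith)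
    have h3 : (2 : ℝ) ^ (-(2 / 3) : ℝ) ≤ 2 / 3 := by
      have h4 : ((2 : ℝ) ^ (-(2 / 3) : ℝ)) ^ 3 = 1 / 4 := by
        rw [← Real.rpow_natCast, ← Real.rpow_mul (by norm_num)]
        norm_num
      have h5 : 0 ≤ (2 : ℝ) ^ (-(2 / 3) : ℝ) := by positivity
      by_contra hcon
      push Not at hcon
      have h6 : (2 / 3 : ℝ) ^ 3 < ((2 : ℝ) ^ (-(2 / 3) : ℝ)) ^ 3 :=
        pow_lt_pow_left₀ hcon (by norm_num) (by norm_num)
      rw [h4] at h6
      norm_num at h6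
    linarith
  have hr2 : ∀ p : ℕ, p.Prime → p ≤ 2 ^ h → (p : ℝ) ^ (-s) ≤ 2 / p := by
    intro p hp hpA
    have hp0 : (0 : ℝ) < p := by exact_mod_cast hp.pos
    have h1 : (p : ℝ) ^ (-s) = (p : ℝ) ^ σ / p := by
      rw [hs, neg_sub, Real.rpow_sub hp0, Real.rpow_one]
    rw [h1]
    apply div_le_div_of_nonneg_right _ hp0.le
    calc (p : ℝ) ^ σ ≤ ((2 : ℝ) ^ h) ^ σ := by
          apply Real.rpow_le_rpow hp0.le _ hσ0.le
          exact_mod_cast hpA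
      _ = 2 := by
          rw [← Real.rpow_natCast, ← Real.rpow_mul (by norm_num), hσ, mul_one_div_cancel hhpos.ne',
            Real.rpow_one]
  have key := sum_le_log C hC f (fun n => by positivity) (by simp [hf])
    (fun m n _ => by
      simp only [hf]
      push_cast
      rw [Real.mul_rpow (by positivity) (by positivity)])
    (fun p => (p : ℝ) ^ (-s)) (fun p => (p : ℝ) ^ (-s))
    (fun p hp => ⟨by positivity, rpow_neg_lt_one p hp s hs0⟩)
    (fun p hp => by positivity)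
    (fun p hp j => le_of_eq (rpow_pow_succ p j s))
    (2 ^ h) (by
      calc 2 = 2 ^ 1 := by norm_num
        _ ≤ 2 ^ h := Nat.pow_le_pow_right (by norm_num) (by omega)) 6 0 (by norm_num) le_rfl
    (fun p hp hpA => by
      have h1 := hr1 p hp
      have h2 := hr2 p hp hpA
      have h3 : (0 : ℝ) ≤ (p : ℝ) ^ (-s) := by positivity
      simp only [zero_div, add_zero]
      rw [div_le_iff₀ (by linarith)]
      have hp0 : (0 : ℝ) < p := by exact_mod_cast hp.pos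
      calc (p : ℝ) ^ (-s) ≤ 2 / p := h2
        _ = 6 / p * (1 / 3) := by ring
        _ ≤ 6 / p * (1 - (p : ℝ) ^ (-s)) := by
          apply mul_le_mul_of_nonneg_left _ (by positivity)
          linarith)
    D (fun d hd => by
      rw [hD, Finset.mem_filter] at hd
      refine ⟨?_, fun p hp hpd => (hd.2 p hp hpd).le⟩
      have := hd.1
      simp only [blk, Finset.mem_Ico] at this
      have h2 : 0 < 2 ^ J := by positivity
      omega)
  have hcount : (D.card : ℝ) ≤ ((2 : ℝ) ^ (J + 1)) ^ s * ∑ d ∈ D, f d := by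
    rw [Finset.mul_sum, Finset.card_eq_sum_ones]
    push_cast
    refine Finset.sum_le_sum (fun d hd => ?_)
    have hd' := (Finset.mem_filter.1 (hD ▸ hd)).1
    simp only [blk, Finset.mem_Ico] at hd'
    have hdpos : 0 < d := lt_of_lt_of_le (by positivity) hd'.1
    have hd0 : (0 : ℝ) < d := by exact_mod_cast hdpos
    have hd2 : (d : ℝ) ≤ 2 ^ (J + 1) := by exact_mod_cast hd'.2.le
    simp only [hf]
    rw [Real.rpow_neg hd0.le, ← div_eq_mul_inv, le_div_iff₀ (by positivity), one_mul]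
    exact Real.rpow_le_rpow hd0.le hd2 hs0.le
  have hpow : ((2 : ℝ) ^ (J + 1)) ^ s
      ≤ 2 * 2 ^ J * Real.exp (-(Real.log 2 / 2 * (J : ℝ) ^ (1 / 20 : ℝ))) := by
    have h1 : ((2 : ℝ) ^ (J + 1)) ^ s = 2 ^ (J + 1) * Real.exp (-(Real.log 2 * ((J + 1) / h))) := by
      rw [hs, Real.rpow_sub (by positivity), Real.rpow_one, Real.exp_neg, div_eq_mul_inv]
      congr 2
      rw [← Real.rpow_natCast, ← Real.rpow_mul (by norm_num), Real.rpow_def_of_pos (by norm_num), hσ]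
      push_cast
      congr 1
      ring
    rw [h1, pow_succ']
    apply mul_le_mul_of_nonneg_left _ (by positivity)
    apply Real.exp_le_exp.2
    have h2 : (J : ℝ) ^ (1 / 20 : ℝ) / 2 ≤ (J + 1) / h := by
      rw [← J_div_rpow J (by omega), div_div, mul_comm]
      apply div_le_div₀ (by positivity) (by linarith) hhpos hhle
    have h3 := mul_le_mul_of_nonneg_left h2 hlog2.le
    linarith
  have hlogA : Real.log ((2 ^ h : ℕ) : ℝ) ≤ 2 * J := by
    push_cast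
    rw [Real.log_pow]
    have h1 : Real.log 2 ≤ 1 := by
      have := Real.log_two_lt_d9
      linarith
    have h2 : (J : ℝ) ^ (19 / 20 : ℝ) ≤ J := by
      calc (J : ℝ) ^ (19 / 20 : ℝ) ≤ (J : ℝ) ^ (1 : ℝ) :=
            Real.rpow_le_rpow_of_exponent_le (by
              have : (9 : ℝ) ≤ J := by exact_mod_cast hJ9
              linarith) (by norm_num)
        _ = J := Real.rpow_one _
    nlinarith
  have hlogA0 : 0 ≤ Real.log ((2 ^ h : ℕ) : ℝ) := Real.log_natCast_nonneg _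
  have hsum : ∑ d ∈ D, f d ≤ (2 * J) ^ 6 * Real.exp (6 * C) := by
    refine key.trans ?_
    rw [mul_zero, add_zero]
    apply mul_le_mul_of_nonneg_right _ (Real.exp_pos _).le
    have h1 : (Real.log ((2 ^ h : ℕ) : ℝ)) ^ (6 : ℝ) = (Real.log ((2 ^ h : ℕ) : ℝ)) ^ 6 := by
      rw [← Real.rpow_natCast]
      norm_num
    rw [h1]
    exact pow_le_pow_left₀ hlogA0 hlogA 6
  have hfin := hJ₁ J hJ1
  have hJ3 : (0 : ℝ) < (J : ℝ) ^ 3 := by positivity
  calc (D.card : ℝ) ≤ ((2 : ℝ) ^ (J + 1)) ^ s * ∑ d ∈ D, f d := hcount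
    _ ≤ (2 * 2 ^ J * Real.exp (-(Real.log 2 / 2 * (J : ℝ) ^ (1 / 20 : ℝ))))
          * ((2 * J) ^ 6 * Real.exp (6 * C)) := by
        apply mul_le_mul hpow hsum (Finset.sum_nonneg (fun d _ => by positivity)) (by positivity)
    _ = 2 ^ J / (J : ℝ) ^ 3 * (128 * Real.exp (6 * C) * (J : ℝ) ^ 9
          * Real.exp (-(Real.log 2 / 2 * (J : ℝ) ^ (1 / 20 : ℝ)))) := by
        field_simp
        ring
    _ ≤ 2 ^ J / (J : ℝ) ^ 3 * 1 := by
        apply mul_le_mul_of_nonneg_left hfin (by positivity)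
    _ = 2 ^ J / (J : ℝ) ^ 3 := mul_one _

end Pool.Agent.PnMn
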