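import Mathlib
import Pool.Agent.PnMn.Defs
import Pool.Agent.PnMn.Rankin

set_option autoImplicit false

/-!
# Atypical integers (task T-D)
-/

namespace Pool.Agent.PnMn

open Finset

open scoped Classical

open scoped ArithmeticFunction

/-! ## The multiplicative function `(8/7)^(omA A n)` and its Moebius transform -/

lemma omA_one (A : ℕ) : omA A 1 = 0 := by simp [omA]

lemma omA_mul (A : ℕ) {m n : ℕ} (hm : m ≠ 0) (hn : n ≠ 0) :
    omA A (m * n) = omA A m + omA A n := by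
  unfold omA
  rw [((Nat.perm_primeFactorsList_mul hm hn).filter _).length_eq, List.filter_append,
    List.length_append]

lemma omA_prime_pow (A p j : ℕ) (hp : p.Prime) :
    omA A (p ^ j) = if p ≤ A then j else 0 := by
  unfold omA
  rw [hp.primeFactorsList_pow, List.filter_replicate]
  split_ifs <;> simp_all

/-- The arithmetic function `(8/7)^(omA A n)`. -/
noncomputable def FF (A : ℕ) : ArithmeticFunction ℝ :=
  ⟨fun n => if n = 0 then 0 else (8 / 7 : ℝ) ^ (omA A n), by simp⟩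

lemma FF_apply (A n : ℕ) (hn : n ≠ 0) : FF A n = (8 / 7 : ℝ) ^ (omA A n) := by
  simp [FF, hn]

lemma FF_mult (A : ℕ) : (FF A).IsMultiplicative := by
  refine ⟨?_, ?_⟩
  · rw [FF_apply A 1 one_ne_zero, omA_one, pow_zero]
  · intro m n _
    by_cases hm : m = 0
    · subst hm; simp
    by_cases hn : n = 0
    · subst hn; simp
    rw [FF_apply _ _ (mul_ne_zero hm hn), FF_apply _ _ hm, FF_apply _ _ hn, omA_mul A hm hn, pow_add]

/-- The Moebius transform of `FF`. -/
noncomputable def hF (A : ℕ) : ArithmeticFunction ℝ :=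
  FF A * ((ArithmeticFunction.moebius : ArithmeticFunction ℤ) : ArithmeticFunction ℝ)

lemma hF_mult (A : ℕ) : (hF A).IsMultiplicative :=
  (FF_mult A).mul (ArithmeticFunction.isMultiplicative_moebius.intCast)

lemma hF_mul_zeta (A : ℕ) :
    hF A * ((ArithmeticFunction.zeta : ArithmeticFunction ℕ) : ArithmeticFunction ℝ) = FF A := by
  unfold hF
  rw [mul_assoc, ArithmeticFunction.coe_moebius_mul_coe_zeta, mul_one]

lemma sum_hF (A n : ℕ) : ∑ d ∈ n.divisors, hF A d = FF A n := by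
  rw [← hF_mul_zeta A, ArithmeticFunction.coe_mul_zeta_apply]

lemma hF_prime_pow (A p j : ℕ) (hp : p.Prime) :
    hF A (p ^ (j + 1)) = if p ≤ A then (8 / 7 : ℝ) ^ j * (1 / 7) else 0 := by
  have h1 := sum_hF A (p ^ (j + 1))
  have h2 := sum_hF A (p ^ j)
  rw [Nat.sum_divisors_prime_pow hp] at h1 h2
  rw [Finset.sum_range_succ, h2] at h1
  rw [FF_apply _ _ (pow_ne_zero _ hp.ne_zero), FF_apply _ _ (pow_ne_zero _ hp.ne_zero),
    omA_prime_pow _ _ _ hp, omA_prime_pow _ _ _ hp] at h1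
  split_ifs at h1 ⊢ with h
  · rw [pow_succ (8 / 7 : ℝ)] at h1
    linarith
  · linarith

lemma hF_nonneg (A n : ℕ) : 0 ≤ hF A n := by
  by_cases hn : n = 0
  · subst hn; simp
  rw [(hF_mult A).multiplicative_factorization _ hn]
  refine Finset.prod_nonneg (fun p hp => ?_)
  have hp' : p.Prime := Nat.prime_of_mem_primeFactors hp
  have h1 : n.factorization p ≠ 0 := Finsupp.mem_support_iff.1 hp
  obtain ⟨j, hj⟩ := Nat.exists_eq_succ_of_ne_zero h1
  simp only [hj, Nat.succ_eq_add_one]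
  rw [hF_prime_pow _ _ _ hp']
  split_ifs <;> positivity

lemma hF_eq_zero (A n p : ℕ) (hn : n ≠ 0) (hp : p.Prime) (hpn : p ∣ n) (hpA : A < p) :
    hF A n = 0 := by
  rw [(hF_mult A).multiplicative_factorization _ hn]
  refine Finset.prod_eq_zero (i := p) ?_ ?_
  · simp [hp, hpn, hn]
  · have h1 : n.factorization p ≠ 0 := by
      have := (hp.dvd_iff_one_le_factorization hn).1 hpn
      omega
    obtain ⟨j, hj⟩ := Nat.exists_eq_succ_of_ne_zero h1
    simp only [hj, Nat.succ_eq_add_one]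
    rw [hF_prime_pow _ _ _ hp, if_neg (by omega)]

/-! ## The function `n / φ(n)` -/

lemma tq_pos (n : ℕ) (hn : n ≠ 0) : 0 < tq n := by
  unfold tq
  have h1 : 0 < Nat.totient n := Nat.totient_pos.2 (Nat.pos_of_ne_zero hn)
  have h2 : 0 < n := Nat.pos_of_ne_zero hn
  positivity

lemma tq_nonneg (n : ℕ) : 0 ≤ tq n := by unfold tq; positivity

lemma tq_one : tq 1 = 1 := by simp [tq]

lemma tq_coprime (m n : ℕ) (h : Nat.Coprime m n) : tq (m * n) = tq m * tq n := by
  unfold tq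
  rw [Nat.totient_mul h]
  push_cast
  rw [mul_div_mul_comm]

lemma tq_mul_le (m n : ℕ) : tq (m * n) ≤ tq m * tq n := by
  by_cases hm : m = 0
  · subst hm; simp [tq]
  by_cases hn : n = 0
  · subst hn; simp [tq]
  unfold tq
  have h1 : 0 < Nat.totient n := Nat.totient_pos.2 (Nat.pos_of_ne_zero hn)
  have h2 : 0 < Nat.totient m := Nat.totient_pos.2 (Nat.pos_of_ne_zero hm)
  have h3 := Nat.totient_super_multiplicative m n
  rw [← mul_div_mul_comm]
  push_cast
  apply div_le_div_of_nonneg_left (by positivity) (by positivity)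
  exact_mod_cast h3

lemma tq_prime_pow (p j : ℕ) (hp : p.Prime) : tq (p ^ (j + 1)) = p / (p - 1) := by
  unfold tq
  rw [Nat.totient_prime_pow_succ hp]
  have h1 : (1 : ℝ) < p := by exact_mod_cast hp.one_lt
  have h2 : (p : ℝ) ≠ 0 := by positivity
  have h3 : (p : ℝ) - 1 ≠ 0 := by linarith
  push_cast [Nat.cast_sub hp.one_le]
  rw [pow_succ]
  field_simp

/-! ## Counting multiples of `d` -/

lemma wt_zero (b : ℕ) : wt 0 b = 1 := by
  unfold wt omA
  have h1 : b.primeFactorsList.filter (fun p => decide (p ≤ 2 ^ 0)) = [] := by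
    rw [List.filter_eq_nil_iff]
    intro p hp
    have := (Nat.prime_of_mem_primeFactorsList hp).two_le
    simp
    omega
  rw [h1]
  simp

lemma card_dvd_le_trivial (J d k : ℕ) :
    (((blk J).filter (fun n => (k * n + 1).Prime ∧ d ∣ n)).card : ℝ) ≤ 2 ^ (J + 1) / d := by
  have h1 : (blk J).filter (fun n => (k * n + 1).Prime ∧ d ∣ n) ⊆ (Finset.Ioc 0 (2 ^ (J + 1))).filter (fun n => d ∣ n) := by
    intro n hn
    simp only [Finset.mem_filter, blk, Finset.mem_Ico, Finset.mem_Ioc] at hn ⊢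
    have : 0 < 2 ^ J := by positivity
    exact ⟨⟨by omega, by omega⟩, hn.2.2⟩
  have h2 := Finset.card_le_card h1
  rw [Nat.Ioc_filter_dvd_card_eq_div] at h2
  have h3 : ((2 ^ (J + 1) / d : ℕ) : ℝ) ≤ ((2 ^ (J + 1) : ℕ) : ℝ) / d := Nat.cast_div_le
  push_cast at h3
  exact le_trans (by exact_mod_cast h2) h3

lemma card_dvd_le_sieve (C : ℝ) (hC0 : 0 < C)
    (hC : ∀ g l H : ℕ, 1 ≤ l → 1 ≤ H →
      ∑ b ∈ (blk H).filter (fun b => (l * b + 1).Prime), wt g b
        ≤ C * tq l * 2 ^ H / (H * Real.sqrt (1 + (min H g : ℕ))))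
    (J d k : ℕ) (hd : 0 < d) (hd2 : d ^ 2 ≤ 2 ^ J) (hJ : 4 ≤ J) (hk : 1 ≤ k) :
    (((blk J).filter (fun n => (k * n + 1).Prime ∧ d ∣ n)).card : ℝ)
      ≤ 12 * C * tq k * (2 ^ J / J) * (tq d / d) := by
  set e := Nat.log 2 d with he
  have he1 : 2 ^ e ≤ d := Nat.pow_log_le_self 2 hd.ne'
  have he2 : d < 2 ^ (e + 1) := Nat.lt_pow_succ_log_self (by norm_num) d
  have he3 : 2 * e ≤ J := by
    have h1 : 2 ^ (2 * e) ≤ 2 ^ J := by
      calc 2 ^ (2 * e) = (2 ^ e) ^ 2 := by rw [← pow_mul, mul_comm]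
        _ ≤ d ^ 2 := Nat.pow_le_pow_left he1 2
        _ ≤ 2 ^ J := hd2
    exact (Nat.pow_le_pow_iff_right (by norm_num)).1 h1
  obtain ⟨H, hH⟩ : ∃ H, J = H + e + 1 := ⟨J - e - 1, by omega⟩
  have hH1 : 1 ≤ H := by omega
  have hH4 : J ≤ 4 * H := by omega
  have hcard : ∀ H' : ℕ, 1 ≤ H' →
      (((blk H').filter (fun b => (k * d * b + 1).Prime)).card : ℝ)
        ≤ C * tq (k * d) * 2 ^ H' / H' := by
    intro H' hH'
    have h1 := hC 0 (k * d) H' (Nat.mul_pos hk hd) hH'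
    simp only [wt_zero, Finset.sum_const, nsmul_eq_mul, mul_one, Nat.min_zero, Nat.cast_zero,
      add_zero, Real.sqrt_one] at h1
    exact h1
  have hsub : (blk J).filter (fun n => (k * n + 1).Prime ∧ d ∣ n) ⊆
      (((blk H).filter (fun b => (k * d * b + 1).Prime)) ∪
        ((blk (H + 1)).filter (fun b => (k * d * b + 1).Prime))).image (fun m => d * m) := by
    intro n hn
    simp only [Finset.mem_filter, blk, Finset.mem_Ico] at hn
    obtain ⟨⟨hn1, hn2⟩, hp, m, rfl⟩ := hn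
    rw [Finset.mem_image]
    refine ⟨m, ?_, rfl⟩
    have hlow : 2 ^ H ≤ m := by
      by_contra hcon
      push Not at hcon
      have : d * m < 2 ^ (e + 1) * 2 ^ H := by
        calc d * m ≤ d * 2 ^ H := Nat.mul_le_mul_left _ hcon.le
          _ < 2 ^ (e + 1) * 2 ^ H := Nat.mul_lt_mul_of_pos_right he2 (by positivity)
      rw [← pow_add, show e + 1 + H = J by omega] at this
      omega
    have hup : m < 2 ^ (H + 1 + 1) := by
      by_contra hcon
      push Not at hcon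
      have : 2 ^ e * 2 ^ (H + 1 + 1) ≤ d * m := Nat.mul_le_mul he1 hcon
      rw [← pow_add, show e + (H + 1 + 1) = J + 1 by omega] at this
      omega
    rw [← mul_assoc] at hp
    simp only [Finset.mem_union, Finset.mem_filter, blk, Finset.mem_Ico]
    by_cases hm : m < 2 ^ (H + 1)
    · left; exact ⟨⟨hlow, hm⟩, hp⟩
    · right; exact ⟨⟨by omega, hup⟩, hp⟩
  have h1 : (((blk J).filter (fun n => (k * n + 1).Prime ∧ d ∣ n)).card : ℝ) ≤
      (((blk H).filter (fun b => (k * d * b + 1).Prime)).card : ℝ)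
      + (((blk (H + 1)).filter (fun b => (k * d * b + 1).Prime)).card : ℝ) := by
    have := (Finset.card_le_card hsub).trans (Finset.card_image_le.trans (Finset.card_union_le _ _))
    exact_mod_cast this
  have h2 := hcard H hH1
  have h3 := hcard (H + 1) (by omega)
  have hHpos : (0 : ℝ) < H := by exact_mod_cast hH1
  have hJpos : (0 : ℝ) < J := by
    have : (4 : ℝ) ≤ J := by exact_mod_cast hJ
    linarith
  have hdpos : (0 : ℝ) < d := by exact_mod_cast hd
  have h4 : C * tq (k * d) * 2 ^ (H + 1) / ((H + 1 : ℕ) : ℝ) ≤ C * tq (k * d) * 2 ^ H / H * 2 := by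
    rw [pow_succ, ← mul_assoc, mul_div_right_comm]
    apply mul_le_mul_of_nonneg_right _ (by norm_num)
    apply div_le_div_of_nonneg_left (mul_nonneg (mul_nonneg hC0.le (tq_nonneg _)) (by positivity)) hHpos
    push_cast
    linarith
  have h5 : (2 : ℝ) ^ H ≤ 2 ^ J / d := by
    rw [le_div_iff₀ hdpos]
    have h6 : 2 ^ H * d ≤ 2 ^ J := by
      calc 2 ^ H * d ≤ 2 ^ H * 2 ^ (e + 1) := Nat.mul_le_mul_left _ he2.le
        _ = 2 ^ J := by rw [← pow_add]; congr 1; omega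
    exact_mod_cast h6
  have h7 : (1 : ℝ) / H ≤ 4 / J := by
    rw [div_le_div_iff₀ hHpos hJpos]
    have : (J : ℝ) ≤ 4 * H := by exact_mod_cast hH4
    linarith
  have h8 : C * tq (k * d) * 2 ^ H / H ≤ C * (tq k * tq d) * (2 ^ J / d) * (4 / J) := by
    calc C * tq (k * d) * 2 ^ H / H = C * tq (k * d) * 2 ^ H * (1 / H) := by ring
      _ ≤ C * (tq k * tq d) * (2 ^ J / d) * (4 / J) := by
        apply mul_le_mul _ h7 (by positivity)
        · have := tq_nonneg k
          have := tq_nonneg d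
          positivity
        · apply mul_le_mul _ h5 (by positivity)
          · have := tq_nonneg k
            have := tq_nonneg d
            positivity
          · exact mul_le_mul_of_nonneg_left (tq_mul_le k d) hC0.le
  calc (((blk J).filter (fun n => (k * n + 1).Prime ∧ d ∣ n)).card : ℝ)
      ≤ C * tq (k * d) * 2 ^ H / H + C * tq (k * d) * 2 ^ H / H * 2 := by linarith
    _ = 3 * (C * tq (k * d) * 2 ^ H / H) := by ring
    _ ≤ 3 * (C * (tq k * tq d) * (2 ^ J / d) * (4 / J)) :=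
        mul_le_mul_of_nonneg_left h8 (by norm_num)
    _ = 12 * C * tq k * (2 ^ J / J) * (tq d / d) := by
        field_simp
        ring

/-! ## The two Euler products -/

/-- The smooth integers up to `M`. -/
noncomputable def smD (A M : ℕ) : Finset ℕ :=
  (Finset.Icc 1 M).filter (fun d => ∀ p : ℕ, p.Prime → p ∣ d → p ≤ A)

lemma sum_hF_tq (C : ℝ) (hC : ∀ x : ℕ, 2 ≤ x →
      ∑ p ∈ (Finset.Icc 1 x).filter Nat.Prime, (1 : ℝ) / p ≤ Real.log (Real.log x) + C)
    (i M : ℕ) :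
    ∑ d ∈ smD (2 ^ (2 ^ i)) M, hF (2 ^ (2 ^ i)) d * (tq d / d)
      ≤ ((2 : ℝ) ^ (1 / 7 : ℝ)) ^ i * Real.exp (1 / 7 * C + 2 * (10 / 7)) := by
  set A := 2 ^ (2 ^ i) with hA
  have hA2 : 2 ≤ A := by
    calc 2 = 2 ^ 1 := by norm_num
      _ ≤ 2 ^ (2 ^ i) := Nat.pow_le_pow_right (by norm_num) Nat.one_le_two_pow
  have key := sum_le_log C hC (fun d => hF A d * (tq d / d))
    (fun n => mul_nonneg (hF_nonneg A n) (div_nonneg (tq_nonneg n) (by positivity)))
    (by simp [(hF_mult A).map_one, tq_one])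
    (fun m n hmn => by
      rw [(hF_mult A).map_mul_of_coprime hmn, tq_coprime m n hmn]
      push_cast
      rw [mul_div_mul_comm]
      ring)
    (fun p => 1 / 7 / ((p : ℝ) - 1)) (fun p => 8 / 7 / (p : ℝ))
    (fun p hp => ⟨by positivity, by
      have h2 : (2 : ℝ) ≤ p := by exact_mod_cast hp.two_le
      rw [div_lt_one (by linarith)]
      linarith⟩)
    (fun p hp => by
      have h2 : (2 : ℝ) ≤ p := by exact_mod_cast hp.two_le
      apply div_nonneg (by norm_num) (by linarith))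
    (fun p hp j => by
      have h2 : (2 : ℝ) ≤ p := by exact_mod_cast hp.two_le
      have h3 : (p : ℝ) - 1 ≠ 0 := by linarith
      have h4 : (p : ℝ) ≠ 0 := by linarith
      rw [hF_prime_pow _ _ _ hp, tq_prime_pow _ _ hp]
      have h5 : (8 / 7 : ℝ) ^ j * (1 / 7) * ((p : ℝ) / (p - 1) / ((p ^ (j + 1) : ℕ) : ℝ))
          = 1 / 7 / ((p : ℝ) - 1) * (8 / 7 / (p : ℝ)) ^ j := by
        push_cast
        rw [div_pow (8 / 7 : ℝ) (p : ℝ), pow_succ]
        field_simp
      rw [← h5]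
      split_ifs with hpA
      · exact le_rfl
      · rw [zero_mul]
        have h6 : 0 < (p : ℝ) - 1 := by linarith
        positivity)
    A hA2 (1 / 7) (10 / 7) (by norm_num) (by norm_num)
    (fun p hp _ => by
      have h2 : (2 : ℝ) ≤ p := by exact_mod_cast hp.two_le
      have h3 : (p : ℝ) - 1 ≠ 0 := by linarith
      have h4 : (p : ℝ) ≠ 0 := by linarith
      have h5 : (p : ℝ) - 8 / 7 ≠ 0 := by linarith
      have h6 : (1 : ℝ) / 7 / ((p : ℝ) - 1) / (1 - 8 / 7 / (p : ℝ))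
          = (1 / 7) * (p / ((p - 1) * (p - 8 / 7))) := by
        have h7 : 1 - 8 / 7 / (p : ℝ) = (p - 8 / 7) / p := by field_simp
        rw [h7]
        field_simp
      have h8 : (1 : ℝ) / 7 / p + 10 / 7 / (p : ℝ) ^ 2 = (1 / 7) * ((p + 10) / (p : ℝ) ^ 2) := by
        field_simp
      rw [h6, h8]
      apply mul_le_mul_of_nonneg_left _ (by norm_num)
      rw [div_le_div_iff₀ (by apply mul_pos <;> linarith) (by positivity)]
      nlinarith [mul_nonneg (by linarith : (0:ℝ) ≤ p - 2) (by linarith : (0:ℝ) ≤ p - 2)])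
    (smD A M) (fun d hd => by
      simp only [smD, Finset.mem_filter, Finset.mem_Icc] at hd
      exact ⟨by omega, hd.2⟩)
  refine key.trans ?_
  apply mul_le_mul_of_nonneg_right _ (Real.exp_pos _).le
  have h1 : Real.log (A : ℝ) ≤ (2 : ℝ) ^ i := by
    rw [hA]
    push_cast
    rw [Real.log_pow]
    have h2 : Real.log 2 ≤ 1 := by
      have := Real.log_two_lt_d9
      linarith
    push_cast
    have h3 : (0 : ℝ) < 2 ^ i := by positivity
    nlinarith
  calc (Real.log (A : ℝ)) ^ (1 / 7 : ℝ) ≤ ((2 : ℝ) ^ i) ^ (1 / 7 : ℝ) :=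
        Real.rpow_le_rpow (Real.log_natCast_nonneg _) h1 (by norm_num)
    _ = ((2 : ℝ) ^ (1 / 7 : ℝ)) ^ i := by
        rw [← Real.rpow_natCast, ← Real.rpow_natCast, ← Real.rpow_mul (by norm_num),
          ← Real.rpow_mul (by norm_num), mul_comm]

lemma sum_hF_rpow (C : ℝ) (hC : ∀ x : ℕ, 2 ≤ x →
      ∑ p ∈ (Finset.Icc 1 x).filter Nat.Prime, (1 : ℝ) / p ≤ Real.log (Real.log x) + C)
    (i M : ℕ) (s : ℝ) (hs : s = 1 - 1 / 2 ^ (i + 2)) :
    ∑ d ∈ smD (2 ^ (2 ^ i)) M, hF (2 ^ (2 ^ i)) d * (d : ℝ) ^ (-s)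
      ≤ (2 : ℝ) ^ i * Real.exp C := by
  set A := 2 ^ (2 ^ i) with hA
  have hA2 : 2 ≤ A := by
    calc 2 = 2 ^ 1 := by norm_num
      _ ≤ 2 ^ (2 ^ i) := Nat.pow_le_pow_right (by norm_num) Nat.one_le_two_pow
  set σ : ℝ := 1 / 2 ^ (i + 2) with hσ
  have hσ0 : 0 < σ := by positivity
  have hσ4 : σ ≤ 1 / 4 := by
    rw [hσ]
    apply one_div_le_one_div_of_le (by norm_num)
    calc (4 : ℝ) = 2 ^ 2 := by norm_num
      _ ≤ 2 ^ (i + 2) := pow_le_pow_right₀ (by norm_num) (by omega)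
  have hs0 : 0 < s := by linarith
  have hx1 : ∀ p : ℕ, p.Prime → (p : ℝ) ^ (-s) ≤ 5 / 8 := by
    intro p hp
    have h1 : (p : ℝ) ^ (-s) ≤ (2 : ℝ) ^ (-s) := by
      apply Real.rpow_le_rpow_of_nonpos (by norm_num) (by exact_mod_cast hp.two_le) (by linarith)
    have h2 : (2 : ℝ) ^ (-s) ≤ (2 : ℝ) ^ (-(3 / 4) : ℝ) :=
      Real.rpow_le_rpow_of_exponent_le (by norm_num) (by linarith)
    have h3 : (2 : ℝ) ^ (-(3 / 4) : ℝ) ≤ 5 / 8 := by
      have h4 : ((2 : ℝ) ^ (-(3 / 4) : ℝ)) ^ 4 = 1 / 8 := by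
        rw [← Real.rpow_natCast, ← Real.rpow_mul (by norm_num)]
        norm_num
      by_contra hcon
      push Not at hcon
      have h6 : (5 / 8 : ℝ) ^ 4 < ((2 : ℝ) ^ (-(3 / 4) : ℝ)) ^ 4 :=
        pow_lt_pow_left₀ hcon (by norm_num) (by norm_num)
      rw [h4] at h6
      norm_num at h6
    linarith
  have h54 : (2 : ℝ) ^ (1 / 4 : ℝ) ≤ 5 / 4 := by
    have h4 : ((2 : ℝ) ^ (1 / 4 : ℝ)) ^ 4 = 2 := by
      rw [← Real.rpow_natCast, ← Real.rpow_mul (by norm_num)]
      norm_num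
    by_contra hcon
    push Not at hcon
    have h6 : (5 / 4 : ℝ) ^ 4 < ((2 : ℝ) ^ (1 / 4 : ℝ)) ^ 4 :=
      pow_lt_pow_left₀ hcon (by norm_num) (by norm_num)
    rw [h4] at h6
    norm_num at h6
  have hx2 : ∀ p : ℕ, p.Prime → p ≤ A → (p : ℝ) ^ (-s) ≤ 5 / 4 / p := by
    intro p hp hpA
    have hp0 : (0 : ℝ) < p := by exact_mod_cast hp.pos
    have h1 : (p : ℝ) ^ (-s) = (p : ℝ) ^ σ / p := by
      rw [hs, neg_sub, Real.rpow_sub hp0, Real.rpow_one]
    rw [h1]
    apply div_le_div_of_nonneg_right _ hp0.le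
    refine le_trans ?_ h54
    calc (p : ℝ) ^ σ ≤ ((2 : ℝ) ^ (2 ^ i)) ^ σ := by
          apply Real.rpow_le_rpow hp0.le _ hσ0.le
          exact_mod_cast hpA
      _ = (2 : ℝ) ^ (1 / 4 : ℝ) := by
          rw [← Real.rpow_natCast, ← Real.rpow_mul (by norm_num), hσ]
          congr 1
          push_cast
          rw [pow_add]
          field_simp
          norm_num
  have key := sum_le_log C hC (fun d => hF A d * (d : ℝ) ^ (-s))
    (fun n => mul_nonneg (hF_nonneg A n) (by positivity))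
    (by simp [(hF_mult A).map_one])
    (fun m n hmn => by
      rw [(hF_mult A).map_mul_of_coprime hmn]
      push_cast
      rw [Real.mul_rpow (by positivity) (by positivity)]
      ring)
    (fun p => (p : ℝ) ^ (-s) / 7) (fun p => 8 / 7 * (p : ℝ) ^ (-s))
    (fun p hp => ⟨by positivity, by
      have := hx1 p hp
      linarith⟩)
    (fun p hp => by positivity)
    (fun p hp j => by
      rw [hF_prime_pow _ _ _ hp, rpow_pow_succ]
      have h5 : (8 / 7 : ℝ) ^ j * (1 / 7) * ((p : ℝ) ^ (-s) * ((p : ℝ) ^ (-s)) ^ j)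
          = (p : ℝ) ^ (-s) / 7 * (8 / 7 * (p : ℝ) ^ (-s)) ^ j := by
        rw [mul_pow]
        ring
      rw [← h5]
      split_ifs with hpA
      · exact le_rfl
      · rw [zero_mul]
        positivity)
    A hA2 1 0 (by norm_num) le_rfl
    (fun p hp hpA => by
      have hp0 : (0 : ℝ) < p := by exact_mod_cast hp.pos
      have h1 := hx1 p hp
      have h2 := hx2 p hp hpA
      simp only [zero_div, add_zero]
      rw [div_le_iff₀ (by linarith)]
      calc (p : ℝ) ^ (-s) / 7 ≤ 5 / 4 / p / 7 := by linarith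
        _ = 1 / p * (5 / 28) := by ring
        _ ≤ 1 / p * (1 - 8 / 7 * (p : ℝ) ^ (-s)) := by
          apply mul_le_mul_of_nonneg_left _ (by positivity)
          linarith)
    (smD A M) (fun d hd => by
      simp only [smD, Finset.mem_filter, Finset.mem_Icc] at hd
      exact ⟨by omega, hd.2⟩)
  refine key.trans ?_
  rw [one_mul, mul_zero, add_zero, Real.rpow_one]
  apply mul_le_mul_of_nonneg_right _ (Real.exp_pos _).le
  rw [hA]
  push_cast
  rw [Real.log_pow]
  have h2 : Real.log 2 ≤ 1 := by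
    have := Real.log_two_lt_d9
    linarith
  push_cast
  have h3 : (0 : ℝ) < 2 ^ i := by positivity
  nlinarith

lemma sum_FF (A J : ℕ) (S : Finset ℕ) (hS : S ⊆ blk J) :
    ∑ n ∈ S, FF A n = ∑ d ∈ smD A (2 ^ (J + 1)), hF A d * ((S.filter (fun n => d ∣ n)).card : ℝ) := by
  have h1 : ∀ n ∈ S, FF A n = ∑ d ∈ smD A (2 ^ (J + 1)), if d ∣ n then hF A d else 0 := by
    intro n hn
    have hn' := hS hn
    simp only [blk, Finset.mem_Ico] at hn'
    have hpos : 0 < 2 ^ J := by positivity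
    rw [← sum_hF A n, ← Finset.sum_filter]
    symm
    apply Finset.sum_subset
    · intro d hd
      simp only [Finset.mem_filter, Nat.mem_divisors] at hd ⊢
      exact ⟨hd.2, by omega⟩
    · intro d hd hd2
      rw [Nat.mem_divisors] at hd
      have hdpos : 0 < d := Nat.pos_of_dvd_of_pos hd.1 (by omega)
      have hdle : d ≤ n := Nat.le_of_dvd (by omega) hd.1
      simp only [smD, Finset.mem_filter, Finset.mem_Icc, not_and] at hd2
      by_contra hne
      have h3 : ∀ p : ℕ, p.Prime → p ∣ d → p ≤ A := by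
        intro p hp hpd
        by_contra hcon
        push Not at hcon
        exact hne (hF_eq_zero A d p (by omega) hp hpd hcon)
      exact hd2 ⟨⟨by omega, by omega⟩, h3⟩ hd.1
  rw [Finset.sum_congr rfl h1, Finset.sum_comm]
  refine Finset.sum_congr rfl (fun d _ => ?_)
  rw [← Finset.sum_filter, Finset.sum_const, nsmul_eq_mul, mul_comm]

theorem atypical (hS : SieveOne) (hM : SumInvPrimes) (hAv : AvgTotient) : Atypical := by
  obtain ⟨C, hC0, hC⟩ := hS
  obtain ⟨CM, hCM⟩ := hM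
  obtain ⟨C₁, hC₁0, hC₁⟩ := hAv 1
  have hlog2 : 0 < Real.log 2 := Real.log_pos one_lt_two
  obtain ⟨J₁, hJ₁⟩ := eventually_small 2 (4 * Real.exp CM) (Real.log 2 / 16) (by linarith)
  set C₂ := 12 * C * C₁ * Real.exp (1 / 7 * CM + 2 * (10 / 7)) with hC₂
  refine ⟨C₂ + 1, by positivity, max J₁ 4, fun J hJ K i hK hi => ?_⟩
  have hJ1 : J₁ ≤ J := le_trans (le_max_left _ _) hJ
  have hJ4 : 4 ≤ J := le_trans (le_max_right _ _) hJ
  have hJ4' : (4 : ℝ) ≤ J := by exact_mod_cast hJ4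
  have hJ0 : (0 : ℝ) < J := by linarith
  have hK0 : (0 : ℝ) < K := by exact_mod_cast hK
  set A := 2 ^ (2 ^ i) with hA
  set σ : ℝ := 1 / 2 ^ (i + 2) with hσ
  have hσ0 : 0 < σ := by positivity
  set s : ℝ := 1 - σ with hs
  set E : ℝ := ((2 : ℝ) ^ J) ^ (-(σ / 2)) with hE
  have hE0 : 0 < E := by positivity
  set D := smD A (2 ^ (J + 1)) with hD
  set N : ℕ → ℕ → ℝ := fun k d =>
    (((blk J).filter (fun n => (k * n + 1).Prime ∧ d ∣ n)).card : ℝ) with hN
  -- bound for the sum over `k`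
  have hbound : ∀ d ∈ D, ∑ k ∈ Finset.Icc 1 K, N k d
      ≤ (12 * C * C₁ * K * (2 ^ J / J)) * (tq d / d) + (K * 2 ^ (J + 1) * E) * (d : ℝ) ^ (-s) := by
    intro d hd
    simp only [hD, smD, Finset.mem_filter, Finset.mem_Icc] at hd
    have hdpos : 0 < d := by omega
    have hd0 : (0 : ℝ) < d := by exact_mod_cast hdpos
    have htq := tq_nonneg d
    by_cases hd2 : d ^ 2 ≤ 2 ^ J
    · have h1 : ∑ k ∈ Finset.Icc 1 K, N k d
          ≤ ∑ k ∈ Finset.Icc 1 K, 12 * C * tq k * (2 ^ J / J) * (tq d / d) := by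
        refine Finset.sum_le_sum (fun k hk => ?_)
        rw [Finset.mem_Icc] at hk
        exact card_dvd_le_sieve C hC0 hC J d k hdpos hd2 hJ4 hk.1
      have h2 : ∑ k ∈ Finset.Icc 1 K, 12 * C * tq k * (2 ^ J / J) * (tq d / d)
          = 12 * C * (2 ^ J / J) * (tq d / d) * ∑ k ∈ Finset.Icc 1 K, tq k := by
        rw [Finset.mul_sum]
        refine Finset.sum_congr rfl (fun k _ => by ring)
      have h3 := hC₁ K
      simp only [pow_one] at h3
      have h4 : 12 * C * (2 ^ J / J) * (tq d / d) * ∑ k ∈ Finset.Icc 1 K, tq k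
          ≤ 12 * C * (2 ^ J / J) * (tq d / d) * (C₁ * K) :=
        mul_le_mul_of_nonneg_left h3 (by positivity)
      have h5 : 0 ≤ (K * 2 ^ (J + 1) * E) * (d : ℝ) ^ (-s) := by positivity
      calc ∑ k ∈ Finset.Icc 1 K, N k d
          ≤ 12 * C * (2 ^ J / J) * (tq d / d) * (C₁ * K) := by linarith
        _ = (12 * C * C₁ * K * (2 ^ J / J)) * (tq d / d) := by ring
        _ ≤ _ := by linarith
    · push Not at hd2
      have h1 : ∑ k ∈ Finset.Icc 1 K, N k d ≤ ∑ k ∈ Finset.Icc 1 K, (2 : ℝ) ^ (J + 1) / d :=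
        Finset.sum_le_sum (fun k _ => card_dvd_le_trivial J d k)
      rw [Finset.sum_const, Nat.card_Icc, nsmul_eq_mul, Nat.add_sub_cancel] at h1
      have h2 : (1 : ℝ) ≤ E * (d : ℝ) ^ σ := by
        have h3 : (d : ℝ) ^ σ = ((d : ℝ) ^ 2) ^ (σ / 2) := by
          rw [← Real.rpow_natCast (d : ℝ) 2, ← Real.rpow_mul hd0.le]
          congr 1
          push_cast
          ring
        rw [hE, h3, Real.rpow_neg (by positivity), inv_mul_eq_div, one_le_div (by positivity)]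
        apply Real.rpow_le_rpow (by positivity) _ (by positivity)
        exact_mod_cast hd2.le
      have h4 : (d : ℝ) ^ (-s) = (d : ℝ) ^ σ / d := by
        rw [hs, neg_sub, Real.rpow_sub hd0, Real.rpow_one]
      have h5 : (2 : ℝ) ^ (J + 1) / d ≤ 2 ^ (J + 1) * E * (d : ℝ) ^ (-s) := by
        rw [h4]
        calc (2 : ℝ) ^ (J + 1) / d = (2 : ℝ) ^ (J + 1) / d * 1 := by ring
          _ ≤ (2 : ℝ) ^ (J + 1) / d * (E * (d : ℝ) ^ σ) :=
            mul_le_mul_of_nonneg_left h2 (by positivity)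
          _ = 2 ^ (J + 1) * E * ((d : ℝ) ^ σ / d) := by ring
      have h6 : 0 ≤ (12 * C * C₁ * K * (2 ^ J / J)) * (tq d / d) := by positivity
      have h7 := mul_le_mul_of_nonneg_left h5 hK0.le
      calc ∑ k ∈ Finset.Icc 1 K, N k d ≤ K * ((2 : ℝ) ^ (J + 1) / d) := h1
        _ ≤ K * (2 ^ (J + 1) * E * (d : ℝ) ^ (-s)) := h7
        _ = (K * 2 ^ (J + 1) * E) * (d : ℝ) ^ (-s) := by ring
        _ ≤ _ := by linarith
  -- the total of `FF`
  have htotal : ∑ k ∈ Finset.Icc 1 K, ∑ n ∈ (blk J).filter (fun n => (k * n + 1).Prime), FF A n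
      ≤ C₂ * ((2 : ℝ) ^ (1 / 7 : ℝ)) ^ i * K * 2 ^ J / J
        + (K * 2 ^ (J + 1) * E) * ((2 : ℝ) ^ i * Real.exp CM) := by
    have h1 : ∑ k ∈ Finset.Icc 1 K, ∑ n ∈ (blk J).filter (fun n => (k * n + 1).Prime), FF A n
        = ∑ d ∈ D, hF A d * ∑ k ∈ Finset.Icc 1 K, N k d := by
      have h2 : ∀ k ∈ Finset.Icc 1 K, ∑ n ∈ (blk J).filter (fun n => (k * n + 1).Prime), FF A n
          = ∑ d ∈ D, hF A d * N k d := by
        intro k _
        rw [sum_FF A J _ (Finset.filter_subset _ _)]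
        refine Finset.sum_congr rfl (fun d _ => ?_)
        rw [Finset.filter_filter]
      rw [Finset.sum_congr rfl h2, Finset.sum_comm]
      refine Finset.sum_congr rfl (fun d _ => ?_)
      rw [Finset.mul_sum]
    rw [h1]
    have h3 : ∑ d ∈ D, hF A d * ∑ k ∈ Finset.Icc 1 K, N k d
        ≤ ∑ d ∈ D, hF A d * ((12 * C * C₁ * K * (2 ^ J / J)) * (tq d / d)
            + (K * 2 ^ (J + 1) * E) * (d : ℝ) ^ (-s)) :=
      Finset.sum_le_sum (fun d hd => mul_le_mul_of_nonneg_left (hbound d hd) (hF_nonneg A d))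
    refine h3.trans ?_
    have h4 : ∑ d ∈ D, hF A d * ((12 * C * C₁ * K * (2 ^ J / J)) * (tq d / d)
            + (K * 2 ^ (J + 1) * E) * (d : ℝ) ^ (-s))
        = (12 * C * C₁ * K * (2 ^ J / J)) * ∑ d ∈ D, hF A d * (tq d / d)
          + (K * 2 ^ (J + 1) * E) * ∑ d ∈ D, hF A d * (d : ℝ) ^ (-s) := by
      rw [Finset.mul_sum, Finset.mul_sum, ← Finset.sum_add_distrib]
      refine Finset.sum_congr rfl (fun d _ => by ring)
    rw [h4]
    have h5 := sum_hF_tq CM hCM i (2 ^ (J + 1))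
    have h6 := sum_hF_rpow CM hCM i (2 ^ (J + 1)) s (by rw [hs])
    have h7 := mul_le_mul_of_nonneg_left h5
      (by positivity : (0 : ℝ) ≤ 12 * C * C₁ * K * (2 ^ J / J))
    have h8 := mul_le_mul_of_nonneg_left h6
      (by positivity : (0 : ℝ) ≤ K * 2 ^ (J + 1) * E)
    have h9 : (12 * C * C₁ * K * (2 ^ J / J)) *
        (((2 : ℝ) ^ (1 / 7 : ℝ)) ^ i * Real.exp (1 / 7 * CM + 2 * (10 / 7)))
        = C₂ * ((2 : ℝ) ^ (1 / 7 : ℝ)) ^ i * K * 2 ^ J / J := by
      rw [hC₂]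
      ring
    rw [h9] at h7
    exact add_le_add h7 h8
  -- the second term is small
  have hsmall : (K * 2 ^ (J + 1) * E) * ((2 : ℝ) ^ i * Real.exp CM)
      ≤ ((2 : ℝ) ^ (1 / 7 : ℝ)) ^ i * K * 2 ^ J / J := by
    have h1 : (1 : ℝ) ≤ ((2 : ℝ) ^ (1 / 7 : ℝ)) ^ i :=
      one_le_pow₀ (Real.one_le_rpow (by norm_num) (by norm_num))
    have h2 : E ≤ Real.exp (-(Real.log 2 / 16 * (J : ℝ) ^ (1 / 20 : ℝ))) := by
      have h3 : E = Real.exp (-(Real.log 2 * (J / 2 ^ (i + 3)))) := by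
        rw [hE, ← Real.rpow_natCast, ← Real.rpow_mul (by norm_num), Real.rpow_def_of_pos (by norm_num),
          hσ]
        congr 1
        rw [pow_succ (2 : ℝ) (i + 2)]
        field_simp
      rw [h3]
      apply Real.exp_le_exp.2
      have h4 : (J : ℝ) ^ (1 / 20 : ℝ) / 16 ≤ J / 2 ^ (i + 3) := by
        rw [← J_div_rpow J (by omega), div_div]
        apply div_le_div_of_nonneg_left hJ0.le (by positivity)
        rw [pow_add]
        norm_num
        linarith
      have h5 := mul_le_mul_of_nonneg_left h4 hlog2.le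
      linarith
    have h6 : (2 : ℝ) ^ i ≤ 2 * J := by
      refine hi.trans ?_
      apply mul_le_mul_of_nonneg_left _ (by norm_num)
      calc (J : ℝ) ^ (19 / 20 : ℝ) ≤ (J : ℝ) ^ (1 : ℝ) :=
            Real.rpow_le_rpow_of_exponent_le (by linarith) (by norm_num)
        _ = J := Real.rpow_one _
    have h7 := hJ₁ J hJ1
    have h8 : E * ((2 : ℝ) ^ i * Real.exp CM) ≤ 1 / (2 * J) := by
      rw [le_div_iff₀ (by positivity)]
      calc E * ((2 : ℝ) ^ i * Real.exp CM) * (2 * J)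
          ≤ Real.exp (-(Real.log 2 / 16 * (J : ℝ) ^ (1 / 20 : ℝ)))
              * ((2 * J) * Real.exp CM) * (2 * J) := by
            apply mul_le_mul_of_nonneg_right _ (by positivity)
            apply mul_le_mul h2 _ (by positivity) (by positivity)
            exact mul_le_mul_of_nonneg_right h6 (Real.exp_pos _).le
        _ = 4 * Real.exp CM * (J : ℝ) ^ 2 *
              Real.exp (-(Real.log 2 / 16 * (J : ℝ) ^ (1 / 20 : ℝ))) := by ring
        _ ≤ 1 := h7
    have h9 := mul_le_mul_of_nonneg_left h8 (by positivity : (0 : ℝ) ≤ K * 2 ^ (J + 1))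
    calc (K * 2 ^ (J + 1) * E) * ((2 : ℝ) ^ i * Real.exp CM)
        = K * 2 ^ (J + 1) * (E * ((2 : ℝ) ^ i * Real.exp CM)) := by ring
      _ ≤ K * 2 ^ (J + 1) * (1 / (2 * J)) := h9
      _ = 1 * (K * 2 ^ J / J) := by
        rw [pow_succ]
        field_simp
      _ ≤ ((2 : ℝ) ^ (1 / 7 : ℝ)) ^ i * (K * 2 ^ J / J) :=
        mul_le_mul_of_nonneg_right h1 (by positivity)
      _ = ((2 : ℝ) ^ (1 / 7 : ℝ)) ^ i * K * 2 ^ J / J := by ring
  -- Markov
  set Y : ℝ := ((7 / 8 : ℝ) ^ (4 / 5 : ℝ)) ^ i with hY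
  have hY0 : 0 < Y := by positivity
  have hmarkov : ∑ k ∈ Finset.Icc 1 K,
      (((blk J).filter (fun n => (k * n + 1).Prime ∧
        (4 / 5 : ℝ) * i < (omA A n : ℝ))).card : ℝ)
      ≤ Y * ∑ k ∈ Finset.Icc 1 K,
          ∑ n ∈ (blk J).filter (fun n => (k * n + 1).Prime), FF A n := by
    rw [Finset.mul_sum]
    refine Finset.sum_le_sum (fun k _ => ?_)
    rw [← Finset.filter_filter, Finset.card_eq_sum_ones]
    push_cast
    rw [Finset.mul_sum]
    have hFF0 : ∀ n : ℕ, 0 ≤ FF A n := by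
      intro n
      by_cases hn : n = 0
      · subst hn; simp
      · rw [FF_apply _ _ hn]; positivity
    refine le_trans (Finset.sum_le_sum (g := fun n => Y * FF A n) (fun n hn => ?_))
      (Finset.sum_le_sum_of_subset_of_nonneg (Finset.filter_subset _ _)
        (fun n _ _ => mul_nonneg hY0.le (hFF0 n)))
    rw [Finset.mem_filter, Finset.mem_filter] at hn
    have hn0 : n ≠ 0 := by
      have := hn.1.1
      simp only [blk, Finset.mem_Ico] at this
      have : 0 < 2 ^ J := by positivity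
      omega
    rw [FF_apply _ _ hn0, ← Real.rpow_natCast (8 / 7 : ℝ) (omA A n)]
    have h1 : (8 / 7 : ℝ) ^ ((4 / 5 : ℝ) * i) ≤ (8 / 7 : ℝ) ^ ((omA A n : ℕ) : ℝ) :=
      Real.rpow_le_rpow_of_exponent_le (by norm_num) hn.2.le
    have h2 : Y * (8 / 7 : ℝ) ^ ((4 / 5 : ℝ) * i) = 1 := by
      rw [hY, Real.rpow_mul (by norm_num), Real.rpow_natCast, ← mul_pow,
        ← Real.mul_rpow (by norm_num) (by norm_num)]
      norm_num
    calc (1 : ℝ) = Y * (8 / 7 : ℝ) ^ ((4 / 5 : ℝ) * i) := h2.symm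
      _ ≤ Y * (8 / 7 : ℝ) ^ ((omA A n : ℕ) : ℝ) := mul_le_mul_of_nonneg_left h1 hY0.le
  refine hmarkov.trans ?_
  have hfin := mul_le_mul_of_nonneg_left (htotal.trans (add_le_add_right hsmall _)) hY0.le
  refine hfin.trans (le_of_eq ?_)
  have hrr : rr ^ i = ((2 : ℝ) ^ (1 / 7 : ℝ)) ^ i * Y := by
    rw [rr, mul_pow]
  rw [hrr]
  ring

end Pool.Agent.PnMn
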