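import Mathlib
import Pool.Agent.PnMn.Defs

set_option autoImplicit false

namespace Pool.Agent.PnMn

open Finset

open scoped Classical

/-! ### Blocks -/

lemma mem_blk {j n : ℕ} : n ∈ blk j ↔ 2 ^ j ≤ n ∧ n < 2 ^ (j + 1) := by
  simp [blk]

lemma card_blk (j : ℕ) : (blk j).card = 2 ^ j := by
  simp [blk, Nat.card_Ico, pow_succ]
  omega

lemma pos_of_mem_blk {j n : ℕ} (h : n ∈ blk j) : 0 < n :=
  lt_of_lt_of_le (by positivity) (mem_blk.mp h).1

lemma mem_blk_log {n : ℕ} (hn : n ≠ 0) : n ∈ blk (Nat.log 2 n) := by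
  rw [mem_blk]
  exact ⟨Nat.pow_log_le_self 2 hn, Nat.lt_pow_succ_log_self (by norm_num) n⟩

lemma blk_eq_log {j n : ℕ} (h : n ∈ blk j) : j = Nat.log 2 n := by
  rw [mem_blk] at h
  exact (Nat.log_eq_of_pow_le_of_lt_pow h.1 h.2).symm

lemma sum_inv_blk_le (j : ℕ) : ∑ a ∈ blk j, (1 : ℝ) / a ≤ 1 := by
  have h : ∀ a ∈ blk j, (1 : ℝ) / a ≤ 1 / 2 ^ j := by
    intro a ha
    have h1 := (mem_blk.mp ha).1
    apply one_div_le_one_div_of_le (by positivity)
    exact_mod_cast h1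
  refine (Finset.sum_le_sum h).trans ?_
  rw [Finset.sum_const, card_blk, nsmul_eq_mul]
  push_cast
  rw [mul_one_div, div_self (by positivity)]

/-- The block of a product. -/
lemma blk_mul {i j k a b : ℕ} (ha : a ∈ blk i) (hb : b ∈ blk k) (hab : a * b ∈ blk j) :
    i + k = j ∨ i + k + 1 = j := by
  rw [mem_blk] at ha hb hab
  have h1 : 2 ^ (i + k) < 2 ^ (j + 1) := by
    calc 2 ^ (i + k) = 2 ^ i * 2 ^ k := pow_add _ _ _
      _ ≤ a * b := Nat.mul_le_mul ha.1 hb.1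
      _ < 2 ^ (j + 1) := hab.2
  have h2 : 2 ^ j < 2 ^ (i + k + 2) := by
    calc 2 ^ j ≤ a * b := hab.1
      _ < 2 ^ (i + 1) * 2 ^ (k + 1) := Nat.mul_lt_mul'' ha.2 hb.2
      _ = 2 ^ (i + k + 2) := by rw [← pow_add]; ring_nf
  have h3 := (Nat.pow_lt_pow_iff_right (by norm_num : 1 < 2)).mp h1
  have h4 := (Nat.pow_lt_pow_iff_right (by norm_num : 1 < 2)).mp h2
  omega

/-! ### The weight -/

lemma omA_mul (A : ℕ) {a b : ℕ} (ha : a ≠ 0) (hb : b ≠ 0) :
    omA A (a * b) = omA A a + omA A b := by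
  unfold omA
  rw [(Nat.perm_primeFactorsList_mul ha hb).filter _ |>.length_eq, List.filter_append,
    List.length_append]

lemma wt_mul (g : ℕ) {a b : ℕ} (ha : a ≠ 0) (hb : b ≠ 0) :
    wt g (a * b) = wt g a * wt g b := by
  unfold wt
  rw [omA_mul _ ha hb, pow_add]

lemma wt_pos (g n : ℕ) : 0 < wt g n := by
  unfold wt
  positivity

lemma wt_le_one (g n : ℕ) : wt g n ≤ 1 := by
  unfold wt
  exact pow_le_one₀ (by norm_num) (by norm_num)

/-! ### The function `m_n` -/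

lemma mn_set_nonempty {n : ℕ} (hn : 0 < n) : {m : ℕ | 0 < m ∧ n ∣ Nat.totient m}.Nonempty := by
  refine ⟨n * n, Nat.mul_pos hn hn, ?_⟩
  have : Nat.totient (n * n) = n * Nat.totient n := by
    have h3 := Nat.totient_gcd_mul_totient_mul n n
    rw [Nat.gcd_self] at h3
    have h4 : 0 < Nat.totient n := Nat.totient_pos.mpr hn
    have h5 : Nat.totient n * Nat.totient (n * n) = Nat.totient n * (n * Nat.totient n) := by
      rw [h3]; ring
    exact Nat.eq_of_mul_eq_mul_left h4 h5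
  rw [this]
  exact dvd_mul_right _ _

lemma mn_spec {n : ℕ} (hn : 0 < n) : 0 < mn n ∧ n ∣ Nat.totient (mn n) :=
  Nat.sInf_mem (mn_set_nonempty hn)

lemma mn_le {n m : ℕ} (hm : 0 < m) (h : n ∣ Nat.totient m) : mn n ≤ m :=
  Nat.sInf_le ⟨hm, h⟩

lemma le_mn {n : ℕ} (hn : 0 < n) : n ≤ mn n := by
  obtain ⟨h1, h2⟩ := mn_spec hn
  exact (Nat.le_of_dvd (Nat.totient_pos.mpr h1) h2).trans (Nat.totient_le _)

lemma mn_one : mn 1 = 1 := by
  apply le_antisymm
  · exact mn_le (by norm_num) (one_dvd _)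
  · exact (mn_spec (by norm_num)).1

lemma lt_mn {n : ℕ} (hn : 2 ≤ n) : n < mn n := by
  obtain ⟨h1, h2⟩ := mn_spec (by omega : 0 < n)
  have h3 : n ≤ Nat.totient (mn n) := Nat.le_of_dvd (Nat.totient_pos.mpr h1) h2
  have h4 : 1 < mn n := lt_of_lt_of_le (by omega) (le_mn (by omega : 0 < n))
  exact lt_of_le_of_lt h3 (Nat.totient_lt _ h4)

/-- If a prime `P` divides `φ(m)` then either `P² ∣ m` or `P ∣ p - 1` for a prime `p ∣ m`. -/
lemma prime_dvd_totient {P m : ℕ} (hP : P.Prime) (hm : 0 < m) (h : P ∣ Nat.totient m) :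
    P ^ 2 ∣ m ∨ ∃ p, p.Prime ∧ p ∣ m ∧ P ∣ p - 1 := by
  rw [Nat.totient_eq_prod_factorization hm.ne', Finsupp.prod, hP.prime.dvd_finsetProd_iff] at h
  obtain ⟨p, hp, hd⟩ := h
  have hpp : p.Prime := Nat.prime_of_mem_primeFactors (by simpa using hp)
  have hpm : p ∣ m := Nat.dvd_of_mem_primeFactors (by simpa using hp)
  rcases (hP.dvd_mul).mp hd with h1 | h1
  · left
    have h2 : P ∣ p := hP.dvd_of_dvd_pow h1
    have h3 : P = p := (Nat.prime_dvd_prime_iff_eq hP hpp).mp h2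
    subst h3
    have h4 : m.factorization P - 1 ≠ 0 := by
      intro h0
      rw [h0, pow_zero] at h1
      exact hP.one_lt.ne' (Nat.dvd_one.mp h1)
    exact (pow_dvd_pow P (by omega)).trans (Nat.ordProj_dvd m P)
  · right
    exact ⟨p, hpp, hpm, h1⟩

/-- The main decomposition. -/
lemma decomp {n m P : ℕ} (hn : 0 < n) (hm : 0 < m) (h : n ∣ Nat.totient m) (hP : P.Prime)
    (hPn : P ∣ n) :
    (∃ p, p.Prime ∧ P ≤ p ∧ p ^ 2 ∣ m) ∨
    ∃ l b a m' : ℕ, (l * b + 1).Prime ∧ n = a * b ∧ P ≤ b ∧ 1 ≤ l ∧ 0 < m' ∧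
      m = (l * b + 1) * m' ∧ a ∣ Nat.totient m' := by
  rcases prime_dvd_totient hP hm (hPn.trans h) with h1 | ⟨p, hp, hpm, hPp⟩
  · exact Or.inl ⟨P, hP, le_rfl, h1⟩
  have hp1 : 0 < p - 1 := by have := hp.two_le; omega
  by_cases hsq : p ^ 2 ∣ m
  · left
    refine ⟨p, hp, ?_, hsq⟩
    have := Nat.le_of_dvd hp1 hPp
    omega
  right
  obtain ⟨m', rfl⟩ := hpm
  have hm' : 0 < m' := by
    rcases Nat.eq_zero_or_pos m' with h0 | h0
    · subst h0
      simp at hm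
    · exact h0
  have hcop : Nat.Coprime p m' := by
    rw [Nat.Prime.coprime_iff_not_dvd hp]
    intro hd
    apply hsq
    rw [pow_two]
    exact Nat.mul_dvd_mul_left p hd
  rw [Nat.totient_mul hcop, Nat.totient_prime hp] at h
  set b := Nat.gcd n (p - 1) with hb
  have hbpos : 0 < b := Nat.gcd_pos_of_pos_left _ hn
  obtain ⟨a, ha⟩ : b ∣ n := Nat.gcd_dvd_left _ _
  obtain ⟨l, hl⟩ : b ∣ p - 1 := Nat.gcd_dvd_right _ _
  have hal : Nat.Coprime a l := by
    have h1 := Nat.coprime_div_gcd_div_gcd (m := n) (n := p - 1) hbpos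
    rw [← hb] at h1
    have e1 : n / b = a := by
      conv_lhs => rw [ha]
      exact Nat.mul_div_cancel_left _ hbpos
    have e2 : (p - 1) / b = l := by
      conv_lhs => rw [hl]
      exact Nat.mul_div_cancel_left _ hbpos
    rwa [e1, e2] at h1
  have hlb : l * b + 1 = p := by
    rw [mul_comm, ← hl]
    omega
  refine ⟨l, b, a, m', ?_, ?_, ?_, ?_, hm', ?_, ?_⟩
  · rw [hlb]; exact hp
  · rw [mul_comm]; exact ha
  · exact Nat.le_of_dvd hbpos (Nat.dvd_gcd hPn hPp)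
  · rcases Nat.eq_zero_or_pos l with h0 | h0
    · subst h0
      simp at hl
      omega
    · exact h0
  · rw [hlb]
  · have h2 : b * a ∣ b * (l * Nat.totient m') := by
      have e : b * (l * Nat.totient m') = (p - 1) * Nat.totient m' := by rw [hl]; ring
      rw [e, ← ha]
      exact h
    have h3 : a ∣ l * Nat.totient m' := Nat.dvd_of_mul_dvd_mul_left hbpos h2
    exact hal.dvd_of_dvd_mul_left h3

end Pool.Agent.PnMn
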