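import Mathlib
import Pool.Agent.PnMn.Defs

set_option autoImplicit false

/-!
# Elementary bounds for Dirichlet L-functions (task T-E)
-/

namespace Pool.Agent.PnMn

open Finset Filter Topology

namespace CharBoundsAux

/-- Abel summation identity. -/
lemma abel_id (c : ℕ → ℂ) (f : ℕ → ℝ) (m : ℕ) :
    ∑ i ∈ range m, c i * (f i : ℂ) =
      (∑ i ∈ range m, c i) * (f m : ℂ) +
        ∑ i ∈ range m, (∑ j ∈ range (i + 1), c j) * ((f i - f (i + 1) : ℝ) : ℂ) := by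
  induction m with
  | zero => simp
  | succ m ih =>
    rw [sum_range_succ, ih, sum_range_succ (fun i => (∑ j ∈ range (i + 1), c j) * _)]
    rw [sum_range_succ c m]
    push_cast
    ring

lemma abel_bound (c : ℕ → ℂ) (f : ℕ → ℝ) (B : ℝ)
    (hB : ∀ m, ‖∑ i ∈ range m, c i‖ ≤ B) (hf : ∀ n, f (n + 1) ≤ f n) (hf0 : ∀ n, 0 ≤ f n)
    (m : ℕ) : ‖∑ i ∈ range m, c i * (f i : ℂ)‖ ≤ B * f 0 := by
  rw [abel_id]
  have h1 : ‖(∑ i ∈ range m, c i) * (f m : ℂ)‖ ≤ B * f m := by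
    rw [norm_mul, Complex.norm_real, Real.norm_eq_abs, abs_of_nonneg (hf0 m)]
    exact mul_le_mul_of_nonneg_right (hB m) (hf0 m)
  have h2 : ‖∑ i ∈ range m, (∑ j ∈ range (i + 1), c j) * ((f i - f (i + 1) : ℝ) : ℂ)‖
      ≤ ∑ i ∈ range m, B * (f i - f (i + 1)) := by
    refine norm_sum_le_of_le _ (fun i _ => ?_)
    rw [norm_mul, Complex.norm_real, Real.norm_eq_abs, abs_of_nonneg (sub_nonneg.2 (hf i))]
    exact mul_le_mul_of_nonneg_right (hB _) (sub_nonneg.2 (hf i))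
  have h3 : ∑ i ∈ range m, B * (f i - f (i + 1)) = B * (f 0 - f m) := by
    rw [← mul_sum, Finset.sum_range_sub']
  calc _ ≤ B * f m + B * (f 0 - f m) := (norm_add_le _ _).trans (add_le_add h1 (h2.trans h3.le))
    _ = B * f 0 := by ring

lemma tsum_bound (c : ℕ → ℂ) (f : ℕ → ℝ) (B : ℝ)
    (hB : ∀ m, ‖∑ i ∈ range m, c i‖ ≤ B) (hf : ∀ n, f (n + 1) ≤ f n) (hf0 : ∀ n, 0 ≤ f n)
    (hs : Summable (fun i => c i * (f i : ℂ))) : ‖∑' i, c i * (f i : ℂ)‖ ≤ B * f 0 := by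
  have h := hs.hasSum.tendsto_sum_nat
  exact le_of_tendsto h.norm (Eventually.of_forall (abel_bound c f B hB hf hf0))

/-- A nonprincipal character sums to zero over a complete interval. -/
lemma sum_period (k : ℕ) [NeZero k] (χ : DirichletCharacter ℂ k) (hχ : χ ≠ 1) (a : ℕ) :
    ∑ i ∈ range k, χ ((a + i : ℕ) : ZMod k) = 0 := by
  obtain ⟨m, rfl⟩ : ∃ m, k = m + 1 := Nat.exists_eq_succ_of_ne_zero (NeZero.ne k)
  have h0 : ∑ x : ZMod (m + 1), χ x = 0 := MulChar.sum_eq_zero_of_ne_one hχ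
  have h1 : ∑ i : Fin (m + 1), χ (((a + (i : ℕ) : ℕ)) : ZMod (m + 1))
      = ∑ i ∈ range (m + 1), χ ((a + i : ℕ) : ZMod (m + 1)) :=
    Fin.sum_univ_eq_sum_range (fun i => χ ((a + i : ℕ) : ZMod (m + 1))) (m + 1)
  rw [← h1, ← h0]
  refine Fintype.sum_equiv ((Equiv.addLeft (a : ZMod (m + 1)))) _ _ (fun i => ?_)
  congr 1
  push_cast
  simp only [Equiv.coe_addLeft]
  congr 1
  exact Fin.cast_val_eq_self i

lemma sum_le (k : ℕ) [NeZero k] (χ : DirichletCharacter ℂ k) (hχ : χ ≠ 1) (m : ℕ) :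
    ∀ a : ℕ, ‖∑ i ∈ range m, χ ((a + i : ℕ) : ZMod k)‖ ≤ k := by
  induction m using Nat.strong_induction_on with
  | _ m ih =>
    intro a
    rcases lt_or_ge m k with h | h
    · calc ‖∑ i ∈ range m, χ ((a + i : ℕ) : ZMod k)‖ ≤ ∑ i ∈ range m, (1 : ℝ) :=
            norm_sum_le_of_le _ (fun i _ => DirichletCharacter.norm_le_one χ _)
        _ = m := by simp
        _ ≤ k := by exact_mod_cast h.le
    · obtain ⟨t, rfl⟩ := Nat.exists_eq_add_of_le h
      rw [sum_range_add, sum_period k χ hχ a, zero_add]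
      have hk : 0 < k := Nat.pos_of_ne_zero (NeZero.ne k)
      have := ih t (by omega) (a + k)
      simpa [add_assoc] using this

/-- Tail bound for `∑ χ(n) g(n)` with `g` eventually decreasing. -/
lemma tail_le (k : ℕ) [NeZero k] (χ : DirichletCharacter ℂ k) (hχ : χ ≠ 1) (g : ℕ → ℝ) (N : ℕ)
    (hg : ∀ n, N < n → g (n + 1) ≤ g n) (hg0 : ∀ n, 0 ≤ g n)
    (hs : Summable (fun n : ℕ => χ (n : ZMod k) * (g n : ℂ))) :
    ‖(∑' n : ℕ, χ (n : ZMod k) * (g n : ℂ)) -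
      ∑ n ∈ range (N + 1), χ (n : ZMod k) * (g n : ℂ)‖ ≤ k * g (N + 1) := by
  rw [← hs.sum_add_tsum_nat_add (N + 1), add_sub_cancel_left]
  have h := tsum_bound (fun i => χ (((N + 1) + i : ℕ) : ZMod k)) (fun i => g ((N + 1) + i)) k
    (fun m => sum_le k χ hχ m (N + 1))
    (fun n => hg ((N + 1) + n) (by omega : N < (N + 1) + n)) (fun n => hg0 _) ?_
  · simpa [add_comm] using h
  · have := (summable_nat_add_iff (N + 1)).2 hs
    refine this.congr (fun i => ?_)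
    rw [add_comm i (N + 1)]

lemma range_eq_Icc (N : ℕ) (F : ℕ → ℂ) (h0 : F 0 = 0) :
    ∑ n ∈ range (N + 1), F n = ∑ n ∈ Finset.Icc 1 N, F n := by
  rw [sum_range_succ', h0, add_zero, Finset.range_eq_Ico, Finset.sum_Ico_add' F 0 N 1]
  rfl

lemma term_eq (k : ℕ) (χ : DirichletCharacter ℂ k) (s : ℝ) (hs : 1 < s) (n : ℕ) :
    LSeries.term (fun n : ℕ => χ (n : ZMod k)) (s : ℂ) n
      = χ (n : ZMod k) * (((n : ℝ) ^ (-s) : ℝ) : ℂ) := by
  rcases Nat.eq_zero_or_pos n with rfl | hn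
  · rw [LSeries.term_zero]
    simp [Real.zero_rpow (show -s ≠ 0 by linarith)]
  · rw [LSeries.term_of_ne_zero hn.ne', div_eq_mul_inv]
    congr 1
    rw [Real.rpow_neg (by positivity), Complex.ofReal_inv, Complex.ofReal_cpow (by positivity)]
    simp

lemma term_logMul_eq (k : ℕ) (χ : DirichletCharacter ℂ k) (s : ℝ) (n : ℕ) :
    LSeries.term (LSeries.logMul (fun n : ℕ => χ (n : ZMod k))) (s : ℂ) n
      = χ (n : ZMod k) * ((Real.log n * (n : ℝ) ^ (-s) : ℝ) : ℂ) := by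
  rcases Nat.eq_zero_or_pos n with rfl | hn
  · rw [LSeries.term_zero]
    simp
  · rw [LSeries.term_of_ne_zero hn.ne', div_eq_mul_inv, LSeries.logMul]
    rw [Complex.ofReal_mul, Real.rpow_neg (by positivity), Complex.ofReal_inv,
      Complex.ofReal_cpow (by positivity), Complex.ofReal_natCast,
      ← Complex.natCast_log]
    ring

end CharBoundsAux

open CharBoundsAux in
theorem charBounds : CharBounds := by
  refine ⟨3, by norm_num, ?_⟩
  intro k _ hk χ hχ s hs1 hs2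
  have hkpos : 0 < k := by omega
  have hre : 1 < (s : ℂ).re := by simpa using hs1
  have hL : χ.LFunction (s : ℂ) = ∑' n : ℕ, χ (n : ZMod k) * (((n : ℝ) ^ (-s) : ℝ) : ℂ) := by
    rw [DirichletCharacter.LFunction_eq_LSeries χ hre, LSeries]
    exact tsum_congr (term_eq k χ s hs1)
  have habs : LSeries.abscissaOfAbsConv (fun n : ℕ => χ (n : ZMod k)) < (s : ℂ).re := by
    rw [DirichletCharacter.absicssaOfAbsConv_eq_one hkpos.ne' χ]
    exact_mod_cast hre
  have hsum1 : Summable (fun n : ℕ => χ (n : ZMod k) * (((n : ℝ) ^ (-s) : ℝ) : ℂ)) := by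
    have := DirichletCharacter.LSeriesSummable_of_one_lt_re χ hre
    exact this.congr (fun n => term_eq k χ s hs1 n)
  have hD : deriv χ.LFunction (s : ℂ) =
      - ∑' n : ℕ, χ (n : ZMod k) * ((Real.log n * (n : ℝ) ^ (-s) : ℝ) : ℂ) := by
    rw [DirichletCharacter.deriv_LFunction_eq_deriv_LSeries χ hre, LSeries_deriv habs, LSeries]
    congr 1
    exact tsum_congr (term_logMul_eq k χ s)
  have hsum2 : Summable
      (fun n : ℕ => χ (n : ZMod k) * ((Real.log n * (n : ℝ) ^ (-s) : ℝ) : ℂ)) := by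
    have := LSeriesSummable_logMul_of_lt_re habs
    exact this.congr (fun n => term_logMul_eq k χ s n)
  -- pointwise bounds
  have hpow : ∀ n : ℕ, 1 ≤ n → (n : ℝ) ^ (-s) ≤ 1 / n := by
    intro n hn
    have h1 : (1 : ℝ) ≤ n := by exact_mod_cast hn
    calc (n : ℝ) ^ (-s) ≤ (n : ℝ) ^ (-1 : ℝ) := Real.rpow_le_rpow_of_exponent_le h1 (by linarith)
      _ = 1 / n := by rw [Real.rpow_neg_one, one_div]
  have hpow0 : ∀ n : ℕ, 0 ≤ (n : ℝ) ^ (-s) := fun n => Real.rpow_nonneg (Nat.cast_nonneg n) _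
  have hlog0 : ∀ n : ℕ, 0 ≤ Real.log n * (n : ℝ) ^ (-s) :=
    fun n => mul_nonneg (Real.log_natCast_nonneg n) (hpow0 n)
  have hanti1 : ∀ n : ℕ, 1 ≤ n → ((n + 1 : ℕ) : ℝ) ^ (-s) ≤ (n : ℝ) ^ (-s) := by
    intro n hn
    have h1 : (0 : ℝ) < n := by exact_mod_cast hn
    exact Real.rpow_le_rpow_of_nonpos h1 (by push_cast; linarith) (by linarith)
  have he3 : Real.exp 1 ≤ 3 := by
    have := Real.exp_one_lt_d9
    linarith
  have hanti2 : ∀ n : ℕ, 3 ≤ n → Real.log ((n + 1 : ℕ) : ℝ) * ((n + 1 : ℕ) : ℝ) ^ (-s)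
      ≤ Real.log n * (n : ℝ) ^ (-s) := by
    intro n hn
    have h3 : (3 : ℝ) ≤ n := by exact_mod_cast hn
    have hexp : Real.exp (1 / s) ≤ 3 := by
      refine le_trans (Real.exp_le_exp.2 ?_) he3
      rw [div_le_one (by linarith)]
      linarith
    rw [one_div] at hexp
    have hx : (n : ℝ) ∈ Set.Ici (Real.exp s⁻¹) := le_trans hexp h3
    have hy : ((n + 1 : ℕ) : ℝ) ∈ Set.Ici (Real.exp s⁻¹) :=
      le_trans hexp (by push_cast; linarith)
    have h := Real.log_div_self_rpow_antitoneOn (a := s) (by linarith) hx hy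
      (by push_cast; linarith)
    simp only at h
    rw [Real.rpow_neg (by positivity), Real.rpow_neg (by positivity), ← div_eq_mul_inv,
      ← div_eq_mul_inv]
    exact h
  -- tails
  have htail1 : ∀ N : ℕ, 3 ≤ N → ‖χ.LFunction (s : ℂ)
      - ∑ n ∈ Finset.Icc 1 N, χ (n : ZMod k) * (((n : ℝ) ^ (-s) : ℝ) : ℂ)‖ ≤ k / N := by
    intro N hN
    have h := tail_le k χ hχ (fun n => (n : ℝ) ^ (-s)) N (fun n hn => hanti1 n (by omega)) hpow0
      hsum1
    rw [range_eq_Icc N (fun n : ℕ => χ (n : ZMod k) * (((n : ℝ) ^ (-s) : ℝ) : ℂ))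
      (by simp [Real.zero_rpow (show -s ≠ 0 by linarith)]), ← hL] at h
    refine h.trans ?_
    have hNpos : (0 : ℝ) < N := by exact_mod_cast (show 0 < N by omega)
    calc (k : ℝ) * ((N + 1 : ℕ) : ℝ) ^ (-s) ≤ k * (1 / N) := by
          refine mul_le_mul_of_nonneg_left ?_ (by positivity)
          exact (hanti1 N (by omega)).trans (hpow N (by omega))
      _ = k / N := by ring
  have htail2 : ∀ N : ℕ, 3 ≤ N → ‖deriv χ.LFunction (s : ℂ)
      + ∑ n ∈ Finset.Icc 1 N, χ (n : ZMod k) * ((Real.log n * (n : ℝ) ^ (-s) : ℝ) : ℂ)‖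
        ≤ k * Real.log N / N := by
    intro N hN
    have h := tail_le k χ hχ (fun n => Real.log n * (n : ℝ) ^ (-s)) N
      (fun n hn => hanti2 n (by omega)) hlog0 hsum2
    rw [range_eq_Icc N (fun n : ℕ => χ (n : ZMod k) * ((Real.log n * (n : ℝ) ^ (-s) : ℝ) : ℂ))
      (by simp)] at h
    have e : deriv χ.LFunction (s : ℂ)
      + ∑ n ∈ Finset.Icc 1 N, χ (n : ZMod k) * ((Real.log n * (n : ℝ) ^ (-s) : ℝ) : ℂ) =
      -((∑' n : ℕ, χ (n : ZMod k) * ((Real.log n * (n : ℝ) ^ (-s) : ℝ) : ℂ)) -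
        ∑ n ∈ Finset.Icc 1 N, χ (n : ZMod k) * ((Real.log n * (n : ℝ) ^ (-s) : ℝ) : ℂ)) := by
      rw [hD]; ring
    rw [e, norm_neg]
    refine h.trans ?_
    have hNpos : (0 : ℝ) < N := by exact_mod_cast (show 0 < N by omega)
    calc (k : ℝ) * (Real.log ((N + 1 : ℕ) : ℝ) * ((N + 1 : ℕ) : ℝ) ^ (-s))
        ≤ k * (Real.log N * (1 / N)) := by
          refine mul_le_mul_of_nonneg_left ?_ (by positivity)
          refine (hanti2 N hN).trans ?_
          exact mul_le_mul_of_nonneg_left (hpow N (by omega)) (Real.log_natCast_nonneg N)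
      _ = k * Real.log N / N := by ring
  -- harmonic sums
  have hk3 : (3 : ℝ) ≤ k := by exact_mod_cast hk
  have hk0 : (0 : ℝ) < k := by linarith
  have hlogk : 1 ≤ Real.log k := by
    rw [Real.le_log_iff_exp_le hk0]
    linarith
  have hharm : ∑ n ∈ Finset.Icc 1 k, (1 : ℝ) / n ≤ 1 + Real.log k := by
    have := harmonic_le_one_add_log k
    rw [harmonic_eq_sum_Icc] at this
    push_cast at this
    simpa [one_div] using this
  have hb1 : ‖∑ n ∈ Finset.Icc 1 k, χ (n : ZMod k) * (((n : ℝ) ^ (-s) : ℝ) : ℂ)‖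
      ≤ 1 + Real.log k := by
    refine le_trans (norm_sum_le_of_le _ (fun n hn => ?_)) hharm
    rw [Finset.mem_Icc] at hn
    rw [norm_mul, Complex.norm_real, Real.norm_eq_abs, abs_of_nonneg (hpow0 n)]
    calc ‖χ (n : ZMod k)‖ * (n : ℝ) ^ (-s) ≤ 1 * (1 / n) :=
          mul_le_mul (DirichletCharacter.norm_le_one χ _) (hpow n hn.1) (hpow0 n) zero_le_one
      _ = 1 / n := one_mul _
  have hb2 : ‖∑ n ∈ Finset.Icc 1 k, χ (n : ZMod k) * ((Real.log n * (n : ℝ) ^ (-s) : ℝ) : ℂ)‖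
      ≤ Real.log k * (1 + Real.log k) := by
    have : ∑ n ∈ Finset.Icc 1 k, Real.log k * ((1 : ℝ) / n) ≤ Real.log k * (1 + Real.log k) := by
      rw [← mul_sum]
      exact mul_le_mul_of_nonneg_left hharm (by linarith)
    refine le_trans (norm_sum_le_of_le _ (fun n hn => ?_)) this
    rw [Finset.mem_Icc] at hn
    rw [norm_mul, Complex.norm_real, Real.norm_eq_abs, abs_of_nonneg (hlog0 n)]
    have hn1 : (1 : ℝ) ≤ n := by exact_mod_cast hn.1
    have hlogn : Real.log n ≤ Real.log k :=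
      Real.log_le_log (by linarith) (by exact_mod_cast hn.2)
    calc ‖χ (n : ZMod k)‖ * (Real.log n * (n : ℝ) ^ (-s)) ≤ 1 * (Real.log k * (1 / n)) :=
          mul_le_mul (DirichletCharacter.norm_le_one χ _)
            (mul_le_mul hlogn (hpow n hn.1) (hpow0 n) (by linarith)) (hlog0 n) zero_le_one
      _ = Real.log k * (1 / n) := one_mul _
  refine ⟨?_, ?_, ?_⟩
  · have h := htail1 k hk
    rw [div_self hk0.ne'] at h
    have := norm_le_norm_sub_add (χ.LFunction (s : ℂ))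
      (∑ n ∈ Finset.Icc 1 k, χ (n : ZMod k) * (((n : ℝ) ^ (-s) : ℝ) : ℂ))
    linarith
  · have h := htail2 k hk
    rw [mul_comm, mul_div_assoc, div_self hk0.ne', mul_one] at h
    have := norm_sub_le (deriv χ.LFunction (s : ℂ)
      + ∑ n ∈ Finset.Icc 1 k, χ (n : ZMod k) * ((Real.log n * (n : ℝ) ^ (-s) : ℝ) : ℂ))
      (∑ n ∈ Finset.Icc 1 k, χ (n : ZMod k) * ((Real.log n * (n : ℝ) ^ (-s) : ℝ) : ℂ))
    rw [add_sub_cancel_right] at this
    nlinarith
  · intro N hN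
    have hN3 : (3 : ℝ) ≤ N := by exact_mod_cast hN
    have hlogN : 0 ≤ Real.log N := Real.log_natCast_nonneg N
    refine ⟨(htail1 N hN).trans ?_, (htail2 N hN).trans ?_⟩
    · gcongr
      linarith
    · gcongr
      linarith

end Pool.Agent.PnMn
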