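import Mathlib
import Pool.Agent.PnMn.Defs
import Pool.Agent.PnMn.Basic

set_option autoImplicit false

namespace Pool.Agent.PnMn

open Finset Filter Topology

open scoped Classical

/-- Positive upper density of `{n : p_n = m_n}` from the dyadic statement. -/
lemma upper_density (h : FinalDensity) : ∃ c : ℝ, 0 < c ∧ ∀ x₀ : ℕ, ∃ x ≥ x₀,
    c * (x : ℝ) ≤ ((({n : ℕ | pn n = mn n} ∩ Set.Icc 1 x).ncard : ℕ) : ℝ) := by
  obtain ⟨c, hc, hJ⟩ := h
  refine ⟨c / 2, by positivity, ?_⟩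
  intro x₀
  obtain ⟨J, hJ0, hcard⟩ := hJ x₀
  have hx : x₀ ≤ 2 ^ (J + 1) := by
    have h1 := Nat.lt_two_pow_self (n := J + 1)
    omega
  refine ⟨2 ^ (J + 1), hx, ?_⟩
  have hsub : (((blk J).filter (fun n => pn n = mn n) : Finset ℕ) : Set ℕ)
      ⊆ {n : ℕ | pn n = mn n} ∩ Set.Icc 1 (2 ^ (J + 1)) := by
    intro n hn
    simp only [Finset.coe_filter, Set.mem_ofPred_eq] at hn
    refine ⟨hn.2, ?_⟩
    have h1 := pos_of_mem_blk hn.1
    have h2 := (mem_blk.mp hn.1).2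
    exact ⟨h1, h2.le⟩
  have h3 := Set.ncard_le_ncard hsub
    ((Set.finite_Icc 1 (2 ^ (J + 1))).subset Set.inter_subset_right)
  rw [Set.ncard_coe_finset] at h3
  have h4 : (((blk J).filter (fun n => pn n = mn n)).card : ℝ)
      ≤ ((({n : ℕ | pn n = mn n} ∩ Set.Icc 1 (2 ^ (J + 1))).ncard : ℕ) : ℝ) := by
    exact_mod_cast h3
  refine le_trans ?_ (hcard.trans h4)
  push_cast
  rw [pow_succ]
  linarith

/-- Abstract form: a set with positive upper density meets every set of density one in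
arbitrarily large elements. -/
lemma frequently_of_density {A S : Set ℕ} {c : ℝ} (hc : 0 < c)
    (hA : ∀ x₀ : ℕ, ∃ x ≥ x₀, c * (x : ℝ) ≤ (((A ∩ Set.Icc 1 x).ncard : ℕ) : ℝ))
    (hS : Tendsto (fun x : ℕ => (((Sᶜ ∩ Set.Icc 1 x).ncard : ℕ) : ℝ) / x) atTop (𝓝 0)) :
    ∀ N : ℕ, ∃ n ≥ N, n ∈ A ∧ n ∈ S := by
  intro N
  by_contra hcon
  push Not at hcon
  rw [Metric.tendsto_atTop] at hS
  obtain ⟨X, hX⟩ := hS (c / 2) (by positivity)
  obtain ⟨M, hM⟩ := exists_nat_gt (2 * N / c : ℝ)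
  obtain ⟨x, hx, hcx⟩ := hA (X + M + 1)
  have h1 := hX x (by omega)
  have hxpos : (0 : ℝ) < x := by exact_mod_cast (by omega : 0 < x)
  rw [Real.dist_eq, sub_zero, abs_of_nonneg (by positivity), div_lt_iff₀ hxpos] at h1
  have hsub : A ∩ Set.Icc 1 x ⊆ (Sᶜ ∩ Set.Icc 1 x) ∪ Set.Ico 0 N := by
    intro n hn
    by_cases hnN : N ≤ n
    · left
      exact ⟨hcon n hnN hn.1, hn.2⟩
    · right
      push Not at hnN
      exact ⟨Nat.zero_le _, hnN⟩
  have hfin : ((Sᶜ ∩ Set.Icc 1 x) ∪ Set.Ico 0 N).Finite :=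
    ((Set.finite_Icc 1 x).subset Set.inter_subset_right).union (Set.finite_Ico 0 N)
  have h2 := Set.ncard_le_ncard hsub hfin
  have h3 := Set.ncard_union_le (Sᶜ ∩ Set.Icc 1 x) (Set.Ico 0 N)
  have h4 : (Set.Ico 0 N).ncard = N := by
    rw [← Finset.coe_Ico, Set.ncard_coe_finset]
    simp
  have h5 : (((A ∩ Set.Icc 1 x).ncard : ℕ) : ℝ) ≤ (((Sᶜ ∩ Set.Icc 1 x).ncard : ℕ) : ℝ) + N := by
    rw [h4] at h3
    exact_mod_cast h2.trans h3
  have h6 : (M : ℝ) ≤ x := by exact_mod_cast (by omega : M ≤ x)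
  rw [div_lt_iff₀ hc] at hM
  nlinarith

end Pool.Agent.PnMn
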