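import Mathlib
import Pool.Agent.PnMn.Defs
import Pool.Agent.PnMn.Basic

set_option autoImplicit false

namespace Pool.Agent.PnMn

open Finset

open scoped Classical

/-- The version of the bound for `W` that is used: `W g j ≤ C / j^(7/5)`. -/
def WLe' : Prop :=
  ∃ C : ℝ, 0 < C ∧ ∀ g j : ℕ, 1 ≤ j → hh j ≤ g → W g j ≤ C / (j : ℝ) ^ (7 / 5 : ℝ)

lemma hh_mono {i j : ℕ} (h : i ≤ j) : hh i ≤ hh j := by
  unfold hh
  apply Nat.ceil_mono
  apply Real.rpow_le_rpow (by positivity) (by exact_mod_cast h) (by norm_num)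

lemma le_hh (j : ℕ) : (j : ℝ) ^ (19 / 20 : ℝ) ≤ hh j := Nat.le_ceil _

lemma one_le_hh {j : ℕ} (hj : 1 ≤ j) : 1 ≤ hh j := by
  unfold hh
  rw [Nat.one_le_ceil_iff]
  positivity

lemma hh_le_nat (j : ℕ) : hh j ≤ j := by
  unfold hh
  rw [Nat.ceil_le]
  rcases Nat.eq_zero_or_pos j with h | h
  · subst h
    simp
  · have h1 : (1 : ℝ) ≤ j := by exact_mod_cast h
    calc (j : ℝ) ^ (19 / 20 : ℝ) ≤ (j : ℝ) ^ (1 : ℝ) :=
          Real.rpow_le_rpow_of_exponent_le h1 (by norm_num)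
      _ = j := Real.rpow_one _

/-- `j^6 ≤ C 2^(hh j)`. -/
lemma pow_six_le : ∃ C : ℝ, 0 < C ∧ ∀ j : ℕ, 1 ≤ j → (j : ℝ) ^ 6 ≤ C * 2 ^ (hh j) := by
  refine ⟨5040 / (Real.log 2) ^ 7, by positivity, ?_⟩
  intro j hj
  have hj1 : (1 : ℝ) ≤ j := by exact_mod_cast hj
  have hlog : 0 < Real.log 2 := Real.log_pos (by norm_num)
  have h1 : ((hh j : ℝ) * Real.log 2) ^ 7 / (Nat.factorial 7 : ℝ)
      ≤ Real.exp ((hh j : ℝ) * Real.log 2) :=
    Real.pow_div_factorial_le_exp _ (by positivity) 7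
  have h2 : Real.exp ((hh j : ℝ) * Real.log 2) = 2 ^ (hh j) := by
    rw [mul_comm, Real.exp_mul, Real.exp_log (by norm_num), Real.rpow_natCast]
  rw [h2] at h1
  have h3 : (j : ℝ) ^ 6 ≤ (hh j : ℝ) ^ 7 := by
    calc (j : ℝ) ^ 6 = (j : ℝ) ^ (6 : ℝ) := by norm_cast
      _ ≤ (j : ℝ) ^ ((19 / 20 : ℝ) * 7) :=
          Real.rpow_le_rpow_of_exponent_le hj1 (by norm_num)
      _ = ((j : ℝ) ^ (19 / 20 : ℝ)) ^ 7 := by
          rw [Real.rpow_mul (by positivity)]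
          norm_cast
      _ ≤ (hh j : ℝ) ^ 7 := pow_le_pow_left₀ (by positivity) (le_hh j) 7
  have h4 : (Nat.factorial 7 : ℝ) = 5040 := by norm_num [Nat.factorial]
  rw [h4, mul_pow, div_le_iff₀ (by norm_num)] at h1
  rw [div_mul_eq_mul_div, le_div_iff₀ (by positivity)]
  calc (j : ℝ) ^ 6 * Real.log 2 ^ 7 ≤ (hh j : ℝ) ^ 7 * Real.log 2 ^ 7 := by gcongr
    _ ≤ 5040 * 2 ^ hh j := by linarith

/-- Sum of `tq l / l`. -/
lemma sum_tq_div (hA : AvgTotient) : ∃ C : ℝ, 0 < C ∧ ∀ N : ℕ,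
    ∑ l ∈ Finset.Icc 1 N, tq l / l ≤ C * (Nat.log 2 N + 1) := by
  obtain ⟨C, hC, h⟩ := hA 1
  refine ⟨2 * C, by positivity, ?_⟩
  intro N
  have htq : ∀ l, 0 ≤ tq l := fun l => by unfold tq; positivity
  have hsub : Finset.Icc 1 N ⊆ (Finset.range (Nat.log 2 N + 1)).biUnion blk := by
    intro l hl
    rw [Finset.mem_Icc] at hl
    rw [Finset.mem_biUnion]
    refine ⟨Nat.log 2 l, ?_, mem_blk_log (by omega)⟩
    rw [Finset.mem_range]
    have := Nat.log_mono_right (b := 2) hl.2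
    omega
  calc ∑ l ∈ Finset.Icc 1 N, tq l / l
      ≤ ∑ l ∈ (Finset.range (Nat.log 2 N + 1)).biUnion blk, tq l / l :=
        Finset.sum_le_sum_of_subset_of_nonneg hsub
          (fun l _ _ => div_nonneg (htq l) (by positivity))
    _ ≤ ∑ i ∈ Finset.range (Nat.log 2 N + 1), ∑ l ∈ blk i, tq l / l := by
        rw [Finset.sum_biUnion]
        intro i _ k _ hik
        rw [Function.onFun, Finset.disjoint_left]
        intro a ha hb
        exact hik ((blk_eq_log ha).trans (blk_eq_log hb).symm)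
    _ ≤ ∑ i ∈ Finset.range (Nat.log 2 N + 1), 2 * C := by
        apply Finset.sum_le_sum
        intro i _
        have h1 : ∀ l ∈ blk i, tq l / l ≤ tq l ^ 1 / 2 ^ i := by
          intro l hl
          rw [pow_one]
          apply div_le_div_of_nonneg_left (htq l) (by positivity)
          exact_mod_cast (mem_blk.mp hl).1
        refine (Finset.sum_le_sum h1).trans ?_
        rw [← Finset.sum_div, div_le_iff₀ (by positivity)]
        have h2 : blk i ⊆ Finset.Icc 1 (2 ^ (i + 1)) := by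
          intro l hl
          have := pos_of_mem_blk hl
          rw [mem_blk] at hl
          rw [Finset.mem_Icc]
          omega
        refine (Finset.sum_le_sum_of_subset_of_nonneg h2
          (fun l _ _ => by have := htq l; positivity)).trans ((h _).trans ?_)
        push_cast
        rw [pow_succ]
        linarith
    _ = 2 * C * (Nat.log 2 N + 1) := by
        rw [Finset.sum_const, Finset.card_range, nsmul_eq_mul]
        push_cast
        ring

lemma W_nonneg (g j : ℕ) : 0 ≤ W g j := by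
  unfold W
  apply Finset.sum_nonneg
  intro a _
  have := wt_pos g a
  positivity

/-- trivial bound for a term -/
lemma term_le {g a : ℕ} (ha : 0 < a) : wt g a / (mn a : ℝ) ≤ 1 / a := by
  have h1 : (a : ℝ) ≤ mn a := by exact_mod_cast le_mn ha
  have h2 : (0 : ℝ) < a := by exact_mod_cast ha
  exact div_le_div₀ (by norm_num) (wt_le_one g a) h2 h1

lemma W_le_one (g j : ℕ) : W g j ≤ 1 := by
  unfold W
  refine (Finset.sum_le_sum (fun a ha => term_le (pos_of_mem_blk ha))).trans (sum_inv_blk_le j)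

/-- Number of `m ≤ X` divisible by the square of a number `≥ N`. -/
lemma card_sq_dvd_le (N X : ℕ) (hN : 1 ≤ N) :
    (((Finset.Icc 1 X).filter (fun m => ∃ p, p.Prime ∧ N ≤ p ∧ p ^ 2 ∣ m)).card : ℝ)
      ≤ 2 * X / N := by
  have hsub : (Finset.Icc 1 X).filter (fun m => ∃ p, p.Prime ∧ N ≤ p ∧ p ^ 2 ∣ m)
      ⊆ (Finset.Icc N X).biUnion (fun p => (Finset.Ioc 0 X).filter (fun m => p ^ 2 ∣ m)) := by
    intro m hm
    rw [Finset.mem_filter, Finset.mem_Icc] at hm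
    obtain ⟨⟨h1, h2⟩, p, hp, hNp, hd⟩ := hm
    rw [Finset.mem_biUnion]
    refine ⟨p, ?_, ?_⟩
    · rw [Finset.mem_Icc]
      refine ⟨hNp, ?_⟩
      have h3 := Nat.le_of_dvd (by omega) hd
      have h4 : p ≤ p ^ 2 := Nat.le_self_pow (by norm_num) p
      omega
    · rw [Finset.mem_filter, Finset.mem_Ioc]
      exact ⟨⟨by omega, h2⟩, hd⟩
  have h1 : (((Finset.Icc 1 X).filter (fun m => ∃ p, p.Prime ∧ N ≤ p ∧ p ^ 2 ∣ m)).card : ℝ)
      ≤ ∑ p ∈ Finset.Icc N X, (X : ℝ) * ((p : ℝ) ^ 2)⁻¹ := by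
    calc (((Finset.Icc 1 X).filter (fun m => ∃ p, p.Prime ∧ N ≤ p ∧ p ^ 2 ∣ m)).card : ℝ)
        ≤ (((Finset.Icc N X).biUnion
            (fun p => (Finset.Ioc 0 X).filter (fun m => p ^ 2 ∣ m))).card : ℝ) := by
          exact_mod_cast Finset.card_le_card hsub
      _ ≤ ((∑ p ∈ Finset.Icc N X, ((Finset.Ioc 0 X).filter (fun m => p ^ 2 ∣ m)).card : ℕ) : ℝ) := by
          exact_mod_cast Finset.card_biUnion_le
      _ ≤ ∑ p ∈ Finset.Icc N X, (X : ℝ) * ((p : ℝ) ^ 2)⁻¹ := by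
          push_cast
          apply Finset.sum_le_sum
          intro p _
          rw [Nat.Ioc_filter_dvd_card_eq_div]
          refine Nat.cast_div_le.trans ?_
          push_cast
          rw [div_eq_mul_inv]
  refine h1.trans ?_
  rw [← Finset.mul_sum]
  have h2 := sum_Ioo_inv_sq_le (α := ℝ) (N - 1) (X + 1)
  have e : Ioo (N - 1) (X + 1) = Icc N X := by
    ext x
    simp only [Finset.mem_Ioo, Finset.mem_Icc]
    omega
  rw [e] at h2
  have e2 : ((N - 1 : ℕ) : ℝ) + 1 = N := by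
    have : N - 1 + 1 = N := by omega
    exact_mod_cast this
  rw [e2] at h2
  calc (X : ℝ) * ∑ p ∈ Finset.Icc N X, ((p : ℝ) ^ 2)⁻¹ ≤ X * (2 / N) := by gcongr
    _ = 2 * X / N := by ring

/-- Number of `a` in block `j` with `mn a` divisible by a large square and `mn a ≤ a R`. -/
lemma card_sq_block_le (j R N : ℕ) (hN : 1 ≤ N) :
    (((blk j).filter (fun a => mn a ≤ a * R ∧ ∃ p, p.Prime ∧ N ≤ p ∧ p ^ 2 ∣ mn a)).card : ℝ)
      ≤ 4 * 2 ^ j * (R : ℝ) ^ 2 / N := by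
  set S := (blk j).filter (fun a => mn a ≤ a * R ∧ ∃ p, p.Prime ∧ N ≤ p ∧ p ^ 2 ∣ mn a) with hS
  set X := 2 ^ (j + 1) * R with hX
  set T := ((Finset.Icc 1 X).filter (fun m => ∃ p, p.Prime ∧ N ≤ p ∧ p ^ 2 ∣ m)) ×ˢ
    (Finset.Icc 1 R) with hT
  have hmap : ∀ a ∈ S, ((mn a, Nat.totient (mn a) / a) : ℕ × ℕ) ∈ T := by
    intro a ha
    rw [hS, Finset.mem_filter] at ha
    obtain ⟨hab, h1, h2⟩ := ha
    have hapos := pos_of_mem_blk hab
    rw [mem_blk] at hab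
    obtain ⟨hm1, hm2⟩ := mn_spec hapos
    rw [hT, Finset.mem_product, Finset.mem_filter, Finset.mem_Icc, Finset.mem_Icc]
    refine ⟨⟨⟨hm1, ?_⟩, h2⟩, ?_, ?_⟩
    · refine h1.trans ?_
      rw [hX]
      exact Nat.mul_le_mul_right _ hab.2.le
    · exact Nat.div_pos (Nat.le_of_dvd (Nat.totient_pos.mpr hm1) hm2) hapos
    · apply Nat.div_le_of_le_mul
      exact (Nat.totient_le _).trans h1
  have hinj : Set.InjOn (fun a => ((mn a, Nat.totient (mn a) / a) : ℕ × ℕ)) (S : Set ℕ) := by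
    intro a ha b hb hab
    simp only [Prod.mk.injEq] at hab
    obtain ⟨e1, e2⟩ := hab
    have ha' := pos_of_mem_blk (Finset.mem_filter.mp ha).1
    have hb' := pos_of_mem_blk (Finset.mem_filter.mp hb).1
    obtain ⟨hm1, hm2⟩ := mn_spec ha'
    obtain ⟨hn1, hn2⟩ := mn_spec hb'
    rw [e1] at e2 hm1 hm2
    have h3 := Nat.div_mul_cancel hm2
    have h4 := Nat.div_mul_cancel hn2
    rw [e2] at h3
    have h5 : 0 < Nat.totient (mn b) / b :=
      Nat.div_pos (Nat.le_of_dvd (Nat.totient_pos.mpr hn1) hn2) hb'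
    exact Nat.eq_of_mul_eq_mul_left h5 (h3.trans h4.symm)
  have hcard : S.card ≤ T.card := Finset.card_le_card_of_injOn _ hmap hinj
  have hT2 : (T.card : ℝ) ≤ (2 * X / N) * R := by
    rw [hT, Finset.card_product]
    push_cast
    have h1 := card_sq_dvd_le N X hN
    have h2 : ((Finset.Icc 1 R).card : ℝ) = R := by simp
    rw [h2]
    gcongr
  calc (S.card : ℝ) ≤ T.card := by exact_mod_cast hcard
    _ ≤ (2 * X / N) * R := hT2
    _ = 4 * 2 ^ j * (R : ℝ) ^ 2 / N := by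
        rw [hX]
        push_cast
        rw [pow_succ]
        ring

/-- The key estimate for the main part of the block. -/
lemma main_part {C₁ C₂ : ℝ} (hC₁ : 0 < C₁) (hC₂ : 0 < C₂)
    (hS : ∀ g l H : ℕ, 1 ≤ l → 1 ≤ H →
      ∑ b ∈ (blk H).filter (fun b => (l * b + 1).Prime), wt g b
        ≤ C₁ * tq l * 2 ^ H / (H * Real.sqrt (1 + (min H g : ℕ))))
    (hT : ∀ N : ℕ, ∑ l ∈ Finset.Icc 1 N, tq l / l ≤ C₂ * (Nat.log 2 N + 1))
    (g j h : ℕ) (hh1 : 1 ≤ h) (hhg : h ≤ g) (hhj : h ≤ j) :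
    ∑ a ∈ (blk j).filter (fun a => mn a ≤ a * j ^ 2 ∧ (∃ P, P.Prime ∧ 2 ^ h ≤ P ∧ P ∣ a) ∧
      ¬ ∃ p, p.Prime ∧ 2 ^ h ≤ p ∧ p ^ 2 ∣ mn a), wt g a / (mn a : ℝ)
      ≤ 2 * (C₁ * (C₂ * (Nat.log 2 (j ^ 2) + 1)) / (h * Real.sqrt h)) *
        ∑ i ∈ Finset.range j, W g i := by
  set S := (blk j).filter (fun a => mn a ≤ a * j ^ 2 ∧ (∃ P, P.Prime ∧ 2 ^ h ≤ P ∧ P ∣ a) ∧
      ¬ ∃ p, p.Prime ∧ 2 ^ h ≤ p ∧ p ^ 2 ∣ mn a) with hSdef
  set T : Finset (Σ _ : ℕ × ℕ, Σ _ : ℕ × ℕ, ℕ) :=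
    (Finset.range 2 ×ˢ Finset.range j).sigma (fun p =>
      (blk p.2 ×ˢ Finset.Icc 1 (j ^ 2)).sigma (fun q =>
        (blk (j - p.2 - p.1)).filter
          (fun b => (q.2 * b + 1).Prime ∧ h ≤ j - p.2 - p.1))) with hTdef
  let F : (Σ _ : ℕ × ℕ, Σ _ : ℕ × ℕ, ℕ) → ℝ := fun t =>
    (wt g t.2.1.1 / (mn t.2.1.1 : ℝ)) * (wt g t.2.2 / ((t.2.1.2 : ℝ) * (t.2.2 : ℝ)))
  have hF0 : ∀ t, 0 ≤ F t := by
    intro t
    have h1 := wt_pos g t.2.1.1
    have h2 := wt_pos g t.2.2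
    simp only [F]
    positivity
  -- each `a` is represented
  have hrep : ∀ a ∈ S, ∃ t ∈ T, t.2.1.1 * t.2.2 = a ∧ wt g a / (mn a : ℝ) ≤ F t := by
    intro a ha
    rw [hSdef, Finset.mem_filter] at ha
    obtain ⟨hab, hm, ⟨P, hP, hPh, hPa⟩, hsq⟩ := ha
    have hapos := pos_of_mem_blk hab
    obtain ⟨hm1, hm2⟩ := mn_spec hapos
    rcases decomp hapos hm1 hm2 hP hPa with ⟨p, hp, hpP, hpd⟩ | ⟨l, b, a', m', hpr, hab', hPb, hl,
      hm', hmm, hdiv⟩
    · exact absurd ⟨p, hp, hPh.trans hpP, hpd⟩ hsq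
    have hbpos : 0 < b := lt_of_lt_of_le (by positivity) (hPh.trans hPb)
    have ha'pos : 0 < a' := by
      rcases Nat.eq_zero_or_pos a' with h0 | h0
      · subst h0
        simp at hab'
        omega
      · exact h0
    have hmn' : mn a' ≤ m' := mn_le hm' hdiv
    have hmna' : a' ≤ mn a' := le_mn ha'pos
    have hbb : b ∈ blk (Nat.log 2 b) := mem_blk_log hbpos.ne'
    have haa : a' ∈ blk (Nat.log 2 a') := mem_blk_log ha'pos.ne'
    have hab2 : a' * b ∈ blk j := by rw [← hab']; exact hab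
    have hlog := blk_mul haa hbb hab2
    have hHh : h ≤ Nat.log 2 b := by
      have h1 : 2 ^ h ≤ b := hPh.trans hPb
      exact (Nat.le_log_iff_pow_le (by norm_num) hbpos.ne').mpr h1
    -- bound for l
    have hl2 : l ≤ j ^ 2 := by
      have h1 : l * b * mn a' ≤ a' * b * j ^ 2 := by
        calc l * b * mn a' ≤ (l * b + 1) * m' := Nat.mul_le_mul (by omega) hmn'
          _ = mn a := hmm.symm
          _ ≤ a * j ^ 2 := hm
          _ = a' * b * j ^ 2 := by rw [hab']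
      have h2 : l * (a' * b) ≤ j ^ 2 * (a' * b) := by
        calc l * (a' * b) = l * b * a' := by ring
          _ ≤ l * b * mn a' := Nat.mul_le_mul_left _ hmna'
          _ ≤ a' * b * j ^ 2 := h1
          _ = j ^ 2 * (a' * b) := by ring
      exact Nat.le_of_mul_le_mul_right h2 (Nat.mul_pos ha'pos hbpos)
    have hmnpos : 0 < mn a' := lt_of_lt_of_le ha'pos hmna'
    have hineq : wt g a / (mn a : ℝ)
        ≤ (wt g a' / (mn a' : ℝ)) * (wt g b / ((l : ℝ) * (b : ℝ))) := by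
      rw [hab', wt_mul g ha'pos.ne' hbpos.ne', div_mul_div_comm]
      apply div_le_div_of_nonneg_left
      · have := wt_pos g a'
        have := wt_pos g b
        positivity
      · have : (0:ℝ) < mn a' := by exact_mod_cast hmnpos
        have : (0:ℝ) < l := by exact_mod_cast (by omega : 0 < l)
        have : (0:ℝ) < b := by exact_mod_cast hbpos
        positivity
      · rw [← hab']
        have h1 : mn a' * (l * b) ≤ mn a := by
          rw [hmm]
          calc mn a' * (l * b) = (l * b) * mn a' := by ring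
            _ ≤ (l * b + 1) * m' := Nat.mul_le_mul (by omega) hmn'
        exact_mod_cast h1
    rcases hlog with hlog | hlog
    · refine ⟨⟨(0, Nat.log 2 a'), ⟨(a', l), b⟩⟩, ?_, hab'.symm, hineq⟩
      rw [hTdef]
      simp only [Finset.mem_sigma, Finset.mem_product, Finset.mem_range, Finset.mem_Icc,
        Finset.mem_filter]
      have e : j - Nat.log 2 a' - 0 = Nat.log 2 b := by omega
      rw [e]
      exact ⟨⟨by omega, by omega⟩, ⟨haa, hl, hl2⟩, hbb, hpr, hHh⟩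
    · refine ⟨⟨(1, Nat.log 2 a'), ⟨(a', l), b⟩⟩, ?_, hab'.symm, hineq⟩
      rw [hTdef]
      simp only [Finset.mem_sigma, Finset.mem_product, Finset.mem_range, Finset.mem_Icc,
        Finset.mem_filter]
      have e : j - Nat.log 2 a' - 1 = Nat.log 2 b := by omega
      rw [e]
      exact ⟨⟨by omega, by omega⟩, ⟨haa, hl, hl2⟩, hbb, hpr, hHh⟩
  -- choose representatives
  choose! φ hφT hφa hφF using hrep
  have hinj : Set.InjOn φ (S : Set ℕ) := by
    intro a ha b hb hab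
    rw [← hφa a ha, ← hφa b hb, hab]
  have hstep1 : ∑ a ∈ S, wt g a / (mn a : ℝ) ≤ ∑ t ∈ T, F t := by
    calc ∑ a ∈ S, wt g a / (mn a : ℝ) ≤ ∑ a ∈ S, F (φ a) := Finset.sum_le_sum hφF
      _ = ∑ t ∈ S.image φ, F t := (Finset.sum_image (fun a ha b hb hab => hinj ha hb hab)).symm
      _ ≤ ∑ t ∈ T, F t := by
          apply Finset.sum_le_sum_of_subset_of_nonneg
          · intro t ht
            rw [Finset.mem_image] at ht
            obtain ⟨a, ha, rfl⟩ := ht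
            exact hφT a ha
          · intro t _ _
            exact hF0 t
  refine hstep1.trans ?_
  rw [hTdef, Finset.sum_sigma, Finset.sum_product]
  have hinner : ∀ e ∈ Finset.range 2, ∀ i ∈ Finset.range j,
      ∑ s ∈ (blk i ×ˢ Finset.Icc 1 (j ^ 2)).sigma (fun q =>
        (blk (j - i - e)).filter (fun b => (q.2 * b + 1).Prime ∧ h ≤ j - i - e)),
        F ⟨(e, i), s⟩ ≤ W g i * (C₁ * (C₂ * (Nat.log 2 (j ^ 2) + 1)) / (h * Real.sqrt h)) := by
    intro e _ i _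
    rw [Finset.sum_sigma, Finset.sum_product]
    simp only [F]
    have h1 : ∀ a ∈ blk i, ∑ l ∈ Finset.Icc 1 (j ^ 2),
        ∑ b ∈ (blk (j - i - e)).filter (fun b => (l * b + 1).Prime ∧ h ≤ j - i - e),
          (wt g a / (mn a : ℝ)) * (wt g b / ((l : ℝ) * (b : ℝ)))
        ≤ (wt g a / (mn a : ℝ)) * (C₁ * (C₂ * (Nat.log 2 (j ^ 2) + 1)) / (h * Real.sqrt h)) := by
      intro a ha
      have hwa : 0 ≤ wt g a / (mn a : ℝ) := by
        have := wt_pos g a
        positivity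
      simp_rw [← Finset.mul_sum]
      apply mul_le_mul_of_nonneg_left _ hwa
      have h2 : ∀ l ∈ Finset.Icc 1 (j ^ 2),
          ∑ b ∈ (blk (j - i - e)).filter (fun b => (l * b + 1).Prime ∧ h ≤ j - i - e),
            wt g b / ((l : ℝ) * (b : ℝ)) ≤ (C₁ / (h * Real.sqrt h)) * (tq l / l) := by
        intro l hl
        rw [Finset.mem_Icc] at hl
        have htq : 0 ≤ tq l := by unfold tq; positivity
        have hlpos : (0 : ℝ) < l := by exact_mod_cast (by omega : 0 < l)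
        have hhpos : (0 : ℝ) < h := by exact_mod_cast (by omega : 0 < h)
        by_cases hH : h ≤ j - i - e
        · set H := j - i - e with hHdef
          have hHpos : (0 : ℝ) < H := by exact_mod_cast (by omega : 0 < H)
          have h3 : ∑ b ∈ (blk H).filter (fun b => (l * b + 1).Prime ∧ h ≤ H),
              wt g b / ((l : ℝ) * (b : ℝ))
              ≤ ∑ b ∈ (blk H).filter (fun b => (l * b + 1).Prime), wt g b * (1 / (l * 2 ^ H)) := by
            have e1 : (blk H).filter (fun b => (l * b + 1).Prime ∧ h ≤ H)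
                = (blk H).filter (fun b => (l * b + 1).Prime) := by
              apply Finset.filter_congr
              intro b _
              simp [hH]
            rw [e1]
            apply Finset.sum_le_sum
            intro b hb
            rw [Finset.mem_filter, mem_blk] at hb
            have hb1 : (2 : ℝ) ^ H ≤ b := by exact_mod_cast hb.1.1
            rw [div_eq_mul_one_div]
            apply mul_le_mul_of_nonneg_left _ (wt_pos g b).le
            apply one_div_le_one_div_of_le (by positivity)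
            gcongr
          refine h3.trans ?_
          rw [← Finset.sum_mul]
          have h4 := hS g l H hl.1 (by omega)
          have h5 : C₁ * tq l * 2 ^ H / (H * Real.sqrt (1 + (min H g : ℕ)))
              ≤ C₁ * tq l * 2 ^ H / (h * Real.sqrt h) := by
            apply div_le_div_of_nonneg_left (by positivity) (by positivity)
            have h6 : (h : ℝ) ≤ H := by exact_mod_cast hH
            have h7 : (h : ℝ) ≤ 1 + (min H g : ℕ) := by
              have : h ≤ min H g := le_min hH hhg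
              have : (h : ℝ) ≤ (min H g : ℕ) := by exact_mod_cast this
              linarith
            gcongr
          calc (∑ b ∈ (blk H).filter (fun b => (l * b + 1).Prime), wt g b) * (1 / (l * 2 ^ H))
              ≤ (C₁ * tq l * 2 ^ H / (h * Real.sqrt h)) * (1 / (l * 2 ^ H)) := by
                apply mul_le_mul_of_nonneg_right (h4.trans h5) (by positivity)
            _ = (C₁ / (h * Real.sqrt h)) * (tq l / l) := by
                field_simp
        · have e1 : (blk (j - i - e)).filter (fun b => (l * b + 1).Prime ∧ h ≤ j - i - e) = ∅ := by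
            apply Finset.filter_false_of_mem
            intro b _ hb
            exact hH hb.2
          rw [e1, Finset.sum_empty]
          positivity
      refine (Finset.sum_le_sum h2).trans ?_
      rw [← Finset.mul_sum]
      have h3 := hT (j ^ 2)
      calc (C₁ / (h * Real.sqrt h)) * ∑ l ∈ Finset.Icc 1 (j ^ 2), tq l / l
          ≤ (C₁ / (h * Real.sqrt h)) * (C₂ * (Nat.log 2 (j ^ 2) + 1)) := by
            apply mul_le_mul_of_nonneg_left h3 (by positivity)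
        _ = C₁ * (C₂ * (Nat.log 2 (j ^ 2) + 1)) / (h * Real.sqrt h) := by ring
    refine (Finset.sum_le_sum h1).trans ?_
    rw [← Finset.sum_mul]
    rfl
  have h2 : ∑ e ∈ Finset.range 2, ∑ i ∈ Finset.range j,
      ∑ s ∈ (blk i ×ˢ Finset.Icc 1 (j ^ 2)).sigma (fun q =>
        (blk (j - i - e)).filter (fun b => (q.2 * b + 1).Prime ∧ h ≤ j - i - e)),
        F ⟨(e, i), s⟩
      ≤ ∑ e ∈ Finset.range 2, ∑ i ∈ Finset.range j,
        W g i * (C₁ * (C₂ * (Nat.log 2 (j ^ 2) + 1)) / (h * Real.sqrt h)) :=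
    Finset.sum_le_sum (fun e he => Finset.sum_le_sum (fun i hi => hinner e he i hi))
  refine h2.trans ?_
  rw [Finset.sum_const, Finset.card_range, ← Finset.sum_mul, nsmul_eq_mul]
  push_cast
  apply le_of_eq
  ring

lemma log_factor_le (j h : ℕ) (hj : 1 ≤ j) (hh' : (j : ℝ) ^ (19 / 20 : ℝ) ≤ h) :
    ((Nat.log 2 (j ^ 2) : ℝ) + 1) / (h * Real.sqrt h) ≤ 121 / (j : ℝ) ^ (7 / 5 : ℝ) := by
  have hj1 : (1 : ℝ) ≤ j := by exact_mod_cast hj
  have hj0 : (0 : ℝ) < j := by linarith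
  have hlog2 : (0 : ℝ) < Real.log 2 := Real.log_pos (by norm_num)
  have hlogj : 0 ≤ Real.log j := Real.log_nonneg hj1
  have h1 : (Nat.log 2 (j ^ 2) : ℝ) ≤ 3 * Real.log j := by
    have h2 := Real.natLog_le_logb (j ^ 2) 2
    refine h2.trans ?_
    rw [Real.logb]
    push_cast
    rw [Real.log_pow, div_le_iff₀ hlog2]
    have h3 : (0.6931471803 : ℝ) < Real.log 2 := Real.log_two_gt_d9
    push_cast
    nlinarith
  have h2 : Real.log j ≤ (j : ℝ) ^ (1 / 40 : ℝ) / (1 / 40) :=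
    Real.log_le_rpow_div hj0.le (by norm_num)
  have h3 : (1 : ℝ) ≤ (j : ℝ) ^ (1 / 40 : ℝ) := Real.one_le_rpow hj1 (by norm_num)
  have h4 : (Nat.log 2 (j ^ 2) : ℝ) + 1 ≤ 121 * (j : ℝ) ^ (1 / 40 : ℝ) := by
    have : Real.log j ≤ 40 * (j : ℝ) ^ (1 / 40 : ℝ) := by
      rw [div_eq_mul_inv] at h2
      norm_num at h2 ⊢
      linarith
    linarith
  have h5 : (j : ℝ) ^ (57 / 40 : ℝ) ≤ h * Real.sqrt h := by
    have e : (j : ℝ) ^ (57 / 40 : ℝ)
        = (j : ℝ) ^ (19 / 20 : ℝ) * Real.sqrt ((j : ℝ) ^ (19 / 20 : ℝ)) := by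
      rw [Real.sqrt_eq_rpow, ← Real.rpow_mul hj0.le, ← Real.rpow_add hj0]
      norm_num
    rw [e]
    gcongr
  have h6 : (0 : ℝ) < (j : ℝ) ^ (57 / 40 : ℝ) := by positivity
  calc ((Nat.log 2 (j ^ 2) : ℝ) + 1) / (h * Real.sqrt h)
      ≤ (121 * (j : ℝ) ^ (1 / 40 : ℝ)) / (j : ℝ) ^ (57 / 40 : ℝ) :=
        div_le_div₀ (by positivity) h4 h6 h5
    _ = 121 / (j : ℝ) ^ (7 / 5 : ℝ) := by
        have e : (j : ℝ) ^ (57 / 40 : ℝ) = (j : ℝ) ^ (1 / 40 : ℝ) * (j : ℝ) ^ (7 / 5 : ℝ) := by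
          rw [← Real.rpow_add hj0]
          norm_num
        rw [e]
        have : (0 : ℝ) < (j : ℝ) ^ (1 / 40 : ℝ) := by positivity
        field_simp

lemma W_rec (hS1 : SieveOne) (hA : AvgTotient) (hSm : SmoothLe) :
    ∃ C₁ C₂ : ℝ, 0 < C₁ ∧ 0 < C₂ ∧ ∀ g j : ℕ, 1 ≤ j → hh j ≤ g →
      W g j ≤ C₁ / (j : ℝ) ^ (7 / 5 : ℝ) * ∑ i ∈ Finset.range j, W g i + C₂ / (j : ℝ) ^ 2 := by
  obtain ⟨A₁, hA₁, hS⟩ := hS1
  obtain ⟨A₂, hA₂, hT⟩ := sum_tq_div hA
  obtain ⟨A₃, hA₃, hP⟩ := pow_six_le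
  obtain ⟨J₀, hJ⟩ := hSm
  refine ⟨2 * (A₁ * A₂ * 121), 2 + 4 * A₃ + (J₀ : ℝ) ^ 2, by positivity, by positivity, ?_⟩
  intro g j hj hg
  have hj1 : (1 : ℝ) ≤ j := by exact_mod_cast hj
  have hj0 : (0 : ℝ) < j := by linarith
  have hWsum : 0 ≤ ∑ i ∈ Finset.range j, W g i := Finset.sum_nonneg (fun i _ => W_nonneg g i)
  have hpos1 : 0 ≤ 2 * (A₁ * A₂ * 121) / (j : ℝ) ^ (7 / 5 : ℝ) * ∑ i ∈ Finset.range j, W g i := by
    positivity
  by_cases hjJ : j < J₀
  · have h1 := W_le_one g j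
    have h2 : (1 : ℝ) ≤ (2 + 4 * A₃ + (J₀ : ℝ) ^ 2) / (j : ℝ) ^ 2 := by
      rw [le_div_iff₀ (by positivity)]
      have : (j : ℝ) ≤ J₀ := by exact_mod_cast hjJ.le
      nlinarith
    linarith
  push Not at hjJ
  set h := hh j with hh_def
  have hh1 : 1 ≤ h := one_le_hh hj
  have hF : ∀ a ∈ blk j, 0 ≤ wt g a / (mn a : ℝ) := by
    intro a _
    have := wt_pos g a
    positivity
  -- the four parts
  have hsplit : W g j ≤
      ∑ a ∈ (blk j).filter (fun a => a * j ^ 2 < mn a), wt g a / (mn a : ℝ)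
      + ∑ a ∈ (blk j).filter (fun n => ∀ p : ℕ, p.Prime → p ∣ n → p < 2 ^ h), wt g a / (mn a : ℝ)
      + ∑ a ∈ (blk j).filter (fun a => mn a ≤ a * j ^ 2 ∧
          ∃ p, p.Prime ∧ 2 ^ h ≤ p ∧ p ^ 2 ∣ mn a), wt g a / (mn a : ℝ)
      + ∑ a ∈ (blk j).filter (fun a => mn a ≤ a * j ^ 2 ∧ (∃ P, P.Prime ∧ 2 ^ h ≤ P ∧ P ∣ a) ∧
          ¬ ∃ p, p.Prime ∧ 2 ^ h ≤ p ∧ p ^ 2 ∣ mn a), wt g a / (mn a : ℝ) := by
    unfold W
    rw [Finset.sum_filter, Finset.sum_filter, Finset.sum_filter, Finset.sum_filter,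
      ← Finset.sum_add_distrib, ← Finset.sum_add_distrib, ← Finset.sum_add_distrib]
    apply Finset.sum_le_sum
    intro a ha
    have h0 := hF a ha
    by_cases c1 : a * j ^ 2 < mn a
    · rw [if_pos c1]
      have : ∀ (p : Prop) [Decidable p], 0 ≤ (if p then wt g a / (mn a : ℝ) else 0) := by
        intro p _
        split_ifs
        · exact h0
        · exact le_rfl
      have t1 := this (∀ p : ℕ, p.Prime → p ∣ a → p < 2 ^ h)
      have t2 := this (mn a ≤ a * j ^ 2 ∧ ∃ p, p.Prime ∧ 2 ^ h ≤ p ∧ p ^ 2 ∣ mn a)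
      have t3 := this (mn a ≤ a * j ^ 2 ∧ (∃ P, P.Prime ∧ 2 ^ h ≤ P ∧ P ∣ a) ∧
          ¬ ∃ p, p.Prime ∧ 2 ^ h ≤ p ∧ p ^ 2 ∣ mn a)
      linarith
    push Not at c1
    have : ∀ (p : Prop) [Decidable p], 0 ≤ (if p then wt g a / (mn a : ℝ) else 0) := by
      intro p _
      split_ifs
      · exact h0
      · exact le_rfl
    have t0 := this (a * j ^ 2 < mn a)
    have t1 := this (∀ p : ℕ, p.Prime → p ∣ a → p < 2 ^ h)
    have t2 := this (mn a ≤ a * j ^ 2 ∧ ∃ p, p.Prime ∧ 2 ^ h ≤ p ∧ p ^ 2 ∣ mn a)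
    have t3 := this (mn a ≤ a * j ^ 2 ∧ (∃ P, P.Prime ∧ 2 ^ h ≤ P ∧ P ∣ a) ∧
        ¬ ∃ p, p.Prime ∧ 2 ^ h ≤ p ∧ p ^ 2 ∣ mn a)
    by_cases c2 : ∀ p : ℕ, p.Prime → p ∣ a → p < 2 ^ h
    · rw [if_pos c2]
      linarith
    by_cases c3 : ∃ p, p.Prime ∧ 2 ^ h ≤ p ∧ p ^ 2 ∣ mn a
    · rw [if_pos (⟨c1, c3⟩ : mn a ≤ a * j ^ 2 ∧ ∃ p, p.Prime ∧ 2 ^ h ≤ p ∧ p ^ 2 ∣ mn a)]
      linarith
    have c4 : ∃ P, P.Prime ∧ 2 ^ h ≤ P ∧ P ∣ a := by
      push Not at c2
      obtain ⟨p, hp, hpa, hle⟩ := c2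
      exact ⟨p, hp, hle, hpa⟩
    rw [if_pos (⟨c1, c4, c3⟩ : mn a ≤ a * j ^ 2 ∧ (∃ P, P.Prime ∧ 2 ^ h ≤ P ∧ P ∣ a) ∧
        ¬ ∃ p, p.Prime ∧ 2 ^ h ≤ p ∧ p ^ 2 ∣ mn a)]
    linarith
  -- part 1
  have hp1 : ∑ a ∈ (blk j).filter (fun a => a * j ^ 2 < mn a), wt g a / (mn a : ℝ)
      ≤ 1 / (j : ℝ) ^ 2 := by
    have h1 : ∀ a ∈ (blk j).filter (fun a => a * j ^ 2 < mn a), wt g a / (mn a : ℝ)
        ≤ (1 / a) * (1 / (j : ℝ) ^ 2) := by
      intro a ha
      rw [Finset.mem_filter] at ha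
      have hapos : (0 : ℝ) < a := by exact_mod_cast pos_of_mem_blk ha.1
      rw [one_div_mul_one_div]
      apply div_le_div₀ (by norm_num) (wt_le_one g a) (by positivity)
      exact_mod_cast ha.2.le
    refine (Finset.sum_le_sum h1).trans ?_
    rw [← Finset.sum_mul]
    have h2 : ∑ a ∈ (blk j).filter (fun a => a * j ^ 2 < mn a), (1 : ℝ) / a ≤ 1 :=
      (Finset.sum_le_sum_of_subset_of_nonneg (Finset.filter_subset _ _)
        (fun _ _ _ => by positivity)).trans (sum_inv_blk_le j)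
    calc (∑ a ∈ (blk j).filter (fun a => a * j ^ 2 < mn a), (1 : ℝ) / a) * (1 / (j : ℝ) ^ 2)
        ≤ 1 * (1 / (j : ℝ) ^ 2) := by gcongr
      _ = 1 / (j : ℝ) ^ 2 := one_mul _
  -- a general bound by cardinality
  have hcardb : ∀ S : Finset ℕ, S ⊆ blk j → ∑ a ∈ S, wt g a / (mn a : ℝ) ≤ S.card / 2 ^ j := by
    intro S hSb
    have h1 : ∀ a ∈ S, wt g a / (mn a : ℝ) ≤ 1 / 2 ^ j := by
      intro a ha
      have hab := hSb ha
      have hapos := pos_of_mem_blk hab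
      rw [mem_blk] at hab
      refine (term_le hapos).trans ?_
      apply one_div_le_one_div_of_le (by positivity)
      exact_mod_cast hab.1
    refine (Finset.sum_le_sum h1).trans ?_
    rw [Finset.sum_const, nsmul_eq_mul, mul_one_div]
  -- part 2
  have hp2 : ∑ a ∈ (blk j).filter (fun n => ∀ p : ℕ, p.Prime → p ∣ n → p < 2 ^ h),
      wt g a / (mn a : ℝ) ≤ 1 / (j : ℝ) ^ 2 := by
    refine (hcardb _ (Finset.filter_subset _ _)).trans ?_
    rw [div_le_iff₀ (by positivity)]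
    refine (hJ j hjJ).trans ?_
    rw [div_mul_eq_mul_div, one_mul]
    apply div_le_div_of_nonneg_left (by positivity) (by positivity)
    exact pow_le_pow_right₀ hj1 (by norm_num)
  -- part 3
  have hp3 : ∑ a ∈ (blk j).filter (fun a => mn a ≤ a * j ^ 2 ∧
      ∃ p, p.Prime ∧ 2 ^ h ≤ p ∧ p ^ 2 ∣ mn a), wt g a / (mn a : ℝ)
      ≤ 4 * A₃ / (j : ℝ) ^ 2 := by
    refine (hcardb _ (Finset.filter_subset _ _)).trans ?_
    have h1 := card_sq_block_le j (j ^ 2) (2 ^ h) Nat.one_le_two_pow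
    rw [div_le_iff₀ (by positivity)]
    refine h1.trans ?_
    push_cast
    rw [div_mul_eq_mul_div, div_le_div_iff₀ (by positivity) (by positivity)]
    have h2 := hP j hj
    have h3 : (4 : ℝ) * 2 ^ j * ((j : ℝ) ^ 2) ^ 2 * (j : ℝ) ^ 2 = 4 * 2 ^ j * (j : ℝ) ^ 6 := by ring
    rw [h3]
    have h4 : (0 : ℝ) < 2 ^ j := by positivity
    calc (4 : ℝ) * 2 ^ j * (j : ℝ) ^ 6 ≤ 4 * 2 ^ j * (A₃ * 2 ^ h) := by gcongr
      _ = 4 * A₃ * 2 ^ j * 2 ^ h := by ring
  -- part 4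
  have hp4 := main_part hA₁ hA₂ hS hT g j h hh1 hg (hh_le_nat j)
  have hp4' : 2 * (A₁ * (A₂ * (Nat.log 2 (j ^ 2) + 1)) / (h * Real.sqrt h)) *
        ∑ i ∈ Finset.range j, W g i
      ≤ 2 * (A₁ * A₂ * 121) / (j : ℝ) ^ (7 / 5 : ℝ) * ∑ i ∈ Finset.range j, W g i := by
    apply mul_le_mul_of_nonneg_right _ hWsum
    have h1 := log_factor_le j h hj (le_hh j)
    calc 2 * (A₁ * (A₂ * (Nat.log 2 (j ^ 2) + 1)) / (h * Real.sqrt h))
        = 2 * (A₁ * A₂) * (((Nat.log 2 (j ^ 2) : ℝ) + 1) / (h * Real.sqrt h)) := by ring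
      _ ≤ 2 * (A₁ * A₂) * (121 / (j : ℝ) ^ (7 / 5 : ℝ)) := by gcongr
      _ = 2 * (A₁ * A₂ * 121) / (j : ℝ) ^ (7 / 5 : ℝ) := by ring
  have hfin : 1 / (j : ℝ) ^ 2 + 1 / (j : ℝ) ^ 2 + 4 * A₃ / (j : ℝ) ^ 2
      ≤ (2 + 4 * A₃ + (J₀ : ℝ) ^ 2) / (j : ℝ) ^ 2 := by
    rw [← add_div, ← add_div]
    apply div_le_div_of_nonneg_right _ (by positivity)
    nlinarith [sq_nonneg (J₀ : ℝ)]
  linarith

/-- A discrete Gronwall argument. -/
lemma gronwall_sum (v c d : ℕ → ℝ) (n : ℕ) (hv0 : v 0 ≤ 1)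
    (hc : ∀ j, 0 ≤ c j) (hd : ∀ j, 0 ≤ d j)
    (h : ∀ j, 1 ≤ j → j ≤ n → v j ≤ c j * ∑ i ∈ Finset.range j, v i + d j)
    (hv : ∀ j, 0 ≤ v j) :
    ∀ j, 1 ≤ j → j ≤ n + 1 → ∑ i ∈ Finset.range j, v i
      ≤ Real.exp (∑ i ∈ Finset.range j, c i) * (1 + ∑ i ∈ Finset.range j, d i) := by
  intro j hj
  induction j, hj using Nat.le_induction with
  | base =>
    intro _
    rw [Finset.sum_range_one, Finset.sum_range_one, Finset.sum_range_one]
    have h1 : 1 ≤ Real.exp (c 0) := Real.one_le_exp (hc 0)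
    have h2 : 1 ≤ 1 + d 0 := by linarith [hd 0]
    nlinarith
  | succ j hj ih =>
    intro hjn
    have ih' := ih (by omega)
    have hj' := h j hj (by omega)
    rw [Finset.sum_range_succ, Finset.sum_range_succ c, Finset.sum_range_succ d, Real.exp_add]
    set S := ∑ i ∈ Finset.range j, v i with hS
    set E := Real.exp (∑ i ∈ Finset.range j, c i) with hE
    set D := ∑ i ∈ Finset.range j, d i with hD
    have hE1 : 1 ≤ E := Real.one_le_exp (Finset.sum_nonneg (fun i _ => hc i))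
    have hD0 : 0 ≤ D := Finset.sum_nonneg (fun i _ => hd i)
    have hS0 : 0 ≤ S := Finset.sum_nonneg (fun i _ => hv i)
    have hec : 1 + c j ≤ Real.exp (c j) := by linarith [Real.add_one_le_exp (c j)]
    have hec1 : 1 ≤ Real.exp (c j) := Real.one_le_exp (hc j)
    calc S + v j ≤ S * (1 + c j) + d j := by nlinarith
      _ ≤ S * Real.exp (c j) + d j := by
          have := mul_le_mul_of_nonneg_left hec hS0
          linarith
      _ ≤ (E * (1 + D)) * Real.exp (c j) + E * Real.exp (c j) * d j := by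
          have h1 := mul_le_mul_of_nonneg_right ih' (by linarith : (0:ℝ) ≤ Real.exp (c j))
          have h2 : 1 * d j ≤ E * Real.exp (c j) * d j :=
            mul_le_mul_of_nonneg_right (by nlinarith) (hd j)
          linarith
      _ = E * Real.exp (c j) * (1 + (D + d j)) := by ring

theorem wLe' (hS1 : SieveOne) (hA : AvgTotient) (hSm : SmoothLe) : WLe' := by
  obtain ⟨C₁, C₂, hC₁, hC₂, h⟩ := W_rec hS1 hA hSm
  have hs1 : Summable (fun n : ℕ => 1 / (n : ℝ) ^ (7 / 5 : ℝ)) :=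
    Real.summable_one_div_nat_rpow.mpr (by norm_num)
  have hs2 : Summable (fun n : ℕ => 1 / (n : ℝ) ^ 2) :=
    Real.summable_one_div_nat_pow.mpr (by norm_num)
  set Z₁ := ∑' n : ℕ, 1 / (n : ℝ) ^ (7 / 5 : ℝ) with hZ₁
  set Z₂ := ∑' n : ℕ, 1 / (n : ℝ) ^ 2 with hZ₂
  have hZ₁0 : 0 ≤ Z₁ := tsum_nonneg (fun n => by positivity)
  have hZ₂0 : 0 ≤ Z₂ := tsum_nonneg (fun n => by positivity)
  refine ⟨C₁ * (Real.exp (C₁ * Z₁) * (1 + C₂ * Z₂)) + C₂, by positivity, ?_⟩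
  intro g j hj hg
  have hj1 : (1 : ℝ) ≤ j := by exact_mod_cast hj
  have hj0 : (0 : ℝ) < j := by linarith
  have hgr := gronwall_sum (fun i => W g i) (fun i => C₁ * (1 / (i : ℝ) ^ (7 / 5 : ℝ)))
    (fun i => C₂ * (1 / (i : ℝ) ^ 2)) j (W_le_one g 0) (fun i => by positivity)
    (fun i => by positivity)
    (fun i hi hij => by
      have := h g i hi ((hh_mono hij).trans hg)
      simp only [mul_one_div]
      exact this)
    (fun i => W_nonneg g i) j hj (by omega)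
  have hbound : ∑ i ∈ Finset.range j, W g i ≤ Real.exp (C₁ * Z₁) * (1 + C₂ * Z₂) := by
    refine hgr.trans ?_
    have h1 : ∑ i ∈ Finset.range j, C₁ * (1 / (i : ℝ) ^ (7 / 5 : ℝ)) ≤ C₁ * Z₁ := by
      rw [← Finset.mul_sum]
      apply mul_le_mul_of_nonneg_left _ hC₁.le
      exact hs1.sum_le_tsum _ (fun i _ => by positivity)
    have h2 : ∑ i ∈ Finset.range j, C₂ * (1 / (i : ℝ) ^ 2) ≤ C₂ * Z₂ := by
      rw [← Finset.mul_sum]
      apply mul_le_mul_of_nonneg_left _ hC₂.le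
      exact hs2.sum_le_tsum _ (fun i _ => by positivity)
    have h3 : 0 ≤ ∑ i ∈ Finset.range j, C₂ * (1 / (i : ℝ) ^ 2) :=
      Finset.sum_nonneg (fun i _ => by positivity)
    have h4 := Real.exp_le_exp.mpr h1
    apply mul_le_mul h4 (by linarith) (by linarith) (Real.exp_pos _).le
  have h1 := h g j hj hg
  refine h1.trans ?_
  have h2 : C₂ / (j : ℝ) ^ 2 ≤ C₂ / (j : ℝ) ^ (7 / 5 : ℝ) := by
    apply div_le_div_of_nonneg_left hC₂.le (by positivity)
    calc (j : ℝ) ^ (7 / 5 : ℝ) ≤ (j : ℝ) ^ (2 : ℝ) :=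
          Real.rpow_le_rpow_of_exponent_le hj1 (by norm_num)
      _ = (j : ℝ) ^ 2 := by norm_cast
  have h3 : C₁ / (j : ℝ) ^ (7 / 5 : ℝ) * ∑ i ∈ Finset.range j, W g i
      ≤ C₁ / (j : ℝ) ^ (7 / 5 : ℝ) * (Real.exp (C₁ * Z₁) * (1 + C₂ * Z₂)) :=
    mul_le_mul_of_nonneg_left hbound (by positivity)
  calc C₁ / (j : ℝ) ^ (7 / 5 : ℝ) * ∑ i ∈ Finset.range j, W g i + C₂ / (j : ℝ) ^ 2
      ≤ C₁ / (j : ℝ) ^ (7 / 5 : ℝ) * (Real.exp (C₁ * Z₁) * (1 + C₂ * Z₂))
        + C₂ / (j : ℝ) ^ (7 / 5 : ℝ) := by linarith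
    _ = (C₁ * (Real.exp (C₁ * Z₁) * (1 + C₂ * Z₂)) + C₂) / (j : ℝ) ^ (7 / 5 : ℝ) := by ring

end Pool.Agent.PnMn
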