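import Mathlib
import Pool.Agent.PnMn.Defs
import Pool.Agent.PnMn.Basic
import Pool.Agent.PnMn.WBound

set_option autoImplicit false

namespace Pool.Agent.PnMn

open Finset

open scoped Classical

/-! ### The function `p_n` -/

lemma pn_le {n p : ℕ} (hp : p.Prime) (h : p ≡ 1 [MOD n]) : pn n ≤ p :=
  Nat.sInf_le ⟨hp, h⟩

lemma pn_spec {n p : ℕ} (hp : p.Prime) (h : p ≡ 1 [MOD n]) :
    (pn n).Prime ∧ pn n ≡ 1 [MOD n] :=
  Nat.sInf_mem (s := {p : ℕ | p.Prime ∧ p ≡ 1 [MOD n]}) ⟨p, hp, h⟩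

lemma modEq_one_iff_form {n p : ℕ} (hp : 1 ≤ p) : p ≡ 1 [MOD n] ↔ ∃ l, p = l * n + 1 := by
  constructor
  · intro h
    have h1 : n ∣ p - 1 := (Nat.modEq_iff_dvd' hp).mp h.symm
    obtain ⟨l, hl⟩ := h1
    exact ⟨l, by rw [mul_comm l n, ← hl]; omega⟩
  · rintro ⟨l, rfl⟩
    apply Nat.ModEq.symm
    rw [Nat.modEq_iff_dvd' (by omega)]
    simp

lemma form_modEq (l n : ℕ) : l * n + 1 ≡ 1 [MOD n] :=
  (modEq_one_iff_form (by omega)).mpr ⟨l, rfl⟩

lemma mn_le_pn {n p : ℕ} (hp : p.Prime) (h : p ≡ 1 [MOD n]) : mn n ≤ pn n := by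
  obtain ⟨h1, h2⟩ := pn_spec hp h
  apply mn_le h1.pos
  rw [Nat.totient_prime h1]
  exact (Nat.modEq_iff_dvd' h1.one_le).mp h2.symm

/-- Joint event: there is a small divisor `a` of `n` and `l < k a` with `l (n/a) + 1` prime. -/
def JointBad (j₀ k n : ℕ) : Prop :=
  ∃ a l : ℕ, 0 < a ∧ a < 2 ^ j₀ ∧ a ∣ n ∧ 1 ≤ l ∧ l < k * a ∧ (l * (n / a) + 1).Prime

/-- Tail event. -/
def TailBad (j₀ h K n : ℕ) : Prop :=
  ∃ a b l : ℕ, n = a * b ∧ 2 ^ j₀ ≤ a ∧ 2 ^ h ≤ b ∧ 1 ≤ l ∧ l * mn a ≤ K * a ∧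
    (l * b + 1).Prime

lemma good_pair {j₀ h K k n : ℕ} (hj₀ : 1 ≤ j₀) (hn : 0 < n) (hkK : k ≤ K)
    (hq : (k * n + 1).Prime)
    (hsm : ¬ ∀ p : ℕ, p.Prime → p ∣ n → p < 2 ^ h)
    (hsq : ¬ (mn n ≤ n * (K + 1) ∧ ∃ p, p.Prime ∧ 2 ^ h ≤ p ∧ p ^ 2 ∣ mn n))
    (hjoint : ¬ JointBad j₀ k n) (htail : ¬ TailBad j₀ h K n) :
    pn n = mn n ∧ pn n = k * n + 1 := by
  have hj2 : 1 < 2 ^ j₀ := Nat.one_lt_two_pow (by omega)
  have hmod := form_modEq k n
  obtain ⟨hpn1, hpn2⟩ := pn_spec hq hmod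
  have hle := pn_le hq hmod
  -- step 1: pn n = k n + 1
  have hpneq : pn n = k * n + 1 := by
    by_contra hne
    have hlt : pn n < k * n + 1 := lt_of_le_of_ne hle hne
    obtain ⟨l, hl⟩ := (modEq_one_iff_form hpn1.one_le).mp hpn2
    apply hjoint
    refine ⟨1, l, one_pos, hj2, one_dvd _, ?_, ?_, ?_⟩
    · rcases Nat.eq_zero_or_pos l with h0 | h0
      · subst h0
        rw [hl] at hpn1
        simp at hpn1
        exact absurd hpn1 (by norm_num)
      · exact h0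
    · rw [mul_one]
      by_contra hc
      push Not at hc
      have : k * n ≤ l * n := Nat.mul_le_mul_right _ hc
      omega
    · rw [Nat.div_one, ← hl]
      exact hpn1
  refine ⟨?_, hpneq⟩
  have hmle := mn_le_pn hq hmod
  by_contra hne
  have hlt : mn n < pn n := lt_of_le_of_ne hmle (fun h => hne h.symm)
  obtain ⟨hm1, hm2⟩ := mn_spec hn
  push Not at hsm
  obtain ⟨P, hP, hPn, hPh⟩ := hsm
  rcases decomp hn hm1 hm2 hP hPn with ⟨p, hp, hpP, hpd⟩ | ⟨l, b, a, m', hpr, hab, hPb, hl,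
    hm', hmm, hdiv⟩
  · apply hsq
    refine ⟨?_, p, hp, hPh.trans hpP, hpd⟩
    have h1 : mn n ≤ k * n := by omega
    calc mn n ≤ k * n := h1
      _ ≤ n * (K + 1) := by nlinarith
  have hbpos : 0 < b := lt_of_lt_of_le (by positivity) (hPh.trans hPb)
  have hapos : 0 < a := by
    rcases Nat.eq_zero_or_pos a with h0 | h0
    · subst h0
      simp at hab
      omega
    · exact h0
  have hmna : mn a ≤ m' := mn_le hm' hdiv
  have hmnapos : 0 < mn a := (mn_spec hapos).1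
  have h1 : (l * b + 1) * mn a ≤ k * (a * b) := by
    have h2 : (l * b + 1) * mn a ≤ mn n := by
      rw [hmm]
      exact Nat.mul_le_mul_left _ hmna
    rw [← hab]
    omega
  have h2 : l * mn a < k * a := by
    have h3 : (l * mn a) * b < (k * a) * b := by
      calc (l * mn a) * b = l * b * mn a := by ring
        _ < (l * b + 1) * mn a := Nat.mul_lt_mul_of_pos_right (by omega) hmnapos
        _ ≤ k * (a * b) := h1
        _ = (k * a) * b := by ring
    exact Nat.lt_of_mul_lt_mul_right h3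
  by_cases hasmall : a < 2 ^ j₀
  · apply hjoint
    refine ⟨a, l, hapos, hasmall, ⟨b, hab⟩, hl, ?_, ?_⟩
    · calc l ≤ l * mn a := Nat.le_mul_of_pos_right _ hmnapos
        _ < k * a := h2
    · have : n / a = b := by
        rw [hab]
        exact Nat.mul_div_cancel_left _ hapos
      rw [this]
      exact hpr
  · push Not at hasmall
    apply htail
    refine ⟨a, b, l, hab, hasmall, hPh.trans hPb, hl, ?_, hpr⟩
    calc l * mn a ≤ k * a := h2.le
      _ ≤ K * a := Nat.mul_le_mul_right _ hkK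

lemma tq_nonneg (n : ℕ) : 0 ≤ tq n := by
  unfold tq
  positivity

/-- The double sum of singular series. -/
lemma double_sum (hA : AvgTotient) : ∃ C : ℝ, 0 < C ∧ ∀ N : ℕ,
    ∑ k ∈ Finset.Icc 1 N, ∑ l ∈ Finset.Ico 1 k, (tq l * tq k * tq (k - l)) ^ 2
      ≤ C * (N : ℝ) ^ 2 := by
  obtain ⟨C, hC, h⟩ := hA 6
  refine ⟨3 * C, by positivity, ?_⟩
  intro N
  have h1 : ∀ k ∈ Finset.Icc 1 N, ∑ l ∈ Finset.Ico 1 k, (tq l * tq k * tq (k - l)) ^ 2
      ≤ 2 * (C * N) + N * tq k ^ 6 := by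
    intro k hk
    rw [Finset.mem_Icc] at hk
    have h2 : ∀ l ∈ Finset.Ico 1 k, (tq l * tq k * tq (k - l)) ^ 2
        ≤ tq l ^ 6 + tq k ^ 6 + tq (k - l) ^ 6 := by
      intro l _
      have hx := tq_nonneg l
      have hy := tq_nonneg k
      have hz := tq_nonneg (k - l)
      set x := tq l ^ 2 with hxd
      set y := tq k ^ 2 with hyd
      set z := tq (k - l) ^ 2 with hzd
      have hx2 : 0 ≤ x := by positivity
      have hy2 : 0 ≤ y := by positivity
      have hz2 : 0 ≤ z := by positivity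
      have e1 : (tq l * tq k * tq (k - l)) ^ 2 = x * y * z := by rw [hxd, hyd, hzd]; ring
      have e2 : tq l ^ 6 = x ^ 3 := by rw [hxd]; ring
      have e3 : tq k ^ 6 = y ^ 3 := by rw [hyd]; ring
      have e4 : tq (k - l) ^ 6 = z ^ 3 := by rw [hzd]; ring
      rw [e1, e2, e3, e4]
      have key : 3 * (x * y * z) ≤ x ^ 3 + y ^ 3 + z ^ 3 := by
        have h5 : 0 ≤ (x + y + z) * ((x - y) ^ 2 + (y - z) ^ 2 + (z - x) ^ 2) := by positivity
        nlinarith [h5]
      have h6 : 0 ≤ x * y * z := by positivity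
      linarith
    refine (Finset.sum_le_sum h2).trans ?_
    rw [Finset.sum_add_distrib, Finset.sum_add_distrib]
    have hk1 : (k : ℝ) ≤ N := by exact_mod_cast hk.2
    have s1 : ∑ l ∈ Finset.Ico 1 k, tq l ^ 6 ≤ C * N := by
      refine le_trans ?_ (h N)
      apply Finset.sum_le_sum_of_subset_of_nonneg
      · intro l hl
        rw [Finset.mem_Ico] at hl
        rw [Finset.mem_Icc]
        omega
      · intro l _ _
        have := tq_nonneg l
        positivity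
    have s3 : ∑ l ∈ Finset.Ico 1 k, tq (k - l) ^ 6 ≤ C * N := by
      have e : ∑ l ∈ Finset.Ico 1 k, tq (k - l) ^ 6 = ∑ l ∈ Finset.Ico 1 k, tq l ^ 6 := by
        apply Finset.sum_nbij' (fun l => k - l) (fun l => k - l)
        · intro l hl
          rw [Finset.mem_Ico] at hl ⊢
          omega
        · intro l hl
          rw [Finset.mem_Ico] at hl ⊢
          omega
        · intro l hl
          rw [Finset.mem_Ico] at hl
          omega
        · intro l hl
          rw [Finset.mem_Ico] at hl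
          omega
        · intro l hl
          rfl
      rw [e]
      exact s1
    have s2 : ∑ l ∈ Finset.Ico 1 k, tq k ^ 6 ≤ N * tq k ^ 6 := by
      rw [Finset.sum_const, Nat.card_Ico, nsmul_eq_mul]
      have h5 : ((k - 1 : ℕ) : ℝ) ≤ N := by
        have : k - 1 ≤ N := by omega
        exact_mod_cast this
      have := tq_nonneg k
      gcongr
    linarith
  refine (Finset.sum_le_sum h1).trans ?_
  rw [Finset.sum_add_distrib, Finset.sum_const, Nat.card_Icc, ← Finset.mul_sum, nsmul_eq_mul]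
  have h3 := h N
  have hN : (0 : ℝ) ≤ N := by positivity
  have e : ((N + 1 - 1 : ℕ) : ℝ) = N := by simp
  rw [e]
  nlinarith [mul_le_mul_of_nonneg_left h3 hN]

/-- Counting the joint events. -/
lemma joint_count (hS2 : SieveTwo) (hA : AvgTotient) (j₀ : ℕ) :
    ∃ C : ℝ, 0 < C ∧ ∀ J K : ℕ, 2 * j₀ + 2 ≤ J →
      ((((Finset.Icc 1 K) ×ˢ (blk J)).filter
        (fun kn : ℕ × ℕ => (kn.1 * kn.2 + 1).Prime ∧ JointBad j₀ kn.1 kn.2)).card : ℝ)
        ≤ C * (K : ℝ) ^ 2 * 2 ^ J / (J : ℝ) ^ 2 := by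
  obtain ⟨C₁, hC₁, hS⟩ := hS2
  obtain ⟨C₂, hC₂, hD⟩ := double_sum hA
  refine ⟨2 * j₀ * (2 ^ j₀ * (4 * C₁ * (C₂ * (2 ^ j₀) ^ 2))) + 1, by positivity, ?_⟩
  intro J K hJ
  set S := ((Finset.Icc 1 K) ×ˢ (blk J)).filter
        (fun kn : ℕ × ℕ => (kn.1 * kn.2 + 1).Prime ∧ JointBad j₀ kn.1 kn.2) with hSdef
  set N := K * 2 ^ j₀ with hN
  set T : Finset (Σ _ : ℕ × ℕ, Σ _ : ℕ, Σ _ : ℕ, Σ _ : ℕ, ℕ) :=
    (Finset.range 2 ×ˢ Finset.range j₀).sigma (fun p =>
      (blk p.2).sigma (fun _ => (Finset.Icc 1 N).sigma (fun k' => (Finset.Ico 1 k').sigma (fun l =>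
        (blk (J - p.2 - p.1)).filter
          (fun b => (l * b + 1).Prime ∧ (k' * b + 1).Prime))))) with hTdef
  have hrep : ∀ x ∈ S, ∃ t ∈ T, x.1 * t.2.1 = t.2.2.1 ∧ t.2.1 * t.2.2.2.2 = x.2 ∧ 0 < t.2.1 := by
    rintro ⟨k, n⟩ hx
    rw [hSdef, Finset.mem_filter, Finset.mem_product, Finset.mem_Icc] at hx
    obtain ⟨⟨⟨hk1, hk2⟩, hnb⟩, hpr, a, l, ha, ha2, ⟨b, hab⟩, hl, hlk, hlp⟩ := hx
    simp only at hk1 hk2 hnb hpr hab hlk hlp
    have hnpos := pos_of_mem_blk hnb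
    have hbpos : 0 < b := by
      rcases Nat.eq_zero_or_pos b with h0 | h0
      · subst h0
        simp at hab
        omega
      · exact h0
    have hdiv : n / a = b := by
      rw [hab]
      exact Nat.mul_div_cancel_left _ ha
    rw [hdiv] at hlp
    have haa := mem_blk_log ha.ne'
    have hbb := mem_blk_log hbpos.ne'
    have hab2 : a * b ∈ blk J := by rw [← hab]; exact hnb
    have hlog := blk_mul haa hbb hab2
    have halog : Nat.log 2 a < j₀ := Nat.log_lt_of_lt_pow ha.ne' ha2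
    have hkp : (k * a * b + 1).Prime := by
      have : k * a * b + 1 = k * n + 1 := by rw [hab]; ring
      rw [this]
      exact hpr
    have hkaN : k * a ≤ N := by
      rw [hN]
      exact Nat.mul_le_mul hk2 ha2.le
    have hka1 : 1 ≤ k * a := Nat.mul_pos hk1 ha
    rcases hlog with hlog | hlog
    · refine ⟨⟨(0, Nat.log 2 a), ⟨a, ⟨k * a, ⟨l, b⟩⟩⟩⟩, ?_, rfl, hab.symm, ha⟩
      rw [hTdef]
      simp only [Finset.mem_sigma, Finset.mem_product, Finset.mem_range, Finset.mem_Icc,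
        Finset.mem_filter, Finset.mem_Ico]
      have e : J - Nat.log 2 a - 0 = Nat.log 2 b := by omega
      rw [e]
      exact ⟨⟨by omega, halog⟩, haa, ⟨hka1, hkaN⟩, ⟨hl, hlk⟩, hbb, hlp, hkp⟩
    · refine ⟨⟨(1, Nat.log 2 a), ⟨a, ⟨k * a, ⟨l, b⟩⟩⟩⟩, ?_, rfl, hab.symm, ha⟩
      rw [hTdef]
      simp only [Finset.mem_sigma, Finset.mem_product, Finset.mem_range, Finset.mem_Icc,
        Finset.mem_filter, Finset.mem_Ico]
      have e : J - Nat.log 2 a - 1 = Nat.log 2 b := by omega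
      rw [e]
      exact ⟨⟨by omega, halog⟩, haa, ⟨hka1, hkaN⟩, ⟨hl, hlk⟩, hbb, hlp, hkp⟩
  choose! φ hφT hφ1 hφ2 hφ3 using hrep
  have hcard : S.card ≤ T.card := by
    apply Finset.card_le_card_of_injOn φ (fun x hx => hφT x hx)
    intro x hx y hy hxy
    have e1 := hφ1 x hx
    have e2 := hφ1 y hy
    have e3 := hφ2 x hx
    have e4 := hφ2 y hy
    have e5 := hφ3 y hy
    rw [hxy] at e1 e3
    apply Prod.ext
    · exact Nat.eq_of_mul_eq_mul_right e5 (e1.trans e2.symm)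
    · exact e3.symm.trans e4
  have hJpos : (0 : ℝ) < J := by exact_mod_cast (by omega : 0 < J)
  have hTc : (T.card : ℝ) ≤ 2 * j₀ * (2 ^ j₀ * (4 * C₁ * (C₂ * (N : ℝ) ^ 2) * 2 ^ J / (J : ℝ) ^ 2)) := by
    rw [hTdef, Finset.card_sigma, Finset.sum_product]
    push_cast
    have hinner : ∀ e ∈ Finset.range 2, ∀ i ∈ Finset.range j₀,
        (((blk i).sigma (fun _ => (Finset.Icc 1 N).sigma (fun k' => (Finset.Ico 1 k').sigma (fun l =>
        (blk (J - i - e)).filter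
          (fun b => (l * b + 1).Prime ∧ (k' * b + 1).Prime))))).card : ℝ)
        ≤ 2 ^ j₀ * (4 * C₁ * (C₂ * (N : ℝ) ^ 2) * 2 ^ J / (J : ℝ) ^ 2) := by
      intro e he i hi
      rw [Finset.mem_range] at he hi
      rw [Finset.card_sigma]
      push_cast
      rw [Finset.sum_const, card_blk, nsmul_eq_mul]
      have hi2 : ((2 ^ i : ℕ) : ℝ) ≤ 2 ^ j₀ := by
        push_cast
        exact pow_le_pow_right₀ (by norm_num) hi.le
      have hmain : (((Finset.Icc 1 N).sigma (fun k' => (Finset.Ico 1 k').sigma (fun l =>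
        (blk (J - i - e)).filter
          (fun b => (l * b + 1).Prime ∧ (k' * b + 1).Prime)))).card : ℝ)
          ≤ 4 * C₁ * (C₂ * (N : ℝ) ^ 2) * 2 ^ J / (J : ℝ) ^ 2 := by
        rw [Finset.card_sigma]
        push_cast
        have hH1 : 1 ≤ J - i - e := by omega
        have hHJ : (J : ℝ) / 2 ≤ ((J - i - e : ℕ) : ℝ) := by
          have : J ≤ 2 * (J - i - e) := by omega
          have : (J : ℝ) ≤ 2 * ((J - i - e : ℕ) : ℝ) := by exact_mod_cast this
          linarith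
        have hk : ∀ k' ∈ Finset.Icc 1 N, (((Finset.Ico 1 k').sigma (fun l =>
            (blk (J - i - e)).filter
            (fun b => (l * b + 1).Prime ∧ (k' * b + 1).Prime))).card : ℝ)
            ≤ (4 * C₁ * 2 ^ J / (J : ℝ) ^ 2) *
              ∑ l ∈ Finset.Ico 1 k', (tq l * tq k' * tq (k' - l)) ^ 2 := by
          intro k' _
          rw [Finset.card_sigma, Finset.mul_sum]
          push_cast
          apply Finset.sum_le_sum
          intro l hl
          rw [Finset.mem_Ico] at hl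
          refine (hS l k' (J - i - e) hl.1 hl.2 hH1).trans ?_
          have h1 : (2 : ℝ) ^ (J - i - e) ≤ 2 ^ J :=
            pow_le_pow_right₀ (by norm_num) (by omega)
          have h2 : 0 ≤ (tq l * tq k' * tq (k' - l)) ^ 2 := by positivity
          have h3 : ((J : ℝ) / 2) ^ 2 ≤ ((J - i - e : ℕ) : ℝ) ^ 2 :=
            pow_le_pow_left₀ (by positivity) hHJ 2
          calc C₁ * (tq l * tq k' * tq (k' - l)) ^ 2 * 2 ^ (J - i - e) / ((J - i - e : ℕ) : ℝ) ^ 2
              ≤ C₁ * (tq l * tq k' * tq (k' - l)) ^ 2 * 2 ^ J / ((J : ℝ) / 2) ^ 2 := by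
                apply div_le_div₀ (by positivity) _ (by positivity) h3
                gcongr
            _ = (4 * C₁ * 2 ^ J / (J : ℝ) ^ 2) * (tq l * tq k' * tq (k' - l)) ^ 2 := by
                field_simp
                ring
        refine (Finset.sum_le_sum hk).trans ?_
        rw [← Finset.mul_sum]
        calc (4 * C₁ * 2 ^ J / (J : ℝ) ^ 2) *
              ∑ k' ∈ Finset.Icc 1 N, ∑ l ∈ Finset.Ico 1 k', (tq l * tq k' * tq (k' - l)) ^ 2
            ≤ (4 * C₁ * 2 ^ J / (J : ℝ) ^ 2) * (C₂ * (N : ℝ) ^ 2) := by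
              apply mul_le_mul_of_nonneg_left (hD N) (by positivity)
          _ = 4 * C₁ * (C₂ * (N : ℝ) ^ 2) * 2 ^ J / (J : ℝ) ^ 2 := by ring
      apply mul_le_mul hi2 hmain (by positivity) (by positivity)
    calc ∑ e ∈ Finset.range 2, ∑ i ∈ Finset.range j₀,
        (((blk i).sigma (fun _ => (Finset.Icc 1 N).sigma (fun k' => (Finset.Ico 1 k').sigma (fun l =>
        (blk (J - i - e)).filter
          (fun b => (l * b + 1).Prime ∧ (k' * b + 1).Prime))))).card : ℝ)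
        ≤ ∑ e ∈ Finset.range 2, ∑ i ∈ Finset.range j₀,
          2 ^ j₀ * (4 * C₁ * (C₂ * (N : ℝ) ^ 2) * 2 ^ J / (J : ℝ) ^ 2) :=
          Finset.sum_le_sum (fun e he => Finset.sum_le_sum (fun i hi => hinner e he i hi))
      _ = 2 * j₀ * (2 ^ j₀ * (4 * C₁ * (C₂ * (N : ℝ) ^ 2) * 2 ^ J / (J : ℝ) ^ 2)) := by
          rw [Finset.sum_const, Finset.sum_const, Finset.card_range, Finset.card_range,
            nsmul_eq_mul, nsmul_eq_mul]
          push_cast
          ring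
  calc (S.card : ℝ) ≤ T.card := by exact_mod_cast hcard
    _ ≤ 2 * j₀ * (2 ^ j₀ * (4 * C₁ * (C₂ * (N : ℝ) ^ 2) * 2 ^ J / (J : ℝ) ^ 2)) := hTc
    _ = (2 * j₀ * (2 ^ j₀ * (4 * C₁ * (C₂ * (2 ^ j₀) ^ 2)))) * (K : ℝ) ^ 2 * 2 ^ J / (J : ℝ) ^ 2 := by
        rw [hN]
        push_cast
        ring
    _ ≤ (2 * j₀ * (2 ^ j₀ * (4 * C₁ * (C₂ * (2 ^ j₀) ^ 2))) + 1) * (K : ℝ) ^ 2 * 2 ^ J
          / (J : ℝ) ^ 2 := by
        gcongr
        linarith

end Pool.Agent.PnMn
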