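import Mathlib
import Pool.Agent.PnMn.Defs
import Pool.Agent.PnMn.Basic
import Pool.Agent.PnMn.WBound
import Pool.Agent.PnMn.Final1

set_option autoImplicit false

namespace Pool.Agent.PnMn

open Finset

open scoped Classical

/-- The scale index used for `a` in the block `j`. -/
noncomputable def ii (j : ℕ) : ℕ := Nat.clog 2 (hh j)

lemma hh_le_two_pow_ii (j : ℕ) : hh j ≤ 2 ^ ii j := Nat.le_pow_clog (by norm_num) _

lemma two_pow_ii_le {j : ℕ} (hj : 1 ≤ j) : (2 : ℝ) ^ ii j ≤ 2 * (j : ℝ) ^ (19 / 20 : ℝ) := by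
  have hj1 : (1 : ℝ) ≤ j := by exact_mod_cast hj
  have h1 : (1 : ℝ) ≤ (j : ℝ) ^ (19 / 20 : ℝ) := Real.one_le_rpow hj1 (by norm_num)
  rcases Nat.lt_or_ge 1 (hh j) with h | h
  · have h2 : 2 ^ (ii j - 1) < hh j := by
      have := Nat.pow_pred_clog_lt_self (b := 2) (by norm_num) h
      simpa [ii, Nat.pred_eq_sub_one] using this
    have h3 : 1 ≤ ii j := by
      unfold ii
      exact Nat.clog_pos (by norm_num) h
    have h4 : (2 : ℝ) ^ (ii j - 1) < (j : ℝ) ^ (19 / 20 : ℝ) := by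
      have h5 : 2 ^ (ii j - 1) < ⌈(j : ℝ) ^ (19 / 20 : ℝ)⌉₊ := h2
      rw [Nat.lt_ceil] at h5
      exact_mod_cast h5
    have h6 : (2 : ℝ) ^ ii j = 2 * 2 ^ (ii j - 1) := by
      rw [← pow_succ']
      congr 1
      omega
    rw [h6]
    linarith
  · have : ii j = 0 := by
      unfold ii
      exact Nat.clog_of_right_le_one h 2
    rw [this, pow_zero]
    linarith

/-- The tail weight function `j ↦ K-free bound` for fixed `J`. -/
lemma tail_count_aux {C₁ C₂ C₃ : ℝ} (hC₁ : 0 < C₁) (hC₂ : 0 < C₂) (hC₃ : 0 < C₃)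
    (hS : ∀ g l H : ℕ, 1 ≤ l → 1 ≤ H →
      ∑ b ∈ (blk H).filter (fun b => (l * b + 1).Prime), wt g b
        ≤ C₁ * tq l * 2 ^ H / (H * Real.sqrt (1 + (min H g : ℕ))))
    (hA : ∀ N : ℕ, ∑ j ∈ Finset.Icc 1 N, (tq j) ^ 1 ≤ C₂ * N)
    (hW : ∀ g j : ℕ, 1 ≤ j → hh j ≤ g → W g j ≤ C₃ / (j : ℝ) ^ (7 / 5 : ℝ))
    (j₀ J K h : ℕ) (hj₀ : 1 ≤ j₀) (hh1 : 1 ≤ h) :
    (((blk J).filter (fun n => TailBad j₀ h K n ∧
      ∀ j, j₀ ≤ j → j ≤ J → (omA (2 ^ (2 ^ ii j)) n : ℝ) ≤ (4 / 5 : ℝ) * ii j)).card : ℝ)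
      ≤ ∑ e ∈ Finset.range 2, ∑ j ∈ Finset.Ico j₀ J, if h ≤ J - j - e then
        (2 : ℝ) ^ ((4 / 5 : ℝ) * ii j) * (C₁ * C₂ * K * 2 ^ (J + 1)) * (C₃ / (j : ℝ) ^ (7 / 5 : ℝ))
          / (((J - j - e : ℕ) : ℝ) * Real.sqrt (1 + (min (J - j - e) (2 ^ ii j) : ℕ))) else 0 := by
  set S := (blk J).filter (fun n => TailBad j₀ h K n ∧
      ∀ j, j₀ ≤ j → j ≤ J → (omA (2 ^ (2 ^ ii j)) n : ℝ) ≤ (4 / 5 : ℝ) * ii j) with hSdef
  set T : Finset (Σ _ : ℕ × ℕ, Σ _ : ℕ, Σ _ : ℕ, ℕ) :=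
    (Finset.range 2 ×ˢ Finset.Ico j₀ J).sigma (fun p =>
      (blk p.2).sigma (fun a => (Finset.Icc 1 (K * a / mn a)).sigma (fun l =>
        (blk (J - p.2 - p.1)).filter
          (fun b => (l * b + 1).Prime ∧ h ≤ J - p.2 - p.1)))) with hTdef
  let F : (Σ _ : ℕ × ℕ, Σ _ : ℕ, Σ _ : ℕ, ℕ) → ℝ := fun t =>
    (2 : ℝ) ^ ((4 / 5 : ℝ) * ii t.1.2) * (wt (2 ^ ii t.1.2) t.2.1 * wt (2 ^ ii t.1.2) t.2.2.2)
  have hF0 : ∀ t, 0 ≤ F t := by
    intro t
    have h1 := wt_pos (2 ^ ii t.1.2) t.2.1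
    have h2 := wt_pos (2 ^ ii t.1.2) t.2.2.2
    simp only [F]
    positivity
  have hrep : ∀ n ∈ S, ∃ t ∈ T, t.2.1 * t.2.2.2 = n ∧ 1 ≤ F t := by
    intro n hn
    rw [hSdef, Finset.mem_filter] at hn
    obtain ⟨hnb, ⟨a, b, l, hab, haj, hbh, hl, hlK, hpr⟩, htyp⟩ := hn
    have hnpos := pos_of_mem_blk hnb
    have hbpos : 0 < b := lt_of_lt_of_le (by positivity) hbh
    have hapos : 0 < a := lt_of_lt_of_le (by positivity) haj
    have hmnpos : 0 < mn a := (mn_spec hapos).1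
    have haa := mem_blk_log hapos.ne'
    have hbb := mem_blk_log hbpos.ne'
    have hab2 : a * b ∈ blk J := by rw [← hab]; exact hnb
    have hlog := blk_mul haa hbb hab2
    have hja : j₀ ≤ Nat.log 2 a := (Nat.le_log_iff_pow_le (by norm_num) hapos.ne').mpr haj
    have hHh : h ≤ Nat.log 2 b := (Nat.le_log_iff_pow_le (by norm_num) hbpos.ne').mpr hbh
    have hlle : l ≤ K * a / mn a := (Nat.le_div_iff_mul_le hmnpos).mpr hlK
    have hty := htyp (Nat.log 2 a) hja (by omega)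
    have hFt : 1 ≤ (2 : ℝ) ^ ((4 / 5 : ℝ) * ii (Nat.log 2 a)) *
        (wt (2 ^ ii (Nat.log 2 a)) a * wt (2 ^ ii (Nat.log 2 a)) b) := by
      rw [← wt_mul _ hapos.ne' hbpos.ne', ← hab]
      unfold wt
      have e : ((1 : ℝ) / 2) ^ omA (2 ^ 2 ^ ii (Nat.log 2 a)) n
          = (2 : ℝ) ^ (-(omA (2 ^ 2 ^ ii (Nat.log 2 a)) n : ℝ)) := by
        rw [Real.rpow_neg (by norm_num), Real.rpow_natCast, one_div, inv_pow]
      rw [e, ← Real.rpow_add (by norm_num)]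
      apply Real.one_le_rpow (by norm_num)
      linarith
    rcases hlog with hlog | hlog
    · refine ⟨⟨(0, Nat.log 2 a), ⟨a, ⟨l, b⟩⟩⟩, ?_, hab.symm, hFt⟩
      rw [hTdef]
      simp only [Finset.mem_sigma, Finset.mem_product, Finset.mem_range, Finset.mem_Icc,
        Finset.mem_filter, Finset.mem_Ico]
      have e : J - Nat.log 2 a - 0 = Nat.log 2 b := by omega
      rw [e]
      exact ⟨⟨by omega, hja, by omega⟩, haa, ⟨hl, hlle⟩, hbb, hpr, hHh⟩
    · refine ⟨⟨(1, Nat.log 2 a), ⟨a, ⟨l, b⟩⟩⟩, ?_, hab.symm, hFt⟩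
      rw [hTdef]
      simp only [Finset.mem_sigma, Finset.mem_product, Finset.mem_range, Finset.mem_Icc,
        Finset.mem_filter, Finset.mem_Ico]
      have e : J - Nat.log 2 a - 1 = Nat.log 2 b := by omega
      rw [e]
      exact ⟨⟨by omega, hja, by omega⟩, haa, ⟨hl, hlle⟩, hbb, hpr, hHh⟩
  choose! φ hφT hφn hφF using hrep
  have hinj : Set.InjOn φ (S : Set ℕ) := by
    intro x hx y hy hxy
    rw [← hφn x hx, ← hφn y hy, hxy]
  have hstep1 : (S.card : ℝ) ≤ ∑ t ∈ T, F t := by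
    calc (S.card : ℝ) = ∑ n ∈ S, (1 : ℝ) := by simp
      _ ≤ ∑ n ∈ S, F (φ n) := Finset.sum_le_sum hφF
      _ = ∑ t ∈ S.image φ, F t := (Finset.sum_image (fun a ha b hb hab => hinj ha hb hab)).symm
      _ ≤ ∑ t ∈ T, F t := by
          apply Finset.sum_le_sum_of_subset_of_nonneg
          · intro t ht
            rw [Finset.mem_image] at ht
            obtain ⟨a, ha, rfl⟩ := ht
            exact hφT a ha
          · intro t _ _
            exact hF0 t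
  refine hstep1.trans ?_
  rw [hTdef, Finset.sum_sigma, Finset.sum_product]
  apply Finset.sum_le_sum
  intro e _
  apply Finset.sum_le_sum
  intro j hj
  rw [Finset.mem_Ico] at hj
  have hj1 : 1 ≤ j := le_trans hj₀ hj.1
  rw [Finset.sum_sigma]
  simp only [F]
  set g := 2 ^ ii j with hg
  set H := J - j - e with hH
  by_cases hHh : h ≤ H
  · rw [if_pos hHh]
    have hHpos : (0 : ℝ) < H := by exact_mod_cast (by omega : 0 < H)
    have hsq : 0 < Real.sqrt (1 + (min H g : ℕ)) := by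
      apply Real.sqrt_pos.mpr
      positivity
    have h1 : ∀ a ∈ blk j, ∑ s ∈ (Finset.Icc 1 (K * a / mn a)).sigma (fun l =>
          (blk H).filter (fun b => (l * b + 1).Prime ∧ h ≤ H)),
          (2 : ℝ) ^ ((4 / 5 : ℝ) * ii j) * (wt g a * wt g s.2)
        ≤ ((2 : ℝ) ^ ((4 / 5 : ℝ) * ii j) * (C₁ * C₂ * K * 2 ^ (J + 1))
          / (H * Real.sqrt (1 + (min H g : ℕ)))) * (wt g a / (mn a : ℝ)) := by
      intro a ha
      have hapos := pos_of_mem_blk ha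
      have hmnpos : (0 : ℝ) < mn a := by exact_mod_cast (mn_spec hapos).1
      rw [Finset.sum_sigma]
      simp_rw [← Finset.mul_sum]
      have h2 : ∑ l ∈ Finset.Icc 1 (K * a / mn a),
          ∑ b ∈ (blk H).filter (fun b => (l * b + 1).Prime ∧ h ≤ H), wt g b
          ≤ C₁ * 2 ^ H / (H * Real.sqrt (1 + (min H g : ℕ))) * (C₂ * (K * a / mn a)) := by
        have h3 : ∀ l ∈ Finset.Icc 1 (K * a / mn a),
            ∑ b ∈ (blk H).filter (fun b => (l * b + 1).Prime ∧ h ≤ H), wt g b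
            ≤ C₁ * 2 ^ H / (H * Real.sqrt (1 + (min H g : ℕ))) * tq l ^ 1 := by
          intro l hl
          rw [Finset.mem_Icc] at hl
          have e1 : (blk H).filter (fun b => (l * b + 1).Prime ∧ h ≤ H)
              = (blk H).filter (fun b => (l * b + 1).Prime) := by
            apply Finset.filter_congr
            intro b _
            simp [hHh]
          rw [e1]
          refine (hS g l H hl.1 (by omega)).trans (le_of_eq ?_)
          rw [pow_one]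
          ring
        refine (Finset.sum_le_sum h3).trans ?_
        rw [← Finset.mul_sum]
        apply mul_le_mul_of_nonneg_left _ (by positivity)
        refine (hA _).trans ?_
        apply mul_le_mul_of_nonneg_left _ hC₂.le
        have := @Nat.cast_div_le ℝ _ _ _ (K * a) (mn a)
        push_cast at this
        exact this
      have h4 : 0 ≤ (2 : ℝ) ^ ((4 / 5 : ℝ) * ii j) := by positivity
      have h5 := (wt_pos g a).le
      have h6 : (a : ℝ) * 2 ^ H ≤ 2 ^ (J + 1) := by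
        have ha2 : (a : ℝ) ≤ 2 ^ (j + 1) := by
          have := (mem_blk.mp ha).2.le
          exact_mod_cast this
        calc (a : ℝ) * 2 ^ H ≤ 2 ^ (j + 1) * 2 ^ H := by gcongr
          _ = 2 ^ (j + 1 + H) := by rw [← pow_add]
          _ ≤ 2 ^ (J + 1) := pow_le_pow_right₀ (by norm_num) (by omega)
      calc (2 : ℝ) ^ ((4 / 5 : ℝ) * ii j) * (wt g a * ∑ l ∈ Finset.Icc 1 (K * a / mn a),
              ∑ b ∈ (blk H).filter (fun b => (l * b + 1).Prime ∧ h ≤ H), wt g b)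
          ≤ (2 : ℝ) ^ ((4 / 5 : ℝ) * ii j) * (wt g a *
            (C₁ * 2 ^ H / (H * Real.sqrt (1 + (min H g : ℕ))) * (C₂ * (K * a / mn a)))) := by
            gcongr
        _ = ((2 : ℝ) ^ ((4 / 5 : ℝ) * ii j) * (C₁ * C₂ * K * (a * 2 ^ H))
          / (H * Real.sqrt (1 + (min H g : ℕ)))) * (wt g a / (mn a : ℝ)) := by
            field_simp
        _ ≤ ((2 : ℝ) ^ ((4 / 5 : ℝ) * ii j) * (C₁ * C₂ * K * 2 ^ (J + 1))
          / (H * Real.sqrt (1 + (min H g : ℕ)))) * (wt g a / (mn a : ℝ)) := by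
            gcongr
    refine (Finset.sum_le_sum h1).trans ?_
    rw [← Finset.mul_sum]
    have h7 : ∑ a ∈ blk j, wt g a / (mn a : ℝ) ≤ C₃ / (j : ℝ) ^ (7 / 5 : ℝ) :=
      hW g j hj1 (hh_le_two_pow_ii j)
    calc ((2 : ℝ) ^ ((4 / 5 : ℝ) * ii j) * (C₁ * C₂ * K * 2 ^ (J + 1))
          / (H * Real.sqrt (1 + (min H g : ℕ)))) * ∑ a ∈ blk j, wt g a / (mn a : ℝ)
        ≤ ((2 : ℝ) ^ ((4 / 5 : ℝ) * ii j) * (C₁ * C₂ * K * 2 ^ (J + 1))
          / (H * Real.sqrt (1 + (min H g : ℕ)))) * (C₃ / (j : ℝ) ^ (7 / 5 : ℝ)) := by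
          gcongr
      _ = (2 : ℝ) ^ ((4 / 5 : ℝ) * ii j) * (C₁ * C₂ * K * 2 ^ (J + 1)) *
          (C₃ / (j : ℝ) ^ (7 / 5 : ℝ)) / (H * Real.sqrt (1 + (min H g : ℕ))) := by
          ring
  · rw [if_neg hHh]
    apply le_of_eq
    apply Finset.sum_eq_zero
    intro a _
    rw [Finset.sum_sigma]
    apply Finset.sum_eq_zero
    intro l _
    have e1 : (blk H).filter (fun b => (l * b + 1).Prime ∧ h ≤ H) = ∅ := by
      apply Finset.filter_false_of_mem
      intro b _ hb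
      exact hHh hb.2
    rw [e1, Finset.sum_empty]

end Pool.Agent.PnMn
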