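import Mathlib
import Pool.Agent.PnMn.Defs
import Pool.Agent.PnMn.Basic
import Pool.Agent.PnMn.WBound
import Pool.Agent.PnMn.Final1
import Pool.Agent.PnMn.Final2

set_option autoImplicit false

namespace Pool.Agent.PnMn

open Finset

open scoped Classical

lemma two_pow_ii_rpow_le {j : ℕ} (hj : 1 ≤ j) :
    (2 : ℝ) ^ ((4 / 5 : ℝ) * ii j) ≤ 2 * (j : ℝ) ^ (19 / 25 : ℝ) := by
  have hj1 : (1 : ℝ) ≤ j := by exact_mod_cast hj
  have hj0 : (0 : ℝ) < j := by linarith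
  have h1 := two_pow_ii_le hj
  have e : (2 : ℝ) ^ ((4 / 5 : ℝ) * ii j) = ((2 : ℝ) ^ ii j) ^ (4 / 5 : ℝ) := by
    rw [mul_comm, Real.rpow_mul (by norm_num), Real.rpow_natCast]
  rw [e]
  calc ((2 : ℝ) ^ ii j) ^ (4 / 5 : ℝ) ≤ (2 * (j : ℝ) ^ (19 / 20 : ℝ)) ^ (4 / 5 : ℝ) := by
        apply Real.rpow_le_rpow (by positivity) h1 (by norm_num)
    _ = (2 : ℝ) ^ (4 / 5 : ℝ) * (j : ℝ) ^ (19 / 25 : ℝ) := by
        rw [Real.mul_rpow (by norm_num) (by positivity), ← Real.rpow_mul hj0.le]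
        norm_num
    _ ≤ 2 * (j : ℝ) ^ (19 / 25 : ℝ) := by
        have : (2 : ℝ) ^ (4 / 5 : ℝ) ≤ (2 : ℝ) ^ (1 : ℝ) :=
          Real.rpow_le_rpow_of_exponent_le (by norm_num) (by norm_num)
        rw [Real.rpow_one] at this
        gcongr

/-- Lower bound for the denominator. -/
lemma denom_le {j J H g : ℕ} (hj : 1 ≤ j) (hg : (j : ℝ) ^ (19 / 20 : ℝ) ≤ g)
    {x : ℝ} (hx : 0 < x) (hxH : x ≤ H) {y : ℝ} (hy : 0 ≤ y) (hyH : y / 2 ≤ H)
    (hyj : y / 2 ≤ (j : ℝ) ^ (19 / 20 : ℝ)) :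
    x * Real.sqrt (y / 2) ≤ (H : ℝ) * Real.sqrt (1 + (min H g : ℕ)) := by
  have h1 : y / 2 ≤ 1 + (min H g : ℕ) := by
    have h2 : y / 2 ≤ (min H g : ℕ) := by
      rw [Nat.cast_min]
      exact le_min hyH (hyj.trans hg)
    linarith
  have h3 : Real.sqrt (y / 2) ≤ Real.sqrt (1 + (min H g : ℕ)) := Real.sqrt_le_sqrt h1
  have h4 : (0 : ℝ) ≤ Real.sqrt (y / 2) := Real.sqrt_nonneg _
  exact mul_le_mul hxH h3 h4 (by positivity)

lemma tail_sum_le {C : ℝ} (hC : 0 < C) (j₀ J K : ℕ) (hj₀ : 1 ≤ j₀) (hJ : 8 ≤ J) :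
    (∑ e ∈ Finset.range 2, ∑ j ∈ Finset.Ico j₀ J, if hh J ≤ J - j - e then
        (2 : ℝ) ^ ((4 / 5 : ℝ) * ii j) * (C * K * 2 ^ (J + 1)) * (1 / (j : ℝ) ^ (7 / 5 : ℝ))
          / (((J - j - e : ℕ) : ℝ) * Real.sqrt (1 + (min (J - j - e) (2 ^ ii j) : ℕ))) else 0)
      ≤ (64 * C) * K * 2 ^ J / J *
        (∑ j ∈ Finset.Ico j₀ J, 1 / (j : ℝ) ^ (223 / 200 : ℝ) + 1 / (J : ℝ) ^ (13 / 200 : ℝ)) := by
  have hJ1 : (1 : ℝ) ≤ J := by exact_mod_cast (by omega : 1 ≤ J)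
  have hJ0 : (0 : ℝ) < J := by linarith
  -- termwise bound
  have hterm : ∀ e ∈ Finset.range 2, ∀ j ∈ Finset.Ico j₀ J, (if hh J ≤ J - j - e then
        (2 : ℝ) ^ ((4 / 5 : ℝ) * ii j) * (C * K * 2 ^ (J + 1)) * (1 / (j : ℝ) ^ (7 / 5 : ℝ))
          / (((J - j - e : ℕ) : ℝ) * Real.sqrt (1 + (min (J - j - e) (2 ^ ii j) : ℕ))) else 0)
      ≤ (32 * C) * K * 2 ^ J / J *
        (1 / (j : ℝ) ^ (223 / 200 : ℝ) + 1 / (J : ℝ) ^ (13 / 200 : ℝ) / J) := by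
    intro e he j hj
    rw [Finset.mem_range] at he
    rw [Finset.mem_Ico] at hj
    have hj1 : 1 ≤ j := le_trans hj₀ hj.1
    have hj1' : (1 : ℝ) ≤ j := by exact_mod_cast hj1
    have hj0' : (0 : ℝ) < j := by linarith
    split_ifs with hcond
    swap
    · positivity
    set H := J - j - e with hH
    set g := 2 ^ ii j with hg
    have hgj : (j : ℝ) ^ (19 / 20 : ℝ) ≤ (g : ℕ) := by
      refine (le_hh j).trans ?_
      exact_mod_cast hh_le_two_pow_ii j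
    have h2 := two_pow_ii_rpow_le hj1
    have hjrw : (j : ℝ) ^ (19 / 20 : ℝ) ≤ j := by
      calc (j : ℝ) ^ (19 / 20 : ℝ) ≤ (j : ℝ) ^ (1 : ℝ) :=
            Real.rpow_le_rpow_of_exponent_le hj1' (by norm_num)
        _ = j := Real.rpow_one _
    -- common numerator bound
    have hnum : (2 : ℝ) ^ ((4 / 5 : ℝ) * ii j) * (C * K * 2 ^ (J + 1)) *
        (1 / (j : ℝ) ^ (7 / 5 : ℝ))
        ≤ 4 * C * K * 2 ^ J * (1 / (j : ℝ) ^ (16 / 25 : ℝ)) := by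
      have e1 : (j : ℝ) ^ (7 / 5 : ℝ) = (j : ℝ) ^ (19 / 25 : ℝ) * (j : ℝ) ^ (16 / 25 : ℝ) := by
        rw [← Real.rpow_add hj0']
        norm_num
      have hp1 : (0 : ℝ) < (j : ℝ) ^ (19 / 25 : ℝ) := by positivity
      have hp2 : (0 : ℝ) < (j : ℝ) ^ (16 / 25 : ℝ) := by positivity
      calc (2 : ℝ) ^ ((4 / 5 : ℝ) * ii j) * (C * K * 2 ^ (J + 1)) * (1 / (j : ℝ) ^ (7 / 5 : ℝ))
          ≤ (2 * (j : ℝ) ^ (19 / 25 : ℝ)) * (C * K * 2 ^ (J + 1)) *
            (1 / (j : ℝ) ^ (7 / 5 : ℝ)) := by gcongr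
        _ = 4 * C * K * 2 ^ J * (1 / (j : ℝ) ^ (16 / 25 : ℝ)) := by
            rw [e1, pow_succ]
            field_simp
            ring
    have hnum0 : 0 ≤ 4 * C * K * 2 ^ J * (1 / (j : ℝ) ^ (16 / 25 : ℝ)) := by positivity
    by_cases hcase : 2 * j ≤ J
    · -- small j
      have hH4 : (J : ℝ) / 4 ≤ H := by
        have : J ≤ 4 * H := by omega
        have : (J : ℝ) ≤ 4 * H := by exact_mod_cast this
        linarith
      have hjJ : (j : ℝ) ≤ J / 2 := by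
        have : (2 : ℝ) * j ≤ J := by exact_mod_cast hcase
        linarith
      have hden := denom_le (J := J) (H := H) (g := g) hj1 hgj (x := (J : ℝ) / 4) (by positivity)
        hH4 (y := (j : ℝ) ^ (19 / 20 : ℝ)) (by positivity) (by linarith)
        (by have : (0 : ℝ) ≤ (j : ℝ) ^ (19 / 20 : ℝ) := by positivity
            linarith)
      have hsq : (j : ℝ) ^ (19 / 40 : ℝ) / 2 ≤ Real.sqrt ((j : ℝ) ^ (19 / 20 : ℝ) / 2) := by
        apply Real.le_sqrt_of_sq_le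
        rw [div_pow]
        have e2 : ((j : ℝ) ^ (19 / 40 : ℝ)) ^ 2 = (j : ℝ) ^ (19 / 20 : ℝ) := by
          rw [← Real.rpow_natCast, ← Real.rpow_mul hj0'.le]
          norm_num
        rw [e2]
        have : (0 : ℝ) ≤ (j : ℝ) ^ (19 / 20 : ℝ) := by positivity
        linarith
      have hden2 : (J : ℝ) / 8 * (j : ℝ) ^ (19 / 40 : ℝ)
          ≤ (H : ℝ) * Real.sqrt (1 + (min H g : ℕ)) := by
        refine le_trans ?_ hden
        calc (J : ℝ) / 8 * (j : ℝ) ^ (19 / 40 : ℝ) = (J : ℝ) / 4 * ((j : ℝ) ^ (19 / 40 : ℝ) / 2) := by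
              ring
          _ ≤ (J : ℝ) / 4 * Real.sqrt ((j : ℝ) ^ (19 / 20 : ℝ) / 2) := by gcongr
      have hp3 : (0 : ℝ) < (j : ℝ) ^ (19 / 40 : ℝ) := by positivity
      calc (2 : ℝ) ^ ((4 / 5 : ℝ) * ii j) * (C * K * 2 ^ (J + 1)) * (1 / (j : ℝ) ^ (7 / 5 : ℝ))
          / ((H : ℝ) * Real.sqrt (1 + (min H g : ℕ)))
          ≤ (4 * C * K * 2 ^ J * (1 / (j : ℝ) ^ (16 / 25 : ℝ))) /
            ((J : ℝ) / 8 * (j : ℝ) ^ (19 / 40 : ℝ)) :=
            div_le_div₀ hnum0 hnum (by positivity) hden2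
        _ = (32 * C) * K * 2 ^ J / J * (1 / (j : ℝ) ^ (223 / 200 : ℝ)) := by
            have e3 : (j : ℝ) ^ (223 / 200 : ℝ)
                = (j : ℝ) ^ (16 / 25 : ℝ) * (j : ℝ) ^ (19 / 40 : ℝ) := by
              rw [← Real.rpow_add hj0']
              norm_num
            rw [e3]
            have hp2 : (0 : ℝ) < (j : ℝ) ^ (16 / 25 : ℝ) := by positivity
            field_simp
            ring
        _ ≤ (32 * C) * K * 2 ^ J / J *
            (1 / (j : ℝ) ^ (223 / 200 : ℝ) + 1 / (J : ℝ) ^ (13 / 200 : ℝ) / J) := by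
            apply mul_le_mul_of_nonneg_left _ (by positivity)
            have : (0 : ℝ) ≤ 1 / (J : ℝ) ^ (13 / 200 : ℝ) / J := by positivity
            linarith
    · -- large j
      push Not at hcase
      have hjJ : (J : ℝ) / 2 ≤ j := by
        have : (J : ℝ) ≤ 2 * j := by exact_mod_cast hcase.le
        linarith
      have hHJ : (J : ℝ) ^ (19 / 20 : ℝ) ≤ H := by
        refine (le_hh J).trans ?_
        exact_mod_cast hcond
      have hJ20 : (0 : ℝ) < (J : ℝ) ^ (19 / 20 : ℝ) := by positivity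
      have hyj : (J : ℝ) ^ (19 / 20 : ℝ) / 2 ≤ (j : ℝ) ^ (19 / 20 : ℝ) := by
        calc (J : ℝ) ^ (19 / 20 : ℝ) / 2 ≤ (J : ℝ) ^ (19 / 20 : ℝ) / (2 : ℝ) ^ (19 / 20 : ℝ) := by
              apply div_le_div_of_nonneg_left hJ20.le (by positivity)
              calc (2 : ℝ) ^ (19 / 20 : ℝ) ≤ (2 : ℝ) ^ (1 : ℝ) :=
                    Real.rpow_le_rpow_of_exponent_le (by norm_num) (by norm_num)
                _ = 2 := Real.rpow_one _
          _ = ((J : ℝ) / 2) ^ (19 / 20 : ℝ) := by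
              rw [Real.div_rpow hJ0.le (by norm_num)]
          _ ≤ (j : ℝ) ^ (19 / 20 : ℝ) := by
              apply Real.rpow_le_rpow (by positivity) hjJ (by norm_num)
      have hden := denom_le (J := J) (H := H) (g := g) hj1 hgj (x := (J : ℝ) ^ (19 / 20 : ℝ)) hJ20
        hHJ (y := (J : ℝ) ^ (19 / 20 : ℝ)) hJ20.le (by linarith) hyj
      have hsq : (J : ℝ) ^ (19 / 40 : ℝ) / 2 ≤ Real.sqrt ((J : ℝ) ^ (19 / 20 : ℝ) / 2) := by
        apply Real.le_sqrt_of_sq_le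
        rw [div_pow]
        have e2 : ((J : ℝ) ^ (19 / 40 : ℝ)) ^ 2 = (J : ℝ) ^ (19 / 20 : ℝ) := by
          rw [← Real.rpow_natCast, ← Real.rpow_mul hJ0.le]
          norm_num
        rw [e2]
        linarith
      have hden2 : (J : ℝ) ^ (57 / 40 : ℝ) / 2
          ≤ (H : ℝ) * Real.sqrt (1 + (min H g : ℕ)) := by
        refine le_trans ?_ hden
        calc (J : ℝ) ^ (57 / 40 : ℝ) / 2
            = (J : ℝ) ^ (19 / 20 : ℝ) * ((J : ℝ) ^ (19 / 40 : ℝ) / 2) := by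
              rw [← mul_div_assoc, ← Real.rpow_add hJ0]
              norm_num
          _ ≤ (J : ℝ) ^ (19 / 20 : ℝ) * Real.sqrt ((J : ℝ) ^ (19 / 20 : ℝ) / 2) := by gcongr
      have hj16 : (J : ℝ) ^ (16 / 25 : ℝ) / 2 ≤ (j : ℝ) ^ (16 / 25 : ℝ) := by
        calc (J : ℝ) ^ (16 / 25 : ℝ) / 2 ≤ (J : ℝ) ^ (16 / 25 : ℝ) / (2 : ℝ) ^ (16 / 25 : ℝ) := by
              apply div_le_div_of_nonneg_left (by positivity) (by positivity)
              calc (2 : ℝ) ^ (16 / 25 : ℝ) ≤ (2 : ℝ) ^ (1 : ℝ) :=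
                    Real.rpow_le_rpow_of_exponent_le (by norm_num) (by norm_num)
                _ = 2 := Real.rpow_one _
          _ = ((J : ℝ) / 2) ^ (16 / 25 : ℝ) := by
              rw [Real.div_rpow hJ0.le (by norm_num)]
          _ ≤ (j : ℝ) ^ (16 / 25 : ℝ) := by
              apply Real.rpow_le_rpow (by positivity) hjJ (by norm_num)
      have hnum2 : (2 : ℝ) ^ ((4 / 5 : ℝ) * ii j) * (C * K * 2 ^ (J + 1)) *
          (1 / (j : ℝ) ^ (7 / 5 : ℝ)) ≤ 4 * C * K * 2 ^ J * (1 / ((J : ℝ) ^ (16 / 25 : ℝ) / 2)) := by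
        refine hnum.trans ?_
        apply mul_le_mul_of_nonneg_left _ (by positivity)
        apply one_div_le_one_div_of_le (by positivity) hj16
      calc (2 : ℝ) ^ ((4 / 5 : ℝ) * ii j) * (C * K * 2 ^ (J + 1)) * (1 / (j : ℝ) ^ (7 / 5 : ℝ))
          / ((H : ℝ) * Real.sqrt (1 + (min H g : ℕ)))
          ≤ (4 * C * K * 2 ^ J * (1 / ((J : ℝ) ^ (16 / 25 : ℝ) / 2))) /
            ((J : ℝ) ^ (57 / 40 : ℝ) / 2) :=
            div_le_div₀ (by positivity) hnum2 (by positivity) hden2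
        _ = (16 * C) * K * 2 ^ J / J * (1 / (J : ℝ) ^ (13 / 200 : ℝ) / J) := by
            have e3 : (J : ℝ) ^ (16 / 25 : ℝ) * (J : ℝ) ^ (57 / 40 : ℝ)
                = (J : ℝ) ^ (13 / 200 : ℝ) * (J * J) := by
              have e4 : (J : ℝ) * J = (J : ℝ) ^ (2 : ℝ) := by
                rw [← pow_two]
                norm_cast
              rw [e4, ← Real.rpow_add hJ0, ← Real.rpow_add hJ0]
              norm_num
            have hp2 : (0 : ℝ) < (J : ℝ) ^ (16 / 25 : ℝ) := by positivity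
            have hp4 : (0 : ℝ) < (J : ℝ) ^ (57 / 40 : ℝ) := by positivity
            have hp5 : (0 : ℝ) < (J : ℝ) ^ (13 / 200 : ℝ) := by positivity
            calc (4 * C * K * 2 ^ J * (1 / ((J : ℝ) ^ (16 / 25 : ℝ) / 2))) /
                  ((J : ℝ) ^ (57 / 40 : ℝ) / 2)
                = 16 * C * K * 2 ^ J / ((J : ℝ) ^ (16 / 25 : ℝ) * (J : ℝ) ^ (57 / 40 : ℝ)) := by
                  field_simp
                  ring
              _ = (16 * C) * K * 2 ^ J / J * (1 / (J : ℝ) ^ (13 / 200 : ℝ) / J) := by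
                  rw [e3]
                  field_simp
        _ ≤ (32 * C) * K * 2 ^ J / J *
            (1 / (j : ℝ) ^ (223 / 200 : ℝ) + 1 / (J : ℝ) ^ (13 / 200 : ℝ) / J) := by
            have h9 : (0 : ℝ) ≤ 1 / (J : ℝ) ^ (13 / 200 : ℝ) / J := by positivity
            have h10 : (0 : ℝ) ≤ 1 / (j : ℝ) ^ (223 / 200 : ℝ) := by positivity
            have h11 : (16 * C) * K * 2 ^ J / J ≤ (32 * C) * K * 2 ^ J / J := by
              gcongr
              norm_num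
            apply mul_le_mul h11 (by linarith) h9 (by positivity)
  refine (Finset.sum_le_sum (fun e he => Finset.sum_le_sum (fun j hj => hterm e he j hj))).trans ?_
  rw [Finset.sum_const, Finset.card_range, nsmul_eq_mul, ← Finset.mul_sum,
    Finset.sum_add_distrib, Finset.sum_const, Nat.card_Ico, nsmul_eq_mul]
  push_cast
  have h1 : ((J - j₀ : ℕ) : ℝ) * (1 / (J : ℝ) ^ (13 / 200 : ℝ) / J)
      ≤ 1 / (J : ℝ) ^ (13 / 200 : ℝ) := by
    have h2 : ((J - j₀ : ℕ) : ℝ) ≤ J := by exact_mod_cast Nat.sub_le _ _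
    have h3 : (0 : ℝ) ≤ 1 / (J : ℝ) ^ (13 / 200 : ℝ) := by positivity
    calc ((J - j₀ : ℕ) : ℝ) * (1 / (J : ℝ) ^ (13 / 200 : ℝ) / J)
        ≤ J * (1 / (J : ℝ) ^ (13 / 200 : ℝ) / J) := by gcongr
      _ = 1 / (J : ℝ) ^ (13 / 200 : ℝ) := by field_simp
  have h4 : (0 : ℝ) ≤ (32 * C) * K * 2 ^ J / J := by positivity
  calc 2 * ((32 * C) * K * 2 ^ J / J *
        (∑ j ∈ Finset.Ico j₀ J, 1 / (j : ℝ) ^ (223 / 200 : ℝ)
          + ((J - j₀ : ℕ) : ℝ) * (1 / (J : ℝ) ^ (13 / 200 : ℝ) / J)))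
      ≤ 2 * ((32 * C) * K * 2 ^ J / J *
        (∑ j ∈ Finset.Ico j₀ J, 1 / (j : ℝ) ^ (223 / 200 : ℝ)
          + 1 / (J : ℝ) ^ (13 / 200 : ℝ))) := by gcongr
    _ = (64 * C) * K * 2 ^ J / J *
        (∑ j ∈ Finset.Ico j₀ J, 1 / (j : ℝ) ^ (223 / 200 : ℝ) + 1 / (J : ℝ) ^ (13 / 200 : ℝ)) := by
        ring

end Pool.Agent.PnMn
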