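import Mathlib
import Pool.Agent.PnMn.Defs
import Pool.Agent.PnMn.Basic
import Pool.Agent.PnMn.WBound
import Pool.Agent.PnMn.Final1
import Pool.Agent.PnMn.Final2
import Pool.Agent.PnMn.Final3

set_option autoImplicit false

namespace Pool.Agent.PnMn

open Finset

open scoped Classical

lemma rr_pos : 0 < rr := by
  unfold rr
  positivity

lemma rr_lt_one : rr < 1 := by
  have h1 : rr ^ 35 < 1 := by
    have e1 : rr ^ 35 = 2 ^ 5 * (7 / 8 : ℝ) ^ 28 := by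
      unfold rr
      rw [mul_pow, ← Real.rpow_natCast, ← Real.rpow_natCast, ← Real.rpow_mul (by norm_num),
        ← Real.rpow_mul (by norm_num), ← Real.rpow_natCast, ← Real.rpow_natCast]
      norm_num
    rw [e1]
    norm_num
  by_contra hc
  push Not at hc
  have := one_le_pow₀ hc (n := 35)
  linarith

lemma pn_eq_of_not_joint {j₀ k n : ℕ} (hj₀ : 1 ≤ j₀)
    (hq : (k * n + 1).Prime) (hjoint : ¬ JointBad j₀ k n) : pn n = k * n + 1 := by
  have hj2 : 1 < 2 ^ j₀ := Nat.one_lt_two_pow (by omega)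
  have hmod := form_modEq k n
  obtain ⟨hpn1, hpn2⟩ := pn_spec hq hmod
  have hle := pn_le hq hmod
  by_contra hne
  have hlt : pn n < k * n + 1 := lt_of_le_of_ne hle hne
  obtain ⟨l, hl⟩ := (modEq_one_iff_form hpn1.one_le).mp hpn2
  apply hjoint
  refine ⟨1, l, one_pos, hj2, one_dvd _, ?_, ?_, ?_⟩
  · rcases Nat.eq_zero_or_pos l with h0 | h0
    · subst h0
      rw [hl] at hpn1
      simp at hpn1
      exact absurd hpn1 (by norm_num)
    · exact h0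
  · rw [mul_one]
    by_contra hc
    push Not at hc
    have : k * n ≤ l * n := Nat.mul_le_mul_right _ hc
    omega
  · rw [Nat.div_one, ← hl]
    exact hpn1

lemma exists_tail_small (ε : ℝ) (hε : 0 < ε) : ∃ j₁ : ℕ, ∀ j₀ ≥ j₁, ∀ N : ℕ,
    ∑ j ∈ Finset.Ico j₀ N, 1 / (j : ℝ) ^ (223 / 200 : ℝ) ≤ ε := by
  have hs : Summable (fun n : ℕ => 1 / (n : ℝ) ^ (223 / 200 : ℝ)) :=
    Real.summable_one_div_nat_rpow.mpr (by norm_num)
  have ht := hs.hasSum.tendsto_sum_nat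
  rw [Metric.tendsto_atTop] at ht
  obtain ⟨j₁, hj₁⟩ := ht ε hε
  refine ⟨j₁, fun j₀ hj₀ N => ?_⟩
  have h1 := hj₁ j₀ hj₀
  rw [Real.dist_eq, abs_lt] at h1
  rcases Nat.lt_or_ge N j₀ with hN | hN
  · rw [Finset.Ico_eq_empty (by omega), Finset.sum_empty]
    exact hε.le
  · have h2 : ∑ j ∈ Finset.range N, 1 / (j : ℝ) ^ (223 / 200 : ℝ)
        ≤ ∑' n : ℕ, 1 / (n : ℝ) ^ (223 / 200 : ℝ) :=
      hs.sum_le_tsum _ (fun i _ => by positivity)
    rw [Finset.sum_Ico_eq_sub _ hN]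
    linarith

lemma exists_ii_large (i₀ : ℕ) : ∃ j₁ : ℕ, ∀ j ≥ j₁, i₀ ≤ ii j := by
  refine ⟨2 ^ (2 * i₀) + 1, fun j hj => ?_⟩
  by_contra hc
  push Not at hc
  have h1 : hh j ≤ 2 ^ i₀ := (hh_le_two_pow_ii j).trans (Nat.pow_le_pow_right (by norm_num) hc.le)
  have hj1' : 1 ≤ j := by
    have := Nat.one_le_two_pow (n := 2 * i₀)
    omega
  have hj1 : (1 : ℝ) ≤ j := by exact_mod_cast hj1'
  have h2 : (j : ℝ) ^ (1 / 2 : ℝ) ≤ (2 : ℝ) ^ i₀ := by
    calc (j : ℝ) ^ (1 / 2 : ℝ) ≤ (j : ℝ) ^ (19 / 20 : ℝ) :=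
          Real.rpow_le_rpow_of_exponent_le hj1 (by norm_num)
      _ ≤ hh j := le_hh j
      _ ≤ (2 : ℝ) ^ i₀ := by exact_mod_cast h1
  have h3 : (j : ℝ) ≤ (2 : ℝ) ^ (2 * i₀) := by
    have h4 := pow_le_pow_left₀ (by positivity) h2 2
    rw [← Real.rpow_natCast, ← Real.rpow_mul (by positivity)] at h4
    norm_num at h4
    rw [pow_mul']
    exact h4
  have h5 : j ≤ 2 ^ (2 * i₀) := by exact_mod_cast h3
  omega

/-- Cardinality of a filtered product. -/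
lemma card_filter_prod (A B : Finset ℕ) (p : ℕ → ℕ → Prop) :
    (((A ×ˢ B).filter (fun x : ℕ × ℕ => p x.1 x.2)).card : ℝ)
      = ∑ k ∈ A, ((B.filter (fun n => p k n)).card : ℝ) := by
  rw [Finset.card_filter, Finset.sum_product]
  push_cast
  apply Finset.sum_congr rfl
  intro k _
  rw [Finset.card_filter]
  push_cast
  rfl

theorem finalDensity (hMP : ManyPrimes) (hS1 : SieveOne) (hS2 : SieveTwo) (hA : AvgTotient)
    (hAt : Atypical) (hSm : SmoothLe) : FinalDensity := by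
  obtain ⟨C₃, hC₃, hW⟩ := wLe' hS1 hA hSm
  obtain ⟨c, θ, Θ, hc, hθ, hΘ, hMP'⟩ := hMP
  obtain ⟨C₁, hC₁, hS⟩ := hS1
  obtain ⟨C₂, hC₂, hA1⟩ := hA 1
  obtain ⟨C₄, hC₄, J₄, hAt'⟩ := hAt
  obtain ⟨J₅, hSm'⟩ := hSm
  obtain ⟨C₆, hC₆, hP6⟩ := pow_six_le
  have hrr0 := rr_pos
  have hrr1 := rr_lt_one
  -- choice of i₀
  obtain ⟨i₀, hi₀⟩ : ∃ i₀ : ℕ, C₄ * (rr ^ i₀ / (1 - rr)) ≤ c / 8 := by
    have h1 : 0 < c / 8 * (1 - rr) / C₄ := by
      have : 0 < 1 - rr := by linarith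
      positivity
    obtain ⟨i₀, hi₀⟩ := exists_pow_lt_of_lt_one h1 hrr1
    refine ⟨i₀, ?_⟩
    have h2 : 0 < 1 - rr := by linarith
    rw [lt_div_iff₀ hC₄] at hi₀
    rw [← mul_div_assoc, div_le_iff₀ h2]
    linarith
  set M := 64 * (C₁ * C₂ * C₃) with hM
  have hMpos : 0 < M := by positivity
  -- choice of j₀
  obtain ⟨j₁, hj₁⟩ := exists_tail_small (c / 8 / M) (by positivity)
  obtain ⟨j₂, hj₂⟩ := exists_ii_large i₀
  set j₀ := max 1 (max j₁ j₂) with hj₀def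
  have hj₀1 : 1 ≤ j₀ := le_max_left _ _
  have hj₀j₁ : j₁ ≤ j₀ := (le_max_left _ _).trans (le_max_right _ _)
  have hj₀j₂ : j₂ ≤ j₀ := (le_max_right _ _).trans (le_max_right _ _)
  obtain ⟨C₅, hC₅, hJC⟩ := joint_count hS2 hA j₀
  -- choice of κ
  set κ := min 1 (c * θ / (8 * C₅)) with hκdef
  have hκ0 : 0 < κ := by
    rw [hκdef]
    apply lt_min one_pos
    positivity
  have hκ1 : κ ≤ 1 := min_le_left _ _
  have hκ2 : C₅ * κ / θ ≤ c / 8 := by
    have h1 : κ ≤ c * θ / (8 * C₅) := min_le_right _ _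
    rw [le_div_iff₀ (by positivity)] at h1
    rw [div_le_iff₀ hθ]
    linarith
  obtain ⟨K₀, hK₀⟩ := hMP' κ hκ0 hκ1
  refine ⟨c * κ / (2 * Θ), by positivity, ?_⟩
  intro J₀
  -- error terms tend to zero
  set D := 1 + 4 * (1 / θ + 1) ^ 2 * C₆ + M with hD
  have hDpos : 0 < D := by positivity
  obtain ⟨J₆, hJ₆⟩ : ∃ J₆ : ℕ, ∀ J : ℕ, J₆ ≤ J → D / (J : ℝ) ^ (13 / 200 : ℝ) ≤ c / 8 := by
    have ht : Filter.Tendsto (fun J : ℕ => (J : ℝ) ^ (13 / 200 : ℝ)) Filter.atTop Filter.atTop :=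
      (tendsto_rpow_atTop (by norm_num)).comp tendsto_natCast_atTop_atTop
    have h1 := (ht.eventually_ge_atTop (D / (c / 8))).exists_forall_of_atTop
    obtain ⟨J₆, hJ₆⟩ := h1
    refine ⟨J₆ + 1, fun J hJ => ?_⟩
    have h2 := hJ₆ J (by omega)
    have hJ1 : (0 : ℝ) < J := by exact_mod_cast (by omega : 0 < J)
    rw [div_le_iff₀ (by positivity)] at h2 ⊢
    linarith
  -- choice of K
  set J₇ := J₀ + (2 * j₀ + 2) + 8 + J₄ + J₅ + J₆ with hJ₇
  obtain ⟨K, hKK₀, hK1, hKJ⟩ : ∃ K : ℕ, K₀ ≤ K ∧ 1 ≤ K ∧ (J₇ : ℝ) ≤ θ * K / κ := by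
    obtain ⟨K', hK'⟩ := exists_nat_ge ((J₇ : ℝ) * κ / θ)
    refine ⟨K₀ + 1 + K', by omega, by omega, ?_⟩
    rw [le_div_iff₀ hκ0]
    rw [div_le_iff₀ hθ] at hK'
    push_cast
    have : (0 : ℝ) ≤ K₀ := Nat.cast_nonneg _
    nlinarith
  obtain ⟨J, hJ1, hJ2, hcount⟩ := hK₀ K hKK₀
  have hJ7 : J₇ ≤ J := by
    have : (J₇ : ℝ) ≤ J := hKJ.trans hJ1
    exact_mod_cast this
  refine ⟨J, by omega, ?_⟩
  have hJge1 : (1 : ℝ) ≤ J := by exact_mod_cast (by omega : 1 ≤ J)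
  have hJpos : (0 : ℝ) < J := by linarith
  have hKpos : (0 : ℝ) < K := by exact_mod_cast hK1
  have hKle : (K : ℝ) / J ≤ κ / θ := by
    rw [div_le_div_iff₀ hJpos hθ]
    rw [div_le_iff₀ hκ0] at hJ1
    linarith
  have hKge : κ / Θ ≤ (K : ℝ) / J := by
    rw [div_le_div_iff₀ hΘ hJpos]
    rw [le_div_iff₀ hκ0] at hJ2
    linarith
  set h := hh J with hh_def
  -- the sets
  set T := ((Finset.Ioc (K / 2) K) ×ˢ (blk J)).filter
          (fun kn : ℕ × ℕ => (kn.1 * kn.2 + 1).Prime) with hT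
  set G := (blk J).filter (fun n => pn n = mn n) with hG
  set B1 := T.filter (fun x => ∀ p : ℕ, p.Prime → p ∣ x.2 → p < 2 ^ h) with hB1
  set B2 := T.filter (fun x => mn x.2 ≤ x.2 * (K + 1) ∧
    ∃ p, p.Prime ∧ 2 ^ h ≤ p ∧ p ^ 2 ∣ mn x.2) with hB2
  set B3 := T.filter (fun x => JointBad j₀ x.1 x.2) with hB3
  set B4 := T.filter (fun x => ∃ i, i₀ ≤ i ∧ (2 : ℝ) ^ i ≤ 2 * (J : ℝ) ^ (19 / 20 : ℝ) ∧
    (4 / 5 : ℝ) * i < (omA (2 ^ (2 ^ i)) x.2 : ℝ)) with hB4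
  set B5 := T.filter (fun x => ¬ JointBad j₀ x.1 x.2 ∧ TailBad j₀ h K x.2 ∧
    ¬ ∃ i, i₀ ≤ i ∧ (2 : ℝ) ^ i ≤ 2 * (J : ℝ) ^ (19 / 20 : ℝ) ∧
    (4 / 5 : ℝ) * i < (omA (2 ^ (2 ^ i)) x.2 : ℝ)) with hB5
  have hTmem : ∀ x ∈ T, 1 ≤ x.1 ∧ x.1 ≤ K ∧ x.2 ∈ blk J ∧ (x.1 * x.2 + 1).Prime := by
    intro x hx
    rw [hT, Finset.mem_filter, Finset.mem_product, Finset.mem_Ioc] at hx
    exact ⟨by omega, hx.1.1.2, hx.1.2, hx.2⟩
  set R := T \ (B1 ∪ B2 ∪ B3 ∪ B4 ∪ B5) with hR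
  -- R injects into G
  have hRG : R.card ≤ G.card := by
    have hgood : ∀ x ∈ R, pn x.2 = mn x.2 ∧ pn x.2 = x.1 * x.2 + 1 := by
      intro x hx
      rw [hR, Finset.mem_sdiff] at hx
      obtain ⟨hxT, hxB⟩ := hx
      simp only [Finset.mem_union, not_or] at hxB
      obtain ⟨⟨⟨⟨h1, h2⟩, h3⟩, h4⟩, h5⟩ := hxB
      obtain ⟨hk1, hkK, hnb, hpr⟩ := hTmem x hxT
      rw [hB1, Finset.mem_filter, not_and] at h1
      rw [hB2, Finset.mem_filter, not_and] at h2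
      rw [hB3, Finset.mem_filter, not_and] at h3
      rw [hB4, Finset.mem_filter, not_and] at h4
      rw [hB5, Finset.mem_filter, not_and] at h5
      have h1' := h1 hxT
      have h2' := h2 hxT
      have h3' := h3 hxT
      have h4' := h4 hxT
      have h5' := h5 hxT
      have htail : ¬ TailBad j₀ h K x.2 := fun ht => h5' ⟨h3', ht, h4'⟩
      exact good_pair hj₀1 (pos_of_mem_blk hnb) hkK hpr h1' h2' h3' htail
    apply Finset.card_le_card_of_injOn (fun x => x.2)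
    · intro x hx
      have hx' := hgood x hx
      have hxT : x ∈ T := (Finset.mem_sdiff.mp hx).1
      rw [hG]
      simp only [Finset.coe_filter, Set.mem_ofPred_eq]
      exact ⟨(hTmem x hxT).2.2.1, hx'.1⟩
    · intro x hx y hy hxy
      have hx' := (hgood x hx).2
      have hy' := (hgood y hy).2
      have hxT : x ∈ T := (Finset.mem_sdiff.mp hx).1
      have hnpos := pos_of_mem_blk (hTmem x hxT).2.2.1
      simp only at hxy
      rw [← hxy, hx'] at hy'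
      have h3 : x.1 * x.2 = y.1 * x.2 := by omega
      exact Prod.ext (Nat.eq_of_mul_eq_mul_right hnpos h3) hxy
  -- cardinality decomposition
  have hTcard : (T.card : ℝ) ≤ B1.card + B2.card + B3.card + B4.card + B5.card + R.card := by
    have h1 : T ⊆ (B1 ∪ B2 ∪ B3 ∪ B4 ∪ B5) ∪ R := by
      intro x hx
      rw [Finset.mem_union]
      by_cases hxB : x ∈ B1 ∪ B2 ∪ B3 ∪ B4 ∪ B5
      · exact Or.inl hxB
      · exact Or.inr (Finset.mem_sdiff.mpr ⟨hx, hxB⟩)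
    have h2 := Finset.card_le_card h1
    have h3 := Finset.card_union_le (B1 ∪ B2 ∪ B3 ∪ B4 ∪ B5) R
    have h4 := Finset.card_union_le (B1 ∪ B2 ∪ B3 ∪ B4) B5
    have h5 := Finset.card_union_le (B1 ∪ B2 ∪ B3) B4
    have h6 := Finset.card_union_le (B1 ∪ B2) B3
    have h7 := Finset.card_union_le B1 B2
    have h8 : T.card ≤ B1.card + B2.card + B3.card + B4.card + B5.card + R.card := by omega
    exact_mod_cast h8
  set X := (K : ℝ) * 2 ^ J / J with hX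
  have hXpos : 0 < X := by positivity
  have hKcard : ((Finset.Icc 1 K).card : ℝ) = K := by simp
  -- B1
  have hb1 : (B1.card : ℝ) ≤ X * (1 / (J : ℝ) ^ 2) := by
    have hsub : B1 ⊆ (Finset.Icc 1 K) ×ˢ
        ((blk J).filter (fun n => ∀ p : ℕ, p.Prime → p ∣ n → p < 2 ^ h)) := by
      intro x hx
      rw [hB1, Finset.mem_filter] at hx
      obtain ⟨hk1, hkK, hnb, hpr⟩ := hTmem x hx.1
      rw [Finset.mem_product, Finset.mem_Icc, Finset.mem_filter]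
      exact ⟨⟨hk1, hkK⟩, hnb, hx.2⟩
    have h1 : (B1.card : ℝ) ≤ K * (2 ^ J / (J : ℝ) ^ 3) := by
      have h2 := Finset.card_le_card hsub
      rw [Finset.card_product] at h2
      have h3 : (B1.card : ℝ) ≤ ((Finset.Icc 1 K).card : ℝ) *
          (((blk J).filter (fun n => ∀ p : ℕ, p.Prime → p ∣ n → p < 2 ^ h)).card : ℝ) := by
        exact_mod_cast h2
      refine h3.trans ?_
      rw [hKcard]
      exact mul_le_mul_of_nonneg_left (hSm' J (by omega)) hKpos.le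
    refine h1.trans (le_of_eq ?_)
    rw [hX]
    field_simp
  -- B2
  have hb2 : (B2.card : ℝ) ≤ X * (4 * (1 / θ + 1) ^ 2 * C₆ / (J : ℝ) ^ 3) := by
    have hsub : B2 ⊆ (Finset.Icc 1 K) ×ˢ
        ((blk J).filter (fun a => mn a ≤ a * (K + 1) ∧
          ∃ p, p.Prime ∧ 2 ^ h ≤ p ∧ p ^ 2 ∣ mn a)) := by
      intro x hx
      rw [hB2, Finset.mem_filter] at hx
      obtain ⟨hk1, hkK, hnb, hpr⟩ := hTmem x hx.1
      rw [Finset.mem_product, Finset.mem_Icc, Finset.mem_filter]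
      exact ⟨⟨hk1, hkK⟩, hnb, hx.2⟩
    have h1 : (B2.card : ℝ) ≤ K * (4 * 2 ^ J * ((K + 1 : ℕ) : ℝ) ^ 2 / ((2 ^ h : ℕ) : ℝ)) := by
      have h2 := Finset.card_le_card hsub
      rw [Finset.card_product] at h2
      have h3 : (B2.card : ℝ) ≤ ((Finset.Icc 1 K).card : ℝ) *
          (((blk J).filter (fun a => mn a ≤ a * (K + 1) ∧
          ∃ p, p.Prime ∧ 2 ^ h ≤ p ∧ p ^ 2 ∣ mn a)).card : ℝ) := by
        exact_mod_cast h2
      refine h3.trans ?_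
      rw [hKcard]
      exact mul_le_mul_of_nonneg_left (card_sq_block_le J (K + 1) (2 ^ h) Nat.one_le_two_pow)
        hKpos.le
    refine h1.trans ?_
    have hKJ' : ((K + 1 : ℕ) : ℝ) ≤ (1 / θ + 1) * J := by
      push_cast
      have h2 : (K : ℝ) ≤ κ / θ * J := by
        rw [div_le_iff₀ hJpos] at hKle
        exact hKle
      have h3 : κ / θ * J ≤ 1 / θ * J := by gcongr
      linarith
    have h6 := hP6 J (by omega)
    have hpow : ((2 ^ h : ℕ) : ℝ) = 2 ^ h := by push_cast; rfl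
    rw [hpow]
    have h2h : (0 : ℝ) < 2 ^ h := by positivity
    have h7 : 1 / (2 : ℝ) ^ h ≤ C₆ / (J : ℝ) ^ 6 := by
      rw [div_le_div_iff₀ h2h (by positivity)]
      linarith
    have h8 : ((K + 1 : ℕ) : ℝ) ^ 2 ≤ ((1 / θ + 1) * J) ^ 2 :=
      pow_le_pow_left₀ (by positivity) hKJ' 2
    calc (K : ℝ) * (4 * 2 ^ J * ((K + 1 : ℕ) : ℝ) ^ 2 / 2 ^ h)
        = K * (4 * 2 ^ J * ((K + 1 : ℕ) : ℝ) ^ 2 * (1 / 2 ^ h)) := by ring
      _ ≤ K * (4 * 2 ^ J * ((1 / θ + 1) * J) ^ 2 * (C₆ / (J : ℝ) ^ 6)) := by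
          gcongr
      _ = X * (4 * (1 / θ + 1) ^ 2 * C₆ / (J : ℝ) ^ 3) := by
          rw [hX]
          field_simp
  -- B3
  have hb3 : (B3.card : ℝ) ≤ X * (c / 8) := by
    have hsub : B3 ⊆ ((Finset.Icc 1 K) ×ˢ (blk J)).filter
        (fun kn : ℕ × ℕ => (kn.1 * kn.2 + 1).Prime ∧ JointBad j₀ kn.1 kn.2) := by
      intro x hx
      rw [hB3, Finset.mem_filter] at hx
      obtain ⟨hk1, hkK, hnb, hpr⟩ := hTmem x hx.1
      rw [Finset.mem_filter, Finset.mem_product, Finset.mem_Icc]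
      exact ⟨⟨⟨hk1, hkK⟩, hnb⟩, hpr, hx.2⟩
    have h1 : (B3.card : ℝ) ≤ C₅ * (K : ℝ) ^ 2 * 2 ^ J / (J : ℝ) ^ 2 := by
      refine le_trans ?_ (hJC J K (by omega))
      exact_mod_cast Finset.card_le_card hsub
    refine h1.trans ?_
    calc C₅ * (K : ℝ) ^ 2 * 2 ^ J / (J : ℝ) ^ 2 = X * (C₅ * (K / J)) := by
          rw [hX]
          field_simp
      _ ≤ X * (C₅ * (κ / θ)) := by gcongr
      _ ≤ X * (c / 8) := by
          apply mul_le_mul_of_nonneg_left _ hXpos.le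
          rw [← mul_div_assoc]
          exact hκ2
  -- B4
  have hb4 : (B4.card : ℝ) ≤ X * (c / 8) := by
    set I := (Finset.Ico i₀ (J + 2)).filter
      (fun i : ℕ => (2 : ℝ) ^ i ≤ 2 * (J : ℝ) ^ (19 / 20 : ℝ)) with hI
    have hsub : B4 ⊆ I.biUnion (fun i => ((Finset.Icc 1 K) ×ˢ (blk J)).filter
        (fun x : ℕ × ℕ => (x.1 * x.2 + 1).Prime ∧
          (4 / 5 : ℝ) * i < (omA (2 ^ (2 ^ i)) x.2 : ℝ))) := by
      intro x hx
      rw [hB4, Finset.mem_filter] at hx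
      obtain ⟨hxT, i, hi1, hi2, hi3⟩ := hx
      obtain ⟨hk1, hkK, hnb, hpr⟩ := hTmem x hxT
      rw [Finset.mem_biUnion]
      refine ⟨i, ?_, ?_⟩
      · rw [hI, Finset.mem_filter, Finset.mem_Ico]
        refine ⟨⟨hi1, ?_⟩, hi2⟩
        have h1 : (2 : ℝ) ^ i ≤ 2 * J := by
          refine hi2.trans ?_
          have : (J : ℝ) ^ (19 / 20 : ℝ) ≤ J := by
            calc (J : ℝ) ^ (19 / 20 : ℝ) ≤ (J : ℝ) ^ (1 : ℝ) :=
                  Real.rpow_le_rpow_of_exponent_le hJge1 (by norm_num)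
              _ = J := Real.rpow_one _
          linarith
        have h2 : 2 ^ i ≤ 2 * J := by exact_mod_cast h1
        have h3 : 2 * J < 2 ^ (J + 2) := by
          have := Nat.lt_two_pow_self (n := J)
          rw [pow_succ, pow_succ]
          omega
        exact (Nat.pow_lt_pow_iff_right (by norm_num : 1 < 2)).mp (lt_of_le_of_lt h2 h3)
      · rw [Finset.mem_filter, Finset.mem_product, Finset.mem_Icc]
        exact ⟨⟨⟨hk1, hkK⟩, hnb⟩, hpr, hi3⟩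
    have h1 : (B4.card : ℝ) ≤ ∑ i ∈ I, C₄ * rr ^ i * K * 2 ^ J / J := by
      have h2 : (B4.card : ℝ) ≤ ((∑ i ∈ I, (((Finset.Icc 1 K) ×ˢ (blk J)).filter
        (fun x : ℕ × ℕ => (x.1 * x.2 + 1).Prime ∧
          (4 / 5 : ℝ) * i < (omA (2 ^ (2 ^ i)) x.2 : ℝ))).card : ℕ) : ℝ) := by
        exact_mod_cast (Finset.card_le_card hsub).trans Finset.card_biUnion_le
      refine h2.trans ?_
      push_cast
      apply Finset.sum_le_sum
      intro i hi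
      rw [hI, Finset.mem_filter] at hi
      have e := card_filter_prod (Finset.Icc 1 K) (blk J) (fun k n => (k * n + 1).Prime ∧
          (4 / 5 : ℝ) * i < (omA (2 ^ (2 ^ i)) n : ℝ))
      refine le_trans (le_of_eq ?_) (hAt' J (by omega) K i hK1 hi.2)
      convert e
      rfl
    refine h1.trans ?_
    have h3 : ∑ i ∈ I, C₄ * rr ^ i * K * 2 ^ J / J ≤ ∑ i ∈ Finset.Ico i₀ (J + 2), X * C₄ * rr ^ i := by
      calc ∑ i ∈ I, C₄ * rr ^ i * K * 2 ^ J / J = ∑ i ∈ I, X * C₄ * rr ^ i := by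
            apply Finset.sum_congr rfl
            intro i _
            rw [hX]
            ring
        _ ≤ ∑ i ∈ Finset.Ico i₀ (J + 2), X * C₄ * rr ^ i := by
            apply Finset.sum_le_sum_of_subset_of_nonneg
            · rw [hI]
              exact Finset.filter_subset _ _
            · intro i _ _
              positivity
    refine h3.trans ?_
    rw [← Finset.mul_sum]
    have h4 := geom_sum_Ico_le_of_lt_one hrr0.le hrr1 (m := i₀) (n := J + 2)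
    calc X * C₄ * ∑ i ∈ Finset.Ico i₀ (J + 2), rr ^ i ≤ X * C₄ * (rr ^ i₀ / (1 - rr)) := by gcongr
      _ = X * (C₄ * (rr ^ i₀ / (1 - rr))) := by ring
      _ ≤ X * (c / 8) := by gcongr
  -- B5
  have hb5 : (B5.card : ℝ) ≤ X * (c / 8 + M / (J : ℝ) ^ (13 / 200 : ℝ)) := by
    set S5 := (blk J).filter (fun n => TailBad j₀ h K n ∧
      ∀ j, j₀ ≤ j → j ≤ J → (omA (2 ^ (2 ^ ii j)) n : ℝ) ≤ (4 / 5 : ℝ) * ii j) with hS5
    have hinj : B5.card ≤ S5.card := by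
      apply Finset.card_le_card_of_injOn (fun x => x.2)
      · intro x hx
        have hx' : x ∈ B5 := hx
        rw [hB5, Finset.mem_filter] at hx'
        obtain ⟨hxT, hx1, hx2, hx3⟩ := hx'
        obtain ⟨hk1, hkK, hnb, hpr⟩ := hTmem x hxT
        rw [hS5]
        simp only [Finset.coe_filter, Set.mem_ofPred_eq]
        refine ⟨hnb, hx2, ?_⟩
        intro j hj0 hjJ
        by_contra hcon
        push Not at hcon
        apply hx3
        refine ⟨ii j, hj₂ j (hj₀j₂.trans hj0), ?_, hcon⟩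
        refine (two_pow_ii_le (hj₀1.trans hj0)).trans ?_
        have : (j : ℝ) ≤ J := by exact_mod_cast hjJ
        gcongr
      · intro x hx y hy hxy
        have hx' : x ∈ B5 := hx
        have hy' : y ∈ B5 := hy
        rw [hB5, Finset.mem_filter] at hx' hy'
        have e1 := pn_eq_of_not_joint hj₀1 (hTmem x hx'.1).2.2.2 hx'.2.1
        have e2 := pn_eq_of_not_joint hj₀1 (hTmem y hy'.1).2.2.2 hy'.2.1
        have hnpos := pos_of_mem_blk (hTmem x hx'.1).2.2.1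
        simp only at hxy
        rw [← hxy, e1] at e2
        have h3 : x.1 * x.2 = y.1 * x.2 := by omega
        exact Prod.ext (Nat.eq_of_mul_eq_mul_right hnpos h3) hxy
    have h1 := tail_count_aux hC₁ hC₂ hC₃ hS hA1 hW j₀ J K h hj₀1 (one_le_hh (by omega))
    have h2 := tail_sum_le (C := C₁ * C₂ * C₃) (by positivity) j₀ J K hj₀1 (by omega)
    have h3 : (S5.card : ℝ) ≤ M * K * 2 ^ J / J *
        (∑ j ∈ Finset.Ico j₀ J, 1 / (j : ℝ) ^ (223 / 200 : ℝ) + 1 / (J : ℝ) ^ (13 / 200 : ℝ)) := by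
      refine h1.trans (le_trans (le_of_eq ?_) h2)
      apply Finset.sum_congr rfl
      intro e _
      apply Finset.sum_congr rfl
      intro j _
      split_ifs
      · ring
      · rfl
    have h4 := hj₁ j₀ hj₀j₁ J
    have h5 : (B5.card : ℝ) ≤ S5.card := by exact_mod_cast hinj
    refine h5.trans (h3.trans ?_)
    calc M * K * 2 ^ J / J *
        (∑ j ∈ Finset.Ico j₀ J, 1 / (j : ℝ) ^ (223 / 200 : ℝ) + 1 / (J : ℝ) ^ (13 / 200 : ℝ))
        = X * (M * (∑ j ∈ Finset.Ico j₀ J, 1 / (j : ℝ) ^ (223 / 200 : ℝ)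
            + 1 / (J : ℝ) ^ (13 / 200 : ℝ))) := by rw [hX]; ring
      _ ≤ X * (M * (c / 8 / M + 1 / (J : ℝ) ^ (13 / 200 : ℝ))) := by gcongr
      _ = X * (c / 8 + M / (J : ℝ) ^ (13 / 200 : ℝ)) := by
          field_simp
  -- conclusion
  have hT0 : c * X ≤ T.card := by
    refine le_trans (le_of_eq ?_) hcount
    rw [hX]
    ring
  have herr : 1 / (J : ℝ) ^ 2 + 4 * (1 / θ + 1) ^ 2 * C₆ / (J : ℝ) ^ 3
      + M / (J : ℝ) ^ (13 / 200 : ℝ) ≤ c / 8 := by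
    have h1 := hJ₆ J (by omega)
    refine le_trans ?_ h1
    have hp : (0 : ℝ) < (J : ℝ) ^ (13 / 200 : ℝ) := by positivity
    have e2 : (J : ℝ) ^ (13 / 200 : ℝ) ≤ (J : ℝ) ^ 2 := by
      calc (J : ℝ) ^ (13 / 200 : ℝ) ≤ (J : ℝ) ^ (2 : ℝ) :=
            Real.rpow_le_rpow_of_exponent_le hJge1 (by norm_num)
        _ = (J : ℝ) ^ 2 := by norm_cast
    have e3 : (J : ℝ) ^ (13 / 200 : ℝ) ≤ (J : ℝ) ^ 3 := by
      calc (J : ℝ) ^ (13 / 200 : ℝ) ≤ (J : ℝ) ^ (3 : ℝ) :=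
            Real.rpow_le_rpow_of_exponent_le hJge1 (by norm_num)
        _ = (J : ℝ) ^ 3 := by norm_cast
    rw [hD, add_div, add_div]
    have s1 : 1 / (J : ℝ) ^ 2 ≤ 1 / (J : ℝ) ^ (13 / 200 : ℝ) :=
      one_div_le_one_div_of_le hp e2
    have s2 : 4 * (1 / θ + 1) ^ 2 * C₆ / (J : ℝ) ^ 3
        ≤ 4 * (1 / θ + 1) ^ 2 * C₆ / (J : ℝ) ^ (13 / 200 : ℝ) :=
      div_le_div_of_nonneg_left (by positivity) hp e3
    linarith
  have hRlow : c / 2 * X ≤ R.card := by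
    have hs : X * (1 / (J : ℝ) ^ 2) + X * (4 * (1 / θ + 1) ^ 2 * C₆ / (J : ℝ) ^ 3)
      + X * (c / 8) + X * (c / 8) + X * (c / 8 + M / (J : ℝ) ^ (13 / 200 : ℝ)) ≤ X * (c / 2) := by
      have : X * (1 / (J : ℝ) ^ 2) + X * (4 * (1 / θ + 1) ^ 2 * C₆ / (J : ℝ) ^ 3)
        + X * (c / 8) + X * (c / 8) + X * (c / 8 + M / (J : ℝ) ^ (13 / 200 : ℝ))
        = X * ((1 / (J : ℝ) ^ 2 + 4 * (1 / θ + 1) ^ 2 * C₆ / (J : ℝ) ^ 3
          + M / (J : ℝ) ^ (13 / 200 : ℝ)) + 3 * (c / 8)) := by ring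
      rw [this]
      apply mul_le_mul_of_nonneg_left _ hXpos.le
      linarith
    nlinarith
  have hGlow : c / 2 * X ≤ G.card := hRlow.trans (by exact_mod_cast hRG)
  refine le_trans ?_ hGlow
  calc c * κ / (2 * Θ) * 2 ^ J = c / 2 * (κ / Θ * 2 ^ J) := by ring
    _ ≤ c / 2 * (K / J * 2 ^ J) := by gcongr
    _ = c / 2 * X := by rw [hX]; ring

end Pool.Agent.PnMn
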