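import Mathlib
import Pool.Agent.PnMn.Defs

set_option autoImplicit false

/-!
# T-F: exceptional moduli

`CharBounds` implies `GoodModuli`.
-/

namespace Pool.Agent.PnMn

open Filter Topology DirichletCharacter

/-- A crude bound for `ζ(1+η)` for small `η > 0`. -/
lemma zeta_bound_near_one : ∃ ε : ℝ, 0 < ε ∧ ∀ η : ℝ, 0 < η → η < ε →
    ‖riemannZeta ((1 + η : ℝ) : ℂ)‖ ≤ 2 / η := by
  have h := riemannZeta_residue_one
  rw [Metric.tendsto_nhdsWithin_nhds] at h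
  obtain ⟨ε, hε, h⟩ := h 1 one_pos
  refine ⟨ε, hε, fun η h0 h1 => ?_⟩
  have h2 := @h ((1 + η : ℝ) : ℂ) ?_ ?_
  · rw [dist_eq_norm] at h2
    have h3 : ‖(((1 + η : ℝ) : ℂ) - 1) * riemannZeta ((1 + η : ℝ) : ℂ)‖ ≤ 2 := by
      calc ‖(((1 + η : ℝ) : ℂ) - 1) * riemannZeta ((1 + η : ℝ) : ℂ)‖
          = ‖((((1 + η : ℝ) : ℂ) - 1) * riemannZeta ((1 + η : ℝ) : ℂ) - 1) + 1‖ := by ring_nf
        _ ≤ ‖(((1 + η : ℝ) : ℂ) - 1) * riemannZeta ((1 + η : ℝ) : ℂ) - 1‖ + ‖(1 : ℂ)‖ :=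
            norm_add_le _ _
        _ ≤ 1 + 1 := by
            rw [norm_one]
            linarith
        _ = 2 := by norm_num
    have h4 : (((1 + η : ℝ) : ℂ) - 1) = (η : ℂ) := by
      push_cast
      ring
    rw [h4, norm_mul, Complex.norm_real, Real.norm_of_nonneg h0.le] at h3
    rw [le_div_iff₀ h0]
    linarith
  · simp only [Set.mem_compl_iff, Set.mem_singleton_iff]
    intro hc
    have : (1 + η : ℝ) = 1 := by exact_mod_cast hc
    linarith
  · rw [dist_eq_norm]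
    have h4 : (((1 + η : ℝ) : ℂ) - 1) = (η : ℂ) := by
      push_cast
      ring
    rw [h4, Complex.norm_real, Real.norm_of_nonneg h0.le]
    exact h1

/-- Products of factors of norm at least one have norm at least one. -/
lemma one_le_norm_of_hasProd {ι : Type*} {f : ι → ℂ} {a : ℂ} (h : HasProd f a)
    (h1 : ∀ i, 1 ≤ ‖f i‖) : 1 ≤ ‖a‖ := by
  have h2 : Tendsto (fun s : Finset ι => ‖∏ b ∈ s, f b‖) atTop (𝓝 ‖a‖) := by
    have h3 : Tendsto (fun s : Finset ι => ∏ b ∈ s, f b) atTop (𝓝 a) := by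
      simpa [HasProd] using h
    exact h3.norm
  refine ge_of_tendsto' h2 (fun s => ?_)
  rw [norm_prod]
  calc (1 : ℝ) = ∏ _i ∈ s, (1 : ℝ) := by simp
    _ ≤ ∏ i ∈ s, ‖f i‖ := Finset.prod_le_prod (fun _ _ => zero_le_one) (fun i _ => h1 i)

/-- The value at a natural number of the product of two characters with different moduli. -/
lemma changeLevel_mul_natCast {k₁ k₂ : ℕ}
    (χ₁ : DirichletCharacter ℂ k₁) (χ₂ : DirichletCharacter ℂ k₂) (n : ℕ) :
    (changeLevel (k₁.dvd_mul_right k₂) χ₁ * changeLevel (k₂.dvd_mul_left k₁) χ₂)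
      ((n : ℕ) : ZMod (k₁ * k₂)) = χ₁ (n : ZMod k₁) * χ₂ (n : ZMod k₂) := by
  by_cases hn : n.Coprime (k₁ * k₂)
  · have hn' : IsCoprime (n : ℤ) ((k₁ * k₂ : ℕ) : ℤ) := Nat.isCoprime_iff_coprime.mpr hn
    have e1 := changeLevel_eq_cast_of_dvd' χ₁ (k₁.dvd_mul_right k₂) hn'
    have e2 := changeLevel_eq_cast_of_dvd' χ₂ (k₂.dvd_mul_left k₁) hn'
    rw [Int.cast_natCast, Int.cast_natCast] at e1 e2
    rw [MulChar.mul_apply, e1, e2]
  · have h1 : ¬ IsUnit ((n : ℕ) : ZMod (k₁ * k₂)) := by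
      rw [ZMod.isUnit_iff_coprime]
      exact hn
    rw [MulChar.map_nonunit _ h1]
    rw [Nat.coprime_mul_iff_right, not_and_or] at hn
    rcases hn with hn | hn
    · have h2 : ¬ IsUnit ((n : ℕ) : ZMod k₁) := by
        rw [ZMod.isUnit_iff_coprime]
        exact hn
      rw [MulChar.map_nonunit _ h2, zero_mul]
    · have h2 : ¬ IsUnit ((n : ℕ) : ZMod k₂) := by
        rw [ZMod.isUnit_iff_coprime]
        exact hn
      rw [MulChar.map_nonunit _ h2, mul_zero]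

/-- The values of a quadratic character. -/
lemma quadratic_values {k : ℕ} {χ : DirichletCharacter ℂ k} (h : χ ^ 2 = 1) (a : ZMod k) :
    χ a = 0 ∨ χ a = 1 ∨ χ a = -1 :=
  (MulChar.isQuadratic_iff_sq_eq_one.mpr h) a

/-- A local factor inequality. -/
lemma local_factor {a : ℝ} (h0 : 0 < a) (h1 : a < 1) {e₁ e₂ : ℂ}
    (he₁ : e₁ = 0 ∨ e₁ = 1 ∨ e₁ = -1) (he₂ : e₂ = 0 ∨ e₂ = 1 ∨ e₂ = -1) :
    1 ≤ ‖(1 - (a : ℂ))⁻¹ * (1 - e₁ * a)⁻¹ * (1 - e₂ * a)⁻¹ * (1 - e₁ * e₂ * a)⁻¹‖ := by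
  have key : ∀ x : ℝ, 0 < x → x ≤ 1 → 1 ≤ ‖((x : ℂ))⁻¹‖ := by
    intro x hx hx1
    rw [norm_inv, Complex.norm_real, Real.norm_of_nonneg hx.le]
    exact (one_le_inv₀ hx).mpr hx1
  have h1a : (0 : ℝ) < 1 - a := by linarith
  have h1b : (0 : ℝ) < 1 + a := by linarith
  have haa : 0 < (1 - a) * (1 + a) := mul_pos h1a h1b
  have haa1 : (1 - a) * (1 + a) ≤ 1 := by nlinarith
  have h1a1 : 1 - a ≤ 1 := by linarith
  rcases he₁ with rfl | rfl | rfl <;> rcases he₂ with rfl | rfl | rfl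
  · have := key (1 - a) h1a h1a1
    convert this using 2
    push_cast
    simp
  · have := key ((1 - a) * (1 - a)) (mul_pos h1a h1a) (by nlinarith)
    convert this using 2
    push_cast
    simp
  · have := key ((1 - a) * (1 + a)) haa haa1
    convert this using 2
    push_cast
    simp [mul_comm]
  · have := key ((1 - a) * (1 - a)) (mul_pos h1a h1a) (by nlinarith)
    convert this using 2
    push_cast
    simp
  · have h3 : (1 - a) * (1 - a) ≤ 1 := by nlinarith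
    have := key ((1 - a) * (1 - a) * ((1 - a) * (1 - a))) (by positivity)
      (mul_le_one₀ h3 (by positivity) h3)
    convert this using 2
    push_cast
    simp only [one_mul, mul_inv]
    ring
  · have := key ((1 - a) * (1 + a) * ((1 - a) * (1 + a))) (by positivity)
      (mul_le_one₀ haa1 (by positivity) haa1)
    convert this using 2
    push_cast
    simp only [one_mul, neg_mul, sub_neg_eq_add, mul_inv]
    ring
  · have := key ((1 - a) * (1 + a)) haa haa1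
    convert this using 2
    push_cast
    simp [mul_comm]
  · have := key ((1 - a) * (1 + a) * ((1 - a) * (1 + a))) (by positivity)
      (mul_le_one₀ haa1 (by positivity) haa1)
    convert this using 2
    push_cast
    simp only [one_mul, neg_mul, mul_one, sub_neg_eq_add, mul_inv]
    ring
  · have := key ((1 - a) * (1 + a) * ((1 - a) * (1 + a))) (by positivity)
      (mul_le_one₀ haa1 (by positivity) haa1)
    convert this using 2
    push_cast
    simp only [one_mul, neg_mul, mul_neg, neg_neg, mul_one, sub_neg_eq_add, mul_inv]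
    ring

/-- The repulsion inequality: `ζ L(χ₁) L(χ₂) L(χ₁χ₂) ≥ 1`. -/
lemma repulsion {k₁ k₂ : ℕ} [NeZero k₁] [NeZero k₂]
    (χ₁ : DirichletCharacter ℂ k₁) (χ₂ : DirichletCharacter ℂ k₂)
    (h1 : χ₁ ^ 2 = 1) (h2 : χ₂ ^ 2 = 1) {s : ℝ} (hs : 1 < s) :
    haveI : NeZero (k₁ * k₂) := ⟨Nat.mul_ne_zero (NeZero.ne k₁) (NeZero.ne k₂)⟩
    1 ≤ ‖riemannZeta (s : ℂ)‖ * ‖χ₁.LFunction (s : ℂ)‖ * ‖χ₂.LFunction (s : ℂ)‖ *
      ‖(changeLevel (k₁.dvd_mul_right k₂) χ₁ * changeLevel (k₂.dvd_mul_left k₁) χ₂).LFunction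
        (s : ℂ)‖ := by
  haveI : NeZero (k₁ * k₂) := ⟨Nat.mul_ne_zero (NeZero.ne k₁) (NeZero.ne k₂)⟩
  have hs' : 1 < (s : ℂ).re := by simpa using hs
  set χ := changeLevel (k₁.dvd_mul_right k₂) χ₁ * changeLevel (k₂.dvd_mul_left k₁) χ₂ with hχ
  have P0 := riemannZeta_eulerProduct_hasProd hs'
  have P1 := χ₁.LSeries_eulerProduct_hasProd hs'
  have P2 := χ₂.LSeries_eulerProduct_hasProd hs'
  have P3 := χ.LSeries_eulerProduct_hasProd hs'
  have P := ((P0.mul P1).mul P2).mul P3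
  have hP := one_le_norm_of_hasProd P (fun p => ?_)
  · rw [norm_mul, norm_mul, norm_mul] at hP
    rw [χ₁.LFunction_eq_LSeries hs', χ₂.LFunction_eq_LSeries hs', χ.LFunction_eq_LSeries hs']
    exact hP
  · have hp0 : (0 : ℝ) < (p : ℕ) := by exact_mod_cast p.prop.pos
    have hp1 : (1 : ℝ) < (p : ℕ) := by exact_mod_cast p.prop.one_lt
    have e : (((p : ℕ) : ℂ) ^ (-(s : ℂ))) = ((((p : ℕ) : ℝ) ^ (-s) : ℝ) : ℂ) := by
      rw [Complex.ofReal_cpow hp0.le]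
      push_cast
      rfl
    rw [e]
    have ha0 : (0 : ℝ) < ((p : ℕ) : ℝ) ^ (-s) := Real.rpow_pos_of_pos hp0 _
    have ha1 : ((p : ℕ) : ℝ) ^ (-s) < 1 := Real.rpow_lt_one_of_one_lt_of_neg hp1 (by linarith)
    have hval : χ ((p : ℕ) : ZMod (k₁ * k₂)) = χ₁ ((p : ℕ) : ZMod k₁) * χ₂ ((p : ℕ) : ZMod k₂) :=
      changeLevel_mul_natCast χ₁ χ₂ p
    rw [hval]
    exact local_factor ha0 ha1 (quadratic_values h1 _) (quadratic_values h2 _)

/-- The `L`-function of the principal character is bounded by the zeta function. -/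
lemma norm_trivChar_le {k : ℕ} [NeZero k] {s : ℝ} (hs : 1 < s) :
    ‖(1 : DirichletCharacter ℂ k).LFunction (s : ℂ)‖ ≤ ‖riemannZeta (s : ℂ)‖ := by
  have hs1 : (s : ℂ) ≠ 1 := by
    intro hc
    have : s = 1 := by exact_mod_cast hc
    linarith
  have e := LFunctionTrivChar_eq_mul_riemannZeta (N := k) hs1
  rw [LFunctionTrivChar] at e
  rw [e, norm_mul]
  refine mul_le_of_le_one_left (norm_nonneg _) ?_
  rw [norm_prod]
  refine Finset.prod_le_one (fun _ _ => norm_nonneg _) (fun p hp => ?_)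
  have hpp := Nat.prime_of_mem_primeFactors hp
  have hp0 : (0 : ℝ) < (p : ℕ) := by exact_mod_cast hpp.pos
  have hp1 : (1 : ℝ) < (p : ℕ) := by exact_mod_cast hpp.one_lt
  have e : ((p : ℂ) ^ (-(s : ℂ))) = (((p : ℝ) ^ (-s) : ℝ) : ℂ) := by
    rw [Complex.ofReal_cpow hp0.le]
    push_cast
    rfl
  rw [e]
  have ha0 : (0 : ℝ) < (p : ℝ) ^ (-s) := Real.rpow_pos_of_pos hp0 _
  have ha1 : (p : ℝ) ^ (-s) < 1 := Real.rpow_lt_one_of_one_lt_of_neg hp1 (by linarith)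
  rw [← Complex.ofReal_one, ← Complex.ofReal_sub, Complex.norm_real, Real.norm_of_nonneg]
  · linarith
  · linarith

/-- Comparison of the values at `1 + δ` and `1 + η`. -/
lemma LFunction_sub_le {k : ℕ} [NeZero k] {χ : DirichletCharacter ℂ k} (hχ : χ ≠ 1) {B δ η : ℝ}
    (hB : ∀ s : ℝ, 1 < s → s ≤ 2 → ‖deriv χ.LFunction (s : ℂ)‖ ≤ B)
    (hδ0 : 0 < δ) (hδη : δ ≤ η) (hη : η ≤ 1) :
    ‖χ.LFunction ((1 + η : ℝ) : ℂ)‖ ≤ ‖χ.LFunction ((1 + δ : ℝ) : ℂ)‖ + B * η := by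
  have hB0 : 0 ≤ B := le_trans (norm_nonneg _) (hB 2 (by norm_num) (by norm_num))
  have hconv : Convex ℝ ((fun t : ℝ => (t : ℂ)) '' Set.Icc (1 + δ) (1 + η)) := by
    have := (convex_Icc (𝕜 := ℝ) (1 + δ) (1 + η)).linear_image
      (Complex.ofRealCLM : ℝ →L[ℝ] ℂ).toLinearMap
    exact this
  have h := hconv.norm_image_sub_le_of_norm_deriv_le (𝕜 := ℂ) (f := χ.LFunction) (C := B)
    (x := ((1 + δ : ℝ) : ℂ)) (y := ((1 + η : ℝ) : ℂ))
    (fun x _ => (differentiable_LFunction hχ) x)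
    (by
      rintro x ⟨t, ht, rfl⟩
      exact hB t (by linarith [ht.1]) (by linarith [ht.2]))
    ⟨1 + δ, ⟨le_rfl, by linarith⟩, rfl⟩ ⟨1 + η, ⟨by linarith, le_rfl⟩, rfl⟩
  have h2 : ‖((1 + η : ℝ) : ℂ) - ((1 + δ : ℝ) : ℂ)‖ ≤ η := by
    rw [← Complex.ofReal_sub, Complex.norm_real, Real.norm_eq_abs, abs_le]
    constructor <;> linarith
  calc ‖χ.LFunction ((1 + η : ℝ) : ℂ)‖
      = ‖χ.LFunction ((1 + δ : ℝ) : ℂ) +
          (χ.LFunction ((1 + η : ℝ) : ℂ) - χ.LFunction ((1 + δ : ℝ) : ℂ))‖ := by ring_nf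
    _ ≤ ‖χ.LFunction ((1 + δ : ℝ) : ℂ)‖ +
          ‖χ.LFunction ((1 + η : ℝ) : ℂ) - χ.LFunction ((1 + δ : ℝ) : ℂ)‖ := norm_add_le _ _
    _ ≤ ‖χ.LFunction ((1 + δ : ℝ) : ℂ)‖ + B * η := by
        have := mul_le_mul_of_nonneg_left h2 hB0
        linarith

lemma char_mod_two {d : ℕ} (hd : d = 2) (χ₀ : DirichletCharacter ℂ d) : χ₀ = 1 := by
  subst hd
  ext a
  have : a = 1 := by
    revert a
    decide
  rw [this]
  simp

/-- There is no nontrivial character mod `2`. -/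
lemma conductor_ne_two {k : ℕ} [NeZero k] {χ : DirichletCharacter ℂ k} (hχ : χ ≠ 1) :
    χ.conductor ≠ 2 := by
  intro h
  apply hχ
  obtain ⟨hd, χ₀, h0⟩ := factorsThrough_conductor χ
  have h1 : χ₀ = 1 := char_mod_two h χ₀
  rw [h0, h1, map_one]

lemma three_le_conductor {k : ℕ} [NeZero k] {χ : DirichletCharacter ℂ k} (hχ : χ ≠ 1) :
    3 ≤ χ.conductor := by
  have h0 : χ.conductor ≠ 0 := conductor_ne_zero χ
  have h1 : χ.conductor ≠ 1 := fun h => hχ (eq_one_iff_conductor_eq_one.mpr h)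
  have h2 : χ.conductor ≠ 2 := conductor_ne_two hχ
  omega

/-- Counting the non-multiples of `D ≥ 3` in `(K/2, K]`. -/
lemma card_nonmultiples {K D : ℕ} (hD : 3 ≤ D) (hK : 14 ≤ K) :
    (K : ℝ) / 4 ≤ (((Finset.Ioc (K / 2) K).filter (fun k => ¬ D ∣ k)).card : ℝ) := by
  have h1 : ((Finset.Ioc (K / 2) K).filter (fun k => D ∣ k)).card
      + ((Finset.Ioc (K / 2) K).filter (fun k => ¬ D ∣ k)).card = K - K / 2 := by
    rw [Finset.card_filter_add_card_filter_not, Nat.card_Ioc]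
  have h2 : ((Finset.Ioc (K / 2) K).filter (fun k => D ∣ k)).card
      + ((Finset.Ioc 0 (K / 2)).filter (fun k => D ∣ k)).card
      = ((Finset.Ioc 0 K).filter (fun k => D ∣ k)).card := by
    rw [← Finset.card_union_of_disjoint]
    · congr 1
      ext x
      simp only [Finset.mem_union, Finset.mem_filter, Finset.mem_Ioc]
      constructor
      · rintro (⟨⟨h1, h2⟩, h3⟩ | ⟨⟨h1, h2⟩, h3⟩)
        · exact ⟨⟨by omega, h2⟩, h3⟩
        · exact ⟨⟨h1, by omega⟩, h3⟩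
      · rintro ⟨⟨h1, h2⟩, h3⟩
        by_cases hx : x ≤ K / 2
        · exact Or.inr ⟨⟨h1, hx⟩, h3⟩
        · exact Or.inl ⟨⟨by omega, h2⟩, h3⟩
    · rw [Finset.disjoint_left]
      intro x hx hx'
      simp only [Finset.mem_filter, Finset.mem_Ioc] at hx hx'
      omega
  rw [Nat.Ioc_filter_dvd_card_eq_div, Nat.Ioc_filter_dvd_card_eq_div] at h2
  set A := ((Finset.Ioc (K / 2) K).filter (fun k => D ∣ k)).card
  set B := ((Finset.Ioc (K / 2) K).filter (fun k => ¬ D ∣ k)).card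
  have hD0 : 0 < D := by omega
  have h3 : D * (K / D) ≤ K := Nat.mul_div_le K D
  have h4 : K / 2 < D * (K / 2 / D) + D := by
    have := Nat.lt_mul_div_succ (K / 2) hD0
    rw [Nat.mul_add] at this
    linarith
  have h5 : D * A + D * (K / 2 / D) = D * (K / D) := by
    rw [← h2]
    ring
  have h6 : D * A < K - K / 2 + D := by omega
  have h7 : A ≤ (K - K / 2) / 3 + 1 := by
    by_contra hc
    have h8 : (K - K / 2) / 3 + 2 ≤ A := by omega
    have h9 : (K - K / 2) / 3 + 1 ≤ A - 1 := by omega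
    have h10 : D * (A - 1) < K - K / 2 := by
      have : D * (A - 1) + D = D * A := by
        have : A = (A - 1) + 1 := by omega
        conv_rhs => rw [this]
        ring
      omega
    have h11 : 3 * (A - 1) ≤ D * (A - 1) := Nat.mul_le_mul_right _ hD
    omega
  have h12 : K ≤ 4 * B := by omega
  have : (K : ℝ) ≤ 4 * (B : ℝ) := by exact_mod_cast h12
  linarith

/-- **T-F**: `CharBounds` implies `GoodModuli`. -/
theorem goodModuli (hCB : CharBounds) : GoodModuli := by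
  obtain ⟨C₀, hC₀, hCB⟩ := hCB
  -- enlarge the constant
  obtain ⟨C, hC1, hCC⟩ : ∃ C : ℝ, 1 ≤ C ∧ C₀ ≤ C := ⟨max 1 C₀, le_max_left _ _, le_max_right _ _⟩
  obtain ⟨ε, hε, hζ⟩ := zeta_bound_near_one
  -- choice of `K₀`
  have hlogT : Tendsto (fun K : ℕ => Real.log (K : ℝ)) atTop atTop :=
    Real.tendsto_log_atTop.comp tendsto_natCast_atTop_atTop
  have ev1 : ∀ᶠ K : ℕ in atTop, 8 * C * (1 + C) ^ 4 < Real.log K := hlogT.eventually_gt_atTop _
  have ev2 : ∀ᶠ K : ℕ in atTop, 1 / ε < Real.log K := hlogT.eventually_gt_atTop _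
  have ev3 : ∀ᶠ K : ℕ in atTop, (Real.log K) ^ 10 ≤ K := by
    have h1 : ∀ᶠ x : ℝ in atTop, Real.log x ^ 10 ≤ x := by
      have h := (Real.isLittleO_pow_log_id_atTop (n := 10)).bound (c := 1) one_pos
      filter_upwards [h, eventually_ge_atTop (1 : ℝ)] with x hx hx1
      simp only [id, one_mul, Real.norm_eq_abs] at hx
      calc Real.log x ^ 10 ≤ |Real.log x ^ 10| := le_abs_self _
        _ ≤ |x| := hx
        _ = x := abs_of_nonneg (by linarith)
    exact tendsto_natCast_atTop_atTop.eventually h1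
  have ev4 : ∀ᶠ K : ℕ in atTop, 14 ≤ K := eventually_ge_atTop 14
  obtain ⟨K₀, hK₀⟩ := eventually_atTop.mp (ev1.and (ev2.and (ev3.and ev4)))
  refine ⟨K₀, fun K hK δ hδ0 hδ1 => ?_⟩
  obtain ⟨hx1, hx2, hx3, hK14⟩ := hK₀ K hK
  have hCpow : (1 : ℝ) ≤ (1 + C) ^ 4 := one_le_pow₀ (by linarith)
  obtain ⟨x, hx⟩ : ∃ x : ℝ, x = Real.log K := ⟨_, rfl⟩
  rw [← hx] at hx1 hx2 hx3
  have hxC : 8 * C ≤ 8 * C * (1 + C) ^ 4 := le_mul_of_one_le_right (by linarith) hCpow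
  have hx8 : 8 < x := by linarith
  have hx0 : 0 < x := by linarith
  obtain ⟨η, hη⟩ : ∃ η : ℝ, η = 1 / x ^ 10 := ⟨_, rfl⟩
  have hη0 : 0 < η := by rw [hη]; positivity
  have hx10 : x ≤ x ^ 10 := by
    calc x = x ^ 1 := (pow_one x).symm
      _ ≤ x ^ 10 := pow_le_pow_right₀ (by linarith) (by norm_num)
  have hη1 : η ≤ 1 := by
    rw [hη, div_le_one (by positivity)]
    linarith
  have hηε : η < ε := by
    have h1 : η ≤ 1 / x := by
      rw [hη]
      exact one_div_le_one_div_of_le hx0 hx10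
    have h2 : 1 / x < ε := by
      rw [div_lt_iff₀ hx0]
      rw [div_lt_iff₀ hε] at hx2
      linarith
    linarith
  have hK0 : (0 : ℝ) < K := by
    have : 0 < K := by omega
    exact_mod_cast this
  have hδη : δ ≤ η := by
    rw [hη]
    refine hδ1.trans (one_div_le_one_div_of_le (by positivity) hx3)
  -- the value at `1 + η` of a bad `L`-function
  have hsmall : ∀ (k : ℕ) [NeZero k], k ∈ Finset.Ioc (K / 2) K → ∀ χ : DirichletCharacter ℂ k,
      χ ≠ 1 → ‖χ.LFunction ((1 + δ : ℝ) : ℂ)‖ < 1 / x ^ 8 →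
      ‖χ.LFunction ((1 + η : ℝ) : ℂ)‖ ≤ (1 + C) / x ^ 8 := by
    intro k _ hk χ hχ hbad
    rw [Finset.mem_Ioc] at hk
    have hk3 : 3 ≤ k := by omega
    have hkpos : (0 : ℝ) < k := by
      have : 0 < k := by omega
      exact_mod_cast this
    have hlogk : Real.log k ≤ x := by
      rw [hx]
      exact Real.log_le_log hkpos (by exact_mod_cast hk.2)
    have hlogk0 : 0 ≤ Real.log k := Real.log_nonneg (by
      have : 1 ≤ k := by omega
      exact_mod_cast this)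
    have hB : ∀ s : ℝ, 1 < s → s ≤ 2 → ‖deriv χ.LFunction (s : ℂ)‖ ≤ C * x ^ 2 := by
      intro s hs1 hs2
      refine (hCB k hk3 χ hχ s hs1 hs2).2.1.trans ?_
      have : Real.log k ^ 2 ≤ x ^ 2 := pow_le_pow_left₀ hlogk0 hlogk 2
      exact mul_le_mul hCC this (by positivity) (by linarith)
    have h1 := LFunction_sub_le hχ hB hδ0 hδη hη1
    have h2 : C * x ^ 2 * η = C / x ^ 8 := by
      rw [hη]
      field_simp
    rw [h2] at h1
    rw [add_div]
    linarith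
  have hzeta : ‖riemannZeta ((1 + η : ℝ) : ℂ)‖ ≤ 2 * x ^ 10 := by
    have h1 := hζ η hη0 hηε
    have h2 : 2 / η = 2 * x ^ 10 := by
      rw [hη]
      field_simp
    rwa [h2] at h1
  have h1η : (1 : ℝ) < 1 + η := by linarith
  have h1η2 : 1 + η ≤ 2 := by linarith
  -- (a) bad characters are quadratic
  have hquad : ∀ (k : ℕ) [NeZero k], k ∈ Finset.Ioc (K / 2) K → ∀ χ : DirichletCharacter ℂ k,
      χ ≠ 1 → ‖χ.LFunction ((1 + δ : ℝ) : ℂ)‖ < 1 / x ^ 8 → χ ^ 2 = 1 := by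
    intro k _ hk χ hχ hbad
    by_contra hχ2
    have hs := hsmall k hk χ hχ hbad
    rw [Finset.mem_Ioc] at hk
    have hk3 : 3 ≤ k := by omega
    have hkpos : (0 : ℝ) < k := by
      have : 0 < k := by omega
      exact_mod_cast this
    have hlogk : Real.log k ≤ x := by
      rw [hx]
      exact Real.log_le_log hkpos (by exact_mod_cast hk.2)
    have hlogk0 : 0 ≤ Real.log k := Real.log_nonneg (by
      have : 1 ≤ k := by omega
      exact_mod_cast this)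
    have h2 : ‖(χ ^ 2).LFunction ((1 + η : ℝ) : ℂ)‖ ≤ C * x := by
      refine (hCB k hk3 (χ ^ 2) hχ2 (1 + η) h1η h1η2).1.trans ?_
      exact mul_le_mul hCC hlogk hlogk0 (by linarith)
    have h3 := (norm_trivChar_le (k := k) h1η).trans hzeta
    have h4 := χ.norm_LFunction_product_ge_one hη0 0
    have e1 : (1 : ℂ) + (η : ℂ) = ((1 + η : ℝ) : ℂ) := by push_cast; rfl
    simp only [Complex.ofReal_zero, mul_zero, add_zero] at h4
    rw [e1, norm_mul, norm_mul, norm_pow, norm_pow] at h4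
    have h5 : ‖(1 : DirichletCharacter ℂ k).LFunction ((1 + η : ℝ) : ℂ)‖ ^ 3 *
        ‖χ.LFunction ((1 + η : ℝ) : ℂ)‖ ^ 4 * ‖(χ ^ 2).LFunction ((1 + η : ℝ) : ℂ)‖
        ≤ (2 * x ^ 10) ^ 3 * ((1 + C) / x ^ 8) ^ 4 * (C * x) := by
      gcongr
    have h6 : (2 * x ^ 10) ^ 3 * ((1 + C) / x ^ 8) ^ 4 * (C * x) = 8 * C * (1 + C) ^ 4 / x := by
      field_simp
      ring
    have h7 : 8 * C * (1 + C) ^ 4 / x < 1 := by
      rw [div_lt_one hx0]
      exact hx1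
    linarith [h4, h5, h6, h7]
  -- (b) repulsion
  have hrep : ∀ (k₁ k₂ : ℕ) [NeZero k₁] [NeZero k₂], k₁ ∈ Finset.Ioc (K / 2) K →
      k₂ ∈ Finset.Ioc (K / 2) K → ∀ (χ₁ : DirichletCharacter ℂ k₁) (χ₂ : DirichletCharacter ℂ k₂),
      χ₁ ≠ 1 → χ₂ ≠ 1 → ‖χ₁.LFunction ((1 + δ : ℝ) : ℂ)‖ < 1 / x ^ 8 →
      ‖χ₂.LFunction ((1 + δ : ℝ) : ℂ)‖ < 1 / x ^ 8 →
      changeLevel (k₁.dvd_mul_right k₂) χ₁ * changeLevel (k₂.dvd_mul_left k₁) χ₂ = 1 := by
    intro k₁ k₂ _ _ hk₁ hk₂ χ₁ χ₂ hχ₁ hχ₂ hb₁ hb₂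
    by_contra hne
    have hq₁ := hquad k₁ hk₁ χ₁ hχ₁ hb₁
    have hq₂ := hquad k₂ hk₂ χ₂ hχ₂ hb₂
    have hs₁ := hsmall k₁ hk₁ χ₁ hχ₁ hb₁
    have hs₂ := hsmall k₂ hk₂ χ₂ hχ₂ hb₂
    rw [Finset.mem_Ioc] at hk₁ hk₂
    haveI : NeZero (k₁ * k₂) := ⟨Nat.mul_ne_zero (NeZero.ne k₁) (NeZero.ne k₂)⟩
    have hk3 : 3 ≤ k₁ * k₂ := by
      have h1 : 3 ≤ k₁ := by omega
      have h2 : 1 ≤ k₂ := by omega
      calc 3 = 3 * 1 := rfl
        _ ≤ k₁ * k₂ := Nat.mul_le_mul h1 h2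
    have hpos₁ : (0 : ℝ) < k₁ := by
      have : 0 < k₁ := by omega
      exact_mod_cast this
    have hpos₂ : (0 : ℝ) < k₂ := by
      have : 0 < k₂ := by omega
      exact_mod_cast this
    have hl₁ : Real.log k₁ ≤ x := by
      rw [hx]
      exact Real.log_le_log hpos₁ (by exact_mod_cast hk₁.2)
    have hl₂ : Real.log k₂ ≤ x := by
      rw [hx]
      exact Real.log_le_log hpos₂ (by exact_mod_cast hk₂.2)
    have hlog : Real.log ((k₁ * k₂ : ℕ) : ℝ) ≤ 2 * x := by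
      rw [Nat.cast_mul, Real.log_mul hpos₁.ne' hpos₂.ne']
      linarith
    have hlog0 : 0 ≤ Real.log ((k₁ * k₂ : ℕ) : ℝ) := Real.log_nonneg (by
      have : 1 ≤ k₁ * k₂ := by omega
      exact_mod_cast this)
    have h12 := (hCB (k₁ * k₂) hk3 _ hne (1 + η) h1η h1η2).1
    have h12' : ‖(changeLevel (k₁.dvd_mul_right k₂) χ₁ *
        changeLevel (k₂.dvd_mul_left k₁) χ₂).LFunction ((1 + η : ℝ) : ℂ)‖ ≤ C * (2 * x) := by
      refine h12.trans ?_
      exact mul_le_mul hCC hlog hlog0 (by linarith)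
    have hR := repulsion χ₁ χ₂ hq₁ hq₂ h1η
    have h5 : ‖riemannZeta ((1 + η : ℝ) : ℂ)‖ * ‖χ₁.LFunction ((1 + η : ℝ) : ℂ)‖ *
        ‖χ₂.LFunction ((1 + η : ℝ) : ℂ)‖ * ‖(changeLevel (k₁.dvd_mul_right k₂) χ₁ *
        changeLevel (k₂.dvd_mul_left k₁) χ₂).LFunction ((1 + η : ℝ) : ℂ)‖
        ≤ (2 * x ^ 10) * ((1 + C) / x ^ 8) * ((1 + C) / x ^ 8) * (C * (2 * x)) := by
      gcongr
    have h6 : (2 * x ^ 10) * ((1 + C) / x ^ 8) * ((1 + C) / x ^ 8) * (C * (2 * x))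
        = 4 * C * (1 + C) ^ 2 / x ^ 5 := by
      field_simp
      ring
    have h7 : 4 * C * (1 + C) ^ 2 / x ^ 5 < 1 := by
      rw [div_lt_one (by positivity)]
      have h8 : (1 + C) ^ 2 ≤ (1 + C) ^ 4 := pow_le_pow_right₀ (by linarith) (by norm_num)
      have h9 : x ≤ x ^ 5 := by
        calc x = x ^ 1 := (pow_one x).symm
          _ ≤ x ^ 5 := pow_le_pow_right₀ (by linarith) (by norm_num)
      have h10 : 4 * C * (1 + C) ^ 2 ≤ 8 * C * (1 + C) ^ 4 := by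
        have : 4 * C ≤ 8 * C := by linarith
        exact mul_le_mul this h8 (by positivity) (by linarith)
      linarith
    linarith [hR, h5, h6, h7]
  -- the set `S`
  by_cases hbad : ∃ (k : ℕ) (_ : NeZero k) (χ : DirichletCharacter ℂ k),
      k ∈ Finset.Ioc (K / 2) K ∧ χ ≠ 1 ∧ ‖χ.LFunction ((1 + δ : ℝ) : ℂ)‖ < 1 / x ^ 8
  · obtain ⟨k₁, inst₁, χ₁, hk₁, hχ₁, hb₁⟩ := hbad
    refine ⟨(Finset.Ioc (K / 2) K).filter (fun k => ¬ χ₁.conductor ∣ k),
      Finset.filter_subset _ _, card_nonmultiples (three_le_conductor hχ₁) hK14, ?_⟩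
    intro k hk inst χ hχ
    rw [Finset.mem_filter] at hk
    by_contra hlt
    rw [not_le, ← hx] at hlt
    apply hk.2
    have h1 := hrep k₁ k hk₁ hk.1 χ₁ χ hχ₁ hχ hb₁ hlt
    have h2 : χ ^ 2 = 1 := hquad k hk.1 χ hχ hlt
    have h3 : changeLevel (k.dvd_mul_left k₁) χ * changeLevel (k.dvd_mul_left k₁) χ = 1 := by
      rw [← map_mul, ← pow_two, h2, map_one]
    have h4 : changeLevel (k₁.dvd_mul_right k) χ₁ = changeLevel (k.dvd_mul_left k₁) χ :=
      mul_right_cancel (h1.trans h3.symm)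
    have h5 := factorsThrough_gcd χ₁ χ h4
    exact (conductor_dvd_of_mem_conductorSet χ₁ h5).trans (Nat.gcd_dvd_right _ _)
  · refine ⟨Finset.Ioc (K / 2) K, subset_rfl, ?_, ?_⟩
    · rw [Nat.card_Ioc]
      have h1 : K ≤ 4 * (K - K / 2) := by omega
      have h2 : (K : ℝ) ≤ 4 * ((K - K / 2 : ℕ) : ℝ) := by exact_mod_cast h1
      linarith
    · intro k hk inst χ hχ
      by_contra hlt
      rw [not_le, ← hx] at hlt
      exact hbad ⟨k, inst, χ, hk, hχ, hlt⟩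

end Pool.Agent.PnMn
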