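import Mathlib
import Pool.Agent.PnMn.Defs

set_option autoImplicit false

/-!
# T-G: preliminary estimates for the mean square of `1 - L M`
-/

namespace Pool.Agent.PnMn

open Finset DirichletCharacter

namespace LDS

/-- Harmonic sums. -/
noncomputable def H (n : ℕ) : ℝ := ∑ i ∈ Icc 1 n, (1 : ℝ) / i

lemma H_nonneg (n : ℕ) : 0 ≤ H n := Finset.sum_nonneg (fun _ _ => by positivity)

lemma H_le (n : ℕ) : H n ≤ 1 + Real.log n := by
  have h := harmonic_le_one_add_log n
  rw [harmonic_eq_sum_Icc] at h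
  push_cast at h
  simpa [H] using h

lemma sum_inv_progression (k l X : ℕ) (hk : 0 < k) :
    ∑ l' ∈ (Ioc l X).filter (fun l' => k ∣ l' - l), (1 : ℝ) / l' ≤ H X / k := by
  have hsub : (Ioc l X).filter (fun l' => k ∣ l' - l) ⊆ (Icc 1 X).image (fun c => l + c * k) := by
    intro l' hl'
    rw [mem_filter, mem_Ioc] at hl'
    obtain ⟨⟨h1, h2⟩, c, hc⟩ := hl'
    rw [mem_image]
    refine ⟨c, ?_, ?_⟩
    · rw [mem_Icc]
      constructor
      · rcases Nat.eq_zero_or_pos c with h0 | h0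
        · rw [h0, mul_zero] at hc
          omega
        · exact h0
      · have : c ≤ k * c := Nat.le_mul_of_pos_left c hk
        omega
    · rw [mul_comm c k, ← hc]
      omega
  calc ∑ l' ∈ (Ioc l X).filter (fun l' => k ∣ l' - l), (1 : ℝ) / l'
      ≤ ∑ l' ∈ (Icc 1 X).image (fun c => l + c * k), (1 : ℝ) / l' :=
        Finset.sum_le_sum_of_subset_of_nonneg hsub (fun _ _ _ => by positivity)
    _ = ∑ c ∈ Icc 1 X, (1 : ℝ) / ((l + c * k : ℕ) : ℝ) := by
        rw [Finset.sum_image]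
        intro a _ b _ hab
        have : a * k = b * k := by
          simpa using hab
        exact Nat.eq_of_mul_eq_mul_right hk this
    _ ≤ ∑ c ∈ Icc 1 X, (1 : ℝ) / c / k := by
        refine Finset.sum_le_sum (fun c hc => ?_)
        rw [mem_Icc] at hc
        have hc0 : (0 : ℝ) < c := by exact_mod_cast hc.1
        have hk0 : (0 : ℝ) < k := by exact_mod_cast hk
        rw [div_div]
        apply one_div_le_one_div_of_le (by positivity)
        push_cast
        have : (0 : ℝ) ≤ l := Nat.cast_nonneg l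
        linarith
    _ = H X / k := by rw [H, Finset.sum_div]

lemma sum_inv_multiples (t X : ℕ) (ht : 0 < t) :
    ∑ l ∈ (Icc 1 X).filter (fun l => t ∣ l), (1 : ℝ) / l ≤ H X / t := by
  have h := sum_inv_progression t 0 X ht
  simp only [Nat.sub_zero] at h
  have e : Ioc 0 X = Icc 1 X := by
    ext a
    simp only [mem_Ioc, mem_Icc]
    omega
  rwa [e] at h

/-- `∑_{m,m' ≤ y} 1/lcm(m,m') ≤ H(y)^3`. -/
lemma sum_inv_lcm (y : ℕ) :
    ∑ m ∈ Icc 1 y, ∑ m' ∈ Icc 1 y, (1 : ℝ) / (Nat.lcm m m' : ℕ) ≤ H y ^ 3 := by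
  calc ∑ m ∈ Icc 1 y, ∑ m' ∈ Icc 1 y, (1 : ℝ) / (Nat.lcm m m' : ℕ)
      ≤ ∑ m ∈ Icc 1 y, ∑ m' ∈ Icc 1 y, ∑ d ∈ Icc 1 y,
          (if d ∣ m then (1 : ℝ) / m else 0) * (if d ∣ m' then (1 : ℝ) / m' else 0) * d := by
        refine Finset.sum_le_sum (fun m hm => Finset.sum_le_sum (fun m' hm' => ?_))
        rw [mem_Icc] at hm hm'
        have hg : Nat.gcd m m' ∈ Icc 1 y := by
          rw [mem_Icc]
          exact ⟨Nat.gcd_pos_of_pos_left _ hm.1, (Nat.gcd_le_left _ hm.1).trans hm.2⟩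
        have h1 : (1 : ℝ) / (Nat.lcm m m' : ℕ) =
            (if Nat.gcd m m' ∣ m then (1 : ℝ) / m else 0) *
            (if Nat.gcd m m' ∣ m' then (1 : ℝ) / m' else 0) * (Nat.gcd m m' : ℕ) := by
          rw [if_pos (Nat.gcd_dvd_left _ _), if_pos (Nat.gcd_dvd_right _ _)]
          have h2 : ((Nat.gcd m m' : ℕ) : ℝ) * ((Nat.lcm m m' : ℕ) : ℝ) = m * m' := by
            exact_mod_cast Nat.gcd_mul_lcm m m'
          have hm0 : (0 : ℝ) < m := by exact_mod_cast hm.1
          have hm0' : (0 : ℝ) < m' := by exact_mod_cast hm'.1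
          have hl0 : (0 : ℝ) < ((Nat.lcm m m' : ℕ) : ℝ) := by
            exact_mod_cast Nat.lcm_pos hm.1 hm'.1
          field_simp
          linarith
        rw [h1]
        exact Finset.single_le_sum (f := fun d : ℕ => (if d ∣ m then (1 : ℝ) / m else 0) *
            (if d ∣ m' then (1 : ℝ) / m' else 0) * (d : ℝ)) (fun d _ => by positivity) hg
    _ = ∑ d ∈ Icc 1 y, (∑ m ∈ Icc 1 y, (if d ∣ m then (1 : ℝ) / m else 0)) *
          (∑ m' ∈ Icc 1 y, (if d ∣ m' then (1 : ℝ) / m' else 0)) * d := by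
        rw [Finset.sum_congr rfl (fun m _ => Finset.sum_comm), Finset.sum_comm]
        refine Finset.sum_congr rfl (fun d _ => ?_)
        rw [Finset.sum_mul_sum, Finset.sum_mul]
        refine Finset.sum_congr rfl (fun m _ => ?_)
        rw [Finset.sum_mul]
    _ ≤ ∑ d ∈ Icc 1 y, (H y / d) * (H y / d) * d := by
        refine Finset.sum_le_sum (fun d hd => ?_)
        rw [mem_Icc] at hd
        have h1 : ∑ m ∈ Icc 1 y, (if d ∣ m then (1 : ℝ) / m else 0) ≤ H y / d := by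
          rw [← Finset.sum_filter]
          exact sum_inv_multiples d y hd.1
        have h0 : 0 ≤ ∑ m ∈ Icc 1 y, (if d ∣ m then (1 : ℝ) / m else 0) :=
          Finset.sum_nonneg (fun _ _ => by positivity)
        have h2 : 0 ≤ H y / d := h0.trans h1
        gcongr
    _ = H y ^ 3 := by
        have : ∀ d ∈ Icc 1 y, (H y / d) * (H y / d) * (d : ℝ) = H y ^ 2 * (1 / d) := by
          intro d hd
          rw [mem_Icc] at hd
          have hd0 : (0 : ℝ) < d := by exact_mod_cast hd.1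
          field_simp
        rw [Finset.sum_congr rfl this, ← Finset.mul_sum]
        change H y ^ 2 * H y = H y ^ 3
        ring

/-- Orthogonality, as an inequality. -/
lemma norm_sum_char_mul_conj {k : ℕ} [NeZero k] (a b : ZMod k) :
    ‖∑ χ : DirichletCharacter ℂ k, χ a * (starRingEnd ℂ) (χ b)‖
      ≤ if a = b then (Nat.totient k : ℝ) else 0 := by
  by_cases hb : IsUnit b
  · have h1 : ∀ χ : DirichletCharacter ℂ k, χ a * (starRingEnd ℂ) (χ b) = χ b⁻¹ * χ a := by
      intro χ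
      have h2 : χ b⁻¹ * χ b = 1 := by
        rw [← map_mul, ZMod.inv_mul_of_unit b hb, map_one]
      have h3 : ‖χ b‖ = 1 := χ.unit_norm_eq_one hb.unit
      rw [← Complex.inv_eq_conj h3, ← eq_inv_of_mul_eq_one_left h2, mul_comm]
    rw [Finset.sum_congr rfl (fun χ _ => h1 χ), sum_char_inv_mul_char_eq ℂ hb a]
    by_cases hab : a = b
    · rw [if_pos hab, if_pos hab.symm]
      simp
    · rw [if_neg hab, if_neg (fun h => hab h.symm), norm_zero]
  · have h1 : ∀ χ : DirichletCharacter ℂ k, χ a * (starRingEnd ℂ) (χ b) = 0 := by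
      intro χ
      rw [χ.map_nonunit hb, map_zero, mul_zero]
    rw [Finset.sum_congr rfl (fun χ _ => h1 χ), Finset.sum_const_zero, norm_zero]
    positivity

/-- Mean square bound. -/
lemma mean_square {k : ℕ} [NeZero k] (T : Finset ℕ) (w : ℕ → ℂ) :
    ∑ χ : DirichletCharacter ℂ k, ‖∑ l ∈ T, w l * χ (l : ZMod k)‖ ^ 2
      ≤ (Nat.totient k : ℝ) * ∑ l ∈ T, ∑ l' ∈ T,
        if (l : ZMod k) = (l' : ZMod k) then ‖w l‖ * ‖w l'‖ else 0 := by
  have e1 : ((∑ χ : DirichletCharacter ℂ k, ‖∑ l ∈ T, w l * χ (l : ZMod k)‖ ^ 2 : ℝ) : ℂ)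
      = ∑ l ∈ T, ∑ l' ∈ T, w l * (starRingEnd ℂ) (w l') *
        ∑ χ : DirichletCharacter ℂ k, χ (l : ZMod k) * (starRingEnd ℂ) (χ (l' : ZMod k)) := by
    push_cast
    have e2 : ∀ χ : DirichletCharacter ℂ k,
        ((‖∑ l ∈ T, w l * χ (l : ZMod k)‖ : ℂ)) ^ 2
        = ∑ l ∈ T, ∑ l' ∈ T, w l * (starRingEnd ℂ) (w l') *
          (χ (l : ZMod k) * (starRingEnd ℂ) (χ (l' : ZMod k))) := by
      intro χ
      rw [← Complex.mul_conj', map_sum, Finset.sum_mul_sum]
      refine Finset.sum_congr rfl (fun l _ => Finset.sum_congr rfl (fun l' _ => ?_))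
      rw [map_mul]
      ring
    rw [Finset.sum_congr rfl (fun χ _ => e2 χ), Finset.sum_comm]
    refine Finset.sum_congr rfl (fun l _ => ?_)
    rw [Finset.sum_comm]
    refine Finset.sum_congr rfl (fun l' _ => ?_)
    rw [Finset.mul_sum]
  have e3 : ∑ χ : DirichletCharacter ℂ k, ‖∑ l ∈ T, w l * χ (l : ZMod k)‖ ^ 2
      = ‖((∑ χ : DirichletCharacter ℂ k, ‖∑ l ∈ T, w l * χ (l : ZMod k)‖ ^ 2 : ℝ) : ℂ)‖ := by
    rw [Complex.norm_real, Real.norm_of_nonneg]
    exact Finset.sum_nonneg (fun _ _ => by positivity)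
  rw [e3, e1, Finset.mul_sum]
  refine (norm_sum_le _ _).trans (Finset.sum_le_sum (fun l _ => ?_))
  rw [Finset.mul_sum]
  refine (norm_sum_le _ _).trans (Finset.sum_le_sum (fun l' _ => ?_))
  rw [norm_mul, norm_mul, RCLike.norm_conj]
  have h := norm_sum_char_mul_conj (k := k) (l : ZMod k) (l' : ZMod k)
  by_cases hll : (l : ZMod k) = (l' : ZMod k)
  · rw [if_pos hll] at h ⊢
    calc ‖w l‖ * ‖w l'‖ * _ ≤ ‖w l‖ * ‖w l'‖ * (Nat.totient k : ℝ) := by gcongr
      _ = (Nat.totient k : ℝ) * (‖w l‖ * ‖w l'‖) := by ring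
  · rw [if_neg hll] at h ⊢
    have h0 := le_antisymm h (norm_nonneg _)
    rw [h0]
    simp

end LDS

end Pool.Agent.PnMn
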