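import Mathlib
import Pool.Agent.PnMn.Defs
import Pool.Agent.PnMn.LogDerivSumA

set_option autoImplicit false

/-!
# T-G: the coefficients of `L M`
-/

namespace Pool.Agent.PnMn

open Finset DirichletCharacter ArithmeticFunction

namespace LDS

/-- Factorisations `l = m n` with `m ≤ y`, `n ≤ N`. -/
def fib (y N l : ℕ) : Finset (ℕ × ℕ) := (Icc 1 y ×ˢ Icc 1 N).filter (fun p => p.1 * p.2 = l)

/-- The coefficients. -/
noncomputable def bb (y N l : ℕ) : ℝ := ∑ p ∈ fib y N l, (ArithmeticFunction.moebius p.1 : ℝ)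

/-- The divisors `≤ y`. -/
def uu (y l : ℕ) : ℕ := ((Icc 1 y).filter (fun m => m ∣ l)).card

lemma uu_le (y l : ℕ) : uu y l ≤ y := by
  unfold uu
  refine (Finset.card_filter_le _ _).trans ?_
  simp

lemma card_fib_le_uu (y N l : ℕ) : (fib y N l).card ≤ uu y l := by
  unfold uu fib
  refine Finset.card_le_card_of_injOn (fun p => p.1) ?_ ?_
  · intro p hp
    simp only [coe_filter, mem_product, mem_Icc, Set.mem_ofPred_eq] at hp ⊢
    exact ⟨hp.1.1, ⟨p.2, hp.2.symm⟩⟩
  · intro p hp q hq hpq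
    simp only [coe_filter, mem_product, mem_Icc, Set.mem_ofPred_eq] at hp hq hpq
    ext
    · exact hpq
    · have h1 : p.1 * p.2 = p.1 * q.2 := by
        rw [hp.2, hpq, hq.2]
      exact Nat.eq_of_mul_eq_mul_left hp.1.1.1 h1

lemma abs_moebius_le (m : ℕ) : |((ArithmeticFunction.moebius m : ℤ) : ℝ)| ≤ 1 := by
  have := ArithmeticFunction.abs_moebius_le_one (n := m)
  exact_mod_cast this

lemma abs_bb_le (y N l : ℕ) : |bb y N l| ≤ ((fib y N l).card : ℝ) := by
  unfold bb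
  calc |∑ p ∈ fib y N l, (ArithmeticFunction.moebius p.1 : ℝ)|
      ≤ ∑ p ∈ fib y N l, |(ArithmeticFunction.moebius p.1 : ℝ)| := Finset.abs_sum_le_sum_abs _ _
    _ ≤ ∑ p ∈ fib y N l, (1 : ℝ) := Finset.sum_le_sum (fun p _ => abs_moebius_le p.1)
    _ = ((fib y N l).card : ℝ) := by simp

lemma bb_one {y N : ℕ} (hy : 1 ≤ y) (hN : 1 ≤ N) : bb y N 1 = 1 := by
  have : fib y N 1 = {(1, 1)} := by
    ext ⟨m, n⟩
    simp only [fib, mem_filter, mem_product, mem_Icc, mem_singleton, Prod.mk.injEq]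
    constructor
    · rintro ⟨_, h⟩
      exact ⟨Nat.eq_one_of_mul_eq_one_right h, Nat.eq_one_of_mul_eq_one_left h⟩
    · rintro ⟨rfl, rfl⟩
      exact ⟨⟨⟨le_rfl, hy⟩, ⟨le_rfl, hN⟩⟩, rfl⟩
  rw [bb, this]
  simp

lemma bb_small {y N l : ℕ} (hl : 1 < l) (hly : l ≤ y) (hlN : l ≤ N) : bb y N l = 0 := by
  have e : fib y N l = l.divisorsAntidiagonal := by
    ext ⟨m, n⟩
    simp only [fib, mem_filter, mem_product, mem_Icc, Nat.mem_divisorsAntidiagonal]
    constructor
    · rintro ⟨_, h⟩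
      exact ⟨h, by omega⟩
    · rintro ⟨h, _⟩
      have hm : 0 < m := by
        rcases Nat.eq_zero_or_pos m with h0 | h0
        · subst h0
          omega
        · exact h0
      have hn : 0 < n := by
        rcases Nat.eq_zero_or_pos n with h0 | h0
        · subst h0
          omega
        · exact h0
      have h1 : m ≤ l := by
        rw [← h]
        exact Nat.le_mul_of_pos_right m hn
      have h2 : n ≤ l := by
        rw [← h]
        exact Nat.le_mul_of_pos_left n hm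
      exact ⟨⟨⟨hm, h1.trans hly⟩, ⟨hn, h2.trans hlN⟩⟩, h⟩
  rw [bb, e]
  rw [Nat.sum_divisorsAntidiagonal (fun m _ => ((ArithmeticFunction.moebius m : ℤ) : ℝ))]
  have h : ∑ i ∈ l.divisors, (ArithmeticFunction.moebius i : ℤ) = 0 := by
    rw [← ArithmeticFunction.coe_mul_zeta_apply, ArithmeticFunction.moebius_mul_coe_zeta]
    exact ArithmeticFunction.one_apply_ne hl.ne'
  exact_mod_cast h

lemma maps_to_prod {y N : ℕ} : ∀ p ∈ (Icc 1 y ×ˢ Icc 1 N), p.1 * p.2 ∈ Icc 1 (y * N) := by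
  rintro ⟨m, n⟩ h
  simp only [mem_product, mem_Icc] at h ⊢
  exact ⟨Nat.mul_pos h.1.1 h.2.1, Nat.mul_le_mul h.1.2 h.2.2⟩

/-- Grouping a double sum according to the product. -/
lemma sum_group {E : Type*} [AddCommMonoid E] (y N : ℕ) (f : ℕ × ℕ → E) :
    ∑ p ∈ (Icc 1 y ×ˢ Icc 1 N), f p = ∑ l ∈ Icc 1 (y * N), ∑ p ∈ fib y N l, f p := by
  rw [← Finset.sum_fiberwise_of_maps_to maps_to_prod]
  rfl

lemma sum_card_fib (y N : ℕ) :
    ∑ l ∈ Icc 1 (y * N), ((fib y N l).card : ℝ) / l = H y * H N := by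
  have h := sum_group y N (fun p => (1 : ℝ) / p.1 * (1 / p.2))
  rw [Finset.sum_product] at h
  simp only at h
  unfold H
  rw [Finset.sum_mul_sum, h]
  refine Finset.sum_congr rfl (fun l _ => ?_)
  rw [Finset.sum_congr rfl (g := fun _ => (1 : ℝ) / l)]
  · simp [div_eq_mul_inv]
  · intro p hp
    simp only [fib, mem_filter] at hp
    rw [← hp.2]
    push_cast
    rw [div_mul_div_comm, one_mul]

lemma sum_uu_sq (y X : ℕ) :
    ∑ l ∈ Icc 1 X, ((uu y l : ℝ)) ^ 2 / l ≤ H X * H y ^ 3 := by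
  have e : ∀ l : ℕ, ((uu y l : ℝ)) ^ 2 / l =
      ∑ m ∈ Icc 1 y, ∑ m' ∈ Icc 1 y, if Nat.lcm m m' ∣ l then (1 : ℝ) / l else 0 := by
    intro l
    have h1 : (uu y l : ℝ) = ∑ m ∈ Icc 1 y, if m ∣ l then (1 : ℝ) else 0 := by
      unfold uu
      rw [Finset.card_filter]
      push_cast
      rfl
    rw [h1, pow_two, Finset.sum_mul_sum, Finset.sum_div]
    refine Finset.sum_congr rfl (fun m _ => ?_)
    rw [Finset.sum_div]
    refine Finset.sum_congr rfl (fun m' _ => ?_)
    by_cases h1 : m ∣ l <;> by_cases h2 : m' ∣ l <;> simp [h1, h2, Nat.lcm_dvd_iff]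
  rw [Finset.sum_congr rfl (fun l _ => e l), Finset.sum_comm]
  have e2 : ∀ m ∈ Icc 1 y, ∑ l ∈ Icc 1 X, ∑ m' ∈ Icc 1 y,
      (if Nat.lcm m m' ∣ l then (1 : ℝ) / l else 0) ≤
      ∑ m' ∈ Icc 1 y, H X * (1 / (Nat.lcm m m' : ℕ)) := by
    intro m hm
    rw [Finset.sum_comm]
    refine Finset.sum_le_sum (fun m' hm' => ?_)
    rw [mem_Icc] at hm hm'
    rw [← Finset.sum_filter]
    refine (sum_inv_multiples _ X (Nat.lcm_pos hm.1 hm'.1)).trans ?_
    rw [mul_one_div]
  refine (Finset.sum_le_sum e2).trans ?_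
  simp_rw [← Finset.mul_sum]
  exact mul_le_mul_of_nonneg_left (sum_inv_lcm y) (H_nonneg X)

/-- Diagonal and off-diagonal parts. -/
lemma diag_offdiag {k : ℕ} (T : Finset ℕ) (f : ℕ → ℝ) :
    ∑ l ∈ T, ∑ l' ∈ T, (if (l : ZMod k) = (l' : ZMod k) then f l * f l' else 0)
      = ∑ l ∈ T, f l ^ 2 + 2 * ∑ l ∈ T, f l *
        ∑ l' ∈ T.filter (fun l' => l < l' ∧ (l : ZMod k) = (l' : ZMod k)), f l' := by
  have e1 : ∀ l l' : ℕ, (if (l : ZMod k) = (l' : ZMod k) then f l * f l' else 0)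
      = (if l = l' then f l * f l' else 0)
        + ((if l < l' ∧ (l : ZMod k) = (l' : ZMod k) then f l * f l' else 0)
        + (if l' < l ∧ (l : ZMod k) = (l' : ZMod k) then f l * f l' else 0)) := by
    intro l l'
    rcases lt_trichotomy l l' with h | h | h
    · have h1 : ¬ l = l' := h.ne
      have h2 : ¬ l' < l := by omega
      simp [h, h1, h2]
    · subst h
      simp
    · have h1 : ¬ l = l' := h.ne'
      have h2 : ¬ l < l' := by omega
      simp [h, h1, h2]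
  simp_rw [e1, Finset.sum_add_distrib]
  have e2 : ∑ l ∈ T, ∑ l' ∈ T, (if l = l' then f l * f l' else 0) = ∑ l ∈ T, f l ^ 2 := by
    refine Finset.sum_congr rfl (fun l hl => ?_)
    rw [Finset.sum_ite_eq, if_pos hl, pow_two]
  have e3 : ∑ l ∈ T, ∑ l' ∈ T,
      (if l' < l ∧ (l : ZMod k) = (l' : ZMod k) then f l * f l' else 0)
      = ∑ l ∈ T, ∑ l' ∈ T,
        (if l < l' ∧ (l : ZMod k) = (l' : ZMod k) then f l * f l' else 0) := by
    rw [Finset.sum_comm]
    refine Finset.sum_congr rfl (fun l _ => Finset.sum_congr rfl (fun l' _ => ?_))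
    rw [mul_comm (f l') (f l)]
    congr 1
    rw [eq_comm (a := (l' : ZMod k))]
  have e4 : ∑ l ∈ T, ∑ l' ∈ T,
      (if l < l' ∧ (l : ZMod k) = (l' : ZMod k) then f l * f l' else 0)
      = ∑ l ∈ T, f l *
        ∑ l' ∈ T.filter (fun l' => l < l' ∧ (l : ZMod k) = (l' : ZMod k)), f l' := by
    refine Finset.sum_congr rfl (fun l _ => ?_)
    rw [Finset.sum_filter, Finset.mul_sum]
    refine Finset.sum_congr rfl (fun l' _ => ?_)
    split_ifs <;> simp
  rw [e2, e3, e4]
  ring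

lemma cast_eq_iff_dvd_sub {k l l' : ℕ} (h : l ≤ l') :
    (l : ZMod k) = (l' : ZMod k) ↔ k ∣ l' - l := by
  rw [ZMod.natCast_eq_natCast_iff]
  exact Nat.modEq_iff_dvd' h

/-- The main mean value estimate for the coefficients. -/
lemma coeff_estimate {k : ℕ} (hk : 0 < k) {y N : ℕ} (hy : 1 ≤ y) (w : ℕ → ℂ)
    (hw : ∀ l, ‖w l‖ ≤ ((fib y N l).card : ℝ) / l) :
    ∑ l ∈ Ioc y (y * N), ∑ l' ∈ Ioc y (y * N),
        (if (l : ZMod k) = (l' : ZMod k) then ‖w l‖ * ‖w l'‖ else 0)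
      ≤ H (y * N) * H y ^ 3 / y + 2 * (H y * H N * (y * (H (y * N) / k))) := by
  have hy0 : (0 : ℝ) < y := by exact_mod_cast hy
  rw [diag_offdiag (k := k) (Ioc y (y * N)) (fun l => ‖w l‖)]
  have hsub : Ioc y (y * N) ⊆ Icc 1 (y * N) := by
    intro l hl
    rw [mem_Ioc] at hl
    rw [mem_Icc]
    omega
  refine add_le_add ?_ (mul_le_mul_of_nonneg_left ?_ (by norm_num))
  · calc ∑ l ∈ Ioc y (y * N), ‖w l‖ ^ 2
        ≤ ∑ l ∈ Ioc y (y * N), ((uu y l : ℝ)) ^ 2 / l * (1 / y) := by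
          refine Finset.sum_le_sum (fun l hl => ?_)
          rw [mem_Ioc] at hl
          have hl0 : (0 : ℝ) < l := by
            have : 0 < l := by omega
            exact_mod_cast this
          have hyl : (y : ℝ) ≤ l := by exact_mod_cast hl.1.le
          have h1 : ‖w l‖ ≤ (uu y l : ℝ) / l := by
            refine (hw l).trans ?_
            have : ((fib y N l).card : ℝ) ≤ uu y l := by exact_mod_cast card_fib_le_uu y N l
            gcongr
          calc ‖w l‖ ^ 2 ≤ ((uu y l : ℝ) / l) ^ 2 := by gcongr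
            _ = ((uu y l : ℝ)) ^ 2 / l * (1 / l) := by
                field_simp
            _ ≤ ((uu y l : ℝ)) ^ 2 / l * (1 / y) := by gcongr
      _ ≤ ∑ l ∈ Icc 1 (y * N), ((uu y l : ℝ)) ^ 2 / l * (1 / y) :=
          Finset.sum_le_sum_of_subset_of_nonneg hsub (fun _ _ _ => by positivity)
      _ = (∑ l ∈ Icc 1 (y * N), ((uu y l : ℝ)) ^ 2 / l) / y := by
          rw [← Finset.sum_mul, mul_one_div]
      _ ≤ H (y * N) * H y ^ 3 / y := by
          have := sum_uu_sq y (y * N)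
          gcongr
  · have hinner : ∀ l ∈ Ioc y (y * N),
        ∑ l' ∈ (Ioc y (y * N)).filter (fun l' => l < l' ∧ (l : ZMod k) = (l' : ZMod k)), ‖w l'‖
          ≤ y * (H (y * N) / k) := by
      intro l hl
      rw [mem_Ioc] at hl
      calc ∑ l' ∈ (Ioc y (y * N)).filter (fun l' => l < l' ∧ (l : ZMod k) = (l' : ZMod k)), ‖w l'‖
          ≤ ∑ l' ∈ (Ioc y (y * N)).filter (fun l' => l < l' ∧ (l : ZMod k) = (l' : ZMod k)),
              (y : ℝ) * (1 / l') := by
            refine Finset.sum_le_sum (fun l' _ => (hw l').trans ?_)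
            have h1 : ((fib y N l').card : ℝ) ≤ y := by
              exact_mod_cast (card_fib_le_uu y N l').trans (uu_le y l')
            rw [mul_one_div]
            gcongr
        _ ≤ ∑ l' ∈ (Ioc l (y * N)).filter (fun l' => k ∣ l' - l), (y : ℝ) * (1 / l') := by
            refine Finset.sum_le_sum_of_subset_of_nonneg ?_ (fun _ _ _ => by positivity)
            intro l' hl'
            rw [mem_filter, mem_Ioc] at hl' ⊢
            exact ⟨⟨hl'.2.1, hl'.1.2⟩, (cast_eq_iff_dvd_sub hl'.2.1.le).mp hl'.2.2⟩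
        _ = (y : ℝ) * ∑ l' ∈ (Ioc l (y * N)).filter (fun l' => k ∣ l' - l), (1 / l' : ℝ) := by
            rw [Finset.mul_sum]
        _ ≤ y * (H (y * N) / k) := by
            have := sum_inv_progression k l (y * N) hk
            gcongr
    calc ∑ l ∈ Ioc y (y * N), ‖w l‖ *
          ∑ l' ∈ (Ioc y (y * N)).filter (fun l' => l < l' ∧ (l : ZMod k) = (l' : ZMod k)), ‖w l'‖
        ≤ ∑ l ∈ Ioc y (y * N), ((fib y N l).card : ℝ) / l * (y * (H (y * N) / k)) := by
          refine Finset.sum_le_sum (fun l hl => ?_)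
          refine mul_le_mul (hw l) (hinner l hl) (Finset.sum_nonneg (fun _ _ => norm_nonneg _)) ?_
          positivity
      _ = (∑ l ∈ Ioc y (y * N), ((fib y N l).card : ℝ) / l) * (y * (H (y * N) / k)) := by
          rw [Finset.sum_mul]
      _ ≤ (∑ l ∈ Icc 1 (y * N), ((fib y N l).card : ℝ) / l) * (y * (H (y * N) / k)) := by
          have h1 : ∑ l ∈ Ioc y (y * N), ((fib y N l).card : ℝ) / l
              ≤ ∑ l ∈ Icc 1 (y * N), ((fib y N l).card : ℝ) / l :=
            Finset.sum_le_sum_of_subset_of_nonneg hsub (fun _ _ _ => by positivity)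
          have h2 : 0 ≤ (y : ℝ) * (H (y * N) / k) := by
            have := H_nonneg (y * N)
            positivity
          exact mul_le_mul_of_nonneg_right h1 h2
      _ = H y * H N * (y * (H (y * N) / k)) := by rw [sum_card_fib]

end LDS

end Pool.Agent.PnMn
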