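import Mathlib
import Pool.Agent.PnMn.Defs
import Pool.Agent.PnMn.LogDerivSumA
import Pool.Agent.PnMn.LogDerivSumB

set_option autoImplicit false

/-!
# T-G: the sum of the logarithmic derivatives

`CharBounds` implies `LogDerivSum`.
-/

namespace Pool.Agent.PnMn

open Finset DirichletCharacter ArithmeticFunction

namespace LDS

/-! ### A lower bound for the totient function -/

lemma card_divisors_le {k : ℕ} (hk : 0 < k) : k.divisors.card ≤ 2 * Nat.sqrt k := by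
  have h1 : (k.divisors.filter (fun d => d ≤ Nat.sqrt k)).card ≤ Nat.sqrt k := by
    calc (k.divisors.filter (fun d => d ≤ Nat.sqrt k)).card
        ≤ (Icc 1 (Nat.sqrt k)).card := by
          refine Finset.card_le_card (fun d hd => ?_)
          rw [mem_filter, Nat.mem_divisors] at hd
          rw [mem_Icc]
          exact ⟨Nat.pos_of_dvd_of_pos hd.1.1 hk, hd.2⟩
      _ = Nat.sqrt k := by simp
  have h2 : (k.divisors.filter (fun d => ¬ d ≤ Nat.sqrt k)).card ≤ Nat.sqrt k := by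
    calc (k.divisors.filter (fun d => ¬ d ≤ Nat.sqrt k)).card
        ≤ (Icc 1 (Nat.sqrt k)).card := by
          refine Finset.card_le_card_of_injOn (fun d => k / d) ?_ ?_
          · intro d hd
            simp only [coe_filter, Nat.mem_divisors, Set.mem_ofPred_eq] at hd
            simp only [coe_Icc, Set.mem_Icc]
            have hd0 : 0 < d := Nat.pos_of_dvd_of_pos hd.1.1 hk
            refine ⟨Nat.div_pos (Nat.le_of_dvd hk hd.1.1) hd0, ?_⟩
            have h3 : k / d < Nat.sqrt k + 1 := by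
              rw [Nat.div_lt_iff_lt_mul hd0]
              have h4 : k < (Nat.sqrt k + 1) * (Nat.sqrt k + 1) := Nat.lt_succ_sqrt k
              have h5 : Nat.sqrt k + 1 ≤ d := by omega
              exact lt_of_lt_of_le h4 (Nat.mul_le_mul_left _ h5)
            omega
          · intro d hd d' hd' hdd
            simp only [coe_filter, Nat.mem_divisors, Set.mem_ofPred_eq] at hd hd' hdd
            have e1 := Nat.div_div_self hd.1.1 hk.ne'
            have e2 := Nat.div_div_self hd'.1.1 hk.ne'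
            rw [← e1, ← e2, hdd]
      _ = Nat.sqrt k := by simp
  have h3 := Finset.card_filter_add_card_filter_not (s := k.divisors)
    (fun d => d ≤ Nat.sqrt k)
  omega

lemma sqrt_le_totient {k : ℕ} (hk : 0 < k) : Real.sqrt k ≤ 2 * (Nat.totient k : ℝ) := by
  have h1 : k ≤ 2 * Nat.sqrt k * Nat.totient k := by
    calc k = ∑ d ∈ k.divisors, Nat.totient d := (Nat.sum_totient k).symm
      _ ≤ ∑ d ∈ k.divisors, Nat.totient k := by
          refine Finset.sum_le_sum (fun d hd => ?_)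
          rw [Nat.mem_divisors] at hd
          exact Nat.le_of_dvd (Nat.totient_pos.mpr hk) (Nat.totient_dvd_of_dvd hd.1)
      _ = k.divisors.card * Nat.totient k := by rw [Finset.sum_const, smul_eq_mul]
      _ ≤ 2 * Nat.sqrt k * Nat.totient k := Nat.mul_le_mul_right _ (card_divisors_le hk)
  have h2 : ((Nat.sqrt k : ℕ) : ℝ) ≤ Real.sqrt k := Real.nat_sqrt_le_real_sqrt
  have hk0 : (0 : ℝ) < k := by exact_mod_cast hk
  have h3 : (0 : ℝ) < Real.sqrt k := Real.sqrt_pos.mpr hk0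
  have h4 : (k : ℝ) ≤ 2 * Real.sqrt k * (Nat.totient k : ℝ) := by
    have h5 : (k : ℝ) ≤ 2 * ((Nat.sqrt k : ℕ) : ℝ) * (Nat.totient k : ℝ) := by exact_mod_cast h1
    refine h5.trans ?_
    gcongr
  have h5 : Real.sqrt k * Real.sqrt k = k := Real.mul_self_sqrt hk0.le
  have h6 : Real.sqrt k * Real.sqrt k ≤ Real.sqrt k * (2 * (Nat.totient k : ℝ)) := by
    rw [h5]
    linarith
  exact le_of_mul_le_mul_left h6 h3

/-! ### The mollifier and the truncated `L`-functions -/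

variable {k : ℕ} [NeZero k]

/-- The mollifier. -/
noncomputable def MM (χ : DirichletCharacter ℂ k) (s : ℝ) (y : ℕ) : ℂ :=
  ∑ m ∈ Icc 1 y, ((ArithmeticFunction.moebius m : ℝ) : ℂ) *
    (χ (m : ZMod k) * (((m : ℝ) ^ (-s) : ℝ) : ℂ))

/-- The truncated `L`-function. -/
noncomputable def LN (χ : DirichletCharacter ℂ k) (s : ℝ) (N : ℕ) : ℂ :=
  ∑ n ∈ Icc 1 N, χ n * (((n : ℝ) ^ (-s) : ℝ) : ℂ)

/-- The truncated derivative. -/
noncomputable def DN (χ : DirichletCharacter ℂ k) (s : ℝ) (N : ℕ) : ℂ :=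
  ∑ n ∈ Icc 1 N, χ n * ((Real.log n * (n : ℝ) ^ (-s) : ℝ) : ℂ)

lemma rpow_neg_le {s : ℝ} (hs : 1 < s) (n : ℕ) : (n : ℝ) ^ (-s) ≤ 1 / n := by
  rcases Nat.eq_zero_or_pos n with h0 | h0
  · subst h0
    rw [Nat.cast_zero, Real.zero_rpow (by linarith)]
    simp
  · have h1 : (1 : ℝ) ≤ n := by exact_mod_cast h0
    calc (n : ℝ) ^ (-s) ≤ (n : ℝ) ^ (-1 : ℝ) :=
          Real.rpow_le_rpow_of_exponent_le h1 (by linarith)
      _ = 1 / n := by rw [Real.rpow_neg_one, one_div]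

lemma norm_MM_le (χ : DirichletCharacter ℂ k) {s : ℝ} (hs : 1 < s) (y : ℕ) :
    ‖MM χ s y‖ ≤ H y := by
  unfold MM H
  refine (norm_sum_le _ _).trans (Finset.sum_le_sum (fun m _ => ?_))
  rw [norm_mul, norm_mul, Complex.norm_real, Complex.norm_real, Real.norm_eq_abs,
    Real.norm_of_nonneg (Real.rpow_nonneg (Nat.cast_nonneg m) _)]
  calc |(ArithmeticFunction.moebius m : ℝ)| * (‖χ (m : ZMod k)‖ * (m : ℝ) ^ (-s))
      ≤ 1 * (1 * (1 / m)) := by
        have h1 := abs_moebius_le m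
        have h2 := χ.norm_le_one (m : ZMod k)
        have h3 := rpow_neg_le hs m
        have h4 : (0 : ℝ) ≤ (m : ℝ) ^ (-s) := Real.rpow_nonneg (Nat.cast_nonneg m) _
        gcongr
    _ = 1 / m := by ring

lemma norm_DN_le (χ : DirichletCharacter ℂ k) {s : ℝ} (hs : 1 < s) (N : ℕ) :
    ‖DN χ s N‖ ≤ Real.log N * H N := by
  unfold DN H
  rw [Finset.mul_sum]
  refine (norm_sum_le _ _).trans (Finset.sum_le_sum (fun n hn => ?_))
  rw [mem_Icc] at hn
  have hn0 : (0 : ℝ) < n := by exact_mod_cast hn.1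
  have hn1 : (1 : ℝ) ≤ n := by exact_mod_cast hn.1
  have hlog : Real.log n ≤ Real.log N := Real.log_le_log hn0 (by exact_mod_cast hn.2)
  have hlog0 : 0 ≤ Real.log n := Real.log_nonneg hn1
  rw [norm_mul, Complex.norm_real, Real.norm_of_nonneg
    (mul_nonneg hlog0 (Real.rpow_nonneg (Nat.cast_nonneg n) _))]
  calc ‖χ (n : ZMod k)‖ * (Real.log n * (n : ℝ) ^ (-s))
      ≤ 1 * (Real.log N * (1 / n)) := by
        have h2 := χ.norm_le_one (n : ZMod k)
        have h3 := rpow_neg_le hs n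
        have h4 : (0 : ℝ) ≤ (n : ℝ) ^ (-s) := Real.rpow_nonneg (Nat.cast_nonneg n) _
        gcongr
    _ = Real.log N * (1 / n) := by ring

lemma rpow_mul_nat {s : ℝ} (m n : ℕ) :
    ((m * n : ℕ) : ℝ) ^ (-s) = (m : ℝ) ^ (-s) * (n : ℝ) ^ (-s) := by
  push_cast
  exact Real.mul_rpow (Nat.cast_nonneg m) (Nat.cast_nonneg n)

/-- The coefficients of the product. -/
lemma MM_mul_LN (χ : DirichletCharacter ℂ k) (s : ℝ) (y N : ℕ) :
    MM χ s y * LN χ s N = ∑ l ∈ Icc 1 (y * N),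
      (((bb y N l * (l : ℝ) ^ (-s) : ℝ)) : ℂ) * χ (l : ZMod k) := by
  unfold MM LN
  rw [Finset.sum_mul_sum, ← Finset.sum_product', sum_group]
  refine Finset.sum_congr rfl (fun l _ => ?_)
  unfold bb
  push_cast
  rw [Finset.sum_mul, Finset.sum_mul]
  refine Finset.sum_congr rfl (fun p hp => ?_)
  simp only [fib, mem_filter] at hp
  rw [← hp.2, rpow_mul_nat]
  push_cast
  rw [map_mul]
  ring

/-- The product minus one. -/
lemma MM_mul_LN_sub_one (χ : DirichletCharacter ℂ k) (s : ℝ) {y N : ℕ} (hy : 1 ≤ y)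
    (hyN : y ≤ N) :
    MM χ s y * LN χ s N - 1 = ∑ l ∈ Ioc y (y * N),
      (((bb y N l * (l : ℝ) ^ (-s) : ℝ)) : ℂ) * χ (l : ZMod k) := by
  have hN : 1 ≤ N := hy.trans hyN
  have h1 : y ≤ y * N := Nat.le_mul_of_pos_right y hN
  rw [MM_mul_LN]
  have e : Icc 1 (y * N) = insert 1 (Ioc 1 y ∪ Ioc y (y * N)) := by
    ext a
    simp only [mem_Icc, mem_insert, mem_union, mem_Ioc]
    omega
  rw [e, Finset.sum_insert (by simp [mem_union, mem_Ioc]; omega), Finset.sum_union]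
  · have e1 : ∑ l ∈ Ioc 1 y, (((bb y N l * (l : ℝ) ^ (-s) : ℝ)) : ℂ) * χ (l : ZMod k) = 0 := by
      refine Finset.sum_eq_zero (fun l hl => ?_)
      rw [mem_Ioc] at hl
      rw [bb_small hl.1 hl.2 (hl.2.trans hyN)]
      simp
    rw [e1, bb_one hy hN]
    simp
  · rw [Finset.disjoint_left]
    intro a ha ha'
    rw [mem_Ioc] at ha ha'
    omega

/-- The mean square of `1 - L_N M`. -/
lemma mean_square_mollified {s : ℝ} (hs : 1 < s) {y N : ℕ} (hy : 1 ≤ y) (hyN : y ≤ N) :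
    ∑ χ : DirichletCharacter ℂ k, ‖MM χ s y * LN χ s N - 1‖ ^ 2
      ≤ (Nat.totient k : ℝ) *
        (H (y * N) * H y ^ 3 / y + 2 * (H y * H N * (y * (H (y * N) / k)))) := by
  have hk : 0 < k := Nat.pos_of_ne_zero (NeZero.ne k)
  simp_rw [MM_mul_LN_sub_one _ s hy hyN]
  refine (mean_square (k := k) (Ioc y (y * N))
    (fun l => (((bb y N l * (l : ℝ) ^ (-s) : ℝ)) : ℂ))).trans ?_
  refine mul_le_mul_of_nonneg_left ?_ (Nat.cast_nonneg _)
  refine coeff_estimate hk hy _ (fun l => ?_)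
  rw [Complex.norm_real, Real.norm_eq_abs, abs_mul,
    abs_of_nonneg (Real.rpow_nonneg (Nat.cast_nonneg l) _), ← mul_one_div]
  exact mul_le_mul (abs_bb_le y N l) (rpow_neg_le hs l)
    (Real.rpow_nonneg (Nat.cast_nonneg l) _) (Nat.cast_nonneg _)

/-- The first moment of `M L'`. -/
lemma first_moment {s : ℝ} (hs : 1 < s) {y N : ℕ} (hy : 1 ≤ y) (hN : 1 ≤ N) :
    ‖∑ χ : DirichletCharacter ℂ k, MM χ s y * DN χ s N‖
      ≤ (Nat.totient k : ℝ) * (Real.log N * (y * (H (y * N) / k))) := by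
  have hk : 0 < k := Nat.pos_of_ne_zero (NeZero.ne k)
  have hlogN : 0 ≤ Real.log N := Real.log_nonneg (by exact_mod_cast hN)
  have e1 : ∀ χ : DirichletCharacter ℂ k, MM χ s y * DN χ s N =
      ∑ p ∈ (Icc 1 y ×ˢ Icc 1 N), (((ArithmeticFunction.moebius p.1 : ℝ) * (p.1 : ℝ) ^ (-s) *
        (Real.log p.2 * (p.2 : ℝ) ^ (-s)) : ℝ) : ℂ) * χ ((p.1 * p.2 : ℕ) : ZMod k) := by
    intro χ
    unfold MM DN
    rw [Finset.sum_mul_sum, ← Finset.sum_product']
    refine Finset.sum_congr rfl (fun p _ => ?_)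
    push_cast
    rw [map_mul]
    ring
  rw [Finset.sum_congr rfl (fun χ _ => e1 χ), Finset.sum_comm]
  have e2 : ∀ p ∈ (Icc 1 y ×ˢ Icc 1 N), ‖∑ χ : DirichletCharacter ℂ k,
      (((ArithmeticFunction.moebius p.1 : ℝ) * (p.1 : ℝ) ^ (-s) *
        (Real.log p.2 * (p.2 : ℝ) ^ (-s)) : ℝ) : ℂ) * χ ((p.1 * p.2 : ℕ) : ZMod k)‖
      ≤ (Nat.totient k : ℝ) * (Real.log N * (if 1 < p.1 * p.2 ∧ k ∣ p.1 * p.2 - 1 then
        (1 : ℝ) / ((p.1 * p.2 : ℕ) : ℝ) else 0)) := by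
    intro p hp
    rw [mem_product, mem_Icc, mem_Icc] at hp
    obtain ⟨⟨hm1, hm2⟩, hn1, hn2⟩ := hp
    have hprod : 1 ≤ p.1 * p.2 := Nat.mul_pos hm1 hn1
    rw [← Finset.mul_sum, sum_characters_eq ℂ, norm_mul, Complex.norm_real, Real.norm_eq_abs]
    by_cases h1 : ((p.1 * p.2 : ℕ) : ZMod k) = 1
    · rw [if_pos h1]
      have hdvd : k ∣ p.1 * p.2 - 1 := by
        have : ((1 : ℕ) : ZMod k) = ((p.1 * p.2 : ℕ) : ZMod k) := by
          rw [h1, Nat.cast_one]
        exact (cast_eq_iff_dvd_sub hprod).mp this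
      by_cases h2 : 1 < p.1 * p.2
      · rw [if_pos ⟨h2, hdvd⟩]
        have hn0 : (0 : ℝ) < p.2 := by exact_mod_cast hn1
        have hm0 : (0 : ℝ) < p.1 := by exact_mod_cast hm1
        have hlog0 : 0 ≤ Real.log p.2 := Real.log_nonneg (by exact_mod_cast hn1)
        have hlog1 : Real.log p.2 ≤ Real.log N := Real.log_le_log hn0 (by exact_mod_cast hn2)
        rw [abs_mul, abs_mul, abs_of_nonneg (Real.rpow_nonneg hm0.le _),
          abs_of_nonneg (mul_nonneg hlog0 (Real.rpow_nonneg hn0.le _)), Complex.norm_natCast]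
        have a1 := abs_moebius_le p.1
        have a2 := rpow_neg_le hs p.1
        have a3 := rpow_neg_le hs p.2
        have a4 : (0 : ℝ) ≤ (p.1 : ℝ) ^ (-s) := Real.rpow_nonneg hm0.le _
        have a5 : (0 : ℝ) ≤ (p.2 : ℝ) ^ (-s) := Real.rpow_nonneg hn0.le _
        calc |(ArithmeticFunction.moebius p.1 : ℝ)| * (p.1 : ℝ) ^ (-s) *
              (Real.log p.2 * (p.2 : ℝ) ^ (-s)) * (Nat.totient k : ℝ)
            ≤ 1 * (1 / p.1) * (Real.log N * (1 / p.2)) * (Nat.totient k : ℝ) := by gcongr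
          _ = (Nat.totient k : ℝ) * (Real.log N * (1 / ((p.1 * p.2 : ℕ) : ℝ))) := by
              push_cast
              field_simp
      · have h3 : p.2 = 1 := by
          have : p.1 * p.2 = 1 := by omega
          exact Nat.eq_one_of_mul_eq_one_left this
        rw [h3]
        simp
        positivity
    · rw [if_neg h1, norm_zero, mul_zero]
      positivity
  refine (norm_sum_le _ _).trans ((Finset.sum_le_sum e2).trans ?_)
  rw [← Finset.mul_sum, ← Finset.mul_sum]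
  refine mul_le_mul_of_nonneg_left (mul_le_mul_of_nonneg_left ?_ hlogN) (Nat.cast_nonneg _)
  rw [sum_group y N (fun p : ℕ × ℕ => if 1 < p.1 * p.2 ∧ k ∣ p.1 * p.2 - 1 then
        (1 : ℝ) / ((p.1 * p.2 : ℕ) : ℝ) else 0)]
  calc ∑ l ∈ Icc 1 (y * N), ∑ p ∈ fib y N l, (if 1 < p.1 * p.2 ∧ k ∣ p.1 * p.2 - 1 then
        (1 : ℝ) / ((p.1 * p.2 : ℕ) : ℝ) else 0)
      = ∑ l ∈ Icc 1 (y * N), ((fib y N l).card : ℝ) * (if 1 < l ∧ k ∣ l - 1 then
        (1 : ℝ) / l else 0) := by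
        refine Finset.sum_congr rfl (fun l _ => ?_)
        rw [Finset.sum_congr rfl (g := fun _ => (if 1 < l ∧ k ∣ l - 1 then (1 : ℝ) / l else 0)),
          Finset.sum_const, nsmul_eq_mul]
        intro p hp
        simp only [fib, mem_filter] at hp
        rw [hp.2]
    _ ≤ ∑ l ∈ Icc 1 (y * N), (y : ℝ) * (if 1 < l ∧ k ∣ l - 1 then (1 : ℝ) / l else 0) := by
        refine Finset.sum_le_sum (fun l _ => ?_)
        have h1 : ((fib y N l).card : ℝ) ≤ y := by
          exact_mod_cast (card_fib_le_uu y N l).trans (uu_le y l)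
        exact mul_le_mul_of_nonneg_right h1 (by positivity)
    _ = (y : ℝ) * ∑ l ∈ (Ioc 1 (y * N)).filter (fun l => k ∣ l - 1), (1 : ℝ) / l := by
        rw [← Finset.mul_sum, ← Finset.sum_filter]
        congr 2
        ext l
        simp only [mem_filter, mem_Icc, mem_Ioc]
        constructor
        · rintro ⟨⟨_, h1⟩, h2, h3⟩
          exact ⟨⟨h2, h1⟩, h3⟩
        · rintro ⟨⟨h1, h2⟩, h3⟩
          exact ⟨⟨h1.le, h2⟩, h1, h3⟩
    _ ≤ y * (H (y * N) / k) := by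
        have := sum_inv_progression k 1 (y * N) hk
        gcongr

end LDS

open LDS in
/-- **T-G**: `CharBounds` implies `LogDerivSum`. -/
theorem logDerivSum (hCB : CharBounds) : LogDerivSum := by
  obtain ⟨C₀, hC₀, hCB⟩ := hCB
  obtain ⟨C, hC1, hCC⟩ : ∃ C : ℝ, 1 ≤ C ∧ C₀ ≤ C := ⟨max 1 C₀, le_max_left _ _, le_max_right _ _⟩
  have hC0 : 0 < C := by linarith
  obtain ⟨B, hB⟩ : ∃ B : ℝ, B = 4 * C + 32 + 8 * C ^ 2 * (224 + 8 * C ^ 2) := ⟨_, rfl⟩
  have hB0 : 0 < B := by rw [hB]; positivity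
  have ev1 : ∀ᶠ k : ℕ in Filter.atTop, (32 * B) ^ 2 * (Real.log k) ^ 52 ≤ k := by
    have h1 : ∀ᶠ x : ℝ in Filter.atTop, (32 * B) ^ 2 * Real.log x ^ 52 ≤ x := by
      have hc : 0 < 1 / (32 * B) ^ 2 := by positivity
      have h := (Real.isLittleO_pow_log_id_atTop (n := 52)).bound hc
      filter_upwards [h, Filter.eventually_ge_atTop (1 : ℝ)] with x hx hx1
      simp only [id, Real.norm_eq_abs] at hx
      have h2 : Real.log x ^ 52 ≤ 1 / (32 * B) ^ 2 * x := by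
        calc Real.log x ^ 52 ≤ |Real.log x ^ 52| := le_abs_self _
          _ ≤ 1 / (32 * B) ^ 2 * |x| := hx
          _ = 1 / (32 * B) ^ 2 * x := by rw [abs_of_nonneg (by linarith)]
      calc (32 * B) ^ 2 * Real.log x ^ 52 ≤ (32 * B) ^ 2 * (1 / (32 * B) ^ 2 * x) := by gcongr
        _ = x := by field_simp
    exact tendsto_natCast_atTop_atTop.eventually h1
  have hlogT : Filter.Tendsto (fun K : ℕ => Real.log (K : ℝ)) Filter.atTop Filter.atTop :=
    Real.tendsto_log_atTop.comp tendsto_natCast_atTop_atTop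
  have ev2 : ∀ᶠ k : ℕ in Filter.atTop, 1 ≤ Real.log k := hlogT.eventually_ge_atTop _
  have ev3 : ∀ᶠ k : ℕ in Filter.atTop, 3 ≤ k := Filter.eventually_ge_atTop 3
  obtain ⟨k₀, hk₀⟩ := Filter.eventually_atTop.mp (ev1.and (ev2.and ev3))
  refine ⟨k₀, fun k inst hk δ hδ0 hδ1 hL => ?_⟩
  obtain ⟨hbig, hx1, hk3⟩ := hk₀ k hk
  obtain ⟨x, hx⟩ : ∃ x : ℝ, x = Real.log k := ⟨_, rfl⟩
  rw [← hx] at hbig hx1
  have hx0 : 0 < x := by linarith
  have hkpos : (0 : ℝ) < k := by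
    have : 0 < k := by omega
    exact_mod_cast this
  have hk1 : (1 : ℝ) ≤ k := by
    have : 1 ≤ k := by omega
    exact_mod_cast this
  obtain ⟨R, hR⟩ : ∃ R : ℝ, R = Real.sqrt k := ⟨_, rfl⟩
  have hR1 : 1 ≤ R := by
    rw [hR]
    exact Real.one_le_sqrt.mpr hk1
  have hR0 : 0 < R := by linarith
  have hRR : R * R = k := by
    rw [hR]
    exact Real.mul_self_sqrt hkpos.le
  have hRk : R ≤ k := by nlinarith
  -- `32 B x^26 ≤ R`
  have hmain : 32 * B * x ^ 26 ≤ R := by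
    rw [hR]
    apply Real.le_sqrt_of_sq_le
    have e : (32 * B * x ^ 26) ^ 2 = (32 * B) ^ 2 * x ^ 52 := by ring
    rw [e]
    exact hbig
  -- parameters
  obtain ⟨y, hy⟩ : ∃ y : ℕ, y = Nat.sqrt k := ⟨_, rfl⟩
  obtain ⟨N, hN⟩ : ∃ N : ℕ, N = k ^ 2 := ⟨_, rfl⟩
  have hy1 : 1 ≤ y := by
    rw [hy]
    exact Nat.sqrt_pos.mpr (by omega)
  have hyk : y ≤ k := by
    rw [hy]
    exact Nat.sqrt_le_self k
  have hkN : k ≤ N := by
    rw [hN, pow_two]
    exact Nat.le_mul_of_pos_right k (by omega)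
  have hyN : y ≤ N := hyk.trans hkN
  have hN1 : 1 ≤ N := hy1.trans hyN
  have hN3 : 3 ≤ N := hk3.trans hkN
  have hy0 : (0 : ℝ) < y := by exact_mod_cast hy1
  have hyR : (y : ℝ) ≤ R := by
    rw [hy, hR]
    exact Real.nat_sqrt_le_real_sqrt
  have hRy : R ≤ 2 * y := by
    have h1 : R < y + 1 := by
      rw [hR, hy]
      exact Real.real_sqrt_lt_nat_sqrt_succ
    have h2 : (1 : ℝ) ≤ y := by exact_mod_cast hy1
    linarith
  have hNr : (N : ℝ) = (k : ℝ) ^ 2 := by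
    rw [hN]
    push_cast
    rfl
  have hlogN : Real.log N = 2 * x := by
    rw [hNr, Real.log_pow, hx]
    push_cast
    rfl
  have hHy : H y ≤ 2 * x := by
    have h1 := H_le y
    have h2 : Real.log y ≤ x := by
      rw [hx]
      exact Real.log_le_log hy0 (by exact_mod_cast hyk)
    linarith
  have hHN : H N ≤ 3 * x := by
    have h1 := H_le N
    rw [hlogN] at h1
    linarith
  have hHX : H (y * N) ≤ 4 * x := by
    have h1 := H_le (y * N)
    have h2 : Real.log ((y * N : ℕ) : ℝ) ≤ 3 * x := by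
      have h3 : ((y * N : ℕ) : ℝ) ≤ (k : ℝ) ^ 3 := by
        have : y * N ≤ k ^ 3 := by
          rw [hN]
          calc y * k ^ 2 ≤ k * k ^ 2 := Nat.mul_le_mul_right _ hyk
            _ = k ^ 3 := by ring
        exact_mod_cast this
      have h4 : (0 : ℝ) < ((y * N : ℕ) : ℝ) := by
        have : 0 < y * N := Nat.mul_pos hy1 hN1
        exact_mod_cast this
      calc Real.log ((y * N : ℕ) : ℝ) ≤ Real.log ((k : ℝ) ^ 3) := Real.log_le_log h4 h3
        _ = 3 * x := by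
            rw [Real.log_pow, hx]
            push_cast
            rfl
    linarith
  have hHy0 := H_nonneg y
  have hHN0 := H_nonneg N
  have hHX0 := H_nonneg (y * N)
  have hs1 : (1 : ℝ) < 1 + δ := by linarith
  have hδle : δ ≤ 1 := hδ1.trans (by
    rw [div_le_one hkpos]
    exact hk1)
  have hs2 : 1 + δ ≤ 2 := by linarith
  obtain ⟨s, hs⟩ : ∃ s : ℝ, s = 1 + δ := ⟨_, rfl⟩
  rw [← hs] at hs1 hs2 hL ⊢
  obtain ⟨φk, hφ⟩ : ∃ φk : ℝ, φk = (Nat.totient k : ℝ) := ⟨_, rfl⟩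
  have hφ0 : 0 ≤ φk := by rw [hφ]; positivity
  have hRφ : R ≤ 2 * φk := by
    rw [hR, hφ]
    exact sqrt_le_totient (by omega)
  rw [← hφ]
  have hcard : (((univ : Finset (DirichletCharacter ℂ k)).erase 1).card : ℝ) ≤ φk := by
    have h1 : (((univ : Finset (DirichletCharacter ℂ k)).erase 1).card : ℝ)
        ≤ ((univ : Finset (DirichletCharacter ℂ k)).card : ℝ) := by
      exact_mod_cast Finset.card_erase_le
    refine h1.trans ?_
    rw [Finset.card_univ, ← Nat.card_eq_fintype_card,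
      card_eq_totient_of_hasEnoughRootsOfUnity, hφ]
  -- bounds for the individual characters
  have hb1 : ∀ χ : DirichletCharacter ℂ k, χ ≠ 1 →
      ‖(deriv χ.LFunction (s : ℂ) + DN χ s N) * MM χ s y‖ ≤ 4 * C * x ^ 2 / k := by
    intro χ hχ
    have h1 := ((hCB k hk3 χ hχ s hs1 hs2).2.2 N hN3).2
    have h2 : ‖deriv χ.LFunction (s : ℂ) + DN χ s N‖ ≤ C * k * (2 * x) / N := by
      refine h1.trans ?_
      rw [hlogN]
      gcongr
    rw [norm_mul]
    calc ‖deriv χ.LFunction (s : ℂ) + DN χ s N‖ * ‖MM χ s y‖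
        ≤ (C * k * (2 * x) / N) * (2 * x) :=
          mul_le_mul h2 ((norm_MM_le χ hs1 y).trans hHy) (norm_nonneg _) (by positivity)
      _ = 4 * C * x ^ 2 / k := by
          rw [hNr]
          field_simp
          ring
  have hb2 : ∀ χ : DirichletCharacter ℂ k, χ ≠ 1 →
      ‖1 - χ.LFunction (s : ℂ) * MM χ s y‖ ^ 2
        ≤ 2 * ‖MM χ s y * LN χ s N - 1‖ ^ 2 + 8 * C ^ 2 * x ^ 2 / k ^ 2 := by
    intro χ hχ
    have h1 := ((hCB k hk3 χ hχ s hs1 hs2).2.2 N hN3).1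
    have h2 : ‖χ.LFunction (s : ℂ) - LN χ s N‖ ≤ C * k / N := by
      refine h1.trans ?_
      gcongr
    have h3 : 1 - χ.LFunction (s : ℂ) * MM χ s y =
        -((MM χ s y * LN χ s N - 1) + (χ.LFunction (s : ℂ) - LN χ s N) * MM χ s y) := by ring
    have h4 : ‖(χ.LFunction (s : ℂ) - LN χ s N) * MM χ s y‖ ≤ 2 * C * x / k := by
      rw [norm_mul]
      calc ‖χ.LFunction (s : ℂ) - LN χ s N‖ * ‖MM χ s y‖
          ≤ (C * k / N) * (2 * x) :=
            mul_le_mul h2 ((norm_MM_le χ hs1 y).trans hHy) (norm_nonneg _) (by positivity)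
        _ = 2 * C * x / k := by
            rw [hNr]
            field_simp
    rw [h3, norm_neg]
    have h5 := norm_add_le (MM χ s y * LN χ s N - 1)
      ((χ.LFunction (s : ℂ) - LN χ s N) * MM χ s y)
    have h6 : ‖(MM χ s y * LN χ s N - 1) + (χ.LFunction (s : ℂ) - LN χ s N) * MM χ s y‖
        ≤ ‖MM χ s y * LN χ s N - 1‖ + 2 * C * x / k := by linarith
    have h7 : (0 : ℝ) ≤ ‖(MM χ s y * LN χ s N - 1) +
        (χ.LFunction (s : ℂ) - LN χ s N) * MM χ s y‖ := norm_nonneg _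
    calc ‖(MM χ s y * LN χ s N - 1) + (χ.LFunction (s : ℂ) - LN χ s N) * MM χ s y‖ ^ 2
        ≤ (‖MM χ s y * LN χ s N - 1‖ + 2 * C * x / k) ^ 2 := pow_le_pow_left₀ h7 h6 2
      _ ≤ 2 * ‖MM χ s y * LN χ s N - 1‖ ^ 2 + 2 * (2 * C * x / k) ^ 2 := by
          nlinarith [sq_nonneg (‖MM χ s y * LN χ s N - 1‖ - 2 * C * x / k)]
      _ = 2 * ‖MM χ s y * LN χ s N - 1‖ ^ 2 + 8 * C ^ 2 * x ^ 2 / k ^ 2 := by
          field_simp
          ring
  have hb3 : ∀ χ : DirichletCharacter ℂ k, χ ≠ 1 →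
      ‖deriv χ.LFunction (s : ℂ) / χ.LFunction (s : ℂ) *
        (1 - χ.LFunction (s : ℂ) * MM χ s y)‖
        ≤ 1 / 32 + 8 * C ^ 2 * x ^ 22 * ‖1 - χ.LFunction (s : ℂ) * MM χ s y‖ ^ 2 := by
    intro χ hχ
    have h1 := (hCB k hk3 χ hχ s hs1 hs2).2.1
    rw [← hx] at h1
    have h2 := hL χ hχ
    rw [← hx] at h2
    have h3 : ‖deriv χ.LFunction (s : ℂ) / χ.LFunction (s : ℂ)‖ ≤ C * x ^ 11 := by
      rw [norm_div]
      have h4 : 0 < ‖χ.LFunction (s : ℂ)‖ := lt_of_lt_of_le (by positivity) h2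
      rw [div_le_iff₀ h4]
      calc ‖deriv χ.LFunction (s : ℂ)‖ ≤ C₀ * x ^ 2 := h1
        _ ≤ C * x ^ 2 := by gcongr
        _ = C * x ^ 11 * (1 / x ^ 9) := by field_simp
        _ ≤ C * x ^ 11 * ‖χ.LFunction (s : ℂ)‖ := by gcongr
    rw [norm_mul]
    have h5 : ‖deriv χ.LFunction (s : ℂ) / χ.LFunction (s : ℂ)‖ *
        ‖1 - χ.LFunction (s : ℂ) * MM χ s y‖
        ≤ C * x ^ 11 * ‖1 - χ.LFunction (s : ℂ) * MM χ s y‖ :=
      mul_le_mul_of_nonneg_right h3 (norm_nonneg _)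
    refine h5.trans ?_
    have h6 : 8 * C ^ 2 * x ^ 22 * ‖1 - χ.LFunction (s : ℂ) * MM χ s y‖ ^ 2
        = 8 * (C * x ^ 11 * ‖1 - χ.LFunction (s : ℂ) * MM χ s y‖) ^ 2 := by ring
    rw [h6]
    nlinarith [sq_nonneg (C * x ^ 11 * ‖1 - χ.LFunction (s : ℂ) * MM χ s y‖ - 1 / 16)]
  -- decomposition
  have hdec : ∑ χ ∈ (univ : Finset (DirichletCharacter ℂ k)).erase 1,
        deriv χ.LFunction (s : ℂ) / χ.LFunction (s : ℂ)
      = ∑ χ ∈ (univ : Finset (DirichletCharacter ℂ k)).erase 1,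
          (deriv χ.LFunction (s : ℂ) + DN χ s N) * MM χ s y
        - (∑ χ : DirichletCharacter ℂ k, MM χ s y * DN χ s N
            - MM (1 : DirichletCharacter ℂ k) s y * DN (1 : DirichletCharacter ℂ k) s N)
        + ∑ χ ∈ (univ : Finset (DirichletCharacter ℂ k)).erase 1,
          deriv χ.LFunction (s : ℂ) / χ.LFunction (s : ℂ) *
            (1 - χ.LFunction (s : ℂ) * MM χ s y) := by
    rw [← Finset.sum_erase_eq_sub (mem_univ (1 : DirichletCharacter ℂ k)),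
      ← Finset.sum_sub_distrib, ← Finset.sum_add_distrib]
    refine Finset.sum_congr rfl (fun χ hχ => ?_)
    have hne : χ ≠ 1 := Finset.ne_of_mem_erase hχ
    have h2 := hL χ hne
    have h3 : χ.LFunction (s : ℂ) ≠ 0 := by
      intro h0
      rw [h0, norm_zero, ← hx] at h2
      have : 0 < 1 / x ^ 9 := by positivity
      linarith
    field_simp
    ring
  -- the four terms
  have hA1 : ‖∑ χ ∈ (univ : Finset (DirichletCharacter ℂ k)).erase 1,
      (deriv χ.LFunction (s : ℂ) + DN χ s N) * MM χ s y‖ ≤ φk * (4 * C * x ^ 26 / R) := by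
    calc ‖∑ χ ∈ (univ : Finset (DirichletCharacter ℂ k)).erase 1,
          (deriv χ.LFunction (s : ℂ) + DN χ s N) * MM χ s y‖
        ≤ ∑ χ ∈ (univ : Finset (DirichletCharacter ℂ k)).erase 1,
          ‖(deriv χ.LFunction (s : ℂ) + DN χ s N) * MM χ s y‖ := norm_sum_le _ _
      _ ≤ ∑ χ ∈ (univ : Finset (DirichletCharacter ℂ k)).erase 1, 4 * C * x ^ 2 / k :=
          Finset.sum_le_sum (fun χ hχ => hb1 χ (Finset.ne_of_mem_erase hχ))
      _ = (((univ : Finset (DirichletCharacter ℂ k)).erase 1).card : ℝ) *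
            (4 * C * x ^ 2 / k) := by rw [Finset.sum_const, nsmul_eq_mul]
      _ ≤ φk * (4 * C * x ^ 26 / R) := by
          have h1 : x ^ 2 ≤ x ^ 26 := pow_le_pow_right₀ hx1 (by norm_num)
          gcongr
  have hA2 : ‖∑ χ : DirichletCharacter ℂ k, MM χ s y * DN χ s N‖ ≤ φk * (8 * x ^ 26 / R) := by
    have h1 := first_moment (k := k) hs1 hy1 hN1
    rw [← hφ, hlogN] at h1
    refine h1.trans (mul_le_mul_of_nonneg_left ?_ hφ0)
    have h2 : x ^ 2 ≤ x ^ 26 := pow_le_pow_right₀ hx1 (by norm_num)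
    calc 2 * x * (y * (H (y * N) / k)) ≤ 2 * x * (R * (4 * x / k)) := by gcongr
      _ = 8 * x ^ 2 / R := by
          rw [← hRR]
          field_simp
          ring
      _ ≤ 8 * x ^ 26 / R := by gcongr
  have hA3 : ‖MM (1 : DirichletCharacter ℂ k) s y * DN (1 : DirichletCharacter ℂ k) s N‖
      ≤ φk * (24 * x ^ 26 / R) := by
    rw [norm_mul]
    have h1 := norm_MM_le (1 : DirichletCharacter ℂ k) hs1 y
    have h2 := norm_DN_le (1 : DirichletCharacter ℂ k) hs1 N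
    rw [hlogN] at h2
    have h3 : x ^ 3 ≤ x ^ 26 := pow_le_pow_right₀ hx1 (by norm_num)
    calc ‖MM (1 : DirichletCharacter ℂ k) s y‖ * ‖DN (1 : DirichletCharacter ℂ k) s N‖
        ≤ (2 * x) * (2 * x * (3 * x)) := by
          refine mul_le_mul (h1.trans hHy) (h2.trans ?_) (norm_nonneg _) (by positivity)
          gcongr
      _ = R * (12 * x ^ 3 / R) := by
          field_simp
          ring
      _ ≤ (2 * φk) * (12 * x ^ 26 / R) := by gcongr
      _ = φk * (24 * x ^ 26 / R) := by ring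
  have hms : ∑ χ ∈ (univ : Finset (DirichletCharacter ℂ k)).erase 1,
      ‖1 - χ.LFunction (s : ℂ) * MM χ s y‖ ^ 2 ≤ φk * ((224 + 8 * C ^ 2) * x ^ 4 / R) := by
    have h1 := mean_square_mollified (k := k) hs1 hy1 hyN
    rw [← hφ] at h1
    have h2 : ∑ χ ∈ (univ : Finset (DirichletCharacter ℂ k)).erase 1,
        ‖MM χ s y * LN χ s N - 1‖ ^ 2
        ≤ ∑ χ : DirichletCharacter ℂ k, ‖MM χ s y * LN χ s N - 1‖ ^ 2 :=
      Finset.sum_le_sum_of_subset_of_nonneg (Finset.erase_subset _ _)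
        (fun _ _ _ => by positivity)
    have h3 : H (y * N) * H y ^ 3 / y + 2 * (H y * H N * (y * (H (y * N) / k)))
        ≤ 112 * x ^ 4 / R := by
      have h4 : H (y * N) * H y ^ 3 / y ≤ 64 * x ^ 4 / R := by
        calc H (y * N) * H y ^ 3 / y ≤ (4 * x) * (2 * x) ^ 3 / y := by gcongr
          _ = 32 * x ^ 4 / y := by ring
          _ ≤ 64 * x ^ 4 / R := by
              rw [div_le_div_iff₀ hy0 hR0]
              have : 32 * x ^ 4 * R ≤ 32 * x ^ 4 * (2 * y) := by gcongr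
              linarith
      have h5 : 2 * (H y * H N * (y * (H (y * N) / k))) ≤ 48 * x ^ 4 / R := by
        have h6 : x ^ 3 ≤ x ^ 4 := pow_le_pow_right₀ hx1 (by norm_num)
        calc 2 * (H y * H N * (y * (H (y * N) / k)))
            ≤ 2 * ((2 * x) * (3 * x) * (R * (4 * x / k))) := by gcongr
          _ = 48 * x ^ 3 / R := by
              rw [← hRR]
              field_simp
              ring
          _ ≤ 48 * x ^ 4 / R := by gcongr
      calc _ ≤ 64 * x ^ 4 / R + 48 * x ^ 4 / R := add_le_add h4 h5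
        _ = 112 * x ^ 4 / R := by ring
    calc ∑ χ ∈ (univ : Finset (DirichletCharacter ℂ k)).erase 1,
          ‖1 - χ.LFunction (s : ℂ) * MM χ s y‖ ^ 2
        ≤ ∑ χ ∈ (univ : Finset (DirichletCharacter ℂ k)).erase 1,
          (2 * ‖MM χ s y * LN χ s N - 1‖ ^ 2 + 8 * C ^ 2 * x ^ 2 / k ^ 2) :=
          Finset.sum_le_sum (fun χ hχ => hb2 χ (Finset.ne_of_mem_erase hχ))
      _ = 2 * ∑ χ ∈ (univ : Finset (DirichletCharacter ℂ k)).erase 1,
            ‖MM χ s y * LN χ s N - 1‖ ^ 2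
          + (((univ : Finset (DirichletCharacter ℂ k)).erase 1).card : ℝ) *
            (8 * C ^ 2 * x ^ 2 / k ^ 2) := by
          rw [Finset.sum_add_distrib, ← Finset.mul_sum, Finset.sum_const, nsmul_eq_mul]
      _ ≤ 2 * (φk * (112 * x ^ 4 / R)) + φk * (8 * C ^ 2 * x ^ 4 / R) := by
          have h6 : x ^ 2 ≤ x ^ 4 := pow_le_pow_right₀ hx1 (by norm_num)
          have h7 : R ≤ (k : ℝ) ^ 2 := by nlinarith
          have h8 : ∑ χ : DirichletCharacter ℂ k, ‖MM χ s y * LN χ s N - 1‖ ^ 2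
              ≤ φk * (112 * x ^ 4 / R) :=
            h1.trans (mul_le_mul_of_nonneg_left h3 hφ0)
          have h9 := h2.trans h8
          gcongr
      _ = φk * ((224 + 8 * C ^ 2) * x ^ 4 / R) := by ring
  have hA4 : ‖∑ χ ∈ (univ : Finset (DirichletCharacter ℂ k)).erase 1,
      deriv χ.LFunction (s : ℂ) / χ.LFunction (s : ℂ) *
        (1 - χ.LFunction (s : ℂ) * MM χ s y)‖
      ≤ φk * (1 / 32) + φk * (8 * C ^ 2 * (224 + 8 * C ^ 2) * x ^ 26 / R) := by
    calc ‖∑ χ ∈ (univ : Finset (DirichletCharacter ℂ k)).erase 1,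
          deriv χ.LFunction (s : ℂ) / χ.LFunction (s : ℂ) *
            (1 - χ.LFunction (s : ℂ) * MM χ s y)‖
        ≤ ∑ χ ∈ (univ : Finset (DirichletCharacter ℂ k)).erase 1,
          ‖deriv χ.LFunction (s : ℂ) / χ.LFunction (s : ℂ) *
            (1 - χ.LFunction (s : ℂ) * MM χ s y)‖ := norm_sum_le _ _
      _ ≤ ∑ χ ∈ (univ : Finset (DirichletCharacter ℂ k)).erase 1,
          (1 / 32 + 8 * C ^ 2 * x ^ 22 * ‖1 - χ.LFunction (s : ℂ) * MM χ s y‖ ^ 2) :=
          Finset.sum_le_sum (fun χ hχ => hb3 χ (Finset.ne_of_mem_erase hχ))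
      _ = (((univ : Finset (DirichletCharacter ℂ k)).erase 1).card : ℝ) * (1 / 32)
          + 8 * C ^ 2 * x ^ 22 * ∑ χ ∈ (univ : Finset (DirichletCharacter ℂ k)).erase 1,
            ‖1 - χ.LFunction (s : ℂ) * MM χ s y‖ ^ 2 := by
          rw [Finset.sum_add_distrib, ← Finset.mul_sum, Finset.sum_const, nsmul_eq_mul]
      _ ≤ φk * (1 / 32) + 8 * C ^ 2 * x ^ 22 * (φk * ((224 + 8 * C ^ 2) * x ^ 4 / R)) := by
          gcongr
      _ = φk * (1 / 32) + φk * (8 * C ^ 2 * (224 + 8 * C ^ 2) * x ^ 26 / R) := by ring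
  rw [hdec]
  have hfin : ‖∑ χ ∈ (univ : Finset (DirichletCharacter ℂ k)).erase 1,
          (deriv χ.LFunction (s : ℂ) + DN χ s N) * MM χ s y
        - (∑ χ : DirichletCharacter ℂ k, MM χ s y * DN χ s N
            - MM (1 : DirichletCharacter ℂ k) s y * DN (1 : DirichletCharacter ℂ k) s N)
        + ∑ χ ∈ (univ : Finset (DirichletCharacter ℂ k)).erase 1,
          deriv χ.LFunction (s : ℂ) / χ.LFunction (s : ℂ) *
            (1 - χ.LFunction (s : ℂ) * MM χ s y)‖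
      ≤ φk * (4 * C * x ^ 26 / R) + (φk * (8 * x ^ 26 / R) + φk * (24 * x ^ 26 / R))
        + (φk * (1 / 32) + φk * (8 * C ^ 2 * (224 + 8 * C ^ 2) * x ^ 26 / R)) := by
    refine (norm_add_le _ _).trans (add_le_add ?_ hA4)
    refine (norm_sub_le _ _).trans (add_le_add hA1 ?_)
    exact (norm_sub_le _ _).trans (add_le_add hA2 hA3)
  refine hfin.trans ?_
  have e : φk * (4 * C * x ^ 26 / R) + (φk * (8 * x ^ 26 / R) + φk * (24 * x ^ 26 / R))
        + (φk * (1 / 32) + φk * (8 * C ^ 2 * (224 + 8 * C ^ 2) * x ^ 26 / R))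
      = φk * (1 / 32 + B * x ^ 26 / R) := by
    rw [hB]
    ring
  rw [e]
  have h1 : B * x ^ 26 / R ≤ 1 / 32 := by
    rw [div_le_div_iff₀ hR0 (by norm_num)]
    linarith
  have h2 : 1 / 32 + B * x ^ 26 / R ≤ 1 / 8 := by linarith
  calc φk * (1 / 32 + B * x ^ 26 / R) ≤ φk * (1 / 8) := mul_le_mul_of_nonneg_left h2 hφ0
    _ = φk / 8 := by ring

end Pool.Agent.PnMn
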