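import Mathlib
import Pool.Agent.PnMn.Defs

set_option autoImplicit false

/-!
# Task T-H: the uniform Mertens theorem and many primes
-/

namespace Pool.Agent.PnMn

namespace TH

section partOne

open Finset Complex DirichletCharacter ArithmeticFunction ArithmeticFunction.vonMangoldt

open scoped Classical

lemma residueClass_one_zmodOne (n : ℕ) :
    residueClass (1 : ZMod 1) n = vonMangoldt n := by
  have : (n : ZMod 1) = 1 := Subsingleton.elim _ _
  simp [residueClass, this]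

/-- `∑ Λ(n)/n^x` as a real number equals the real part of `-ζ'/ζ`. -/
lemma neg_logDeriv_zeta (x : ℝ) (hx : 1 < x) :
    (-(deriv riemannZeta (x : ℂ) / riemannZeta (x : ℂ))) =
      ((∑' n : ℕ, vonMangoldt n / (n : ℝ) ^ x : ℝ) : ℂ) := by
  have hx' : 1 < (x : ℂ).re := by simpa using hx
  rw [← neg_div, ← LSeries_vonMangoldt_eq_deriv_riemannZeta_div hx']
  rw [LSeries, ofReal_tsum]
  refine tsum_congr fun n => ?_
  rcases eq_or_ne n 0 with rfl | hn
  · simp
  · rw [LSeries.term_of_ne_zero hn, ofReal_div, ofReal_cpow n.cast_nonneg, ofReal_natCast]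

lemma zeta_lower : ∃ C : ℝ, 0 ≤ C ∧ ∀ x : ℝ, 1 < x → x ≤ 2 →
    1 / (x - 1) - C ≤ (-(deriv riemannZeta (x : ℂ) / riemannZeta (x : ℂ))).re := by
  obtain ⟨C, hC⟩ := LSeries_residueClass_lower_bound (q := 1) (a := 1) isUnit_one
  refine ⟨max C 0, le_max_right _ _, fun x h1 h2 => ?_⟩
  rw [neg_logDeriv_zeta x h1, ofReal_re]
  have h := hC (x := x) ⟨h1, h2⟩
  simp only [residueClass_one_zmodOne] at h
  have h3 := le_max_left C 0
  simp only [Nat.totient_one, Nat.cast_one, inv_one] at h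
  linarith

lemma factor_ne_zero (p : ℕ) (hp : p.Prime) (x : ℝ) (hx : 1 < x) :
    (1 - (p : ℂ) ^ (-(x : ℂ))) ≠ 0 := by
  intro h
  have h1 : (p : ℂ) ^ (-(x : ℂ)) = 1 := by
    rw [sub_eq_zero] at h; exact h.symm
  have h2 : ‖(p : ℂ) ^ (-(x : ℂ))‖ = (p : ℝ) ^ (-x) := by
    rw [norm_natCast_cpow_of_pos hp.pos]; simp
  rw [h1, norm_one] at h2
  have h3 : (p : ℝ) ^ (-x) < 1 := by
    apply Real.rpow_lt_one_of_one_lt_of_neg
    · exact_mod_cast hp.one_lt
    · linarith
  linarith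

lemma logDeriv_factor (p : ℕ) (hp : p.Prime) (x : ℝ) :
    deriv (fun s : ℂ => 1 - (p : ℂ) ^ (-s)) (x : ℂ) =
      Complex.log p * (p : ℂ) ^ (-(x : ℂ)) := by
  have hp0 : (p : ℂ) ≠ 0 := by exact_mod_cast hp.ne_zero
  have h1 : HasDerivAt (fun s : ℂ => (p : ℂ) ^ (-s))
      ((p : ℂ) ^ (-(x : ℂ)) * Complex.log p * (-1)) (x : ℂ) :=
    HasDerivAt.const_cpow (hasDerivAt_neg (x : ℂ)) (Or.inl hp0)
  have h2 := (h1.const_sub 1).deriv
  rw [h2]; ring

lemma principal_lower : ∃ C : ℝ, 0 ≤ C ∧ ∀ (k : ℕ) [NeZero k] (x : ℝ), 1 < x → x ≤ 2 →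
    1 / (x - 1) - C - Real.log k ≤
      (-(deriv (LFunction (1 : DirichletCharacter ℂ k)) (x : ℂ) /
        LFunction (1 : DirichletCharacter ℂ k) (x : ℂ))).re := by
  obtain ⟨C, hC0, hC⟩ := zeta_lower
  refine ⟨C, hC0, fun k _ x h1 h2 => ?_⟩
  have hx1 : (x : ℂ) ≠ 1 := by
    intro h
    have : x = 1 := by exact_mod_cast h
    linarith
  have hx' : 1 < (x : ℂ).re := by simpa using h1
  have heq : (LFunction (1 : DirichletCharacter ℂ k)) =ᶠ[nhds (x : ℂ)]
      fun s => (∏ p ∈ k.primeFactors, (1 - (p : ℂ) ^ (-s))) * riemannZeta s := by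
    have : ∀ᶠ s in nhds (x : ℂ), s ≠ 1 := isOpen_ne.mem_nhds hx1
    filter_upwards [this] with s hs
    exact LFunctionTrivChar_eq_mul_riemannZeta hs
  have hL := logDeriv_congr_nhds heq
  have hL1 : deriv (LFunction (1 : DirichletCharacter ℂ k)) (x : ℂ) /
        LFunction (1 : DirichletCharacter ℂ k) (x : ℂ) =
        logDeriv (fun s : ℂ => (∏ p ∈ k.primeFactors, (1 - (p : ℂ) ^ (-s))) * riemannZeta s)
          (x : ℂ) := by
    rw [← hL.eq_of_nhds]; rfl
  have hdf : ∀ p ∈ k.primeFactors, DifferentiableAt ℂ (fun s : ℂ => 1 - (p : ℂ) ^ (-s)) (x : ℂ) := by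
    intro p hp
    have hp' := Nat.prime_of_mem_primeFactors hp
    have hp0 : (p : ℂ) ≠ 0 := by exact_mod_cast hp'.ne_zero
    exact ((HasDerivAt.const_cpow (hasDerivAt_neg (x : ℂ)) (Or.inl hp0)).const_sub 1).differentiableAt
  have hne : ∀ p ∈ k.primeFactors, (1 - (p : ℂ) ^ (-(x : ℂ))) ≠ 0 := fun p hp =>
    factor_ne_zero p (Nat.prime_of_mem_primeFactors hp) x h1
  rw [hL1]
  rw [logDeriv_mul (x : ℂ) (Finset.prod_ne_zero_iff.mpr hne) (riemannZeta_ne_zero_of_one_le_re hx'.le)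
    (DifferentiableAt.fun_finsetProd hdf) (differentiableAt_riemannZeta hx1)]
  have h3 := logDeriv_prod (s := k.primeFactors) (f := fun (p : ℕ) (s : ℂ) => 1 - (p : ℂ) ^ (-s))
    (x := (x : ℂ)) hne hdf
  rw [h3]
  have h4 : ∀ p ∈ k.primeFactors,
      (logDeriv (fun s : ℂ => 1 - (p : ℂ) ^ (-s)) (x : ℂ)).re ≤ Real.log p := by
    intro p hp
    have hp' := Nat.prime_of_mem_primeFactors hp
    have hp2 : (2 : ℝ) ≤ p := by exact_mod_cast hp'.two_le
    have e1 : (p : ℂ) ^ (-(x : ℂ)) = (((p : ℝ) ^ (-x) : ℝ) : ℂ) := by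
      rw [ofReal_cpow (Nat.cast_nonneg p)]; simp
    have e2 : Complex.log (p : ℂ) = ((Real.log p : ℝ) : ℂ) := by
      rw [← natCast_log]
    rw [logDeriv_apply, logDeriv_factor p hp' x, e1, e2]
    have e3 : (((Real.log p : ℝ) : ℂ) * (((p : ℝ) ^ (-x) : ℝ) : ℂ) /
        (1 - (((p : ℝ) ^ (-x) : ℝ) : ℂ))) =
        ((Real.log p * (p : ℝ) ^ (-x) / (1 - (p : ℝ) ^ (-x)) : ℝ) : ℂ) := by
      push_cast; ring
    rw [e3, ofReal_re]
    have h5 : (p : ℝ) ^ (-x) ≤ 1 / 2 := by
      calc (p : ℝ) ^ (-x) ≤ (p : ℝ) ^ (-1 : ℝ) := by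
            apply Real.rpow_le_rpow_of_exponent_le (by linarith) (by linarith)
        _ = (p : ℝ)⁻¹ := Real.rpow_neg_one _
        _ ≤ 1 / 2 := by
            rw [one_div]
            exact inv_anti₀ (by norm_num) hp2
    have h6 : 0 < (p : ℝ) ^ (-x) := Real.rpow_pos_of_pos (by linarith) _
    have h7 : 0 ≤ Real.log p := Real.log_nonneg (by linarith)
    rw [div_le_iff₀ (by linarith)]
    nlinarith
  have h5 : (∑ p ∈ k.primeFactors, logDeriv (fun s : ℂ => 1 - (p : ℂ) ^ (-s)) (x : ℂ)).re ≤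
      Real.log k := by
    rw [re_sum]
    refine (Finset.sum_le_sum h4).trans ?_
    rw [← Real.log_prod (s := k.primeFactors) (f := fun p : ℕ => (p : ℝ))]
    · have hk := Nat.prod_primeFactors_dvd k
      have hk1 := Nat.le_of_dvd (Nat.pos_of_ne_zero (NeZero.ne k)) hk
      apply Real.log_le_log
      · exact Finset.prod_pos fun p hp => by
          exact_mod_cast (Nat.prime_of_mem_primeFactors hp).pos
      · rw [← Nat.cast_prod]
        exact_mod_cast hk1
    · intro p hp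
      exact_mod_cast (Nat.prime_of_mem_primeFactors hp).ne_zero
  have h6 := hC x h1 h2
  have h7 : (logDeriv riemannZeta (x : ℂ)) = deriv riemannZeta (x : ℂ) / riemannZeta (x : ℂ) := rfl
  rw [h7, neg_add, add_re, neg_re]
  linarith

lemma tsum_eq (k : ℕ) [NeZero k] (x : ℝ) (hx : 1 < x) :
    ((∑' n : ℕ, residueClass (1 : ZMod k) n / (n : ℝ) ^ x : ℝ) : ℂ) =
      -(k.totient : ℂ)⁻¹ * ∑ χ : DirichletCharacter ℂ k,
        (deriv (LFunction χ) (x : ℂ) / LFunction χ (x : ℂ)) := by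
  have hx' : 1 < (x : ℂ).re := by simpa using hx
  have h := LSeries_residueClass_eq (q := k) (a := 1) isUnit_one hx'
  have h1 : ∀ χ : DirichletCharacter ℂ k, χ ((1 : ZMod k)⁻¹) = 1 := by
    intro χ
    rw [ZMod.inv_one, map_one]
  simp only [h1, one_mul] at h
  rw [← h, LSeries, ofReal_tsum]
  refine tsum_congr fun n => ?_
  rcases eq_or_ne n 0 with rfl | hn
  · simp
  · rw [LSeries.term_of_ne_zero hn, ofReal_div, ofReal_cpow n.cast_nonneg, ofReal_natCast]

theorem uniformMertens_aux (hG : GoodModuli) (hL : LogDerivSum) : UniformMertens := by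
  obtain ⟨K₀, hG⟩ := hG
  obtain ⟨k₀, hL⟩ := hL
  obtain ⟨C, hC0, hC⟩ := principal_lower
  have hlog : ∀ᶠ K : ℕ in Filter.atTop, C + Real.log K ≤ K / 8 := by
    have h1 := (Real.isLittleO_log_id_atTop.comp_tendsto
      (tendsto_natCast_atTop_atTop (R := ℝ))).bound (show (0 : ℝ) < 1 / 16 by norm_num)
    have h2 : ∀ᶠ K : ℕ in Filter.atTop, C * 16 ≤ (K : ℝ) :=
      (tendsto_natCast_atTop_atTop (R := ℝ)).eventually_ge_atTop _
    filter_upwards [h1, h2] with K h3 h4
    simp only [Function.comp_apply, id_eq, Real.norm_eq_abs, Nat.abs_cast] at h3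
    have := (abs_le.mp h3).2
    linarith
  obtain ⟨K₁, hK₁⟩ := Filter.eventually_atTop.mp hlog
  refine ⟨max (max K₀ K₁) (2 * max k₀ ⌈Real.exp 256⌉₊ + 2), fun K hK δ hδ0 hδ1 => ?_⟩
  have hKK₀ : K₀ ≤ K := (le_max_left _ _).trans ((le_max_left _ _).trans hK)
  have hKK₁ : K₁ ≤ K := (le_max_right _ _).trans ((le_max_left _ _).trans hK)
  have hKb : 2 * max k₀ ⌈Real.exp 256⌉₊ + 2 ≤ K := (le_max_right _ _).trans hK
  obtain ⟨S, hS1, hS2, hS3⟩ := hG K hKK₀ δ hδ0 hδ1
  refine ⟨S, hS1, hS2, fun k hk => ?_⟩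
  have hkm := Finset.mem_Ioc.mp (hS1 hk)
  have hk0 : max k₀ ⌈Real.exp 256⌉₊ + 1 ≤ k := by
    have : max k₀ ⌈Real.exp 256⌉₊ + 1 ≤ K / 2 := by omega
    omega
  have hkk₀ : k₀ ≤ k := by have := le_max_left k₀ ⌈Real.exp 256⌉₊; omega
  have hkexp : Real.exp 256 ≤ k := by
    have h1 : ⌈Real.exp 256⌉₊ ≤ k := by have := le_max_right k₀ ⌈Real.exp 256⌉₊; omega
    exact (Nat.le_ceil _).trans (by exact_mod_cast h1)
  have hkpos : 0 < k := by omega
  have : NeZero k := ⟨hkpos.ne'⟩
  have hkR : (0 : ℝ) < k := by exact_mod_cast hkpos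
  have hkKR : (k : ℝ) ≤ K := by exact_mod_cast hkm.2
  have hKR : (0 : ℝ) < K := lt_of_lt_of_le hkR hkKR
  have hlogk : 256 ≤ Real.log k := by
    rw [Real.le_log_iff_exp_le hkR]; exact hkexp
  have hlogK : Real.log K ≤ 2 * Real.log k := by
    have h1 : (K : ℝ) ≤ (k : ℝ) ^ 2 := by
      have h2 : K ≤ k ^ 2 := by
        have h3 : K ≤ 2 * k := by omega
        have h4 : 2 ≤ k := by omega
        nlinarith
      exact_mod_cast h2
    calc Real.log K ≤ Real.log ((k : ℝ) ^ 2) := Real.log_le_log hKR h1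
      _ = 2 * Real.log k := by rw [Real.log_pow]; norm_num
  have hlogK0 : 0 < Real.log K := by
    have : Real.log k ≤ Real.log K := Real.log_le_log hkR hkKR
    linarith
  have hδk : δ ≤ 1 / k := hδ1.trans (one_div_le_one_div_of_le hkR hkKR)
  have hcond : ∀ χ : DirichletCharacter ℂ k, χ ≠ 1 →
      1 / (Real.log k) ^ 9 ≤ ‖χ.LFunction ((1 + δ : ℝ) : ℂ)‖ := by
    intro χ hχ
    refine le_trans ?_ (hS3 k hk χ hχ)
    apply one_div_le_one_div_of_le (by positivity)
    calc Real.log K ^ 8 ≤ (2 * Real.log k) ^ 8 := by gcongr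
      _ = 256 * Real.log k ^ 8 := by ring
      _ ≤ Real.log k * Real.log k ^ 8 := by gcongr
      _ = Real.log k ^ 9 := by ring
  have hsum := hL k hkk₀ δ hδ0 hδk hcond
  have hk1 : (1 : ℝ) ≤ k := by exact_mod_cast hkpos
  have hδ1' : δ ≤ 1 := hδk.trans (by rw [div_le_one hkR]; exact hk1)
  have hprin := hC k (1 + δ) (by linarith) (by linarith)
  have heq := tsum_eq k (1 + δ) (by linarith)
  set T : ℝ := ∑' n : ℕ, residueClass (1 : ZMod k) n / (n : ℝ) ^ (1 + δ) with hT
  have hφpos : (0 : ℝ) < k.totient := by exact_mod_cast Nat.totient_pos.mpr hkpos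
  have hφle : (k.totient : ℝ) ≤ k := by exact_mod_cast Nat.totient_le k
  rw [← Finset.add_sum_erase Finset.univ _ (Finset.mem_univ (1 : DirichletCharacter ℂ k))] at heq
  set A : ℂ := deriv (LFunction (1 : DirichletCharacter ℂ k)) ((1 + δ : ℝ) : ℂ) /
        LFunction (1 : DirichletCharacter ℂ k) ((1 + δ : ℝ) : ℂ) with hA
  set B : ℂ := ∑ χ ∈ (Finset.univ : Finset (DirichletCharacter ℂ k)).erase 1,
        deriv χ.LFunction ((1 + δ : ℝ) : ℂ) / χ.LFunction ((1 + δ : ℝ) : ℂ) with hB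
  have hTre : T * k.totient = (-A).re - B.re := by
    have h1 : ((T * k.totient : ℝ) : ℂ) = -A - B := by
      have hφC : (k.totient : ℂ) ≠ 0 := by
        intro h
        have : (k.totient : ℝ) = 0 := by exact_mod_cast h
        linarith
      rw [ofReal_mul, heq, ofReal_natCast]
      field_simp
      ring
    have h2 := congrArg Complex.re h1
    rw [ofReal_re] at h2
    rw [h2, sub_re]
  have hBre : B.re ≤ k.totient / 8 := (Complex.re_le_norm B).trans hsum
  have hKc := hK₁ K hKK₁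
  have hinvδ : (K : ℝ) ≤ 1 / δ := by
    rw [le_div_iff₀ hδ0]
    rw [le_div_iff₀ hKR] at hδ1
    linarith
  have hlogkK : Real.log k ≤ Real.log K := Real.log_le_log hkR hkKR
  have hmain : 1 / δ * (7 / 8) - k.totient / 8 ≤ T * k.totient := by
    rw [hTre]
    have : (1 : ℝ) + δ - 1 = δ := by ring
    rw [this] at hprin
    linarith
  have h8 : (k.totient : ℝ) / 8 ≤ 1 / δ * (1 / 8) := by
    have : (k.totient : ℝ) ≤ 1 / δ := hφle.trans (hkKR.trans hinvδ)
    linarith
  have h9 : 1 / δ * (3 / 4) ≤ T * k.totient := by linarith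
  have hδi : 0 < 1 / δ := by positivity
  have hT0 : 0 < T := by
    by_contra hcon
    push Not at hcon
    nlinarith
  have h10 : 1 / δ * (3 / 4) ≤ T * k := h9.trans (mul_le_mul_of_nonneg_left hφle hT0.le)
  have h11 : 1 / (2 * δ * k) = (1 / δ * (1 / 2)) / k := by field_simp
  rw [h11, div_le_iff₀ hkR]
  linarith

end partOne

section partTwo

open Finset ArithmeticFunction ArithmeticFunction.vonMangoldt

open scoped Classical

/-- The number of pairs `(k, n)` with `k ∈ (K/2, K]`, `n ∈ blk J` and `k n + 1` prime. -/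
noncomputable def FF (K J : ℕ) : ℝ :=
  ((((Finset.Ioc (K / 2) K) ×ˢ (blk J)).filter
          (fun kn : ℕ × ℕ => (kn.1 * kn.2 + 1).Prime)).card : ℝ)

lemma FF_eq (K J : ℕ) : FF K J =
    ∑ k ∈ Finset.Ioc (K / 2) K, ∑ n ∈ blk J, if (k * n + 1).Prime then (1 : ℝ) else 0 := by
  unfold FF
  rw [Finset.card_filter, Finset.sum_product]
  push_cast
  rfl

lemma FF_nonneg (K J : ℕ) : 0 ≤ FF K J := Nat.cast_nonneg _

lemma wt_zero (n : ℕ) : wt 0 n = 1 := by
  have : omA (2 ^ 0) n = 0 := by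
    unfold omA
    rw [List.length_eq_zero_iff, List.filter_eq_nil_iff]
    intro p hp
    have := (Nat.prime_of_mem_primeFactorsList hp).two_le
    simp only [pow_zero, decide_eq_true_eq, not_le]
    omega
  rw [wt, this, pow_zero]

lemma tq_nonneg (n : ℕ) : 0 ≤ tq n := by unfold tq; positivity

lemma FF_bound (h2 : SieveOne) (h3 : AvgTotient) :
    ∃ C : ℝ, 0 < C ∧ ∀ K J : ℕ, 1 ≤ J → FF K J ≤ C * K * 2 ^ J / J := by
  obtain ⟨C1, hC1, h2⟩ := h2
  obtain ⟨C2, hC2, h3⟩ := h3 1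
  refine ⟨C1 * C2, by positivity, fun K J hJ => ?_⟩
  have hJ' : (0 : ℝ) < J := by exact_mod_cast hJ
  rw [FF_eq]
  have hk : ∀ k ∈ Finset.Ioc (K / 2) K, (∑ n ∈ blk J, if (k * n + 1).Prime then (1 : ℝ) else 0) ≤
      C1 * (2 ^ J / J) * tq k := by
    intro k hk
    have hk1 : 1 ≤ k := by have := (Finset.mem_Ioc.mp hk).1; omega
    have h := h2 0 k J hk1 hJ
    simp only [wt_zero] at h
    rw [Finset.sum_filter] at h
    refine h.trans (le_of_eq ?_)
    simp
    field_simp
  refine (Finset.sum_le_sum hk).trans ?_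
  rw [← Finset.mul_sum]
  have h4 : ∑ k ∈ Finset.Ioc (K / 2) K, tq k ≤ C2 * K := by
    refine le_trans ?_ (h3 K)
    simp only [pow_one]
    refine Finset.sum_le_sum_of_subset_of_nonneg ?_ (fun k _ _ => tq_nonneg k)
    intro k hk
    have := Finset.mem_Ioc.mp hk
    exact Finset.mem_Icc.mpr ⟨by omega, this.2⟩
  calc C1 * (2 ^ J / J) * ∑ k ∈ Finset.Ioc (K / 2) K, tq k
      ≤ C1 * (2 ^ J / J) * (C2 * K) := by gcongr
    _ = C1 * C2 * K * 2 ^ J / J := by ring

lemma FF_zero_le (K : ℕ) : FF K 0 ≤ K := by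
  rw [FF_eq]
  have : ∀ k ∈ Finset.Ioc (K / 2) K,
      (∑ n ∈ blk 0, if (k * n + 1).Prime then (1 : ℝ) else 0) ≤ 1 := by
    intro k _
    have : blk 0 = {1} := by unfold blk; decide
    rw [this, Finset.sum_singleton]
    split_ifs <;> norm_num
  refine (Finset.sum_le_sum this).trans ?_
  rw [Finset.sum_const, nsmul_eq_mul, mul_one, Nat.card_Ioc]
  exact_mod_cast Nat.sub_le _ _

lemma sum_Ico_blk (f : ℕ → ℝ) (M : ℕ) :
    ∑ m ∈ Finset.Ico 1 (2 ^ M), f m = ∑ J ∈ Finset.range M, ∑ m ∈ blk J, f m := by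
  induction M with
  | zero => simp
  | succ M ih =>
    rw [Finset.sum_range_succ, ← ih, blk]
    rw [Finset.sum_Ico_consecutive]
    · exact Nat.one_le_two_pow
    · exact Nat.pow_le_pow_right (by norm_num) (by omega)

/-- weight of the block `J`. -/
noncomputable def ww (K : ℕ) (δ : ℝ) (J : ℕ) : ℝ :=
  (J + 1 + Real.log K) * (1 / 2) ^ J * ((1 / 2 : ℝ) ^ δ) ^ J

lemma ww_nonneg (K : ℕ) (hK : 1 ≤ K) (δ : ℝ) (J : ℕ) : 0 ≤ ww K δ J := by
  unfold ww
  have : 0 ≤ Real.log K := Real.log_nonneg (by exact_mod_cast hK)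
  positivity

lemma term_le (K k J m : ℕ) (δ : ℝ) (hδ : 0 < δ) (hk : 1 ≤ k) (hkK : k ≤ K) (hm : m ∈ blk J) :
    (k : ℝ) * (Real.log ((k * m + 1 : ℕ) : ℝ) / ((k * m + 1 : ℕ) : ℝ) ^ (1 + δ)) ≤ ww K δ J := by
  have hm1 := (Finset.mem_Ico.mp hm).1
  have hm2 := (Finset.mem_Ico.mp hm).2
  have h2J : (1 : ℝ) ≤ 2 ^ J := one_le_pow₀ (by norm_num)
  have hm1R : (2 : ℝ) ^ J ≤ m := by exact_mod_cast hm1
  have hmpos : (0 : ℝ) < m := by linarith
  have hkR : (1 : ℝ) ≤ k := by exact_mod_cast hk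
  have hkpos : (0 : ℝ) < k := by linarith
  have hKR : (1 : ℝ) ≤ K := by exact_mod_cast (hk.trans hkK)
  have hN : k * m + 1 ≤ K * 2 ^ (J + 1) := by
    have h1 : k * m ≤ K * m := Nat.mul_le_mul_right _ hkK
    have h3 : K * (m + 1) ≤ K * 2 ^ (J + 1) := Nat.mul_le_mul_left _ hm2
    have h4 : 1 ≤ K := hk.trans hkK
    nlinarith
  have hNR : ((k * m + 1 : ℕ) : ℝ) ≤ K * 2 ^ (J + 1) := by exact_mod_cast hN
  have hNpos : (1 : ℝ) ≤ ((k * m + 1 : ℕ) : ℝ) := by push_cast; nlinarith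
  have hlog : Real.log ((k * m + 1 : ℕ) : ℝ) ≤ J + 1 + Real.log K := by
    calc Real.log ((k * m + 1 : ℕ) : ℝ) ≤ Real.log (K * 2 ^ (J + 1)) :=
          Real.log_le_log (by linarith) hNR
      _ = Real.log K + (J + 1) * Real.log 2 := by
          rw [Real.log_mul (by positivity) (by positivity), Real.log_pow]; push_cast; ring
      _ ≤ J + 1 + Real.log K := by
          have h5 : Real.log 2 ≤ 1 := by
            have := Real.log_two_lt_d9; linarith
          have h6 : (0 : ℝ) ≤ J + 1 := by positivity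
          nlinarith
  have hlog0 : 0 ≤ Real.log ((k * m + 1 : ℕ) : ℝ) := Real.log_nonneg hNpos
  have hpow : (k : ℝ) * (2 ^ J * ((2 : ℝ) ^ δ) ^ J) ≤ ((k * m + 1 : ℕ) : ℝ) ^ (1 + δ) := by
    have h7 : (k : ℝ) * 2 ^ J ≤ ((k * m + 1 : ℕ) : ℝ) := by push_cast; nlinarith
    have h8 : ((2 : ℝ) ^ δ) ^ J = ((2 : ℝ) ^ J) ^ δ := by
      rw [← Real.rpow_natCast, ← Real.rpow_mul (by norm_num), mul_comm,
        Real.rpow_mul (by norm_num), Real.rpow_natCast]
    calc (k : ℝ) * (2 ^ J * ((2 : ℝ) ^ δ) ^ J) = ((k : ℝ) * 2 ^ J) * ((2 : ℝ) ^ J) ^ δ := by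
          rw [h8]; ring
      _ ≤ ((k * m + 1 : ℕ) : ℝ) * (((k * m + 1 : ℕ) : ℝ)) ^ δ := by
          have h9 : (2 : ℝ) ^ J ≤ ((k * m + 1 : ℕ) : ℝ) := by nlinarith
          gcongr
      _ = ((k * m + 1 : ℕ) : ℝ) ^ (1 + δ) := by
          rw [Real.rpow_add (by linarith), Real.rpow_one]
  have hq : 0 < (2 : ℝ) ^ J * ((2 : ℝ) ^ δ) ^ J := by positivity
  calc (k : ℝ) * (Real.log ((k * m + 1 : ℕ) : ℝ) / ((k * m + 1 : ℕ) : ℝ) ^ (1 + δ))
      ≤ (k : ℝ) * ((J + 1 + Real.log K) / ((k : ℝ) * (2 ^ J * ((2 : ℝ) ^ δ) ^ J))) := by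
        gcongr
    _ = (J + 1 + Real.log K) / (2 ^ J * ((2 : ℝ) ^ δ) ^ J) := by
        field_simp
    _ = ww K δ J := by
        unfold ww
        have h10 : ((1 / 2 : ℝ) ^ δ) = ((2 : ℝ) ^ δ)⁻¹ := by
          rw [one_div, Real.inv_rpow (by norm_num)]
        rw [h10, one_div, inv_pow, inv_pow, div_eq_mul_inv, mul_inv]
        ring

lemma one_k_bound (k M : ℕ) (hk : 2 ≤ k) (δ : ℝ) :
    ∑ n ∈ Finset.range M,
      (if n.Prime then residueClass (1 : ZMod k) n else 0) / (n : ℝ) ^ (1 + δ) ≤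
    ∑ m ∈ Finset.Ico 1 (2 ^ M), if (k * m + 1).Prime then
      Real.log ((k * m + 1 : ℕ) : ℝ) / ((k * m + 1 : ℕ) : ℝ) ^ (1 + δ) else 0 := by
  set A : Finset ℕ := (Finset.range M).filter (fun n : ℕ => n.Prime ∧ (n : ZMod k) = 1) with hA
  have h1 : ∑ n ∈ Finset.range M,
      (if n.Prime then residueClass (1 : ZMod k) n else 0) / (n : ℝ) ^ (1 + δ) =
      ∑ n ∈ A, Real.log n / (n : ℝ) ^ (1 + δ) := by
    rw [hA, Finset.sum_filter]
    refine Finset.sum_congr rfl fun n _ => ?_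
    by_cases hp : n.Prime
    · by_cases hc : (n : ZMod k) = 1
      · simp [hp, hc, residueClass, vonMangoldt_apply_prime hp]
      · simp [hp, hc, residueClass]
    · simp [hp]
  rw [h1]
  have hdecomp : ∀ n ∈ A, k * ((n - 1) / k) + 1 = n ∧ 1 ≤ (n - 1) / k ∧ (n - 1) / k < M := by
    intro n hn
    obtain ⟨hn1, hn2, hn3⟩ := by simpa [hA] using hn
    have hn1' : 1 < n := hn2.one_lt
    have hdvd : k ∣ n - 1 := by
      have : (n : ZMod k) = ((1 : ℕ) : ZMod k) := by rw [hn3]; simp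
      rw [ZMod.natCast_eq_natCast_iff] at this
      exact (Nat.modEq_iff_dvd' (by omega)).mp this.symm
    have h3 : k * ((n - 1) / k) = n - 1 := Nat.mul_div_cancel' hdvd
    refine ⟨by omega, ?_, ?_⟩
    · rcases Nat.eq_zero_or_pos ((n - 1) / k) with h0 | h0
      · rw [h0] at h3; omega
      · exact h0
    · have := Nat.div_le_self (n - 1) k
      omega
  set G : ℕ → ℝ := fun m => if (k * m + 1).Prime then
      Real.log ((k * m + 1 : ℕ) : ℝ) / ((k * m + 1 : ℕ) : ℝ) ^ (1 + δ) else 0 with hG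
  have hG0 : ∀ m, 0 ≤ G m := by
    intro m
    rw [hG]
    dsimp only
    split_ifs
    · have : 0 ≤ Real.log ((k * m + 1 : ℕ) : ℝ) := Real.log_natCast_nonneg _
      positivity
    · exact le_refl _
  have h2 : ∑ n ∈ A, Real.log n / (n : ℝ) ^ (1 + δ) = ∑ n ∈ A, G ((n - 1) / k) := by
    refine Finset.sum_congr rfl fun n hn => ?_
    have h3 := (hdecomp n hn).1
    rw [hG]
    dsimp only
    rw [h3]
    have hp : n.Prime := by
      have := (Finset.mem_filter.mp (hA ▸ hn)).2.1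
      exact this
    rw [if_pos hp]
  rw [h2]
  have hinj : Set.InjOn (fun n => (n - 1) / k) (A : Set ℕ) := by
    intro a ha b hb hab
    have h3 := (hdecomp a ha).1
    have h4 := (hdecomp b hb).1
    dsimp only at hab
    rw [hab] at h3
    omega
  rw [← Finset.sum_image (f := G) (g := fun n => (n - 1) / k) (s := A)
    (fun a ha b hb hab => hinj ha hb hab)]
  refine Finset.sum_le_sum_of_subset_of_nonneg ?_ (fun m _ _ => hG0 m)
  intro m hm
  obtain ⟨n, hn, rfl⟩ := Finset.mem_image.mp hm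
  have h5 := hdecomp n hn
  refine Finset.mem_Ico.mpr ⟨h5.2.1, h5.2.2.trans Nat.lt_two_pow_self⟩

lemma prime_part_bound (K M : ℕ) (hK : 3 ≤ K) (δ : ℝ) (hδ : 0 < δ) :
    ∑ k ∈ Finset.Ioc (K / 2) K, (k : ℝ) * ∑ n ∈ Finset.range M,
      (if n.Prime then residueClass (1 : ZMod k) n else 0) / (n : ℝ) ^ (1 + δ) ≤
    ∑ J ∈ Finset.range M, FF K J * ww K δ J := by
  have h1 : ∀ k ∈ Finset.Ioc (K / 2) K, (k : ℝ) * ∑ n ∈ Finset.range M,
      (if n.Prime then residueClass (1 : ZMod k) n else 0) / (n : ℝ) ^ (1 + δ) ≤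
      ∑ J ∈ Finset.range M, ∑ m ∈ blk J, (if (k * m + 1).Prime then (1 : ℝ) else 0) * ww K δ J := by
    intro k hk
    have hk' := Finset.mem_Ioc.mp hk
    have hk2 : 2 ≤ k := by omega
    refine (mul_le_mul_of_nonneg_left (one_k_bound k M hk2 δ) (Nat.cast_nonneg k)).trans ?_
    rw [sum_Ico_blk, Finset.mul_sum]
    refine Finset.sum_le_sum fun J _ => ?_
    rw [Finset.mul_sum]
    refine Finset.sum_le_sum fun m hm => ?_
    by_cases hp : (k * m + 1).Prime
    · simp only [hp, if_true, one_mul]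
      exact term_le K k J m δ hδ (by omega) hk'.2 hm
    · simp [hp]
  refine (Finset.sum_le_sum h1).trans (le_of_eq ?_)
  rw [Finset.sum_comm]
  refine Finset.sum_congr rfl fun J _ => ?_
  rw [FF_eq, Finset.sum_mul]
  refine Finset.sum_congr rfl fun k _ => ?_
  rw [Finset.sum_mul]

/-- the nonprime part of `Λ(n)/n`. -/
noncomputable def hnp (n : ℕ) : ℝ :=
  (if n.Prime then 0 else residueClass (1 : ZMod 1) n) / n

lemma hnp_nonneg (n : ℕ) : 0 ≤ hnp n := by
  unfold hnp
  have := residueClass_nonneg (1 : ZMod 1) n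
  split_ifs <;> positivity

lemma hnp_summable : Summable hnp := summable_residueClass_non_primes_div (1 : ZMod 1)

lemma nonprime_part_bound (k N M : ℕ) (hk : 2 ≤ k) (hN : N < k) (δ : ℝ) (hδ : 0 < δ) :
    ∑ n ∈ Finset.range M,
      (if n.Prime then 0 else residueClass (1 : ZMod k) n) / (n : ℝ) ^ (1 + δ) ≤
    ∑' n : ℕ, hnp (n + N) := by
  set f : ℕ → ℝ := fun n =>
    (if n.Prime then 0 else residueClass (1 : ZMod k) n) / (n : ℝ) ^ (1 + δ) with hf
  have hf0 : ∀ n, 0 ≤ f n := by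
    intro n
    have := residueClass_nonneg (1 : ZMod k) n
    rw [hf]
    dsimp only
    split_ifs <;> positivity
  have hfz : ∀ n, n < k → f n = 0 := by
    intro n hn
    rw [hf]
    dsimp only
    have : residueClass (1 : ZMod k) n = 0 := by
      unfold residueClass
      by_cases hc : (n : ZMod k) = 1
      · have h1 : (n : ZMod k) = ((1 : ℕ) : ZMod k) := by rw [hc]; simp
        rw [ZMod.natCast_eq_natCast_iff] at h1
        have h2 : n = 1 := Nat.ModEq.eq_of_lt_of_lt h1 hn (by omega)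
        subst h2
        simp
      · simp [hc]
    rw [this]
    simp
  have hfh : ∀ n, f n ≤ hnp n := by
    intro n
    rw [hf]
    unfold hnp
    dsimp only
    have h1 : residueClass (1 : ZMod k) n ≤ residueClass (1 : ZMod 1) n := by
      have h3 : residueClass (1 : ZMod 1) n = vonMangoldt n := by
        have : (n : ZMod 1) = 1 := Subsingleton.elim _ _
        simp [residueClass, this]
      rw [h3]
      exact residueClass_le _ n
    have h0 := residueClass_nonneg (1 : ZMod k) n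
    rcases Nat.eq_zero_or_pos n with rfl | hn
    · simp
    · have hnR : (1 : ℝ) ≤ n := by exact_mod_cast hn
      have h2 : (n : ℝ) ≤ (n : ℝ) ^ (1 + δ) := by
        conv_lhs => rw [← Real.rpow_one (n : ℝ)]
        exact Real.rpow_le_rpow_of_exponent_le hnR (by linarith)
      split_ifs
      · simp
      · gcongr
        exact h0.trans h1
  calc ∑ n ∈ Finset.range M, f n ≤ ∑ n ∈ Finset.range (N + M), f n :=
        Finset.sum_le_sum_of_subset_of_nonneg
          (fun a ha => Finset.mem_range.mpr (by have := Finset.mem_range.mp ha; omega))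
          (fun n _ _ => hf0 n)
    _ = ∑ n ∈ Finset.range N, f n + ∑ n ∈ Finset.range M, f (N + n) :=
        Finset.sum_range_add _ _ _
    _ = ∑ n ∈ Finset.range M, f (N + n) := by
        rw [Finset.sum_eq_zero (fun n hn => hfz n (by have := Finset.mem_range.mp hn; omega)),
          zero_add]
    _ ≤ ∑ n ∈ Finset.range M, hnp (n + N) := by
        refine Finset.sum_le_sum fun n _ => ?_
        rw [add_comm n N]
        exact hfh _
    _ ≤ ∑' n : ℕ, hnp (n + N) :=
        Summable.sum_le_tsum _ (fun n _ => hnp_nonneg _)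
          ((summable_nat_add_iff N).mpr hnp_summable)

/-- lower bound for finite partial sums. -/
lemma lower_bound (hU : UniformMertens) : ∃ K₀ : ℕ, ∀ K ≥ K₀, ∀ δ : ℝ, 0 < δ → δ ≤ 1 / K →
    ∀ B : ℝ, (∀ M : ℕ, ∑ J ∈ Finset.range M, FF K J * ww K δ J ≤ B) →
    K / (8 * δ) ≤ B + K * K * ∑' n : ℕ, hnp (n + K / 2) := by
  obtain ⟨K₀, hU⟩ := hU
  refine ⟨max K₀ 4, fun K hK δ hδ hδK B hB => ?_⟩
  have hK3 : 4 ≤ K := (le_max_right _ _).trans hK
  have hKpos : (0 : ℝ) < K := by exact_mod_cast (by omega : 0 < K)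
  obtain ⟨S, hS1, hS2, hS3⟩ := hU K ((le_max_left _ _).trans hK) δ hδ hδK
  set tail := ∑' n : ℕ, hnp (n + K / 2) with htail
  have htail0 : 0 ≤ tail := tsum_nonneg fun n => hnp_nonneg _
  set f : ℕ → ℕ → ℝ := fun k n => residueClass (1 : ZMod k) n / (n : ℝ) ^ (1 + δ) with hf
  have hkpos : ∀ k ∈ S, (0 : ℝ) < k := fun k hk => by
    have := (Finset.mem_Ioc.mp (hS1 hk)).1
    exact_mod_cast (by omega : 0 < k)
  have hsum : ∀ k ∈ S, Summable (f k) := by
    intro k hk
    by_contra hcon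
    have h1 := hS3 k hk
    rw [tsum_eq_zero_of_not_summable hcon] at h1
    have h2 := hkpos k hk
    have : 0 < 1 / (2 * δ * k) := by positivity
    linarith
  have htend : Filter.Tendsto (fun M : ℕ => ∑ k ∈ S, (k : ℝ) * ∑ n ∈ Finset.range M, f k n)
      Filter.atTop (nhds (∑ k ∈ S, (k : ℝ) * ∑' n, f k n)) := by
    refine tendsto_finsetSum _ fun k hk => ?_
    exact (hsum k hk).hasSum.tendsto_sum_nat.const_mul _
  have hbound : ∀ M : ℕ, ∑ k ∈ S, (k : ℝ) * ∑ n ∈ Finset.range M, f k n ≤ B + K * K * tail := by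
    intro M
    have h1 : ∀ k ∈ S, (k : ℝ) * ∑ n ∈ Finset.range M, f k n ≤
        (k : ℝ) * ∑ n ∈ Finset.range M,
          (if n.Prime then residueClass (1 : ZMod k) n else 0) / (n : ℝ) ^ (1 + δ) +
        K * tail := by
      intro k hk
      have hk' := Finset.mem_Ioc.mp (hS1 hk)
      have h2 : ∑ n ∈ Finset.range M, f k n = ∑ n ∈ Finset.range M,
          (if n.Prime then residueClass (1 : ZMod k) n else 0) / (n : ℝ) ^ (1 + δ) +
          ∑ n ∈ Finset.range M,
          (if n.Prime then 0 else residueClass (1 : ZMod k) n) / (n : ℝ) ^ (1 + δ) := by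
        rw [← Finset.sum_add_distrib]
        refine Finset.sum_congr rfl fun n _ => ?_
        rw [hf]
        dsimp only
        split_ifs <;> simp
      rw [h2, mul_add]
      have h3 := nonprime_part_bound k (K / 2) M (by omega) hk'.1 δ hδ
      have h4 : (k : ℝ) ≤ K := by exact_mod_cast hk'.2
      have h5 : (0 : ℝ) ≤ k := Nat.cast_nonneg k
      have h6 : (k : ℝ) * ∑ n ∈ Finset.range M,
          (if n.Prime then 0 else residueClass (1 : ZMod k) n) / (n : ℝ) ^ (1 + δ) ≤ K * tail :=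
        (mul_le_mul_of_nonneg_left h3 h5).trans (mul_le_mul_of_nonneg_right h4 htail0)
      linarith
    refine (Finset.sum_le_sum h1).trans ?_
    rw [Finset.sum_add_distrib]
    have h2 : ∑ k ∈ S, (k : ℝ) * ∑ n ∈ Finset.range M,
          (if n.Prime then residueClass (1 : ZMod k) n else 0) / (n : ℝ) ^ (1 + δ) ≤ B := by
      refine le_trans ?_ ((prime_part_bound K M (by omega) δ hδ).trans (hB M))
      refine Finset.sum_le_sum_of_subset_of_nonneg hS1 (fun k _ _ => ?_)
      refine mul_nonneg (Nat.cast_nonneg k) (Finset.sum_nonneg fun n _ => ?_)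
      have := residueClass_nonneg (1 : ZMod k) n
      split_ifs <;> positivity
    have h3 : ∑ _k ∈ S, (K : ℝ) * tail ≤ K * K * tail := by
      rw [Finset.sum_const, nsmul_eq_mul, mul_assoc]
      have hc : S.card ≤ K := by
        calc S.card ≤ (Finset.Ioc (K / 2) K).card := Finset.card_le_card hS1
          _ = K - K / 2 := Nat.card_Ioc _ _
          _ ≤ K := Nat.sub_le _ _
      have hc' : (S.card : ℝ) ≤ K := by exact_mod_cast hc
      have : 0 ≤ (K : ℝ) * tail := by positivity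
      exact mul_le_mul_of_nonneg_right hc' this
    linarith
  have hlim := le_of_tendsto' htend hbound
  refine le_trans ?_ hlim
  have h1 : ∀ k ∈ S, 1 / (2 * δ) ≤ (k : ℝ) * ∑' n, f k n := by
    intro k hk
    have h2 := mul_le_mul_of_nonneg_left (hS3 k hk) (hkpos k hk).le
    refine le_trans (le_of_eq ?_) h2
    have := hkpos k hk
    field_simp
  calc (K : ℝ) / (8 * δ) = (K / 4) * (1 / (2 * δ)) := by ring
    _ ≤ S.card * (1 / (2 * δ)) := by gcongr
    _ = ∑ k ∈ S, 1 / (2 * δ) := by rw [Finset.sum_const, nsmul_eq_mul]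
    _ ≤ _ := Finset.sum_le_sum h1

lemma geom_tail (M : ℕ) (δ Θ : ℝ) (hδ : 0 < δ) (hδ1 : δ ≤ 1) :
    ∑ J ∈ (Finset.range M).filter (fun J : ℕ => Θ / δ < J), ((1 / 2 : ℝ) ^ δ) ^ J ≤
      (1 / 2 : ℝ) ^ Θ * (2 / δ) := by
  set r : ℝ := (1 / 2 : ℝ) ^ δ with hr
  have hr0 : 0 < r := Real.rpow_pos_of_pos (by norm_num) _
  have hr1 : r ≤ 1 - δ / 2 := by
    have := _root_.rpow_one_add_le_one_add_mul_self (s := -(1 / 2 : ℝ)) (by norm_num)
      (p := δ) hδ.le hδ1
    rw [hr]
    have h2 : (1 : ℝ) + -(1 / 2) = 1 / 2 := by norm_num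
    rw [h2] at this
    linarith
  have hr1' : r < 1 := by linarith
  set J₁ := ⌈Θ / δ⌉₊ with hJ₁
  have hJ1 : Θ / δ ≤ J₁ := Nat.le_ceil _
  have hrJ : r ^ J₁ ≤ (1 / 2 : ℝ) ^ Θ := by
    rw [hr, ← Real.rpow_natCast, ← Real.rpow_mul (by norm_num)]
    apply Real.rpow_le_rpow_of_exponent_ge (by norm_num) (by norm_num)
    rw [div_le_iff₀ hδ] at hJ1
    linarith
  calc ∑ J ∈ (Finset.range M).filter (fun J : ℕ => Θ / δ < J), r ^ J
      ≤ ∑ J ∈ Finset.Ico J₁ (J₁ + M), r ^ J := by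
        refine Finset.sum_le_sum_of_subset_of_nonneg ?_ (fun J _ _ => by positivity)
        intro J hJ
        obtain ⟨h1, h2⟩ := Finset.mem_filter.mp hJ
        have h3 := Finset.mem_range.mp h1
        have h4 : J₁ ≤ J := Nat.ceil_le.mpr h2.le
        exact Finset.mem_Ico.mpr ⟨h4, by omega⟩
    _ = r ^ J₁ * ∑ J ∈ Finset.range M, r ^ J := by
        rw [Finset.sum_Ico_eq_sum_range, Finset.mul_sum]
        simp only [Nat.add_sub_cancel_left, pow_add]
    _ ≤ r ^ J₁ * (1 / (1 - r)) := by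
        gcongr
        rw [one_div, ← tsum_geometric_of_lt_one hr0.le hr1']
        exact (summable_geometric_of_lt_one hr0.le hr1').sum_le_tsum _ (fun J _ => by positivity)
    _ ≤ (1 / 2 : ℝ) ^ Θ * (2 / δ) := by
        have h5 : 1 / (1 - r) ≤ 2 / δ := by
          rw [div_le_div_iff₀ (by linarith) hδ]
          linarith
        have h6 : 0 ≤ 1 / (1 - r) := by
          apply div_nonneg zero_le_one; linarith
        gcongr

theorem manyPrimes_aux (hU : UniformMertens) (h2 : SieveOne) (h3 : AvgTotient) : ManyPrimes := by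
  obtain ⟨C, hC, hF⟩ := FF_bound h2 h3
  obtain ⟨K₀, hlb⟩ := lower_bound hU
  obtain ⟨n₀, hn₀⟩ := pow_unbounded_of_one_lt (600 * C) (one_lt_two (α := ℝ))
  set θ : ℝ := 1 / (300 * C) with hθ
  set Θ : ℝ := (n₀ : ℝ) + 1 with hΘ
  set c : ℝ := 1 / (300 * Θ) with hc
  have hθ0 : 0 < θ := by positivity
  have hΘ0 : 0 < Θ := by positivity
  have hc0 : 0 < c := by positivity
  refine ⟨c, θ, Θ, hc0, hθ0, hΘ0, fun κ hκ0 hκ1 => ?_⟩
  -- eventual conditions
  have hlogK : Filter.Tendsto (fun K : ℕ => Real.log K / K) Filter.atTop (nhds 0) := by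
    have := (Real.isLittleO_log_id_atTop.tendsto_div_nhds_zero).comp
      (tendsto_natCast_atTop_atTop (R := ℝ))
    exact this
  have hlogK2 : Filter.Tendsto (fun K : ℕ => Real.log K * Real.log K / K) Filter.atTop
      (nhds 0) := by
    have h1 := ((isLittleO_log_rpow_atTop (show (0 : ℝ) < 1 / 2 by norm_num)).tendsto_div_nhds_zero).comp
      (tendsto_natCast_atTop_atTop (R := ℝ))
    have h2 := h1.mul h1
    rw [mul_zero] at h2
    refine h2.congr' ?_
    filter_upwards [Filter.eventually_gt_atTop 0] with K hK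
    have hKR : (0 : ℝ) < K := by exact_mod_cast hK
    simp only [Function.comp_apply]
    rw [div_mul_div_comm, ← Real.rpow_add hKR]
    norm_num
  have hev1 : ∀ᶠ K : ℕ in Filter.atTop, Real.log K / K ≤ θ :=
    hlogK.eventually_le_const hθ0
  have hev2 : ∀ᶠ K : ℕ in Filter.atTop,
      (1 + Real.log K) / K + C * (Real.log K * (Real.log K + 1)) / K + (3 * C + 3 * c) / K
        ≤ 1 / 200 := by
    have h1 : Filter.Tendsto (fun K : ℕ =>
      (1 + Real.log K) / K + C * (Real.log K * (Real.log K + 1)) / K + (3 * C + 3 * c) / K)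
        Filter.atTop (nhds 0) := by
      have h4 : Filter.Tendsto (fun K : ℕ => (1 : ℝ) / K) Filter.atTop (nhds 0) :=
        tendsto_one_div_atTop_nhds_zero_nat
      have h5 := ((h4.add hlogK).add ((hlogK2.add hlogK).const_mul C)).add
        (h4.const_mul (3 * C + 3 * c))
      simp only [add_zero, mul_zero] at h5
      refine h5.congr fun K => ?_
      ring
    exact h1.eventually_le_const (by norm_num)
  have hev3 : ∀ᶠ K : ℕ in Filter.atTop, ∑' n : ℕ, hnp (n + K / 2) ≤ 1 / 200 := by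
    have h1 : Filter.Tendsto (fun N : ℕ => ∑' n : ℕ, hnp (n + N)) Filter.atTop (nhds 0) :=
      tendsto_sum_nat_add hnp
    have h2 : Filter.Tendsto (fun K : ℕ => K / 2) Filter.atTop Filter.atTop :=
      Filter.tendsto_atTop_atTop.mpr fun b => ⟨2 * b, fun a ha => by omega⟩
    exact (h1.comp h2).eventually_le_const (by norm_num)
  obtain ⟨K₁, hK₁⟩ := Filter.eventually_atTop.mp (hev1.and (hev2.and hev3))
  refine ⟨max (max K₀ K₁) 1, fun K hK => ?_⟩
  have hKK₀ : K₀ ≤ K := (le_max_left _ _).trans ((le_max_left _ _).trans hK)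
  have hKK₁ : K₁ ≤ K := (le_max_right _ _).trans ((le_max_left _ _).trans hK)
  have hK1 : 1 ≤ K := (le_max_right _ _).trans hK
  obtain ⟨he1, he2, he3⟩ := hK₁ K hKK₁
  have hKR1 : (1 : ℝ) ≤ K := by exact_mod_cast hK1
  have hKR : (0 : ℝ) < K := by linarith
  set L : ℝ := Real.log K with hL
  have hL0 : 0 ≤ L := Real.log_nonneg hKR1
  set δ : ℝ := κ / K with hδ
  have hδ0 : 0 < δ := by positivity
  have hδK : δ ≤ 1 / K := by rw [hδ]; gcongr
  have hδ1 : δ ≤ 1 := hδK.trans (by rw [div_le_one hKR]; exact hKR1)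
  have hinv : (K : ℝ) ≤ 1 / δ := by
    rw [le_div_iff₀ hδ0]
    rw [le_div_iff₀ hKR] at hδK
    linarith
  have hθeq : θ * K / κ = θ / δ := by rw [hδ]; field_simp
  have hΘeq : Θ * K / κ = Θ / δ := by rw [hδ]; field_simp
  rw [hθeq, hΘeq]
  by_contra hcon
  push Not at hcon
  have hcon' : ∀ J : ℕ, θ / δ ≤ J → (J : ℝ) ≤ Θ / δ → FF K J ≤ c * K * 2 ^ J / J :=
    fun J h4 h5 => (hcon J h4 h5).le
  have hLθ : L ≤ θ / δ := by
    rw [div_le_iff₀ hKR] at he1
    calc L ≤ θ * K := he1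
      _ ≤ θ * (1 / δ) := by gcongr
      _ = θ / δ := by ring
  set r : ℝ := (1 / 2 : ℝ) ^ δ with hr
  have hr0 : 0 < r := Real.rpow_pos_of_pos (by norm_num) _
  have hr1 : r ≤ 1 := Real.rpow_le_one (by norm_num) (by norm_num) hδ0.le
  -- the pointwise bound
  have key : ∀ J : ℕ, FF K J * ww K δ J ≤
      (if J = 0 then K * (1 + L) else 0) +
      ((if (J : ℝ) < L then C * K * L else 0) +
      (3 * K * C * (if (J : ℝ) < θ / δ then 1 else 0) +
      3 * K * c * (if (J : ℝ) ≤ Θ / δ then 1 else 0) +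
      3 * K * C * (if Θ / δ < (J : ℝ) then r ^ J else 0))) := by
    intro J
    have hrJ0 : 0 ≤ r ^ J := by positivity
    have hrJ1 : r ^ J ≤ 1 := pow_le_one₀ hr0.le hr1
    have h7 : (0 : ℝ) ≤ (if (J : ℝ) < L then C * K * L else 0) := by
      split_ifs <;> positivity
    have h8 : (0 : ℝ) ≤ 3 * K * C * (if (J : ℝ) < θ / δ then 1 else 0) := by
      split_ifs <;> positivity
    have h9 : (0 : ℝ) ≤ 3 * K * c * (if (J : ℝ) ≤ Θ / δ then 1 else 0) := by
      split_ifs <;> positivity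
    have h10 : (0 : ℝ) ≤ 3 * K * C * (if Θ / δ < (J : ℝ) then r ^ J else 0) := by
      split_ifs <;> positivity
    rcases Nat.eq_zero_or_pos J with rfl | hJ
    · have h4 := FF_zero_le K
      have h5 : ww K δ 0 = 1 + L := by unfold ww; simp [hL]
      rw [h5]
      have h6 : FF K 0 * (1 + L) ≤ K * (1 + L) := by gcongr
      rw [if_pos rfl]
      exact le_add_of_le_of_nonneg h6 (add_nonneg h7 (add_nonneg (add_nonneg h8 h9) h10))
    · have hJR : (1 : ℝ) ≤ J := by exact_mod_cast hJ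
      have hJR0 : (0 : ℝ) < J := by linarith
      rw [if_neg hJ.ne', zero_add]
      -- general estimate: FF ≤ D K 2^J / J gives FF * ww ≤ D K (2 + L / J) r^J
      have gen : ∀ D : ℝ, 0 ≤ D → FF K J ≤ D * K * 2 ^ J / J →
          FF K J * ww K δ J ≤ D * K * ((2 + L / J) * r ^ J) := by
        intro D hD hFD
        have hw := ww_nonneg K hK1 δ J
        calc FF K J * ww K δ J ≤ (D * K * 2 ^ J / J) * ww K δ J := by gcongr
          _ = D * K * (((J + 1 + L) / J) * r ^ J) := by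
              have h20 : ww K δ J = (J + 1 + L) * (1 / 2 ^ J) * r ^ J := by
                unfold ww
                rw [one_div_pow]
              rw [h20]
              field_simp
          _ ≤ D * K * ((2 + L / J) * r ^ J) := by
              have h4 : (J + 1 + L) / J ≤ 2 + L / J := by
                rw [add_div, add_div, div_self hJR0.ne']
                have : 1 / (J : ℝ) ≤ 1 := by rw [div_le_one hJR0]; exact hJR
                linarith
              gcongr
      have hLJ : ¬ ((J : ℝ) < L) → L / J ≤ 1 := by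
        intro h4
        rw [div_le_one hJR0]
        exact not_lt.mp h4
      have hLJ2 : L / J ≤ L := div_le_self hL0 hJR
      have hgC := gen C hC.le (hF K J hJ)
      by_cases hA : (J : ℝ) < θ / δ
      · -- first range
        rw [if_pos hA]
        have h11 : FF K J * ww K δ J ≤ C * K * (2 + L / J) := by
          refine hgC.trans ?_
          have h12 : 0 ≤ 2 + L / J := by positivity
          have : (2 + L / J) * r ^ J ≤ (2 + L / J) * 1 := by gcongr
          rw [mul_one] at this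
          gcongr
        by_cases hB : (J : ℝ) < L
        · rw [if_pos hB]
          have : C * K * (2 + L / J) ≤ C * K * (2 + L) := by gcongr
          have h13 : 0 ≤ C * K := by positivity
          linarith
        · rw [if_neg hB]
          have h14 := hLJ hB
          have : C * K * (2 + L / J) ≤ C * K * (2 + 1) := by gcongr
          have h13 : 0 ≤ C * K := by positivity
          linarith
      · rw [if_neg hA]
        have hB : ¬ ((J : ℝ) < L) := fun h => hA (lt_of_lt_of_le h hLθ)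
        rw [if_neg hB]
        have h14 := hLJ hB
        by_cases hE : (J : ℝ) ≤ Θ / δ
        · rw [if_pos hE]
          have hE' : ¬ (Θ / δ < (J : ℝ)) := not_lt.mpr hE
          rw [if_neg hE']
          have hgc := gen c hc0.le (hcon' J (not_lt.mp hA) hE)
          refine hgc.trans ?_
          have h12 : 0 ≤ 2 + L / J := by positivity
          have : (2 + L / J) * r ^ J ≤ 3 * 1 := by
            have : 2 + L / J ≤ 3 := by linarith
            gcongr
          have h15 : c * K * ((2 + L / J) * r ^ J) ≤ c * K * (3 * 1) := by gcongr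
          linarith
        · rw [if_neg hE]
          have hE' : Θ / δ < (J : ℝ) := not_le.mp hE
          rw [if_pos hE']
          refine hgC.trans ?_
          have h15 : C * K * ((2 + L / J) * r ^ J) ≤ C * K * ((2 + 1) * r ^ J) := by gcongr
          linarith
  -- sum up
  have hsum : ∀ M : ℕ, ∑ J ∈ Finset.range M, FF K J * ww K δ J ≤
      K * (1 + L) + (C * K * L * (L + 1) + (3 * K * C * (θ / δ + 1) + 3 * K * c * (Θ / δ + 1) +
        3 * K * C * ((1 / 2 : ℝ) ^ Θ * (2 / δ)))) := by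
    intro M
    refine (Finset.sum_le_sum fun J _ => key J).trans ?_
    have hcount : ∀ X : ℝ, 0 ≤ X → ∀ P : ℕ → Prop, (∀ J, P J → (J : ℝ) ≤ X) →
        (((Finset.range M).filter P).card : ℝ) ≤ X + 1 := by
      intro X hX P hP
      have h4 : (Finset.range M).filter P ⊆ Finset.range (⌊X⌋₊ + 1) := by
        intro J hJ
        have h5 := hP J (Finset.mem_filter.mp hJ).2
        have : J ≤ ⌊X⌋₊ := Nat.le_floor h5
        exact Finset.mem_range.mpr (by omega)
      have h6 := Finset.card_le_card h4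
      rw [Finset.card_range] at h6
      have h7 : (((Finset.range M).filter P).card : ℝ) ≤ (⌊X⌋₊ : ℝ) + 1 := by exact_mod_cast h6
      have h8 := Nat.floor_le hX
      linarith
    rw [Finset.sum_add_distrib, Finset.sum_add_distrib, Finset.sum_add_distrib,
      Finset.sum_add_distrib, ← Finset.mul_sum, ← Finset.mul_sum, ← Finset.mul_sum]
    have t1 : ∑ J ∈ Finset.range M, (if J = 0 then K * (1 + L) else 0) ≤ K * (1 + L) := by
      rw [Finset.sum_ite_eq' (Finset.range M) 0 (fun _ => K * (1 + L))]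
      split_ifs
      · exact le_refl _
      · positivity
    have t2 : ∑ J ∈ Finset.range M, (if (J : ℝ) < L then C * K * L else 0) ≤
        C * K * L * (L + 1) := by
      rw [← Finset.sum_filter, Finset.sum_const, nsmul_eq_mul, mul_comm]
      have := hcount L hL0 (fun J => (J : ℝ) < L) (fun J h => h.le)
      gcongr
    have t3 : ∑ J ∈ Finset.range M, (if (J : ℝ) < θ / δ then (1 : ℝ) else 0) ≤ θ / δ + 1 := by
      rw [← Finset.sum_filter, Finset.sum_const, nsmul_eq_mul, mul_one]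
      exact hcount (θ / δ) (by positivity) (fun J => (J : ℝ) < θ / δ) (fun J h => h.le)
    have t4 : ∑ J ∈ Finset.range M, (if (J : ℝ) ≤ Θ / δ then (1 : ℝ) else 0) ≤ Θ / δ + 1 := by
      rw [← Finset.sum_filter, Finset.sum_const, nsmul_eq_mul, mul_one]
      exact hcount (Θ / δ) (by positivity) (fun J => (J : ℝ) ≤ Θ / δ) (fun J h => h)
    have t5 : ∑ J ∈ Finset.range M, (if Θ / δ < (J : ℝ) then r ^ J else 0) ≤
        (1 / 2 : ℝ) ^ Θ * (2 / δ) := by
      rw [← Finset.sum_filter]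
      exact geom_tail M δ Θ hδ0 hδ1
    have hKC : 0 ≤ 3 * (K : ℝ) * C := by positivity
    have hKc : 0 ≤ 3 * (K : ℝ) * c := by positivity
    have u3 := mul_le_mul_of_nonneg_left t3 hKC
    have u4 := mul_le_mul_of_nonneg_left t4 hKc
    have u5 := mul_le_mul_of_nonneg_left t5 hKC
    linarith
  have hfin := hlb K hKK₀ δ hδ0 hδK _ hsum
  -- final numerics
  have hΘpow : (1 / 2 : ℝ) ^ Θ ≤ 1 / (600 * C) := by
    have h4 : (1 / 2 : ℝ) ^ Θ ≤ (1 / 2 : ℝ) ^ (n₀ : ℝ) := by
      apply Real.rpow_le_rpow_of_exponent_ge (by norm_num) (by norm_num)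
      rw [hΘ]; linarith
    rw [Real.rpow_natCast, one_div_pow] at h4
    refine h4.trans ?_
    apply one_div_le_one_div_of_le (by positivity) hn₀.le
  have hKδ : 0 < K / δ := by positivity
  have e1 : 3 * K * C * (θ / δ) = (1 / 100) * (K / δ) := by
    rw [hθ]; field_simp; norm_num
  have e2 : 3 * K * c * (Θ / δ) = (1 / 100) * (K / δ) := by
    rw [hc]; field_simp; norm_num
  have e3 : 3 * K * C * ((1 / 2 : ℝ) ^ Θ * (2 / δ)) ≤ (1 / 100) * (K / δ) := by
    calc 3 * K * C * ((1 / 2 : ℝ) ^ Θ * (2 / δ)) ≤ 3 * K * C * (1 / (600 * C) * (2 / δ)) := by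
          gcongr
      _ = (1 / 100) * (K / δ) := by field_simp; norm_num
  have e4 : K * K * ∑' n : ℕ, hnp (n + K / 2) ≤ (1 / 200) * (K / δ) := by
    calc (K : ℝ) * K * ∑' n : ℕ, hnp (n + K / 2) ≤ K * K * (1 / 200) := by gcongr
      _ ≤ K * (1 / δ) * (1 / 200) := by gcongr
      _ = (1 / 200) * (K / δ) := by ring
  have e5 : K * (1 + L) + C * K * L * (L + 1) + 3 * K * C + 3 * K * c ≤ (1 / 200) * (K / δ) := by
    have h4 : (1 + L) + C * (L * (L + 1)) + (3 * C + 3 * c) ≤ 1 / 200 * K := by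
      have h5 := mul_le_mul_of_nonneg_right he2 hKR.le
      have h6 : ((1 + L) / K + C * (L * (L + 1)) / K + (3 * C + 3 * c) / K) * K =
          (1 + L) + C * (L * (L + 1)) + (3 * C + 3 * c) := by field_simp
      rw [h6] at h5
      exact h5
    calc K * (1 + L) + C * K * L * (L + 1) + 3 * K * C + 3 * K * c
        = K * ((1 + L) + C * (L * (L + 1)) + (3 * C + 3 * c)) := by ring
      _ ≤ K * (1 / 200 * K) := by gcongr
      _ ≤ K * (1 / 200 * (1 / δ)) := by gcongr
      _ = (1 / 200) * (K / δ) := by ring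
  have e6 : (K : ℝ) / (8 * δ) = (1 / 8) * (K / δ) := by ring
  rw [e6] at hfin
  linarith

end partTwo

end TH

/-- (F0) from (F2) and (F4). -/
theorem uniformMertens (hG : GoodModuli) (hL : LogDerivSum) : UniformMertens :=
  TH.uniformMertens_aux hG hL

/-- (F) from (F0), (L1) and (M2). -/
theorem manyPrimes (hU : UniformMertens) (h2 : SieveOne) (h3 : AvgTotient) : ManyPrimes :=
  TH.manyPrimes_aux hU h2 h3

end Pool.Agent.PnMn
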