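import Mathlib
import Pool.Agent.PnMn.Defs
import Pool.Agent.PnMn.Final4
import Pool.Agent.PnMn.CharBounds
import Pool.Agent.PnMn.GoodModuli
import Pool.Agent.PnMn.LogDerivSum
import Pool.Agent.PnMn.TH
import Pool.Agent.PnMn.GeneralSieve
import Pool.Agent.PnMn.SieveCor
import Pool.Agent.PnMn.SumInv
import Pool.Agent.PnMn.AvgTot
import Pool.Agent.PnMn.Rankin
import Pool.Agent.PnMn.Atypical
import Pool.Agent.PnMn.Deduce

set_option autoImplicit false

namespace Pool.Agent.PnMn

theorem sieveOne : SieveOne := SieveCor.sieveOne generalSieve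

theorem manyPrimes' : ManyPrimes :=
  manyPrimes (uniformMertens (goodModuli charBounds) (logDerivSum charBounds)) sieveOne avgTotient

/-- All parts put together. -/
theorem finalDensity_holds : FinalDensity :=
  finalDensity manyPrimes' sieveOne (SieveCor.sieveTwo generalSieve) avgTotient
    (atypical sieveOne sumInvPrimes avgTotient) (smoothLe sumInvPrimes)

end Pool.Agent.PnMn
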